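import Mathlib

/-!
# Carnot groups in exponential coordinates, and the Dirichlet problem

Definitions used in the statements of the results on `MP_a956f7_an`.
-/

namespace Pool.Agent.Carnot

open MeasureTheory Set Filter Topology
open scoped ContDiff ENNReal

/-- The space `ℝ^N` with its Euclidean norm. -/
abbrev E (N : ℕ) : Type := EuclideanSpace ℝ (Fin N)

/-- The dilation `δ_r` of `ℝ^N` with weights `w`: it multiplies the `i`-th coordinate by
`r ^ w i`. -/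
noncomputable def dil {N : ℕ} (w : Fin N → ℕ) (r : ℝ) (x : E N) : E N :=
  WithLp.toLp 2 (fun i => r ^ (w i) * x i)

/-- A Carnot group of dimension `N`, written on `ℝ^N` in exponential coordinates (of the first
kind) with respect to a basis adapted to the stratification: `weight i = j` says that the `i`-th
basis vector lies in the `j`-th layer `V_j`. The group law is smooth and associative; the
one-parameter subgroups are the lines through the origin, so that `0` is the neutral element,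
`-x` is the inverse of `x` and the exponential map is the identity; the dilations are
automorphisms; and the first layer generates the group. -/
structure CarnotGroup (N : ℕ) where
  /-- the layer of the `i`-th coordinate -/
  weight : Fin N → ℕ
  weight_pos : ∀ i, 1 ≤ weight i
  /-- the group law -/
  mul : E N → E N → E N
  contDiff_mul : ContDiff ℝ ∞ (fun q : E N × E N => mul q.1 q.2)
  mul_assoc : ∀ x y z, mul (mul x y) z = mul x (mul y z)
  mul_smul_smul : ∀ (s t : ℝ) (x : E N), mul (s • x) (t • x) = (s + t) • x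
  dil_mul : ∀ r : ℝ, 0 < r → ∀ x y, dil weight r (mul x y) = mul (dil weight r x) (dil weight r y)
  generated : ∀ x : E N, ∃ l : List (E N),
    (∀ v ∈ l, ∀ i, weight i ≠ 1 → v i = 0) ∧ l.foldr mul 0 = x

namespace CarnotGroup

variable {N : ℕ} (G : CarnotGroup N)

/-- The indices of the first layer `V_1`. -/
abbrev HIdx : Type := {i : Fin N // G.weight i = 1}

/-- The space `ℝ^m`, `m = dim V_1`, in which horizontal gradients take their values. -/
abbrev H : Type := EuclideanSpace ℝ G.HIdx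

/-- The left-invariant horizontal derivative `X_i ψ`, for the `i`-th basis vector of `V_1`,
of a function `ψ` which is given in the coordinates `Ψ` of `G`:
`(X_i ψ)(y) = d/dt ψ(Ψ(g * exp(t e_i)))` at `t = 0`, where `g = Ψ⁻¹(y)`. -/
noncomputable def X (Ψ : E N ≃ E N) (i : G.HIdx) (ψ : E N → ℝ) (y : E N) : ℝ :=
  deriv (fun t : ℝ => ψ (Ψ (G.mul (Ψ.symm y) (t • EuclideanSpace.single i.1 (1 : ℝ))))) 0

/-- The horizontal gradient `∇₀ψ = (X_1 ψ, …, X_m ψ)` in the coordinates `Ψ`. -/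
noncomputable def hgrad (Ψ : E N ≃ E N) (ψ : E N → ℝ) (y : E N) : G.H :=
  WithLp.toLp 2 (fun i => G.X Ψ i ψ y)

end CarnotGroup

/-- `ψ ∈ C_c^∞(Ω)`. -/
structure IsTest {N : ℕ} (Ω : Set (E N)) (ψ : E N → ℝ) : Prop where
  smooth : ContDiff ℝ ∞ ψ
  compact : HasCompactSupport ψ
  support : tsupport ψ ⊆ Ω

/-- Bounded uniformly convex domain: a nonempty bounded open convex set `Ω` such that, for some
`c > 0`, at every boundary point `x₀` there is a unit vector `ν` with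
`c |x - x₀|² ≤ ⟨ν, x₀ - x⟩` for all `x ∈ closure Ω` (equivalently, `Ω` lies in a ball of radius
`1/(2c)` whose boundary passes through `x₀`). -/
structure UniformlyConvex {N : ℕ} (Ω : Set (E N)) : Prop where
  isOpen : IsOpen Ω
  nonempty : Ω.Nonempty
  bounded : Bornology.IsBounded Ω
  convex : Convex ℝ Ω
  curved : ∃ c : ℝ, 0 < c ∧ ∀ x₀ ∈ frontier Ω, ∃ ν : E N, ‖ν‖ = 1 ∧
    ∀ x ∈ closure Ω, c * ‖x - x₀‖ ^ 2 ≤ inner ℝ ν (x₀ - x)

/-- The structure conditions on the integrand `f : ℝ^m → ℝ`: it is `C¹`, and at every `ξ` with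
`δ + |ξ|² > 0` it is twice differentiable with
`λ (δ+|ξ|²)^((p-2)/2) |η|² ≤ ⟨D²f(ξ)η, η⟩ ≤ Λ (δ+|ξ|²)^((p-2)/2) |η|²`; moreover
`|∇f(ξ)| ≤ Λ (δ+|ξ|²)^((p-1)/2)`. -/
structure IsStructured {H : Type} [NormedAddCommGroup H] [InnerProductSpace ℝ H]
    (p δ lam Lam : ℝ) (f : H → ℝ) : Prop where
  one_lt_p : 1 < p
  delta_nonneg : 0 ≤ δ
  lam_pos : 0 < lam
  lam_le : lam ≤ Lam
  contDiff : ContDiff ℝ 1 f
  differentiable : ∀ ξ : H, 0 < δ + ‖ξ‖ ^ 2 → DifferentiableAt ℝ (fderiv ℝ f) ξ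
  lower : ∀ ξ η : H, 0 < δ + ‖ξ‖ ^ 2 →
    lam * (δ + ‖ξ‖ ^ 2) ^ ((p - 2) / 2) * ‖η‖ ^ 2 ≤ fderiv ℝ (fderiv ℝ f) ξ η η
  upper : ∀ ξ η : H, 0 < δ + ‖ξ‖ ^ 2 →
    fderiv ℝ (fderiv ℝ f) ξ η η ≤ Lam * (δ + ‖ξ‖ ^ 2) ^ ((p - 2) / 2) * ‖η‖ ^ 2
  growth : ∀ ξ : H, ‖fderiv ℝ f ξ‖ ≤ Lam * (δ + ‖ξ‖ ^ 2) ^ ((p - 1) / 2)

namespace CarnotGroup

variable {N : ℕ} (G : CarnotGroup N)

/-- `u ∈ HW^{1,p}(Ω)` with horizontal gradient `∇₀u = U`, in the coordinates `Ψ`: both belong to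
`L^p(Ω)`, and `U_i = X_i u` in the sense of distributions. -/
structure HW (Ψ : E N ≃ E N) (p : ℝ) (Ω : Set (E N)) (u : E N → ℝ) (U : E N → G.H) : Prop where
  memLp : MemLp u (ENNReal.ofReal p) (volume.restrict Ω)
  memLp_grad : MemLp U (ENNReal.ofReal p) (volume.restrict Ω)
  weak : ∀ ψ : E N → ℝ, IsTest Ω ψ → ∀ i : G.HIdx,
    ∫ x in Ω, u x * G.X Ψ i ψ x = - ∫ x in Ω, U x i * ψ x

/-- `v ∈ HW_0^{1,p}(Ω)` with horizontal gradient `V`: the pair is the limit in `L^p(Ω)` of pairs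
`(ψ_n, ∇₀ψ_n)` with `ψ_n ∈ C_c^∞(Ω)`. -/
def HW₀ (Ψ : E N ≃ E N) (p : ℝ) (Ω : Set (E N)) (v : E N → ℝ) (V : E N → G.H) : Prop :=
  ∃ ψ : ℕ → E N → ℝ, (∀ n, IsTest Ω (ψ n)) ∧
    Tendsto (fun n => eLpNorm (fun x => v x - ψ n x) (ENNReal.ofReal p) (volume.restrict Ω))
      atTop (𝓝 0) ∧
    Tendsto (fun n => eLpNorm (fun x => V x - G.hgrad Ψ (ψ n) x) (ENNReal.ofReal p)
      (volume.restrict Ω)) atTop (𝓝 0)

/-- `u`, with horizontal gradient `U`, is the weak solution in `HW^{1,p}(Ω)` of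
`∑ X_i (A_i(∇₀u)) = 0`, `A = ∇f`, whose difference with `φ` lies in `HW_0^{1,p}(Ω)`. -/
structure IsWeakSolution (Ψ : E N ≃ E N) (p : ℝ) (f : G.H → ℝ) (Ω : Set (E N))
    (φ u : E N → ℝ) (U : E N → G.H) : Prop where
  hw : G.HW Ψ p Ω u U
  boundary : G.HW₀ Ψ p Ω (fun x => u x - φ x) (fun x => U x - G.hgrad Ψ φ x)
  weak : ∀ ψ : E N → ℝ, IsTest Ω ψ →
    ∫ x in Ω, fderiv ℝ f (U x) (G.hgrad Ψ ψ x) = 0

/-- Every linear function `ℓ` of the coordinates `Ψ` is a weak solution of (E) on the whole space,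
for every `C¹` integrand `f`. -/
def LinearSolve (Ψ : E N ≃ E N) : Prop :=
  ∀ (f : G.H → ℝ) (ℓ : E N →L[ℝ] ℝ) (ψ : E N → ℝ), ContDiff ℝ 1 f → IsTest univ ψ →
    ∫ x, fderiv ℝ f (G.hgrad Ψ ℓ x) (G.hgrad Ψ ψ x) = 0

/-- Hilbert-Haar coordinates on `G`: a smooth volume preserving diffeomorphism `Ψ` of `ℝ^N`,
tangent to the identity at the neutral element and commuting with the dilations, in which the
integral curves `t ↦ x * exp(tv)` of the horizontal left-invariant fields are straight lines, and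
in which every linear function solves (E), whatever the `C¹` integrand. -/
structure IsHilbertHaarChart (Ψ : E N ≃ E N) : Prop where
  smooth : ContDiff ℝ ∞ Ψ
  smooth_symm : ContDiff ℝ ∞ Ψ.symm
  map_zero : Ψ 0 = 0
  fderiv_zero : fderiv ℝ Ψ 0 = ContinuousLinearMap.id ℝ (E N)
  map_dil : ∀ r : ℝ, 0 < r → ∀ x, Ψ (dil G.weight r x) = dil G.weight r (Ψ x)
  measurePreserving : MeasurePreserving Ψ volume volume
  line : ∀ x v : E N, (∀ i, G.weight i ≠ 1 → v i = 0) →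
    ∃ ξ : E N, ∀ t : ℝ, Ψ (G.mul x (t • v)) = Ψ x + t • ξ
  linear : G.LinearSolve Ψ

/-- `u` is Lipschitz in `Ω` with constant `M` (up to a null set), and `|∇₀u| ≤ M` almost
everywhere in `Ω`. -/
def BoundedBy (M : ℝ) (Ω : Set (E N)) (u : E N → ℝ) (U : E N → G.H) : Prop :=
  (∃ v : E N → ℝ, LipschitzWith M.toNNReal v ∧ ∀ᵐ x ∂(volume.restrict Ω), u x = v x) ∧
    ∀ᵐ x ∂(volume.restrict Ω), ‖U x‖ ≤ M

/-- Boundary data: `φ ∈ C²(closure Ω)` with `|Dφ| + |D²φ| ≤ K`. -/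
def IsDatum (Ω : Set (E N)) (K : ℝ) (φ : E N → ℝ) : Prop :=
  ContDiffOn ℝ 2 φ (closure Ω) ∧
    ∀ x ∈ Ω, ‖fderiv ℝ φ x‖ + ‖fderiv ℝ (fderiv ℝ φ) x‖ ≤ K

/-- The Hilbert-Haar theorem in `Ω`, in the coordinates `Ψ`: for every `K` there is `M` such that
for all `p, δ, λ, Λ, f` and all data `φ ∈ C²(closure Ω)` with `|Dφ| + |D²φ| ≤ K`, every weak
solution is Lipschitz with constant `M` and has `|∇₀u| ≤ M`. -/
def HilbertHaarBound (Ψ : E N ≃ E N) (Ω : Set (E N)) : Prop :=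
  ∀ K : ℝ, ∃ M : ℝ, ∀ φ : E N → ℝ, IsDatum Ω K φ →
    ∀ (p δ lam Lam : ℝ) (f : G.H → ℝ), IsStructured p δ lam Lam f →
    ∀ (u : E N → ℝ) (U : E N → G.H), G.IsWeakSolution Ψ p f Ω φ u U → G.BoundedBy M Ω u U

end CarnotGroup

end Pool.Agent.Carnot
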