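import Mathlib
import Pool.Agent.Carnot.Defs

/-!
# Consequences of the structure conditions, and `L^p` lemmas
-/

namespace Pool.Agent.Carnot

open MeasureTheory Set Filter Topology
open scoped ContDiff ENNReal

section mono

variable {H : Type} [NormedAddCommGroup H] [InnerProductSpace ℝ H] {p δ lam Lam : ℝ} {f : H → ℝ}

theorem IsStructured.lt_of_segment (hf : IsStructured p δ lam Lam f) {a v : H} (hv : v ≠ 0)
    {s t : ℝ} (hst : s < t) (hpos : ∀ r ∈ Ioo s t, 0 < δ + ‖a + r • v‖ ^ 2) :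
    fderiv ℝ f (a + s • v) v < fderiv ℝ f (a + t • v) v := by
  have hcont : Continuous (fun r : ℝ => fderiv ℝ f (a + r • v) v) := by
    have h1 : Continuous (fun r : ℝ => fderiv ℝ f (a + r • v)) :=
      (hf.contDiff.continuous_fderiv one_ne_zero).comp (by fun_prop)
    exact h1.clm_apply continuous_const
  have hder : ∀ r ∈ Ioo s t, HasDerivAt (fun r : ℝ => fderiv ℝ f (a + r • v) v)
      (fderiv ℝ (fderiv ℝ f) (a + r • v) v v) r := by
    intro r hr
    have h1 : HasFDerivAt (fderiv ℝ f) (fderiv ℝ (fderiv ℝ f) (a + r • v)) (a + r • v) :=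
      (hf.differentiable _ (hpos r hr)).hasFDerivAt
    have h2 : HasDerivAt (fun r : ℝ => a + r • v) v r := by
      simpa using ((hasDerivAt_id r).smul_const v).const_add a
    have h3 := h1.comp_hasDerivAt r h2
    have h4 := h3.clm_apply (hasDerivAt_const r v)
    simpa using h4
  have hmono : StrictMonoOn (fun r : ℝ => fderiv ℝ f (a + r • v) v) (Icc s t) := by
    apply strictMonoOn_of_deriv_pos (convex_Icc s t) hcont.continuousOn
    intro r hr
    rw [interior_Icc] at hr
    rw [(hder r hr).deriv]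
    have h1 := hf.lower (a + r • v) v (hpos r hr)
    have h2 : 0 < lam * (δ + ‖a + r • v‖ ^ 2) ^ ((p - 2) / 2) * ‖v‖ ^ 2 := by
      have := hf.lam_pos
      have h3 := hpos r hr
      have h4 : 0 < ‖v‖ := norm_pos_iff.2 hv
      positivity
    linarith
  exact hmono (left_mem_Icc.2 hst.le) (right_mem_Icc.2 hst.le) hst

theorem IsStructured.strict_mono (hf : IsStructured p δ lam Lam f) {ξ η : H} (hne : ξ ≠ η) :
    0 < (fderiv ℝ f ξ - fderiv ℝ f η) (ξ - η) := by
  have hv : ξ - η ≠ 0 := sub_ne_zero.2 hne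
  have key : fderiv ℝ f (η + (0:ℝ) • (ξ - η)) (ξ - η) <
      fderiv ℝ f (η + (1:ℝ) • (ξ - η)) (ξ - η) := by
    by_cases h : ∃ r ∈ Ioo (0:ℝ) 1, η + r • (ξ - η) = 0
    · obtain ⟨r, hr, h0⟩ := h
      have hpos : ∀ s : ℝ, s ≠ r → 0 < δ + ‖η + s • (ξ - η)‖ ^ 2 := by
        intro s hs
        have h1 : η + s • (ξ - η) = (s - r) • (ξ - η) := by
          rw [sub_smul]
          have : η = - (r • (ξ - η)) := eq_neg_of_add_eq_zero_left h0
          nth_rewrite 1 [this]
          abel
        have h2 : η + s • (ξ - η) ≠ 0 := by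
          rw [h1]
          exact smul_ne_zero (sub_ne_zero.2 hs) hv
        have h3 : 0 < ‖η + s • (ξ - η)‖ := norm_pos_iff.2 h2
        have := hf.delta_nonneg
        positivity
      exact (hf.lt_of_segment hv hr.1 (fun s hs => hpos s hs.2.ne)).trans
        (hf.lt_of_segment hv hr.2 (fun s hs => hpos s hs.1.ne'))
    · push Not at h
      apply hf.lt_of_segment hv one_pos
      intro r hr
      have h3 : 0 < ‖η + r • (ξ - η)‖ := norm_pos_iff.2 (h r hr)
      have := hf.delta_nonneg
      positivity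
  rw [zero_smul, add_zero, one_smul, add_sub_cancel] at key
  rw [sub_apply]
  linarith

theorem IsStructured.Lam_pos (hf : IsStructured p δ lam Lam f) : 0 < Lam :=
  hf.lam_pos.trans_le hf.lam_le

theorem IsStructured.memLp_fderiv (hf : IsStructured p δ lam Lam f)
    {α : Type*} [MeasurableSpace α] {μ : Measure α} [IsFiniteMeasure μ] {U : α → H}
    (hU : MemLp U (ENNReal.ofReal p) μ) :
    MemLp (fun x => fderiv ℝ f (U x)) (ENNReal.ofReal (p / (p - 1))) μ := by
  have hp := hf.one_lt_p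
  have hδ := hf.delta_nonneg
  set V : α → ℝ := fun x => Real.sqrt (δ + ‖U x‖ ^ 2) with hV
  have hVm : AEStronglyMeasurable V μ := by
    have : Continuous (fun u : H => Real.sqrt (δ + ‖u‖ ^ 2)) := by fun_prop
    exact this.comp_aestronglyMeasurable hU.1
  have hVL : MemLp V (ENNReal.ofReal p) μ := by
    have h0 : MemLp (fun _ : α => Real.sqrt δ) (ENNReal.ofReal p) μ := memLp_const _
    have h1 : MemLp (fun x => Real.sqrt δ + ‖U x‖) (ENNReal.ofReal p) μ := h0.add hU.norm
    refine MemLp.of_le h1 hVm (Eventually.of_forall fun x => ?_)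
    have h3 := Real.sqrt_nonneg δ
    have h4 := norm_nonneg (U x)
    have h5 : (0:ℝ) ≤ Real.sqrt δ + ‖U x‖ := add_nonneg h3 h4
    rw [Real.norm_of_nonneg (Real.sqrt_nonneg _), Real.norm_of_nonneg h5]
    apply Real.sqrt_le_iff.2
    refine ⟨h5, ?_⟩
    have h2 := Real.sq_sqrt hδ
    nlinarith [mul_nonneg h3 h4]
  have h2 := hVL.norm_rpow_div (ENNReal.ofReal (p - 1))
  rw [ENNReal.toReal_ofReal (by linarith), ← ENNReal.ofReal_div_of_pos (by linarith)] at h2
  have h3 := h2.const_mul Lam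
  refine h3.of_le ?_ (Eventually.of_forall fun x => ?_)
  · exact (hf.contDiff.continuous_fderiv one_ne_zero).comp_aestronglyMeasurable hU.1
  · have h4 := hf.growth (U x)
    have h5 : ‖V x‖ ^ (p - 1) = (δ + ‖U x‖ ^ 2) ^ ((p - 1) / 2) := by
      rw [Real.norm_of_nonneg (Real.sqrt_nonneg _)]
      rw [Real.sqrt_eq_rpow, ← Real.rpow_mul (by positivity)]
      congr 1; ring
    rw [h5]
    exact h4.trans (Real.le_norm_self _)

end mono

section holder

variable {α : Type*} [MeasurableSpace α] {μ : Measure α}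
  {H : Type*} [NormedAddCommGroup H] [NormedSpace ℝ H]

theorem holderTriple_of_one_lt {p : ℝ} (hp : 1 < p) :
    ENNReal.HolderTriple (ENNReal.ofReal (p / (p - 1))) (ENNReal.ofReal p) 1 := by
  have h : Real.HolderConjugate (p / (p - 1)) p := by
    have := Real.HolderConjugate.conjExponent hp
    exact this.symm
  exact h.ennrealOfReal

/-- Pairing with a fixed `L^{p'}` function is continuous on `L^p`. -/
theorem tendsto_integral_pairing {p : ℝ} (hp : 1 < p) {B : α → H →L[ℝ] ℝ}
    (hB : MemLp B (ENNReal.ofReal (p / (p - 1))) μ) {V : α → H} {Vn : ℕ → α → H}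
    (hV : MemLp V (ENNReal.ofReal p) μ) (hVn : ∀ n, MemLp (Vn n) (ENNReal.ofReal p) μ)
    (hlim : Tendsto (fun n => eLpNorm (fun x => V x - Vn n x) (ENNReal.ofReal p) μ)
      atTop (𝓝 0)) :
    Tendsto (fun n => ∫ x, B x (Vn n x) ∂μ) atTop (𝓝 (∫ x, B x (V x) ∂μ)) := by
  have := holderTriple_of_one_lt hp
  have hint : ∀ W : α → H, MemLp W (ENNReal.ofReal p) μ →
      Integrable (fun x => B x (W x)) μ := by
    intro W hW
    have h1 : MemLp (fun x => B x (W x)) 1 μ :=
      MemLp.of_bilin (fun (L : H →L[ℝ] ℝ) (v : H) => L v) 1 hB hW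
        ((ContinuousLinearMap.apply ℝ ℝ).isBoundedBilinearMap.continuous.comp_aestronglyMeasurable
          (hW.1.prodMk hB.1))
        (Eventually.of_forall fun x => by
          have := (B x).le_opNorm (W x)
          rw [one_mul]
          exact_mod_cast this)
    exact memLp_one_iff_integrable.1 h1
  have hbd : ∀ n, eLpNorm (fun x => B x (Vn n x) - B x (V x)) 1 μ ≤
      eLpNorm B (ENNReal.ofReal (p / (p - 1))) μ *
        eLpNorm (fun x => V x - Vn n x) (ENNReal.ofReal p) μ := by
    intro n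
    have h1 : eLpNorm (fun x => B x (V x - Vn n x)) 1 μ ≤
        (1 : NNReal) * eLpNorm B (ENNReal.ofReal (p / (p - 1))) μ *
          eLpNorm (fun x => V x - Vn n x) (ENNReal.ofReal p) μ := by
      apply eLpNorm_le_eLpNorm_mul_eLpNorm'_of_norm hB.1 (hV.sub (hVn n)).1
        (fun (L : H →L[ℝ] ℝ) (v : H) => L v)
      exact Eventually.of_forall fun x => by
        have := (B x).le_opNorm (V x - Vn n x)
        simpa using this
    have h2 : eLpNorm (fun x => B x (Vn n x) - B x (V x)) 1 μ =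
        eLpNorm (fun x => B x (V x - Vn n x)) 1 μ := by
      rw [← eLpNorm_neg]
      apply eLpNorm_congr_ae
      refine Eventually.of_forall fun x => ?_
      simp
    rw [h2]
    simpa using h1
  refine tendsto_integral_of_L1' _ (hint V hV).1
    (Eventually.of_forall fun n => hint _ (hVn n)) ?_
  have h0 : Tendsto (fun n => eLpNorm B (ENNReal.ofReal (p / (p - 1))) μ *
        eLpNorm (fun x => V x - Vn n x) (ENNReal.ofReal p) μ) atTop (𝓝 0) := by
    have := ENNReal.Tendsto.const_mul (a := eLpNorm B (ENNReal.ofReal (p / (p - 1))) μ) hlim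
      (Or.inr hB.2.ne)
    simpa using this
  exact tendsto_of_tendsto_of_tendsto_of_le_of_le tendsto_const_nhds h0
    (fun n => zero_le) hbd

omit [NormedSpace ℝ H] in
/-- Dominated convergence in `L^p`. -/
theorem tendsto_eLpNorm_zero_of_dominated {p : ℝ} (hp : 1 < p) {F : ℕ → α → H} {g : α → ℝ}
    (hF : ∀ n, AEStronglyMeasurable (F n) μ) (hg : MemLp g (ENNReal.ofReal p) μ)
    (hle : ∀ n, ∀ᵐ x ∂μ, ‖F n x‖ ≤ g x)
    (hlim : ∀ᵐ x ∂μ, Tendsto (fun n => F n x) atTop (𝓝 0)) :
    Tendsto (fun n => eLpNorm (F n) (ENNReal.ofReal p) μ) atTop (𝓝 0) := by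
  have hp0 : (0:ℝ) < p := by linarith
  have hne0 : ENNReal.ofReal p ≠ 0 := (ENNReal.ofReal_pos.2 hp0).ne'
  have hnet : ENNReal.ofReal p ≠ ⊤ := ENNReal.ofReal_ne_top
  have hform : ∀ n, eLpNorm (F n) (ENNReal.ofReal p) μ =
      (∫⁻ x, ‖F n x‖ₑ ^ p ∂μ) ^ (1 / p) := by
    intro n
    rw [eLpNorm_eq_lintegral_rpow_enorm_toReal hne0 hnet, ENNReal.toReal_ofReal hp0.le]
  simp_rw [hform]
  have h1 : Tendsto (fun n => ∫⁻ x, ‖F n x‖ₑ ^ p ∂μ) atTop (𝓝 (∫⁻ x, 0 ∂μ)) := by
    apply tendsto_lintegral_of_dominated_convergence' (fun x => ‖g x‖ₑ ^ p)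
    · intro n
      exact (hF n).enorm.pow_const p
    · intro n
      filter_upwards [hle n] with x hx
      have : ‖F n x‖ₑ ≤ ‖g x‖ₑ := by
        rw [enorm_le_iff_norm_le]
        exact hx.trans (Real.le_norm_self _)
      exact ENNReal.rpow_le_rpow this hp0.le
    · have := lintegral_rpow_enorm_lt_top_of_eLpNorm_lt_top hne0 hnet hg.2
      rw [ENNReal.toReal_ofReal hp0.le] at this
      exact this.ne
    · filter_upwards [hlim] with x hx
      have h2 : Tendsto (fun n => ‖F n x‖ₑ) atTop (𝓝 0) := by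
        have := hx.enorm
        simpa using this
      have h3 := h2.ennrpow_const p
      rwa [ENNReal.zero_rpow_of_pos hp0] at h3
  rw [lintegral_zero] at h1
  have h2 := h1.ennrpow_const (1 / p)
  rwa [ENNReal.zero_rpow_of_pos (by positivity)] at h2

end holder

end Pool.Agent.Carnot
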