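import Mathlib

/-!
# Smooth approximation in `C¹` of compactly supported `C¹` functions
-/

namespace Pool.Agent.Carnot

open MeasureTheory Set Filter Topology
open scoped ContDiff ENNReal Convolution

theorem exists_smooth_approx {V : Type*} [NormedAddCommGroup V] [InnerProductSpace ℝ V]
    [FiniteDimensional ℝ V] [MeasurableSpace V] [BorelSpace V] {g : V → ℝ}
    (hg : ContDiff ℝ 1 g) (hc : HasCompactSupport g) {ε : ℝ} (hε : 0 < ε) :
    ∃ g' : V → ℝ, ContDiff ℝ ∞ g' ∧ HasCompactSupport g' ∧
      tsupport g' ⊆ Metric.cthickening ε (tsupport g) ∧ (∀ x, |g' x - g x| ≤ ε) ∧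
      ∀ x, ‖fderiv ℝ g' x - fderiv ℝ g x‖ ≤ ε := by
  have hgc : Continuous g := hg.continuous
  have hdc : Continuous (fderiv ℝ g) := hg.continuous_fderiv one_ne_zero
  have hds : HasCompactSupport (fderiv ℝ g) := hc.fderiv ℝ
  have u1 : UniformContinuous g := hc.uniformContinuous_of_continuous hgc
  have u2 : UniformContinuous (fderiv ℝ g) := hds.uniformContinuous_of_continuous hdc
  obtain ⟨d1, hd1, H1⟩ := Metric.uniformContinuous_iff.1 u1 ε hε
  obtain ⟨d2, hd2, H2⟩ := Metric.uniformContinuous_iff.1 u2 ε hε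
  set d := min ε (min d1 d2) with hd
  have hdpos : 0 < d := lt_min hε (lt_min hd1 hd2)
  set φ : ContDiffBump (0 : V) := ⟨d / 2, d, by positivity, by linarith⟩ with hφ
  set L : ℝ →L[ℝ] ℝ →L[ℝ] ℝ := ContinuousLinearMap.lsmul ℝ ℝ with hL
  set g' : V → ℝ := φ.normed volume ⋆[L, volume] g with hg'
  have hφs : ContDiff ℝ ∞ (φ.normed (volume : Measure V)) := φ.contDiff_normed
  have hφc : HasCompactSupport (φ.normed (volume : Measure V)) := φ.hasCompactSupport_normed
  have hφi : LocallyIntegrable (φ.normed (volume : Measure V)) volume :=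
    φ.continuous_normed.locallyIntegrable
  have hder : ∀ x, HasFDerivAt g'
      ((φ.normed volume ⋆[L.precompR V, volume] fderiv ℝ g) x) x := fun x =>
    hc.hasFDerivAt_convolution_right L hφi hg x
  have hpre : (L.precompR V : ℝ →L[ℝ] (V →L[ℝ] ℝ) →L[ℝ] (V →L[ℝ] ℝ)) =
      ContinuousLinearMap.lsmul ℝ ℝ := by
    ext a b
    simp [hL, ContinuousLinearMap.precompR_apply]
  have hsup : Function.support g' ⊆ Metric.thickening d (tsupport g) := by
    refine (support_convolution_subset L).trans ?_
    rw [φ.support_normed_eq]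
    rintro _ ⟨a, ha, b, hb, rfl⟩
    rw [Metric.mem_thickening_iff]
    refine ⟨b, subset_closure hb, ?_⟩
    simpa [dist_eq_norm] using ha
  have hts : tsupport g' ⊆ Metric.cthickening ε (tsupport g) := by
    refine closure_minimal (hsup.trans ?_) Metric.isClosed_cthickening
    exact (Metric.thickening_subset_cthickening _ _).trans
      (Metric.cthickening_mono (min_le_left _ _) _)
  refine ⟨g', ?_, ?_, hts, ?_, ?_⟩
  · exact hφc.contDiff_convolution_left L hφs (hgc.locallyIntegrable)
  · exact HasCompactSupport.of_support_subset_isCompact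
      (hc.isCompact.cthickening (r := ε)) ((subset_tsupport _).trans hts)
  · intro x
    have := φ.dist_normed_convolution_le (μ := (volume : Measure V)) (g := g) (x₀ := x) (ε := ε)
      hgc.aestronglyMeasurable (fun y hy => (H1 (lt_of_lt_of_le (Metric.mem_ball.1 hy)
        ((min_le_right _ _).trans (min_le_left _ _)))).le)
    rwa [Real.dist_eq] at this
  · intro x
    have := φ.dist_normed_convolution_le (μ := (volume : Measure V)) (g := fderiv ℝ g) (x₀ := x)
      (ε := ε) hdc.aestronglyMeasurable (fun y hy => (H2 (lt_of_lt_of_le (Metric.mem_ball.1 hy)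
        ((min_le_right _ _).trans (min_le_right _ _)))).le)
    rw [dist_eq_norm] at this
    rw [(hder x).fderiv, hpre]
    exact this

end Pool.Agent.Carnot
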