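import Mathlib
import Pool.Agent.Carnot.Defs

/-!
# Systems of measure-preserving flows on `ℝ^N`

The flows `T v` stand for `y ↦ y * exp(v)` with `v` horizontal, in some chart.
-/

namespace Pool.Agent.Carnot

open MeasureTheory Set Filter Topology
open scoped ContDiff ENNReal

/-- A smooth family of measure preserving flows, with directions `v` in `H`. -/
structure Sys (N : ℕ) (H : Type) [NormedAddCommGroup H] [InnerProductSpace ℝ H] where
  /-- the flow -/
  T : H → E N → E N
  contDiff_T : ContDiff ℝ ∞ (fun q : H × E N => T q.1 q.2)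
  T_zero : ∀ y, T 0 y = y
  T_add : ∀ (s t : ℝ) (v : H) (y : E N), T ((s + t) • v) y = T (t • v) (T (s • v) y)
  mp : ∀ v, MeasurePreserving (T v) volume volume

namespace Sys

variable {N : ℕ} {H : Type} [NormedAddCommGroup H] [InnerProductSpace ℝ H]

section basic

variable (S : Sys N H)

/-- the horizontal frame -/
noncomputable def xi (y : E N) : H →L[ℝ] E N := fderiv ℝ (fun v => S.T v y) 0

theorem contDiff_xi [FiniteDimensional ℝ H] : ContDiff ℝ ∞ S.xi := by
  have h : ContDiff ℝ ∞ (Function.uncurry (fun (y : E N) (v : H) => S.T v y)) :=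
    S.contDiff_T.comp (contDiff_snd.prodMk contDiff_fst)
  exact ContDiff.fderiv (n := ∞) (m := ∞) h contDiff_const (by simp)

theorem continuous_xi [FiniteDimensional ℝ H] : Continuous S.xi := S.contDiff_xi.continuous

theorem contDiff_T_right (v : H) : ContDiff ℝ ∞ (S.T v) :=
  S.contDiff_T.comp (contDiff_const.prodMk contDiff_id)

theorem contDiff_T_left (y : E N) : ContDiff ℝ ∞ (fun v => S.T v y) :=
  S.contDiff_T.comp (contDiff_id.prodMk contDiff_const)

theorem continuous_T : Continuous (fun q : H × E N => S.T q.1 q.2) := S.contDiff_T.continuous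

theorem hasDerivAt_T_zero (v : H) (y : E N) :
    HasDerivAt (fun t : ℝ => S.T (t • v) y) (S.xi y v) 0 := by
  have h1 : HasFDerivAt (fun v => S.T v y) (S.xi y) ((0:ℝ) • v) := by
    rw [zero_smul]
    exact ((S.contDiff_T_left y).differentiable (by simp) _).hasFDerivAt
  have h2 : HasDerivAt (fun s : ℝ => s • v) v 0 := by
    simpa using (hasDerivAt_id (0:ℝ)).smul_const v
  exact h1.comp_hasDerivAt (0:ℝ) h2

theorem hasDerivAt_T (v : H) (y : E N) (t : ℝ) :
    HasDerivAt (fun s : ℝ => S.T (s • v) y) (S.xi (S.T (t • v) y) v) t := by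
  have h1 : HasDerivAt (fun s : ℝ => S.T (s • v) (S.T (t • v) y))
      (S.xi (S.T (t • v) y) v) ((fun s : ℝ => s - t) t) := by
    simp only [sub_self]; exact S.hasDerivAt_T_zero v _
  have h2 : HasDerivAt (fun s : ℝ => s - t) 1 t := (hasDerivAt_id t).sub_const t
  have h3 := HasDerivAt.scomp (h := fun s : ℝ => s - t) t h1 h2
  rw [one_smul] at h3
  have h4 : ((fun s : ℝ => S.T (s • v) (S.T (t • v) y)) ∘ fun s : ℝ => s - t) =
      fun s : ℝ => S.T (s • v) y := by
    funext s
    simp only [Function.comp]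
    rw [← S.T_add]
    congr 2; ring
  rwa [h4] at h3

theorem hasDerivAt_comp_T {F : Type*} [NormedAddCommGroup F] [NormedSpace ℝ F] {ψ : E N → F}
    (hψ : ContDiff ℝ 1 ψ) (v : H) (y : E N) (t : ℝ) :
    HasDerivAt (fun s : ℝ => ψ (S.T (s • v) y))
      (fderiv ℝ ψ (S.T (t • v) y) (S.xi (S.T (t • v) y) v)) t := by
  have h1 : HasFDerivAt ψ (fderiv ℝ ψ (S.T (t • v) y)) (S.T (t • v) y) :=
    (hψ.differentiable one_ne_zero _).hasFDerivAt
  exact h1.comp_hasDerivAt t (S.hasDerivAt_T v y t)

theorem T_neg_T (v : H) (y : E N) : S.T (-v) (S.T v y) = y := by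
  have := S.T_add 1 (-1) v y
  rw [add_neg_cancel, zero_smul, S.T_zero, one_smul, neg_one_smul] at this
  exact this.symm

theorem T_T_neg (v : H) (y : E N) : S.T v (S.T (-v) y) = y := by
  have := S.T_neg_T (-v) y
  rwa [neg_neg] at this

/-- the flow as a homeomorphism -/
noncomputable def homeo (v : H) : E N ≃ₜ E N where
  toFun := S.T v
  invFun := S.T (-v)
  left_inv := S.T_neg_T v
  right_inv := S.T_T_neg v
  continuous_toFun := (S.contDiff_T_right v).continuous
  continuous_invFun := (S.contDiff_T_right (-v)).continuous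

theorem measurableEmbedding_T (v : H) : MeasurableEmbedding (S.T v) :=
  (S.homeo v).measurableEmbedding

end basic

section calculus

variable [FiniteDimensional ℝ H] (S : Sys N H)

/-- The integral of the derivative of a compactly supported function along the flow vanishes. -/
theorem integral_fderiv_xi {ψ : E N → ℝ} (hψ : ContDiff ℝ 1 ψ) (hc : HasCompactSupport ψ)
    (v : H) : ∫ y, fderiv ℝ ψ y (S.xi y v) = 0 := by
  -- the compact set on which everything happens
  set K : Set (E N) := (fun q : ℝ × E N => S.T (-(q.1 • v)) q.2) '' (Icc (-1) 1 ×ˢ tsupport ψ)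
    with hK
  have hKc : IsCompact K := by
    apply (isCompact_Icc.prod hc).image
    exact S.continuous_T.comp (by fun_prop : Continuous (fun q : ℝ × E N => (-(q.1 • v), q.2)))
  have hdc : Continuous (fun y => fderiv ℝ ψ y (S.xi y v)) :=
    (hψ.continuous_fderiv one_ne_zero).clm_apply (S.continuous_xi.clm_apply continuous_const)
  have hds : ∀ y, y ∉ tsupport ψ → fderiv ℝ ψ y (S.xi y v) = 0 := by
    intro y hy
    have : fderiv ℝ ψ y = 0 := by
      have h1 := support_fderiv_subset ℝ (f := ψ)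
      by_contra h
      exact hy (h1 h)
    rw [this]; simp
  have hcs : HasCompactSupport (fun y => fderiv ℝ ψ y (S.xi y v)) :=
    HasCompactSupport.intro hc hds
  obtain ⟨C, hC⟩ := hcs.exists_bound_of_continuous hdc
  have hC0 : 0 ≤ C := (norm_nonneg _).trans (hC 0)
  set F : ℝ → E N → ℝ := fun t y => ψ (S.T (t • v) y) with hF
  set F' : ℝ → E N → ℝ := fun t y => fderiv ℝ ψ (S.T (t • v) y) (S.xi (S.T (t • v) y) v) with hF'
  have hTc : ∀ t : ℝ, Continuous (fun y => S.T (t • v) y) := fun t =>
    (S.contDiff_T_right (t • v)).continuous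
  have hFc : ∀ t, Continuous (F t) := fun t => hψ.continuous.comp (hTc t)
  have hF'c : ∀ t, Continuous (F' t) := fun t => hdc.comp (hTc t)
  have hint0 : Integrable ψ volume := hψ.continuous.integrable_of_hasCompactSupport hc
  have key := hasDerivAt_integral_of_dominated_loc_of_deriv_le (μ := (volume : Measure (E N)))
    (F := F) (F' := F') (x₀ := 0) (s := Ioo (-1) 1) (bound := K.indicator (fun _ => C))
    (Ioo_mem_nhds (by norm_num) (by norm_num))
    (Eventually.of_forall fun t => (hFc t).aestronglyMeasurable)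
    (by
      have : F 0 = ψ := by funext y; simp [hF, S.T_zero]
      rw [this]; exact hint0)
    (hF'c 0).aestronglyMeasurable
    (by
      refine Eventually.of_forall fun y t ht => ?_
      by_cases hy : S.T (t • v) y ∈ tsupport ψ
      · have : y ∈ K := by
          refine ⟨(t, S.T (t • v) y), ⟨⟨ht.1.le, ht.2.le⟩, hy⟩, ?_⟩
          exact S.T_neg_T (t • v) y
        rw [indicator_of_mem this]
        exact hC _
      · simp only [hF']
        rw [hds _ hy]
        simp only [norm_zero]
        exact indicator_nonneg (fun _ _ => hC0) _)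
    (by
      rw [integrable_indicator_iff hKc.measurableSet]
      exact integrableOn_const hKc.measure_lt_top.ne)
    (by
      refine Eventually.of_forall fun y t _ => ?_
      exact S.hasDerivAt_comp_T hψ v y t)
  have h1 := key.2
  have h2 : (fun t => ∫ y, F t y) = fun _ => ∫ y, ψ y := by
    funext t
    exact (S.mp (t • v)).integral_comp (S.measurableEmbedding_T _) ψ
  rw [h2] at h1
  have h3 := h1.unique (hasDerivAt_const _ _)
  have h4 : F' 0 = fun y => fderiv ℝ ψ y (S.xi y v) := by
    funext y; simp [hF', S.T_zero]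
  rw [h4] at h3
  exact h3

/-- Integration by parts along the flow. -/
theorem integral_mul_fderiv_xi {ψ η : E N → ℝ} (hψ : ContDiff ℝ 1 ψ) (hη : ContDiff ℝ 1 η)
    (hc : HasCompactSupport η) (v : H) :
    ∫ y, ψ y * fderiv ℝ η y (S.xi y v) = - ∫ y, fderiv ℝ ψ y (S.xi y v) * η y := by
  have h1 := S.integral_fderiv_xi (ψ := fun y => ψ y * η y) (hψ.mul hη) hc.mul_left v
  have h2 : ∀ y, fderiv ℝ (fun y => ψ y * η y) y (S.xi y v) =
      ψ y * fderiv ℝ η y (S.xi y v) + fderiv ℝ ψ y (S.xi y v) * η y := by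
    intro y
    rw [fderiv_fun_mul (hψ.differentiable one_ne_zero y) (hη.differentiable one_ne_zero y)]
    simp only [add_apply, smul_apply, smul_eq_mul]
    ring
  simp_rw [h2] at h1
  have c1 : Continuous (fun y => fderiv ℝ η y (S.xi y v)) :=
    (hη.continuous_fderiv one_ne_zero).clm_apply (S.continuous_xi.clm_apply continuous_const)
  have c2 : Continuous (fun y => fderiv ℝ ψ y (S.xi y v)) :=
    (hψ.continuous_fderiv one_ne_zero).clm_apply (S.continuous_xi.clm_apply continuous_const)
  have s1 : HasCompactSupport (fun y => fderiv ℝ η y (S.xi y v)) := by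
    refine HasCompactSupport.intro hc (fun y hy => ?_)
    have : fderiv ℝ η y = 0 := by
      have h1 := support_fderiv_subset ℝ (f := η)
      by_contra h
      exact hy (h1 h)
    rw [this]; simp
  rw [integral_add] at h1
  · linarith
  · exact (hψ.continuous.mul c1).integrable_of_hasCompactSupport s1.mul_left
  · exact (c2.mul hη.continuous).integrable_of_hasCompactSupport hc.mul_left

/-- `L¹` Poincaré inequality along a flow which translates a coordinate. -/
theorem poincare {v₀ : H} {ℓ : E N → ℝ} (hℓ : ∀ (t : ℝ) y, ℓ (S.T (t • v₀) y) = ℓ y + t)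
    {R : ℝ} (hR : 0 ≤ R) {ψ : E N → ℝ} (hψ : ContDiff ℝ 1 ψ)
    (hsupp : ∀ y, ψ y ≠ 0 → |ℓ y| ≤ R) :
    ∫⁻ y, ‖ψ y‖ₑ ≤ ENNReal.ofReal (2 * R + 1) * ∫⁻ y, ‖fderiv ℝ ψ y (S.xi y v₀)‖ₑ := by
  set g : E N → ℝ := fun y => fderiv ℝ ψ y (S.xi y v₀) with hg
  have hgc : Continuous g :=
    (hψ.continuous_fderiv one_ne_zero).clm_apply (S.continuous_xi.clm_apply continuous_const)
  have hTc : Continuous (fun q : E N × ℝ => S.T (q.2 • v₀) q.1) :=
    S.continuous_T.comp (by fun_prop : Continuous (fun q : E N × ℝ => (q.2 • v₀, q.1)))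
  have hL : (0:ℝ) ≤ 2 * R + 1 := by linarith
  have hpt : ∀ y, ‖ψ y‖ₑ ≤ ∫⁻ s in Ioc 0 (2 * R + 1), ‖g (S.T (s • v₀) y)‖ₑ := by
    intro y
    by_cases hy : ψ y = 0
    · simp [hy]
    have hend : ψ (S.T ((2 * R + 1) • v₀) y) = 0 := by
      by_contra h
      have h1 := hsupp _ h
      have h2 := hsupp _ hy
      rw [hℓ] at h1
      rw [abs_le] at h1 h2
      linarith
    have hcont : Continuous (fun s : ℝ => g (S.T (s • v₀) y)) :=
      hgc.comp (hTc.comp (by fun_prop : Continuous (fun s : ℝ => (y, s))))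
    have hftc : ∫ s in (0:ℝ)..(2 * R + 1), g (S.T (s • v₀) y) =
        ψ (S.T ((2 * R + 1) • v₀) y) - ψ (S.T ((0:ℝ) • v₀) y) := by
      apply intervalIntegral.integral_eq_sub_of_hasDerivAt (f := fun s => ψ (S.T (s • v₀) y))
      · intro s _
        exact S.hasDerivAt_comp_T hψ v₀ y s
      · exact hcont.intervalIntegrable _ _
    rw [hend, zero_smul, S.T_zero, zero_sub, intervalIntegral.integral_of_le hL] at hftc
    have : ‖ψ y‖ₑ = ‖∫ s in Ioc 0 (2 * R + 1), g (S.T (s • v₀) y)‖ₑ := by
      rw [hftc, enorm_neg]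
    rw [this]
    exact enorm_integral_le_lintegral_enorm _
  calc ∫⁻ y, ‖ψ y‖ₑ ≤ ∫⁻ y, ∫⁻ s in Ioc 0 (2 * R + 1), ‖g (S.T (s • v₀) y)‖ₑ :=
        lintegral_mono hpt
    _ = ∫⁻ s in Ioc 0 (2 * R + 1), ∫⁻ y, ‖g (S.T (s • v₀) y)‖ₑ := by
        apply lintegral_lintegral_swap
        have : Continuous (fun q : E N × ℝ => g (S.T (q.2 • v₀) q.1)) := hgc.comp hTc
        exact this.measurable.enorm.aemeasurable
    _ = ∫⁻ s in Ioc 0 (2 * R + 1), ∫⁻ y, ‖g y‖ₑ := by
        congr 1
        funext s
        exact (S.mp (s • v₀)).lintegral_comp hgc.measurable.enorm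
    _ = ENNReal.ofReal (2 * R + 1) * ∫⁻ y, ‖g y‖ₑ := by
        rw [setLIntegral_const, Real.volume_Ioc, sub_zero, mul_comm]

end calculus

end Sys

end Pool.Agent.Carnot
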