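import Mathlib
import Pool.Agent.Carnot.Sys
import Pool.Agent.Carnot.Mollify

/-!
# Horizontal gradients, and affine functions as weak solutions
-/

namespace Pool.Agent.Carnot

open MeasureTheory Set Filter Topology
open scoped ContDiff ENNReal

namespace Sys

variable {N : ℕ} {H : Type} [NormedAddCommGroup H] [InnerProductSpace ℝ H]
  [FiniteDimensional ℝ H] (S : Sys N H)

/-- the horizontal gradient -/
noncomputable def grad (ψ : E N → ℝ) (y : E N) : H :=
  ∑ i, (fderiv ℝ ψ y (S.xi y (stdOrthonormalBasis ℝ H i))) • stdOrthonormalBasis ℝ H i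

theorem inner_grad (ψ : E N → ℝ) (y : E N) (v : H) :
    inner ℝ (S.grad ψ y) v = fderiv ℝ ψ y (S.xi y v) := by
  rw [grad, sum_inner]
  have h : v = ∑ i, inner ℝ (stdOrthonormalBasis ℝ H i) v • stdOrthonormalBasis ℝ H i :=
    ((stdOrthonormalBasis ℝ H).sum_repr' v).symm
  conv_rhs => rw [h]
  rw [map_sum, map_sum]
  apply Finset.sum_congr rfl
  intro i _
  rw [inner_smul_left, map_smul, map_smul, smul_eq_mul]
  simp [mul_comm]

theorem grad_eq_of_inner {ψ : E N → ℝ} {y : E N} {w : H}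
    (h : ∀ v, inner ℝ w v = fderiv ℝ ψ y (S.xi y v)) : S.grad ψ y = w := by
  apply ext_inner_right ℝ
  intro v
  rw [inner_grad, h]

theorem norm_grad_le (ψ : E N → ℝ) (y : E N) :
    ‖S.grad ψ y‖ ≤ ‖fderiv ℝ ψ y‖ * ‖S.xi y‖ := by
  by_cases h : S.grad ψ y = 0
  · rw [h, norm_zero]; positivity
  have h1 : ‖S.grad ψ y‖ * ‖S.grad ψ y‖ = fderiv ℝ ψ y (S.xi y (S.grad ψ y)) := by
    rw [← inner_grad, real_inner_self_eq_norm_mul_norm]
  have h2 : fderiv ℝ ψ y (S.xi y (S.grad ψ y)) ≤ ‖fderiv ℝ ψ y‖ * ‖S.xi y‖ * ‖S.grad ψ y‖ := by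
    calc fderiv ℝ ψ y (S.xi y (S.grad ψ y)) ≤ ‖fderiv ℝ ψ y (S.xi y (S.grad ψ y))‖ :=
          Real.le_norm_self _
      _ ≤ ‖fderiv ℝ ψ y‖ * ‖S.xi y (S.grad ψ y)‖ := ContinuousLinearMap.le_opNorm _ _
      _ ≤ ‖fderiv ℝ ψ y‖ * (‖S.xi y‖ * ‖S.grad ψ y‖) := by
          gcongr; exact ContinuousLinearMap.le_opNorm _ _
      _ = _ := by ring
  rw [← h1] at h2
  exact le_of_mul_le_mul_right h2 (norm_pos_iff.2 h)

theorem contDiff_grad {n : ℕ∞} {ψ : E N → ℝ} (hψ : ContDiff ℝ (n + 1) ψ) :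
    ContDiff ℝ n (S.grad ψ) := by
  unfold grad
  apply ContDiff.sum
  intro i _
  refine ContDiff.smul ?_ contDiff_const
  have h1 : ContDiff ℝ n (fderiv ℝ ψ) := hψ.fderiv_right le_rfl
  have h2 : ContDiff ℝ n S.xi := S.contDiff_xi.of_le (by exact_mod_cast le_top)
  exact h1.clm_apply (h2.clm_apply contDiff_const)

theorem continuous_grad {ψ : E N → ℝ} (hψ : ContDiff ℝ 1 ψ) : Continuous (S.grad ψ) := by
  have : ContDiff ℝ (0 : ℕ∞) (S.grad ψ) := S.contDiff_grad (by simpa using hψ)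
  exact this.continuous

theorem grad_eq_zero_of_notMem {ψ : E N → ℝ} {y : E N} (hy : y ∉ tsupport ψ) :
    S.grad ψ y = 0 := by
  have h0 : fderiv ℝ ψ y = 0 := by
    have h1 := support_fderiv_subset ℝ (f := ψ)
    by_contra h
    exact hy (h1 h)
  simp [grad, h0]

theorem hasCompactSupport_grad {ψ : E N → ℝ} (hc : HasCompactSupport ψ) :
    HasCompactSupport (S.grad ψ) :=
  HasCompactSupport.intro hc (fun _ hy => S.grad_eq_zero_of_notMem hy)

theorem grad_congr {ψ η : E N → ℝ} {y : E N} (h : ψ =ᶠ[𝓝 y] η) : S.grad ψ y = S.grad η y := by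
  simp only [grad, h.fderiv_eq]

theorem grad_sub {ψ η : E N → ℝ} {y : E N} (hψ : DifferentiableAt ℝ ψ y)
    (hη : DifferentiableAt ℝ η y) :
    S.grad (fun x => ψ x - η x) y = S.grad ψ y - S.grad η y := by
  apply S.grad_eq_of_inner
  intro v
  rw [inner_sub_left, inner_grad, inner_grad, fderiv_fun_sub hψ hη]
  rfl

theorem grad_add {ψ η : E N → ℝ} {y : E N} (hψ : DifferentiableAt ℝ ψ y)
    (hη : DifferentiableAt ℝ η y) :
    S.grad (fun x => ψ x + η x) y = S.grad ψ y + S.grad η y := by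
  apply S.grad_eq_of_inner
  intro v
  rw [inner_add_left, inner_grad, inner_grad, fderiv_fun_add hψ hη]
  rfl

theorem grad_mul {ψ η : E N → ℝ} {y : E N} (hψ : DifferentiableAt ℝ ψ y)
    (hη : DifferentiableAt ℝ η y) :
    S.grad (fun x => ψ x * η x) y = ψ y • S.grad η y + η y • S.grad ψ y := by
  apply S.grad_eq_of_inner
  intro v
  rw [inner_add_left, inner_smul_left, inner_smul_left, inner_grad, inner_grad,
    fderiv_fun_mul hψ hη]
  rfl

theorem grad_comp {g : ℝ → ℝ} {ψ : E N → ℝ} {y : E N} {g' : ℝ} (hg : HasDerivAt g g' (ψ y))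
    (hψ : DifferentiableAt ℝ ψ y) :
    S.grad (fun x => g (ψ x)) y = g' • S.grad ψ y := by
  apply S.grad_eq_of_inner
  intro v
  have h := hg.comp_hasFDerivAt y hψ.hasFDerivAt
  have h2 : fderiv ℝ (fun x => g (ψ x)) y = g' • fderiv ℝ ψ y := h.fderiv
  rw [inner_smul_left, inner_grad, h2]
  rfl

/-- integral curves of the frame are straight lines -/
def Straight : Prop := ∀ (t : ℝ) (v : H) (y : E N), S.T (t • v) y = y + t • S.xi y v

variable {S}

omit [FiniteDimensional ℝ H] in
theorem Straight.xi_T (hS : S.Straight) (v : H) (t : ℝ) (y : E N) :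
    S.xi (y + t • S.xi y v) v = S.xi y v := by
  have h1 := hS (t + 1) v y
  rw [S.T_add, hS 1, hS t] at h1
  rw [one_smul, add_smul, one_smul, ← add_assoc] at h1
  exact add_left_cancel h1

theorem Straight.fderiv_xi_self (hS : S.Straight) (v : H) (y : E N) :
    fderiv ℝ S.xi y (S.xi y v) v = 0 := by
  have h1 : HasFDerivAt S.xi (fderiv ℝ S.xi y) (y + (0:ℝ) • S.xi y v) := by
    rw [zero_smul, add_zero]
    exact (S.contDiff_xi.differentiable (by simp) _).hasFDerivAt
  have h2 : HasDerivAt (fun t : ℝ => y + t • S.xi y v) (S.xi y v) 0 := by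
    simpa using ((hasDerivAt_id (0:ℝ)).smul_const (S.xi y v)).const_add y
  have h3' := h1.comp_hasDerivAt (0:ℝ) h2
  have h3 : HasDerivAt (fun t : ℝ => S.xi (y + t • S.xi y v)) (fderiv ℝ S.xi y (S.xi y v)) 0 :=
    h3'
  have h4 : HasDerivAt (fun t : ℝ => S.xi (y + t • S.xi y v) v)
      (fderiv ℝ S.xi y (S.xi y v) v) 0 := by
    have := h3.clm_apply (hasDerivAt_const (0:ℝ) v)
    simpa using this
  have h5 : (fun t : ℝ => S.xi (y + t • S.xi y v) v) = fun _ => S.xi y v := by
    funext t; exact hS.xi_T v t y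
  rw [h5] at h4
  exact h4.unique (hasDerivAt_const _ _)

theorem Straight.fderiv_xi_antisymm (hS : S.Straight) (v w : H) (y : E N) :
    fderiv ℝ S.xi y (S.xi y v) w = - fderiv ℝ S.xi y (S.xi y w) v := by
  have h := hS.fderiv_xi_self (v + w) y
  simp only [map_add, add_apply, hS.fderiv_xi_self] at h
  rw [zero_add, add_zero] at h
  rw [add_comm] at h
  exact eq_neg_of_add_eq_zero_left h

/-- Affine functions are weak solutions, smooth integrands. -/
theorem Straight.affine_weak_smooth (hS : S.Straight) {f : H → ℝ} (hf : ContDiff ℝ 2 f)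
    (ℓ : E N →L[ℝ] ℝ) {ψ : E N → ℝ} (hψ : ContDiff ℝ 1 ψ) (hc : HasCompactSupport ψ) :
    ∫ y, fderiv ℝ f (S.grad ℓ y) (S.grad ψ y) = 0 := by
  set b := stdOrthonormalBasis ℝ H with hb
  have hΓ : ∀ y, S.grad ℓ y = ∑ j, (ℓ (S.xi y (b j))) • b j := by
    intro y
    simp only [grad, ℓ.fderiv, hb]
  have hΓs : ContDiff ℝ ∞ (S.grad ℓ) := S.contDiff_grad (n := ⊤) ℓ.contDiff
  have hdf : ContDiff ℝ 1 (fderiv ℝ f) := hf.fderiv_right (by norm_num)
  set h : Fin (Module.finrank ℝ H) → E N → ℝ := fun i y => fderiv ℝ f (S.grad ℓ y) (b i) with hh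
  have hhs : ∀ i, ContDiff ℝ 1 (h i) := fun i =>
    (hdf.comp (hΓs.of_le (by exact_mod_cast le_top))).clm_apply contDiff_const
  -- derivative of the gradient of an affine function along the frame
  have hΓd : ∀ y v, fderiv ℝ (S.grad ℓ) y (S.xi y v) =
      ∑ j, (ℓ (fderiv ℝ S.xi y (S.xi y v) (b j))) • b j := by
    intro y v
    have h1 : HasFDerivAt S.xi (fderiv ℝ S.xi y) y :=
      (S.contDiff_xi.differentiable (by simp) _).hasFDerivAt
    have h2 : ∀ j, HasFDerivAt (fun y => (ℓ (S.xi y (b j))) • b j)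
        ((ℓ.comp ((fderiv ℝ S.xi y).flip (b j))).smulRight (b j)) y := by
      intro j
      have h3 : HasFDerivAt (fun y => S.xi y (b j)) ((fderiv ℝ S.xi y).flip (b j)) y := by
        have := h1.clm_apply (hasFDerivAt_const (b j) y)
        simpa using this
      exact (ℓ.hasFDerivAt.comp y h3).smul_const (b j)
    have h4 : HasFDerivAt (S.grad ℓ)
        (∑ j, ((ℓ.comp ((fderiv ℝ S.xi y).flip (b j))).smulRight (b j))) y := by
      have h5 : S.grad ℓ = fun y => ∑ j, (ℓ (S.xi y (b j))) • b j := by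
        funext y; exact hΓ y
      rw [h5]
      exact HasFDerivAt.fun_sum (fun j _ => h2 j)
    rw [h4.fderiv]
    simp
  have hhd : ∀ i y v, fderiv ℝ (h i) y (S.xi y v) =
      ∑ j, ℓ (fderiv ℝ S.xi y (S.xi y v) (b j)) *
        fderiv ℝ (fderiv ℝ f) (S.grad ℓ y) (b j) (b i) := by
    intro i y v
    have h1 : HasFDerivAt (fderiv ℝ f) (fderiv ℝ (fderiv ℝ f) (S.grad ℓ y)) (S.grad ℓ y) :=
      (hdf.differentiable one_ne_zero _).hasFDerivAt
    have h2 : HasFDerivAt (S.grad ℓ) (fderiv ℝ (S.grad ℓ) y) y :=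
      (hΓs.differentiable (by simp) _).hasFDerivAt
    have h3 := (h1.comp y h2).clm_apply (hasFDerivAt_const (b i) y)
    have h4 : (fun y => (fderiv ℝ f ∘ S.grad ℓ) y (b i)) = h i := rfl
    rw [h4] at h3
    rw [h3.fderiv]
    simp only [Function.comp, ContinuousLinearMap.comp_zero, zero_add,
      ContinuousLinearMap.flip_apply, ContinuousLinearMap.comp_apply]
    rw [hΓd, map_sum]
    simp
  -- expand the integrand
  have hexp : ∀ y, fderiv ℝ f (S.grad ℓ y) (S.grad ψ y) =
      ∑ i, h i y * fderiv ℝ ψ y (S.xi y (b i)) := by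
    intro y
    have e : S.grad ψ y = ∑ i, (fderiv ℝ ψ y (S.xi y (b i))) • b i := rfl
    rw [e, map_sum]
    apply Finset.sum_congr rfl
    intro i _
    rw [map_smul, smul_eq_mul, mul_comm]
  simp_rw [hexp]
  have c1 : ∀ i, Continuous (fun y => fderiv ℝ ψ y (S.xi y (b i))) := fun i =>
    (hψ.continuous_fderiv one_ne_zero).clm_apply (S.continuous_xi.clm_apply continuous_const)
  have s1 : ∀ i, HasCompactSupport (fun y => fderiv ℝ ψ y (S.xi y (b i))) := by
    intro i
    refine HasCompactSupport.intro hc (fun y hy => ?_)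
    have : fderiv ℝ ψ y = 0 := by
      have h1 := support_fderiv_subset ℝ (f := ψ)
      by_contra h
      exact hy (h1 h)
    rw [this]; simp
  rw [integral_finsetSum (f := fun i y => h i y * fderiv ℝ ψ y (S.xi y (b i))) _ (fun i _ =>
    ((hhs i).continuous.mul (c1 i)).integrable_of_hasCompactSupport (s1 i).mul_left)]
  simp_rw [fun i => S.integral_mul_fderiv_xi (hhs i) hψ hc (b i)]
  rw [Finset.sum_neg_distrib, ← integral_finsetSum]
  · have : ∀ y, ∑ i, fderiv ℝ (h i) y (S.xi y (b i)) * ψ y = 0 := by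
      intro y
      rw [← Finset.sum_mul]
      have hz : ∑ i, fderiv ℝ (h i) y (S.xi y (b i)) = 0 := by
        simp_rw [hhd]
        have hsymm : ∀ i j, fderiv ℝ (fderiv ℝ f) (S.grad ℓ y) (b j) (b i) =
            fderiv ℝ (fderiv ℝ f) (S.grad ℓ y) (b i) (b j) := by
          intro i j
          have := (hf.contDiffAt (x := S.grad ℓ y)).isSymmSndFDerivAt (by simp)
          exact this (b j) (b i)
        have hanti : ∀ i j, ℓ (fderiv ℝ S.xi y (S.xi y (b i)) (b j)) =
            - ℓ (fderiv ℝ S.xi y (S.xi y (b j)) (b i)) := by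
          intro i j
          rw [hS.fderiv_xi_antisymm, map_neg]
        set s := ∑ i, ∑ j, ℓ (fderiv ℝ S.xi y (S.xi y (b i)) (b j)) *
          fderiv ℝ (fderiv ℝ f) (S.grad ℓ y) (b j) (b i) with hs
        have h1 : s = -s := by
          conv_lhs => rw [hs, Finset.sum_comm]
          rw [hs, ← Finset.sum_neg_distrib]
          apply Finset.sum_congr rfl
          intro i _
          rw [← Finset.sum_neg_distrib]
          apply Finset.sum_congr rfl
          intro j _
          rw [hanti j i, hsymm i j]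
          ring
        linarith
      rw [hz, zero_mul]
    simp_rw [this]
    simp
  · intro i _
    have c2 : Continuous (fun y => fderiv ℝ (h i) y (S.xi y (b i))) :=
      ((hhs i).continuous_fderiv one_ne_zero).clm_apply
        (S.continuous_xi.clm_apply continuous_const)
    exact (c2.mul hψ.continuous).integrable_of_hasCompactSupport hc.mul_left

/-- Affine functions are weak solutions, for every `C¹` integrand. -/
theorem Straight.affine_weak (hS : S.Straight) {f : H → ℝ} (hf : ContDiff ℝ 1 f)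
    (ℓ : E N →L[ℝ] ℝ) {ψ : E N → ℝ} (hψ : ContDiff ℝ 1 ψ) (hc : HasCompactSupport ψ) :
    ∫ y, fderiv ℝ f (S.grad ℓ y) (S.grad ψ y) = 0 := by
  let _ : MeasurableSpace H := borel H
  have _ : BorelSpace H := ⟨rfl⟩
  have hΓs : ContDiff ℝ ∞ (S.grad ℓ) := S.contDiff_grad (n := ⊤) ℓ.contDiff
  have hgc : Continuous (S.grad ψ) := S.continuous_grad hψ
  have hgs : HasCompactSupport (S.grad ψ) := S.hasCompactSupport_grad hc
  -- a ball containing the values of the gradient on the support of `ψ`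
  obtain ⟨R, hR⟩ := (hc.isCompact.image hΓs.continuous).isBounded.subset_ball (0 : H)
  set R' := max R 1 with hR'
  have hR'pos : 0 < R' := lt_max_of_lt_right one_pos
  set χ : ContDiffBump (0 : H) := ⟨R', R' + 1, hR'pos, by linarith⟩ with hχ
  set F : H → ℝ := fun x => χ x * f x with hF
  have hFs : ContDiff ℝ 1 F := (χ.contDiff).mul hf
  have hFc : HasCompactSupport F := χ.hasCompactSupport.mul_right
  have hFeq : ∀ y ∈ tsupport ψ, fderiv ℝ F (S.grad ℓ y) = fderiv ℝ f (S.grad ℓ y) := by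
    intro y hy
    have h1 : S.grad ℓ y ∈ Metric.ball (0 : H) R' :=
      Metric.ball_subset_ball (le_max_left _ _) (hR ⟨y, hy, rfl⟩)
    apply Filter.EventuallyEq.fderiv_eq
    filter_upwards [Metric.isOpen_ball.mem_nhds h1] with z hz
    have : χ z = 1 := χ.one_of_mem_closedBall (Metric.ball_subset_closedBall hz)
    simp [hF, this]
  have hcontint : ∀ g : H → ℝ, ContDiff ℝ 1 g →
      Integrable (fun y => fderiv ℝ g (S.grad ℓ y) (S.grad ψ y)) volume := by
    intro g hg
    have c : Continuous (fun y => fderiv ℝ g (S.grad ℓ y) (S.grad ψ y)) :=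
      ((hg.continuous_fderiv one_ne_zero).comp hΓs.continuous).clm_apply hgc
    apply c.integrable_of_hasCompactSupport
    refine HasCompactSupport.intro hc (fun y hy => ?_)
    rw [S.grad_eq_zero_of_notMem hy, map_zero]
  have heq : ∫ y, fderiv ℝ f (S.grad ℓ y) (S.grad ψ y) =
      ∫ y, fderiv ℝ F (S.grad ℓ y) (S.grad ψ y) := by
    apply integral_congr_ae
    refine Eventually.of_forall fun y => ?_
    by_cases hy : y ∈ tsupport ψ
    · simp only [hFeq y hy]
    · simp only [S.grad_eq_zero_of_notMem hy, map_zero]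
  rw [heq]
  have hI : Integrable (fun y => ‖S.grad ψ y‖) volume :=
    (hgc.integrable_of_hasCompactSupport hgs).norm
  set I := ∫ y, ‖S.grad ψ y‖ with hIdef
  have hI0 : 0 ≤ I := integral_nonneg fun _ => norm_nonneg _
  have hbound : ∀ ε : ℝ, 0 < ε → |∫ y, fderiv ℝ F (S.grad ℓ y) (S.grad ψ y)| ≤ ε * I := by
    intro ε hε
    obtain ⟨g, hg1, hg2, -, -, hg5⟩ := exists_smooth_approx hFs hFc hε
    have h0 := hS.affine_weak_smooth (f := g)
      (hg1.of_le (by norm_cast)) ℓ hψ hc
    have h1 : ∫ y, fderiv ℝ F (S.grad ℓ y) (S.grad ψ y) =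
        ∫ y, (fderiv ℝ F (S.grad ℓ y) (S.grad ψ y) - fderiv ℝ g (S.grad ℓ y) (S.grad ψ y)) := by
      rw [integral_sub (hcontint F hFs) (hcontint g (hg1.of_le (by exact_mod_cast le_top))), h0,
        sub_zero]
    rw [h1, ← Real.norm_eq_abs, hIdef, ← integral_const_mul]
    apply norm_integral_le_of_norm_le (hI.const_mul ε)
    refine Eventually.of_forall fun y => ?_
    rw [← sub_apply]
    refine (ContinuousLinearMap.le_opNorm _ _).trans ?_
    gcongr
    rw [norm_sub_rev]
    exact hg5 _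
  have h2 : |∫ y, fderiv ℝ F (S.grad ℓ y) (S.grad ψ y)| ≤ 0 := by
    refine le_of_forall_pos_le_add fun δ hδ => ?_
    have h3 := hbound (δ / (I + 1)) (by positivity)
    rw [zero_add]
    refine h3.trans ?_
    rw [div_mul_eq_mul_div, div_le_iff₀ (by positivity)]
    nlinarith
  exact abs_eq_zero.1 (le_antisymm h2 (abs_nonneg _))

end Sys

end Pool.Agent.Carnot
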