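import Mathlib
import Pool.Agent.Carnot.Weak
import Pool.Agent.Carnot.Mono

/-!
# Truncation function and `C¹` test functions
-/

namespace Pool.Agent.Carnot

open MeasureTheory Set Filter Topology
open scoped ContDiff ENNReal

/-- derivative of the truncation -/
noncomputable def g1 (s : ℝ) : ℝ := min (max s 0) 1

theorem g1_nonneg (s : ℝ) : 0 ≤ g1 s := le_min (le_max_right _ _) zero_le_one

theorem g1_le_one (s : ℝ) : g1 s ≤ 1 := min_le_right _ _

theorem continuous_g1 : Continuous g1 := by unfold g1; fun_prop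

theorem g1_of_nonpos {s : ℝ} (hs : s ≤ 0) : g1 s = 0 := by
  unfold g1; rw [max_eq_right hs]; exact min_eq_left zero_le_one

theorem g1_pos {s : ℝ} (hs : 0 < s) : 0 < g1 s := by
  unfold g1; rw [max_eq_left hs.le]; exact lt_min hs one_pos

/-- the truncation -/
noncomputable def Gf (s : ℝ) : ℝ := ∫ τ in (0:ℝ)..s, g1 τ

theorem hasDerivAt_Gf (s : ℝ) : HasDerivAt Gf (g1 s) s :=
  intervalIntegral.integral_hasDerivAt_right (continuous_g1.intervalIntegrable _ _)
    continuous_g1.stronglyMeasurable.stronglyMeasurableAtFilter continuous_g1.continuousAt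

theorem contDiff_Gf : ContDiff ℝ 1 Gf := by
  rw [contDiff_one_iff_deriv]
  refine ⟨fun s => (hasDerivAt_Gf s).differentiableAt, ?_⟩
  have : deriv Gf = g1 := by funext s; exact (hasDerivAt_Gf s).deriv
  rw [this]; exact continuous_g1

theorem Gf_of_nonpos {s : ℝ} (hs : s ≤ 0) : Gf s = 0 := by
  unfold Gf
  have : ∀ τ ∈ uIcc 0 s, g1 τ = 0 := by
    intro τ hτ
    rw [uIcc_of_ge hs] at hτ
    exact g1_of_nonpos hτ.2
  rw [intervalIntegral.integral_congr this]
  simp

theorem Gf_pos {s : ℝ} (hs : 0 < s) : 0 < Gf s := by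
  unfold Gf
  apply intervalIntegral.intervalIntegral_pos_of_pos_on (continuous_g1.intervalIntegrable _ _)
    _ hs
  intro x hx
  exact g1_pos hx.1

theorem Gf_sub_le (a b : ℝ) : |Gf a - Gf b| ≤ |a - b| := by
  unfold Gf
  rw [intervalIntegral.integral_interval_sub_left (continuous_g1.intervalIntegrable _ _)
    (continuous_g1.intervalIntegrable _ _)]
  have h := intervalIntegral.norm_integral_le_of_norm_le_const (C := 1) (f := g1) (a := b) (b := a)
    (fun x _ => by rw [Real.norm_of_nonneg (g1_nonneg x)]; exact g1_le_one x)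
  rw [Real.norm_eq_abs, one_mul] at h
  exact h

theorem g1_sub_le (a b : ℝ) : |g1 a - g1 b| ≤ 1 := by
  have h1 := g1_nonneg a
  have h2 := g1_nonneg b
  have h3 := g1_le_one a
  have h4 := g1_le_one b
  rw [abs_le]; constructor <;> linarith

theorem Gf_nonneg (s : ℝ) : 0 ≤ Gf s := by
  rcases le_or_gt s 0 with h | h
  · rw [Gf_of_nonpos h]
  · exact (Gf_pos h).le

/-- `C¹` functions with compact support in `D`. -/
structure IsTest1 {N : ℕ} (D : Set (E N)) (η : E N → ℝ) : Prop where
  smooth : ContDiff ℝ 1 η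
  compact : HasCompactSupport η
  support : tsupport η ⊆ D

theorem IsTest.isTest1 {N : ℕ} {D : Set (E N)} {η : E N → ℝ} (h : IsTest D η) : IsTest1 D η :=
  ⟨h.smooth.of_le (by norm_cast), h.compact, h.support⟩

theorem isTest1_indicator {N : ℕ} {D K : Set (E N)} (hD : IsOpen D) (hK : IsCompact K)
    (hKD : K ⊆ D) {h : E N → ℝ} (hh : ContDiffOn ℝ 1 h D) (h0 : ∀ x ∈ D \ K, h x = 0) :
    IsTest1 D (D.indicator h) := by
  have hsupp : Function.support (D.indicator h) ⊆ K := by
    intro x hx
    by_contra hxK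
    apply hx
    by_cases hxD : x ∈ D
    · rw [indicator_of_mem hxD]; exact h0 x ⟨hxD, hxK⟩
    · exact indicator_of_notMem hxD _
  have hts : tsupport (D.indicator h) ⊆ K := closure_minimal hsupp hK.isClosed
  refine ⟨?_, ?_, hts.trans hKD⟩
  · rw [contDiff_iff_contDiffAt]
    intro x
    by_cases hxD : x ∈ D
    · have h1 : ContDiffAt ℝ 1 h x := hh.contDiffAt (hD.mem_nhds hxD)
      refine h1.congr_of_eventuallyEq ?_
      filter_upwards [hD.mem_nhds hxD] with y hy
      exact indicator_of_mem hy _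
    · have hxK : x ∉ K := fun h => hxD (hKD h)
      have h1 : ContDiffAt ℝ 1 (fun _ : E N => (0:ℝ)) x := contDiffAt_const
      refine h1.congr_of_eventuallyEq ?_
      filter_upwards [hK.isClosed.isOpen_compl.mem_nhds hxK] with y hy
      by_contra hne
      exact hy (hsupp hne)
  · exact HasCompactSupport.of_support_subset_isCompact hK hsupp

namespace Sys

variable {N : ℕ} {H : Type} [NormedAddCommGroup H] [InnerProductSpace ℝ H]
  [FiniteDimensional ℝ H] (S : Sys N H)

/-- The weak equation extends from smooth to `C¹` test functions. -/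
theorem weak_test1 {Ω : Set (E N)} (hΩ : IsOpen Ω) (hb : Bornology.IsBounded Ω)
    {B : E N → H →L[ℝ] ℝ} (hB : Integrable B (volume.restrict Ω))
    (hweak : ∀ ψ, IsTest Ω ψ → ∫ x in Ω, B x (S.grad ψ x) = 0) {η : E N → ℝ}
    (hη : IsTest1 Ω η) : ∫ x in Ω, B x (S.grad η x) = 0 := by
  obtain ⟨d, hd, hdΩ⟩ := (hη.compact.isCompact).exists_cthickening_subset_open hΩ hη.support
  have hcl : IsCompact (closure Ω) := hb.isCompact_closure
  obtain ⟨C, hC⟩ := hcl.exists_bound_of_continuousOn (f := fun y => S.xi y)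
    S.continuous_xi.continuousOn
  have hC' : ∀ y ∈ Ω, ‖S.xi y‖ ≤ max C 0 := fun y hy =>
    (hC y (subset_closure hy)).trans (le_max_left _ _)
  set C' := max C 0 with hC'def
  have hC'0 : 0 ≤ C' := le_max_right _ _
  have hint : ∀ ψ : E N → ℝ, IsTest1 Ω ψ →
      Integrable (fun x => B x (S.grad ψ x)) (volume.restrict Ω) := by
    intro ψ hψ
    have hgc := S.continuous_grad hψ.smooth
    obtain ⟨M, hM⟩ := (S.hasCompactSupport_grad hψ.compact).exists_bound_of_continuous hgc
    refine Integrable.mono' (hB.norm.mul_const M) ?_ (Eventually.of_forall fun x => ?_)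
    · exact (ContinuousLinearMap.apply ℝ ℝ).isBoundedBilinearMap.continuous.comp_aestronglyMeasurable
          (hgc.aestronglyMeasurable.prodMk hB.1)
    · exact ((B x).le_opNorm _).trans (mul_le_mul_of_nonneg_left (hM x) (norm_nonneg _))
  set I := ∫ x in Ω, ‖B x‖ with hI
  have hI0 : 0 ≤ I := integral_nonneg fun _ => norm_nonneg _
  have hbound : ∀ ε : ℝ, 0 < ε → |∫ x in Ω, B x (S.grad η x)| ≤ ε * (C' * I) := by
    intro ε hε
    obtain ⟨η', h1, h2, h3, -, h5⟩ := exists_smooth_approx hη.smooth hη.compact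
      (lt_min hd hε)
    have hη' : IsTest Ω η' := ⟨h1, h2, (h3.trans
      (Metric.cthickening_mono (min_le_left _ _) _)).trans hdΩ⟩
    have h6 := hweak η' hη'
    have h7 : ∫ x in Ω, B x (S.grad η x) =
        ∫ x in Ω, (B x (S.grad η x) - B x (S.grad η' x)) := by
      rw [integral_sub (hint η hη) (hint η' hη'.isTest1), h6, sub_zero]
    rw [h7, ← Real.norm_eq_abs]
    have h8 : ε * (C' * I) = ∫ x in Ω, ‖B x‖ * (ε * C') := by
      rw [integral_mul_const, hI]; ring
    rw [h8]
    apply norm_integral_le_of_norm_le (hB.norm.mul_const _)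
    have hae : ∀ᵐ x ∂(volume.restrict Ω), x ∈ Ω := ae_restrict_mem hΩ.measurableSet
    filter_upwards [hae] with x hx
    rw [← map_sub]
    refine ((B x).le_opNorm _).trans (mul_le_mul_of_nonneg_left ?_ (norm_nonneg _))
    have h9 : S.grad η x - S.grad η' x = S.grad (fun y => η y - η' y) x :=
      (S.grad_sub (hη.smooth.differentiable one_ne_zero x)
        (h1.differentiable (by simp) x)).symm
    rw [h9]
    refine (S.norm_grad_le _ _).trans ?_
    have h10 : ‖fderiv ℝ (fun y => η y - η' y) x‖ ≤ ε := by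
      rw [fderiv_fun_sub (hη.smooth.differentiable one_ne_zero x)
        (h1.differentiable (by simp) x), norm_sub_rev]
      exact (h5 x).trans (min_le_right _ _)
    exact mul_le_mul h10 (hC' x hx) (norm_nonneg _) hε.le
  have h2 : |∫ x in Ω, B x (S.grad η x)| ≤ 0 := by
    refine le_of_forall_pos_le_add fun δ hδ => ?_
    have h3 := hbound (δ / (C' * I + 1)) (by positivity)
    rw [zero_add]
    refine h3.trans ?_
    rw [div_mul_eq_mul_div, div_le_iff₀ (by positivity)]
    nlinarith [mul_nonneg hC'0 hI0]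
  exact abs_eq_zero.1 (le_antisymm h2 (abs_nonneg _))

end Sys

end Pool.Agent.Carnot
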