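import Mathlib
import Pool.Agent.Carnot.Trunc

/-!
# The comparison principle
-/

namespace Pool.Agent.Carnot

open MeasureTheory Set Filter Topology
open scoped ContDiff ENNReal

theorem tendsto_eLpNorm_one {α : Type*} [MeasurableSpace α] {μ : Measure α} [IsFiniteMeasure μ]
    {F : Type*} [NormedAddCommGroup F] {p : ℝ} (hp : 1 < p) {V : ℕ → α → F}
    (hV : ∀ n, AEStronglyMeasurable (V n) μ)
    (h : Tendsto (fun n => eLpNorm (V n) (ENNReal.ofReal p) μ) atTop (𝓝 0)) :
    Tendsto (fun n => eLpNorm (V n) 1 μ) atTop (𝓝 0) := by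
  have hle : ∀ n, eLpNorm (V n) 1 μ ≤ eLpNorm (V n) (ENNReal.ofReal p) μ *
      μ univ ^ (1 / (1 : ℝ≥0∞).toReal - 1 / (ENNReal.ofReal p).toReal) := fun n =>
    eLpNorm_le_eLpNorm_mul_rpow_measure_univ (by
      rw [← ENNReal.ofReal_one]; exact ENNReal.ofReal_le_ofReal hp.le) (hV n)
  have h0 : Tendsto (fun n => eLpNorm (V n) (ENNReal.ofReal p) μ *
      μ univ ^ (1 / (1 : ℝ≥0∞).toReal - 1 / (ENNReal.ofReal p).toReal)) atTop (𝓝 0) := by
    have hnt : μ univ ^ (1 / (1 : ℝ≥0∞).toReal - 1 / (ENNReal.ofReal p).toReal) ≠ ⊤ := by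
      apply ENNReal.rpow_ne_top_of_nonneg _ (measure_ne_top μ _)
      rw [ENNReal.toReal_one, ENNReal.toReal_ofReal (by linarith), one_div_one, sub_nonneg,
        div_le_one (by linarith)]
      exact hp.le
    have := ENNReal.Tendsto.mul_const h (Or.inr hnt)
    simpa using this
  exact tendsto_of_tendsto_of_tendsto_of_le_of_le tendsto_const_nhds h0 (fun n => zero_le) hle

namespace Sys

variable {N : ℕ} {H : Type} [NormedAddCommGroup H] [InnerProductSpace ℝ H]
  [FiniteDimensional ℝ H] (S : Sys N H)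

theorem comparison_aux_sub {v₀ : H} {ℓ : E N → ℝ} (hℓc : Continuous ℓ)
    (hℓ : ∀ (t : ℝ) y, ℓ (S.T (t • v₀) y) = ℓ y + t)
    {p δ lam Lam : ℝ} {f : H → ℝ} (hf : IsStructured p δ lam Lam f)
    {D : Set (E N)} (hD : MeasurableSet D) (hDb : Bornology.IsBounded D)
    {U₁ U₂ : E N → H} (hU₁ : MemLp U₁ (ENNReal.ofReal p) (volume.restrict D))
    (hU₂ : MemLp U₂ (ENNReal.ofReal p) (volume.restrict D))
    (hw : ∀ η, IsTest1 D η → (∀ x, 0 ≤ η x) →
      ∫ x in D, (fderiv ℝ f (U₁ x) - fderiv ℝ f (U₂ x)) (S.grad η x) ≤ 0)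
    {v g : E N → ℝ} (hvm : AEStronglyMeasurable v (volume.restrict D))
    (hgm : AEStronglyMeasurable g (volume.restrict D)) (hg0 : ∀ x, 0 ≤ g x) (hg1 : ∀ x, g x ≤ 1)
    {η : ℕ → E N → ℝ} (hη : ∀ n, IsTest1 D (η n)) (hηnn : ∀ n x, 0 ≤ η n x)
    (h1 : Tendsto (fun n => eLpNorm (fun x => v x - η n x) 1 (volume.restrict D)) atTop (𝓝 0))
    (h2 : Tendsto (fun n => eLpNorm (fun x => g x • (U₁ x - U₂ x) - S.grad (η n) x)
      (ENNReal.ofReal p) (volume.restrict D)) atTop (𝓝 0)) :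
    ∀ᵐ x ∂(volume.restrict D), v x = 0 := by
  have hp := hf.one_lt_p
  set μ := (volume : Measure (E N)).restrict D with hμ
  have hfin : IsFiniteMeasure μ := by
    constructor
    rw [hμ, Measure.restrict_apply_univ]
    exact hDb.measure_lt_top
  set V : E N → H := fun x => g x • (U₁ x - U₂ x) with hV
  set B : E N → H →L[ℝ] ℝ := fun x => fderiv ℝ f (U₁ x) - fderiv ℝ f (U₂ x) with hB
  have hB₁ := hf.memLp_fderiv hU₁
  have hB₂ := hf.memLp_fderiv hU₂
  have hBL : MemLp B (ENNReal.ofReal (p / (p - 1))) μ := hB₁.sub hB₂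
  have hVL : MemLp V (ENNReal.ofReal p) μ := by
    refine MemLp.of_le (hU₁.sub hU₂) (hgm.smul (hU₁.sub hU₂).1) (Eventually.of_forall fun x => ?_)
    simp only [hV, Pi.sub_apply]
    rw [norm_smul, Real.norm_of_nonneg (hg0 x)]
    exact mul_le_of_le_one_left (norm_nonneg _) (hg1 x)
  have hgL : ∀ n, MemLp (S.grad (η n)) (ENNReal.ofReal p) μ := by
    intro n
    have hc := S.continuous_grad (hη n).smooth
    exact (hc.memLp_of_hasCompactSupport (S.hasCompactSupport_grad (hη n).compact)).restrict D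
  have hlim := tendsto_integral_pairing hp hBL hVL hgL h2
  have hpint : ∀ {A : E N → H →L[ℝ] ℝ} {W : E N → H},
      MemLp A (ENNReal.ofReal (p / (p - 1))) μ → MemLp W (ENNReal.ofReal p) μ →
      Integrable (fun x => A x (W x)) μ := by
    intro A W hA hW
    have := holderTriple_of_one_lt hp
    have h1 : MemLp (fun x => A x (W x)) 1 μ :=
      MemLp.of_bilin (fun (L : H →L[ℝ] ℝ) (v : H) => L v) 1 hA hW
        ((ContinuousLinearMap.apply ℝ ℝ).isBoundedBilinearMap.continuous.comp_aestronglyMeasurable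
          (hW.1.prodMk hA.1))
        (Eventually.of_forall fun x => by
          have := (A x).le_opNorm (W x)
          rw [one_mul]
          exact_mod_cast this)
    exact memLp_one_iff_integrable.1 h1
  have hz : ∀ n, ∫ x, B x (S.grad (η n) x) ∂μ ≤ 0 := fun n => hw _ (hη n) (hηnn n)
  have hle0 : ∫ x, B x (V x) ∂μ ≤ 0 := le_of_tendsto' hlim hz
  have hnn : ∀ x, 0 ≤ B x (V x) := by
    intro x
    simp only [hB, hV, map_smul, smul_eq_mul]
    apply mul_nonneg (hg0 x)
    by_cases hx : U₁ x = U₂ x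
    · simp [hx]
    · exact (hf.strict_mono hx).le
  have hzero : ∫ x, B x (V x) ∂μ = 0 := le_antisymm hle0 (integral_nonneg hnn)
  have hBV : ∀ᵐ x ∂μ, B x (V x) = 0 := by
    have := (integral_eq_zero_iff_of_nonneg hnn (hpint hBL hVL)).1 hzero
    exact this
  have hV0 : ∀ᵐ x ∂μ, V x = 0 := by
    filter_upwards [hBV] with x hx
    simp only [hB, hV, map_smul, smul_eq_mul] at hx ⊢
    rcases mul_eq_zero.1 hx with h | h
    · rw [h, zero_smul]
    · by_cases hxx : U₁ x = U₂ x
      · simp [hxx]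
      · exact absurd h (hf.strict_mono hxx).ne'
  -- the gradients tend to zero
  have hg0lim : Tendsto (fun n => eLpNorm (S.grad (η n)) (ENNReal.ofReal p) μ) atTop (𝓝 0) := by
    refine h2.congr fun n => ?_
    rw [← eLpNorm_neg (f := S.grad (η n))]
    apply eLpNorm_congr_ae
    filter_upwards [hV0] with x hx
    simp only [hV] at hx
    rw [hx, zero_sub]
    rfl
  have hg1lim : Tendsto (fun n => eLpNorm (S.grad (η n)) 1 μ) atTop (𝓝 0) :=
    tendsto_eLpNorm_one hp (fun n => (hgL n).1) hg0lim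
  -- Poincaré
  obtain ⟨R, hR⟩ := hDb.isCompact_closure.exists_bound_of_continuousOn hℓc.continuousOn
  have hR' : ∀ y ∈ D, |ℓ y| ≤ max R 0 := fun y hy => by
    have := hR y (subset_closure hy)
    rw [Real.norm_eq_abs] at this
    exact this.trans (le_max_left _ _)
  set C : ℝ≥0∞ := ENNReal.ofReal (2 * max R 0 + 1) * ‖v₀‖ₑ with hC
  have hCt : C ≠ ⊤ := ENNReal.mul_ne_top ENNReal.ofReal_ne_top enorm_ne_top
  have hpoin : ∀ n, eLpNorm (η n) 1 μ ≤ C * eLpNorm (S.grad (η n)) 1 μ := by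
    intro n
    have h3 := S.poincare hℓ (le_max_right R 0) (hη n).smooth (fun y hy =>
      hR' y ((hη n).support (subset_tsupport _ hy)))
    rw [eLpNorm_one_eq_lintegral_enorm, eLpNorm_one_eq_lintegral_enorm]
    have h4 : ∫⁻ x, ‖η n x‖ₑ ∂μ ≤ ∫⁻ x, ‖η n x‖ₑ :=
      lintegral_mono' Measure.restrict_le_self le_rfl
    have h5 : ∫⁻ y, ‖fderiv ℝ (η n) y (S.xi y v₀)‖ₑ ≤ ‖v₀‖ₑ * ∫⁻ y, ‖S.grad (η n) y‖ₑ ∂μ := by
      have h6 : ∫⁻ y, ‖S.grad (η n) y‖ₑ ∂μ = ∫⁻ y, ‖S.grad (η n) y‖ₑ := by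
        rw [hμ, ← lintegral_indicator hD]
        apply lintegral_congr
        intro y
        by_cases hy : y ∈ D
        · rw [indicator_of_mem hy]
        · rw [indicator_of_notMem hy, S.grad_eq_zero_of_notMem (fun h => hy ((hη n).support h)),
            enorm_zero]
      rw [h6, ← lintegral_const_mul' _ _ enorm_ne_top]
      apply lintegral_mono
      intro y
      show ‖fderiv ℝ (η n) y (S.xi y v₀)‖ₑ ≤ ‖v₀‖ₑ * ‖S.grad (η n) y‖ₑ
      rw [← S.inner_grad]
      have h7 : ‖inner ℝ (S.grad (η n) y) v₀‖ ≤ ‖v₀‖ * ‖S.grad (η n) y‖ := by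
        rw [mul_comm]; exact norm_inner_le_norm _ _
      have h8 : ‖inner ℝ (S.grad (η n) y) v₀‖ₑ ≤ ‖(‖v₀‖ * ‖S.grad (η n) y‖ : ℝ)‖ₑ := by
        rw [enorm_le_iff_norm_le]
        exact h7.trans (Real.le_norm_self _)
      rw [enorm_mul, enorm_norm, enorm_norm] at h8
      exact h8
    calc ∫⁻ x, ‖η n x‖ₑ ∂μ ≤ ∫⁻ x, ‖η n x‖ₑ := h4
      _ ≤ _ := h3
      _ ≤ ENNReal.ofReal (2 * max R 0 + 1) * (‖v₀‖ₑ * ∫⁻ y, ‖S.grad (η n) y‖ₑ ∂μ) := by
          gcongr
      _ = _ := by rw [hC, mul_assoc]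
  have hηlim : Tendsto (fun n => eLpNorm (η n) 1 μ) atTop (𝓝 0) := by
    have h0 : Tendsto (fun n => C * eLpNorm (S.grad (η n)) 1 μ) atTop (𝓝 0) := by
      have := ENNReal.Tendsto.const_mul (a := C) hg1lim (Or.inr hCt)
      simpa using this
    exact tendsto_of_tendsto_of_tendsto_of_le_of_le tendsto_const_nhds h0 (fun n => zero_le) hpoin
  have hv0 : eLpNorm v 1 μ = 0 := by
    have hle : ∀ n, eLpNorm v 1 μ ≤ eLpNorm (fun x => v x - η n x) 1 μ + eLpNorm (η n) 1 μ := by
      intro n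
      have hηm : AEStronglyMeasurable (η n) μ := (hη n).smooth.continuous.aestronglyMeasurable
      have h3 := eLpNorm_add_le (hvm.sub hηm) hηm (le_refl (1 : ℝ≥0∞))
      have h4 : v - η n + η n = v := sub_add_cancel _ _
      rw [h4] at h3
      exact h3
    have h3 : Tendsto (fun n => eLpNorm (fun x => v x - η n x) 1 μ + eLpNorm (η n) 1 μ) atTop
        (𝓝 (0 + 0)) := h1.add hηlim
    rw [add_zero] at h3
    exact le_antisymm (ge_of_tendsto' h3 hle) zero_le
  exact (eLpNorm_eq_zero_iff hvm one_ne_zero).1 hv0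

/-- Comparison principle: a weak sub- and a weak supersolution which are limits of `C¹(D)`
functions, ordered near the boundary, are ordered. -/
theorem comparison_sub {v₀ : H} {ℓ : E N → ℝ} (hℓc : Continuous ℓ)
    (hℓ : ∀ (t : ℝ) y, ℓ (S.T (t • v₀) y) = ℓ y + t)
    {p δ lam Lam : ℝ} {f : H → ℝ} (hf : IsStructured p δ lam Lam f)
    {D : Set (E N)} (hDo : IsOpen D) (hDb : Bornology.IsBounded D)
    {u₁ u₂ : E N → ℝ} {U₁ U₂ : E N → H}
    (hu₁ : MemLp u₁ (ENNReal.ofReal p) (volume.restrict D))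
    (hu₂ : MemLp u₂ (ENNReal.ofReal p) (volume.restrict D))
    (hU₁ : MemLp U₁ (ENNReal.ofReal p) (volume.restrict D))
    (hU₂ : MemLp U₂ (ENNReal.ofReal p) (volume.restrict D))
    {w₁ w₂ : ℕ → E N → ℝ} (hw₁ : ∀ n, ContDiffOn ℝ 1 (w₁ n) D)
    (hw₂ : ∀ n, ContDiffOn ℝ 1 (w₂ n) D)
    (hl₁ : Tendsto (fun n => eLpNorm (fun x => u₁ x - w₁ n x) (ENNReal.ofReal p)
      (volume.restrict D)) atTop (𝓝 0))
    (hl₂ : Tendsto (fun n => eLpNorm (fun x => u₂ x - w₂ n x) (ENNReal.ofReal p)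
      (volume.restrict D)) atTop (𝓝 0))
    (hL₁ : Tendsto (fun n => eLpNorm (fun x => U₁ x - S.grad (w₁ n) x) (ENNReal.ofReal p)
      (volume.restrict D)) atTop (𝓝 0))
    (hL₂ : Tendsto (fun n => eLpNorm (fun x => U₂ x - S.grad (w₂ n) x) (ENNReal.ofReal p)
      (volume.restrict D)) atTop (𝓝 0))
    (hweak : ∀ η, IsTest1 D η → (∀ x, 0 ≤ η x) →
      ∫ x in D, (fderiv ℝ f (U₁ x) - fderiv ℝ f (U₂ x)) (S.grad η x) ≤ 0)
    {χ : E N → ℝ} (hχ : ContDiff ℝ 1 χ) (hχ0 : ∀ x, 0 ≤ χ x) (hχ1 : ∀ x, χ x ≤ 1) {m : ℝ}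
    (hK : ∀ n, ∃ K, IsCompact K ∧ K ⊆ D ∧ ∀ x ∈ D \ K, χ x = 0 ∨ w₁ n x - w₂ n x ≤ m)
    (hχm : ∀ᵐ x ∂(volume.restrict D), χ x = 1 ∨ u₁ x - u₂ x ≤ m) :
    ∀ᵐ x ∂(volume.restrict D), u₁ x - u₂ x ≤ m := by
  have hp := hf.one_lt_p
  have hp1 : (1 : ℝ≥0∞) ≤ ENNReal.ofReal p := by
    rw [← ENNReal.ofReal_one]; exact ENNReal.ofReal_le_ofReal hp.le
  have hD : MeasurableSet D := hDo.measurableSet
  set μ := (volume : Measure (E N)).restrict D with hμ
  have hfin : IsFiniteMeasure μ := by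
    constructor
    rw [hμ, Measure.restrict_apply_univ]
    exact hDb.measure_lt_top
  set w : E N → ℝ := fun x => u₁ x - u₂ x with hw
  set W : E N → H := fun x => U₁ x - U₂ x with hW
  have hwL : MemLp w (ENNReal.ofReal p) μ := hu₁.sub hu₂
  have hWL : MemLp W (ENNReal.ofReal p) μ := hU₁.sub hU₂
  set z : ℕ → E N → ℝ := fun n x => w₁ n x - w₂ n x with hz
  have hzc : ∀ n, ContDiffOn ℝ 1 (z n) D := fun n => (hw₁ n).sub (hw₂ n)
  have hzm : ∀ n, AEStronglyMeasurable (z n) μ := fun n =>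
    (hzc n).continuousOn.aestronglyMeasurable hD
  -- gradients of the differences
  have hzg : ∀ n, ∀ x ∈ D, S.grad (z n) x = S.grad (w₁ n) x - S.grad (w₂ n) x := by
    intro n x hx
    exact S.grad_sub (((hw₁ n).contDiffAt (hDo.mem_nhds hx)).differentiableAt one_ne_zero)
      (((hw₂ n).contDiffAt (hDo.mem_nhds hx)).differentiableAt one_ne_zero)
  have hzlim : Tendsto (fun n => eLpNorm (fun x => w x - z n x) (ENNReal.ofReal p) μ)
      atTop (𝓝 0) := by
    have h1 := hl₁.add hl₂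
    rw [add_zero] at h1
    refine tendsto_of_tendsto_of_tendsto_of_le_of_le tendsto_const_nhds h1 (fun n => zero_le)
      (fun n => ?_)
    have h2 : (fun x => w x - z n x) = (fun x => u₁ x - w₁ n x) - (fun x => u₂ x - w₂ n x) := by
      funext x; simp only [hw, hz, Pi.sub_apply]; ring
    rw [h2]
    apply eLpNorm_sub_le _ _ hp1
    · exact hu₁.1.sub ((hw₁ n).continuousOn.aestronglyMeasurable hD)
    · exact hu₂.1.sub ((hw₂ n).continuousOn.aestronglyMeasurable hD)
  have hgm : ∀ {w : E N → ℝ}, ContDiffOn ℝ 1 w D → AEStronglyMeasurable (S.grad w) μ := by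
    intro w hw
    have h1 : ContinuousOn (S.grad w) D := by
      unfold grad
      apply continuousOn_finsetSum
      intro i _
      have h2 : ContinuousOn (fderiv ℝ w) D := hw.continuousOn_fderiv_of_isOpen hDo le_rfl
      exact (h2.clm_apply (S.continuous_xi.clm_apply continuous_const).continuousOn).smul
        continuousOn_const
    exact h1.aestronglyMeasurable hD
  have hZlim : Tendsto (fun n => eLpNorm (fun x => W x - S.grad (z n) x) (ENNReal.ofReal p) μ)
      atTop (𝓝 0) := by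
    have h1 := hL₁.add hL₂
    rw [add_zero] at h1
    refine tendsto_of_tendsto_of_tendsto_of_le_of_le tendsto_const_nhds h1 (fun n => zero_le)
      (fun n => ?_)
    have h2 : eLpNorm (fun x => W x - S.grad (z n) x) (ENNReal.ofReal p) μ =
        eLpNorm ((fun x => U₁ x - S.grad (w₁ n) x) - (fun x => U₂ x - S.grad (w₂ n) x))
          (ENNReal.ofReal p) μ := by
      apply eLpNorm_congr_ae
      filter_upwards [ae_restrict_mem hD] with x hx
      rw [hzg n x hx]
      simp only [hW, Pi.sub_apply]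
      abel
    rw [h2]
    apply eLpNorm_sub_le _ _ hp1
    · exact hU₁.1.sub (hgm (hw₁ n))
    · exact hU₂.1.sub (hgm (hw₂ n))
  -- an almost everywhere convergent subsequence
  have hmeas : TendstoInMeasure μ z atTop w := by
    apply tendstoInMeasure_of_tendsto_eLpNorm (p := ENNReal.ofReal p)
      (ENNReal.ofReal_pos.2 (by linarith)).ne' hzm hwL.1
    refine hzlim.congr fun n => ?_
    rw [← eLpNorm_neg]
    congr 1
    funext x
    simp
  obtain ⟨ns, hns, hae⟩ := hmeas.exists_seq_tendsto_ae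
  have hzlim' := hzlim.comp hns.tendsto_atTop
  have hZlim' := hZlim.comp hns.tendsto_atTop
  -- the test functions
  set η : ℕ → E N → ℝ := fun k => D.indicator (fun x => χ x * Gf (z (ns k) x - m)) with hη
  have hinner : ∀ k, ContDiffOn ℝ 1 (fun x => χ x * Gf (z (ns k) x - m)) D := fun k =>
    hχ.contDiffOn.mul (contDiff_Gf.comp_contDiffOn ((hzc (ns k)).sub contDiffOn_const))
  have hηt : ∀ k, IsTest1 D (η k) := by
    intro k
    obtain ⟨K, hKc, hKD, hK0⟩ := hK (ns k)
    apply isTest1_indicator hDo hKc hKD (hinner k)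
    intro x hx
    rcases hK0 x hx with h | h
    · rw [h, zero_mul]
    · have : z (ns k) x - m ≤ 0 := by simp only [hz]; linarith
      rw [Gf_of_nonpos this, mul_zero]
  have hηg : ∀ k, ∀ x ∈ D, S.grad (η k) x =
      (χ x * g1 (z (ns k) x - m)) • S.grad (z (ns k)) x + Gf (z (ns k) x - m) • S.grad χ x := by
    intro k x hx
    have h1 : η k =ᶠ[𝓝 x] fun x => χ x * Gf (z (ns k) x - m) := by
      filter_upwards [hDo.mem_nhds hx] with y hy
      exact indicator_of_mem hy _
    have h2 : DifferentiableAt ℝ (z (ns k)) x :=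
      ((hzc (ns k)).contDiffAt (hDo.mem_nhds hx)).differentiableAt one_ne_zero
    have h3 : DifferentiableAt ℝ (fun x => z (ns k) x - m) x := h2.sub_const m
    have h4 : DifferentiableAt ℝ (fun x => Gf (z (ns k) x - m)) x :=
      DifferentiableAt.comp (g := Gf) x (hasDerivAt_Gf _).differentiableAt h3
    rw [S.grad_congr h1, S.grad_mul (hχ.differentiable one_ne_zero x) h4,
      S.grad_comp (hasDerivAt_Gf _) h3]
    have h5 : S.grad (fun x => z (ns k) x - m) x = S.grad (z (ns k)) x := by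
      simp only [grad, fderiv_sub_const]
    rw [h5, smul_smul]
  set v : E N → ℝ := fun x => χ x * Gf (w x - m) with hv
  set g : E N → ℝ := fun x => χ x * g1 (w x - m) with hg
  have hχm' : AEStronglyMeasurable χ μ := hχ.continuous.aestronglyMeasurable
  have hGm : ∀ {w : E N → ℝ}, AEStronglyMeasurable w μ →
      AEStronglyMeasurable (fun x => Gf (w x - m)) μ := fun hw =>
    contDiff_Gf.continuous.comp_aestronglyMeasurable (hw.sub aestronglyMeasurable_const)
  have hg1m : ∀ {w : E N → ℝ}, AEStronglyMeasurable w μ →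
      AEStronglyMeasurable (fun x => g1 (w x - m)) μ := fun hw =>
    continuous_g1.comp_aestronglyMeasurable (hw.sub aestronglyMeasurable_const)
  have hvm : AEStronglyMeasurable v μ := hχm'.mul (hGm hwL.1)
  have hgm' : AEStronglyMeasurable g μ := hχm'.mul (hg1m hwL.1)
  -- the gradient of `χ` is bounded on `D` and vanishes where `χ = 1`
  obtain ⟨C, hC⟩ := hDb.isCompact_closure.exists_bound_of_continuousOn
    (S.continuous_grad hχ).continuousOn
  have hC' : ∀ x ∈ D, ‖S.grad χ x‖ ≤ C := fun x hx => hC x (subset_closure hx)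
  have hχ1' : ∀ x, χ x = 1 → S.grad χ x = 0 := by
    intro x hx
    have h1 : IsLocalMax χ x := Eventually.of_forall fun y => by rw [hx]; exact hχ1 y
    simp [grad, h1.fderiv_eq_zero]
  have hvz : ∀ k, ∀ x ∈ D, ‖v x - η k x‖ ≤ ‖w x - z (ns k) x‖ := by
    intro k x hx
    have h1 : η k x = χ x * Gf (z (ns k) x - m) := indicator_of_mem hx _
    rw [h1]
    simp only [hv]
    rw [← mul_sub, norm_mul, Real.norm_of_nonneg (hχ0 x), Real.norm_eq_abs]
    refine (mul_le_of_le_one_left (abs_nonneg _) (hχ1 x)).trans ((Gf_sub_le _ _).trans ?_)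
    rw [Real.norm_eq_abs]
    apply le_of_eq
    congr 1; ring
  have h1 : Tendsto (fun k => eLpNorm (fun x => v x - η k x) 1 μ) atTop (𝓝 0) := by
    have h2 := tendsto_eLpNorm_one (μ := μ) hp (V := fun k x => w x - z (ns k) x)
      (fun k => hwL.1.sub (hzm (ns k))) hzlim'
    refine tendsto_of_tendsto_of_tendsto_of_le_of_le tendsto_const_nhds h2 (fun n => zero_le)
      (fun k => ?_)
    apply eLpNorm_mono_ae
    filter_upwards [ae_restrict_mem hD] with x hx
    exact hvz k x hx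
  have h2 : Tendsto (fun k => eLpNorm (fun x => g x • (U₁ x - U₂ x) - S.grad (η k) x)
      (ENNReal.ofReal p) μ) atTop (𝓝 0) := by
    -- the three terms
    set A : ℕ → E N → H := fun k x => (χ x * (g1 (w x - m) - g1 (z (ns k) x - m))) • W x with hA
    set B : ℕ → E N → H := fun k x =>
      (χ x * g1 (z (ns k) x - m)) • (W x - S.grad (z (ns k)) x) with hB
    set F : ℕ → E N → H := fun k x =>
      (Gf (w x - m) - Gf (z (ns k) x - m)) • S.grad χ x with hF
    have hAm : ∀ k, AEStronglyMeasurable (A k) μ := fun k =>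
      (hχm'.mul ((hg1m hwL.1).sub (hg1m (hzm (ns k))))).smul hWL.1
    have hBm : ∀ k, AEStronglyMeasurable (B k) μ := fun k =>
      (hχm'.mul (hg1m (hzm (ns k)))).smul (hWL.1.sub (hgm (hzc (ns k))))
    have hFm : ∀ k, AEStronglyMeasurable (F k) μ := fun k =>
      ((hGm hwL.1).sub (hGm (hzm (ns k)))).smul (S.continuous_grad hχ).aestronglyMeasurable
    have hAl : Tendsto (fun k => eLpNorm (A k) (ENNReal.ofReal p) μ) atTop (𝓝 0) := by
      apply tendsto_eLpNorm_zero_of_dominated hp hAm hWL.norm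
      · intro k
        refine Eventually.of_forall fun x => ?_
        rw [hA]
        simp only
        rw [norm_smul, norm_mul, Real.norm_of_nonneg (hχ0 x), Real.norm_eq_abs]
        have h3 := g1_sub_le (w x - m) (z (ns k) x - m)
        have h4 := abs_nonneg (g1 (w x - m) - g1 (z (ns k) x - m))
        have h5 : χ x * |g1 (w x - m) - g1 (z (ns k) x - m)| ≤ 1 :=
          (mul_le_of_le_one_left h4 (hχ1 x)).trans h3
        exact mul_le_of_le_one_left (norm_nonneg _) h5
      · filter_upwards [hae] with x hx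
        have h3 : Tendsto (fun k => g1 (z (ns k) x - m)) atTop (𝓝 (g1 (w x - m))) :=
          (continuous_g1.tendsto _).comp (hx.sub_const m)
        have h4 : Tendsto (fun k => (χ x * (g1 (w x - m) - g1 (z (ns k) x - m))) • W x) atTop
            (𝓝 ((χ x * (g1 (w x - m) - g1 (w x - m))) • W x)) :=
          ((h3.const_sub _).const_mul _).smul_const _
        rw [sub_self, mul_zero, zero_smul] at h4
        exact h4
    have hBl : Tendsto (fun k => eLpNorm (B k) (ENNReal.ofReal p) μ) atTop (𝓝 0) := by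
      refine tendsto_of_tendsto_of_tendsto_of_le_of_le tendsto_const_nhds hZlim'
        (fun n => zero_le) (fun k => ?_)
      apply eLpNorm_mono_ae
      refine Eventually.of_forall fun x => ?_
      simp only [hB]
      rw [norm_smul, norm_mul, Real.norm_of_nonneg (hχ0 x), Real.norm_of_nonneg (g1_nonneg _)]
      refine mul_le_of_le_one_left (norm_nonneg _) ?_
      exact mul_le_one₀ (hχ1 x) (g1_nonneg _) (g1_le_one _)
    have hFl : Tendsto (fun k => eLpNorm (F k) (ENNReal.ofReal p) μ) atTop (𝓝 0) := by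
      have h3 : Tendsto (fun k => ENNReal.ofReal C *
          eLpNorm (fun x => w x - z (ns k) x) (ENNReal.ofReal p) μ) atTop (𝓝 0) := by
        have := ENNReal.Tendsto.const_mul (a := ENNReal.ofReal C) hzlim'
          (Or.inr ENNReal.ofReal_ne_top)
        simpa using this
      refine tendsto_of_tendsto_of_tendsto_of_le_of_le tendsto_const_nhds h3
        (fun n => zero_le) (fun k => ?_)
      apply eLpNorm_le_mul_eLpNorm_of_ae_le_mul
      filter_upwards [ae_restrict_mem hD] with x hx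
      simp only [hF]
      rw [norm_smul, Real.norm_eq_abs]
      have h4 := Gf_sub_le (w x - m) (z (ns k) x - m)
      have h5 : w x - m - (z (ns k) x - m) = w x - z (ns k) x := by ring
      rw [h5] at h4
      rw [mul_comm]
      exact mul_le_mul (hC' x hx) h4 (abs_nonneg _) ((norm_nonneg _).trans (hC' x hx))
    have h6 := (hAl.add hBl).add hFl
    rw [add_zero, add_zero] at h6
    refine tendsto_of_tendsto_of_tendsto_of_le_of_le tendsto_const_nhds h6
      (fun n => zero_le) (fun k => ?_)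
    have h7 : eLpNorm (fun x => g x • (U₁ x - U₂ x) - S.grad (η k) x) (ENNReal.ofReal p) μ =
        eLpNorm (A k + B k + F k) (ENNReal.ofReal p) μ := by
      apply eLpNorm_congr_ae
      filter_upwards [ae_restrict_mem hD, hχm] with x hx hx2
      rw [hηg k x hx]
      simp only [hA, hB, hF, Pi.add_apply, hg]
      have h8 : Gf (w x - m) • S.grad χ x = 0 := by
        rcases hx2 with h | h
        · rw [hχ1' x h, smul_zero]
        · have : w x - m ≤ 0 := by simp only [hw]; linarith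
          rw [Gf_of_nonpos this, zero_smul]
      rw [sub_smul (Gf (w x - m)), h8, zero_sub]
      have h9 : U₁ x - U₂ x = W x := rfl
      rw [h9]
      module
    rw [h7]
    refine (eLpNorm_add_le ((hAm k).add (hBm k)) (hFm k) hp1).trans ?_
    gcongr
    exact eLpNorm_add_le (hAm k) (hBm k) hp1
  have hηnn : ∀ k x, 0 ≤ η k x := by
    intro k x
    apply indicator_nonneg
    intro y _
    exact mul_nonneg (hχ0 y) (Gf_nonneg _)
  have hfinal := S.comparison_aux_sub hℓc hℓ hf hD hDb hU₁ hU₂ hweak hvm hgm'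
    (fun x => mul_nonneg (hχ0 x) (g1_nonneg _))
    (fun x => mul_le_one₀ (hχ1 x) (g1_nonneg _) (g1_le_one _)) hηt hηnn h1 h2
  filter_upwards [hfinal, hχm] with x hx hx2
  rcases hx2 with h | h
  · simp only [hv, h, one_mul] at hx
    by_contra hcon
    push Not at hcon
    have : 0 < w x - m := by simp only [hw]; linarith
    exact (Gf_pos this).ne' hx
  · exact h

/-- Comparison principle: two weak solutions which are limits of `C¹(D)` functions, ordered near
the boundary, are ordered. -/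
theorem comparison {v₀ : H} {ℓ : E N → ℝ} (hℓc : Continuous ℓ)
    (hℓ : ∀ (t : ℝ) y, ℓ (S.T (t • v₀) y) = ℓ y + t)
    {p δ lam Lam : ℝ} {f : H → ℝ} (hf : IsStructured p δ lam Lam f)
    {D : Set (E N)} (hDo : IsOpen D) (hDb : Bornology.IsBounded D)
    {u₁ u₂ : E N → ℝ} {U₁ U₂ : E N → H}
    (hu₁ : MemLp u₁ (ENNReal.ofReal p) (volume.restrict D))
    (hu₂ : MemLp u₂ (ENNReal.ofReal p) (volume.restrict D))
    (hU₁ : MemLp U₁ (ENNReal.ofReal p) (volume.restrict D))
    (hU₂ : MemLp U₂ (ENNReal.ofReal p) (volume.restrict D))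
    {w₁ w₂ : ℕ → E N → ℝ} (hw₁ : ∀ n, ContDiffOn ℝ 1 (w₁ n) D)
    (hw₂ : ∀ n, ContDiffOn ℝ 1 (w₂ n) D)
    (hl₁ : Tendsto (fun n => eLpNorm (fun x => u₁ x - w₁ n x) (ENNReal.ofReal p)
      (volume.restrict D)) atTop (𝓝 0))
    (hl₂ : Tendsto (fun n => eLpNorm (fun x => u₂ x - w₂ n x) (ENNReal.ofReal p)
      (volume.restrict D)) atTop (𝓝 0))
    (hL₁ : Tendsto (fun n => eLpNorm (fun x => U₁ x - S.grad (w₁ n) x) (ENNReal.ofReal p)
      (volume.restrict D)) atTop (𝓝 0))
    (hL₂ : Tendsto (fun n => eLpNorm (fun x => U₂ x - S.grad (w₂ n) x) (ENNReal.ofReal p)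
      (volume.restrict D)) atTop (𝓝 0))
    (hweak₁ : ∀ η, IsTest1 D η → ∫ x in D, fderiv ℝ f (U₁ x) (S.grad η x) = 0)
    (hweak₂ : ∀ η, IsTest1 D η → ∫ x in D, fderiv ℝ f (U₂ x) (S.grad η x) = 0)
    {χ : E N → ℝ} (hχ : ContDiff ℝ 1 χ) (hχ0 : ∀ x, 0 ≤ χ x) (hχ1 : ∀ x, χ x ≤ 1) {m : ℝ}
    (hK : ∀ n, ∃ K, IsCompact K ∧ K ⊆ D ∧ ∀ x ∈ D \ K, χ x = 0 ∨ w₁ n x - w₂ n x ≤ m)
    (hχm : ∀ᵐ x ∂(volume.restrict D), χ x = 1 ∨ u₁ x - u₂ x ≤ m) :
    ∀ᵐ x ∂(volume.restrict D), u₁ x - u₂ x ≤ m := by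
  apply S.comparison_sub hℓc hℓ hf hDo hDb hu₁ hu₂ hU₁ hU₂ hw₁ hw₂ hl₁ hl₂ hL₁ hL₂ _ hχ hχ0 hχ1
    hK hχm
  intro η hη _
  have hp := hf.one_lt_p
  have hfin : IsFiniteMeasure ((volume : Measure (E N)).restrict D) := by
    constructor
    rw [Measure.restrict_apply_univ]
    exact hDb.measure_lt_top
  have hpint : ∀ {A : E N → H →L[ℝ] ℝ} {W : E N → H},
      MemLp A (ENNReal.ofReal (p / (p - 1))) (volume.restrict D) →
      MemLp W (ENNReal.ofReal p) (volume.restrict D) →
      Integrable (fun x => A x (W x)) (volume.restrict D) := by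
    intro A W hA hW
    have := holderTriple_of_one_lt hp
    have h1 : MemLp (fun x => A x (W x)) 1 (volume.restrict D) :=
      MemLp.of_bilin (fun (L : H →L[ℝ] ℝ) (v : H) => L v) 1 hA hW
        ((ContinuousLinearMap.apply ℝ ℝ).isBoundedBilinearMap.continuous.comp_aestronglyMeasurable
          (hW.1.prodMk hA.1))
        (Eventually.of_forall fun x => by
          have := (A x).le_opNorm (W x)
          rw [one_mul]
          exact_mod_cast this)
    exact memLp_one_iff_integrable.1 h1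
  have hg : MemLp (S.grad η) (ENNReal.ofReal p) (volume.restrict D) :=
    ((S.continuous_grad hη.smooth).memLp_of_hasCompactSupport
      (S.hasCompactSupport_grad hη.compact)).restrict D
  simp only [sub_apply]
  rw [integral_sub (hpint (hf.memLp_fderiv hU₁) hg) (hpint (hf.memLp_fderiv hU₂) hg),
    hweak₁ _ hη, hweak₂ _ hη, sub_zero]

end Sys

end Pool.Agent.Carnot
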