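import Mathlib
import Pool.Agent.Carnot.Compare

/-!
# Weak solutions: affine functions, restriction, translation
-/

namespace Pool.Agent.Carnot

open MeasureTheory Set Filter Topology
open scoped ContDiff ENNReal

section basics

variable {N : ℕ} {H : Type} [NormedAddCommGroup H] [InnerProductSpace ℝ H]
  [FiniteDimensional ℝ H]

/-- A weak solution in `D`, together with an approximating sequence of `C¹(D)` functions. -/
structure Sol (S : Sys N H) (p : ℝ) (f : H → ℝ) (D : Set (E N)) (w : ℕ → E N → ℝ)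
    (u : E N → ℝ) (U : E N → H) : Prop where
  memLp : MemLp u (ENNReal.ofReal p) (volume.restrict D)
  memLp_grad : MemLp U (ENNReal.ofReal p) (volume.restrict D)
  contDiffOn : ∀ n, ContDiffOn ℝ 1 (w n) D
  lim : Tendsto (fun n => eLpNorm (fun x => u x - w n x) (ENNReal.ofReal p)
    (volume.restrict D)) atTop (𝓝 0)
  lim_grad : Tendsto (fun n => eLpNorm (fun x => U x - S.grad (w n) x) (ENNReal.ofReal p)
    (volume.restrict D)) atTop (𝓝 0)
  weak : ∀ η, IsTest1 D η → ∫ x in D, fderiv ℝ f (U x) (S.grad η x) = 0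

variable {S : Sys N H} {p δ lam Lam : ℝ} {f : H → ℝ}

theorem setIntegral_grad_eq {D : Set (E N)} (hD : MeasurableSet D) {η : E N → ℝ}
    (hη : tsupport η ⊆ D) (B : E N → H →L[ℝ] ℝ) :
    ∫ x in D, B x (S.grad η x) = ∫ x, B x (S.grad η x) := by
  rw [← integral_indicator hD]
  congr 1
  funext x
  by_cases hx : x ∈ D
  · rw [indicator_of_mem hx]
  · rw [indicator_of_notMem hx, S.grad_eq_zero_of_notMem (fun h => hx (hη h)), map_zero]

theorem memLp_of_continuous {F : Type*} [NormedAddCommGroup F] {D : Set (E N)}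
    (hDb : Bornology.IsBounded D) (hD : MeasurableSet D) {g : E N → F} (hg : Continuous g)
    (q : ℝ≥0∞) : MemLp g q (volume.restrict D) := by
  obtain ⟨C, hC⟩ := hDb.isCompact_closure.exists_bound_of_continuousOn hg.continuousOn
  have hfin : IsFiniteMeasure ((volume : Measure (E N)).restrict D) := by
    constructor
    rw [Measure.restrict_apply_univ]
    exact hDb.measure_lt_top
  apply MemLp.of_bound hg.aestronglyMeasurable C
  filter_upwards [ae_restrict_mem hD] with x hx
  exact hC x (subset_closure hx)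

/-- Affine functions are solutions. -/
theorem Sol.affine (hS : S.Straight) (hf : IsStructured p δ lam Lam f) {D : Set (E N)}
    (hDo : IsOpen D) (hDb : Bornology.IsBounded D) (ℓ : E N →L[ℝ] ℝ) (c : ℝ) :
    Sol S p f D (fun _ x => ℓ x + c) (fun x => ℓ x + c) (S.grad ℓ) := by
  have hg : ∀ x, S.grad (fun x => ℓ x + c) x = S.grad ℓ x := by
    intro x
    simp only [Sys.grad, fderiv_add_const]
  refine ⟨?_, ?_, ?_, ?_, ?_, ?_⟩
  · exact memLp_of_continuous hDb hDo.measurableSet (by fun_prop) _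
  · exact memLp_of_continuous hDb hDo.measurableSet (S.continuous_grad ℓ.contDiff) _
  · intro n
    exact (ℓ.contDiff.add contDiff_const).contDiffOn
  · simp
  · simp [hg]
  · intro η hη
    rw [setIntegral_grad_eq hDo.measurableSet hη.support]
    exact hS.affine_weak hf.contDiff ℓ hη.smooth hη.compact

/-- Restriction to an open subset. -/
theorem Sol.mono {D D' : Set (E N)} {w : ℕ → E N → ℝ} {u : E N → ℝ} {U : E N → H}
    (h : Sol S p f D w u U) (hD : MeasurableSet D) (hD' : MeasurableSet D') (hDD : D' ⊆ D) :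
    Sol S p f D' w u U := by
  have hle : (volume : Measure (E N)).restrict D' ≤ volume.restrict D :=
    Measure.restrict_mono hDD le_rfl
  refine ⟨h.memLp.mono_measure hle, h.memLp_grad.mono_measure hle,
    fun n => (h.contDiffOn n).mono hDD, ?_, ?_, ?_⟩
  · exact tendsto_of_tendsto_of_tendsto_of_le_of_le tendsto_const_nhds h.lim
      (fun n => zero_le) (fun n => eLpNorm_mono_measure _ hle)
  · exact tendsto_of_tendsto_of_tendsto_of_le_of_le tendsto_const_nhds h.lim_grad
      (fun n => zero_le) (fun n => eLpNorm_mono_measure _ hle)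
  · intro η hη
    have h1 := h.weak η ⟨hη.smooth, hη.compact, hη.support.trans hDD⟩
    rw [setIntegral_grad_eq hD (hη.support.trans hDD)] at h1
    rwa [setIntegral_grad_eq hD' hη.support]

/-- Comparison for solutions. -/
theorem Sol.comparison {v₀ : H} {ℓ : E N → ℝ} (hℓc : Continuous ℓ)
    (hℓ : ∀ (t : ℝ) y, ℓ (S.T (t • v₀) y) = ℓ y + t)
    (hf : IsStructured p δ lam Lam f) {D : Set (E N)} (hDo : IsOpen D)
    (hDb : Bornology.IsBounded D) {w₁ w₂ : ℕ → E N → ℝ} {u₁ u₂ : E N → ℝ} {U₁ U₂ : E N → H}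
    (h₁ : Sol S p f D w₁ u₁ U₁) (h₂ : Sol S p f D w₂ u₂ U₂)
    {χ : E N → ℝ} (hχ : ContDiff ℝ 1 χ) (hχ0 : ∀ x, 0 ≤ χ x) (hχ1 : ∀ x, χ x ≤ 1) {m : ℝ}
    (hK : ∀ n, ∃ K, IsCompact K ∧ K ⊆ D ∧ ∀ x ∈ D \ K, χ x = 0 ∨ w₁ n x - w₂ n x ≤ m)
    (hχm : ∀ᵐ x ∂(volume.restrict D), χ x = 1 ∨ u₁ x - u₂ x ≤ m) :
    ∀ᵐ x ∂(volume.restrict D), u₁ x - u₂ x ≤ m :=
  S.comparison hℓc hℓ hf hDo hDb h₁.memLp h₂.memLp h₁.memLp_grad h₂.memLp_grad
    h₁.contDiffOn h₂.contDiffOn h₁.lim h₂.lim h₁.lim_grad h₂.lim_grad h₁.weak h₂.weak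
    hχ hχ0 hχ1 hK hχm

end basics

/-- A transitive group of measure preserving symmetries of the flows (left translations). -/
structure LTrans {N : ℕ} {H : Type} [NormedAddCommGroup H] [InnerProductSpace ℝ H]
    (S : Sys N H) where
  /-- translation by `h` -/
  τ : E N → E N → E N
  /-- the `h` which translates `x` to `x'` -/
  κ : E N → E N → E N
  contDiff_τ : ContDiff ℝ ∞ (fun q : E N × E N => τ q.1 q.2)
  contDiff_κ : ContDiff ℝ ∞ (fun q : E N × E N => κ q.1 q.2)
  τ_zero : ∀ y, τ 0 y = y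
  κ_self : ∀ y, κ y y = 0
  τ_κ : ∀ x x', τ (κ x x') x = x'
  κ_τ : ∀ h x, κ x (τ h x) = h
  τ_neg : ∀ h y, τ (-h) (τ h y) = y
  comm : ∀ h v y, τ h (S.T v y) = S.T v (τ h y)
  mp : ∀ h, MeasurePreserving (τ h) volume volume
  mp' : ∀ x, MeasurePreserving (fun h => τ h x) volume volume

namespace LTrans

variable {N : ℕ} {H : Type} [NormedAddCommGroup H] [InnerProductSpace ℝ H]
  {S : Sys N H} (L : LTrans S)

theorem contDiff_τ_right (h : E N) : ContDiff ℝ ∞ (L.τ h) :=
  L.contDiff_τ.comp (contDiff_const.prodMk contDiff_id)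

theorem contDiff_τ_left (y : E N) : ContDiff ℝ ∞ (fun h => L.τ h y) :=
  L.contDiff_τ.comp (contDiff_id.prodMk contDiff_const)

theorem contDiff_κ_right (x : E N) : ContDiff ℝ ∞ (L.κ x) :=
  L.contDiff_κ.comp (contDiff_const.prodMk contDiff_id)

theorem τ_neg' (h y : E N) : L.τ h (L.τ (-h) y) = y := by
  have := L.τ_neg (-h) y
  rwa [neg_neg] at this

/-- translation as a homeomorphism -/
noncomputable def homeo (h : E N) : E N ≃ₜ E N where
  toFun := L.τ h
  invFun := L.τ (-h)
  left_inv := L.τ_neg h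
  right_inv := L.τ_neg' h
  continuous_toFun := (L.contDiff_τ_right h).continuous
  continuous_invFun := (L.contDiff_τ_right (-h)).continuous

/-- the orbit map at `x` as a homeomorphism -/
noncomputable def homeo' (x : E N) : E N ≃ₜ E N where
  toFun := fun h => L.τ h x
  invFun := L.κ x
  left_inv := fun h => L.κ_τ h x
  right_inv := fun x' => L.τ_κ x x'
  continuous_toFun := (L.contDiff_τ_left x).continuous
  continuous_invFun := (L.contDiff_κ_right x).continuous

theorem measurableEmbedding_τ (h : E N) : MeasurableEmbedding (L.τ h) :=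
  (L.homeo h).measurableEmbedding

theorem fderiv_τ_xi (h : E N) (v : H) (y : E N) :
    fderiv ℝ (L.τ h) y (S.xi y v) = S.xi (L.τ h y) v := by
  have h1 : HasFDerivAt (L.τ h) (fderiv ℝ (L.τ h) y) (S.T ((0:ℝ) • v) y) := by
    rw [zero_smul, S.T_zero]
    exact ((L.contDiff_τ_right h).differentiable (by simp) _).hasFDerivAt
  have h2 := h1.comp_hasDerivAt (0:ℝ) (S.hasDerivAt_T_zero v y)
  have h3 := S.hasDerivAt_T_zero v (L.τ h y)
  have h4 : (L.τ h ∘ fun t : ℝ => S.T (t • v) y) = fun t : ℝ => S.T (t • v) (L.τ h y) := by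
    funext t
    exact L.comm h _ y
  rw [h4] at h2
  exact h2.unique h3

variable [FiniteDimensional ℝ H]

theorem grad_comp_τ (h : E N) {w : E N → ℝ} {y : E N} (hw : DifferentiableAt ℝ w (L.τ h y)) :
    S.grad (fun x => w (L.τ h x)) y = S.grad w (L.τ h y) := by
  apply S.grad_eq_of_inner
  intro v
  have h1 : HasFDerivAt (L.τ h) (fderiv ℝ (L.τ h) y) y :=
    ((L.contDiff_τ_right h).differentiable (by simp) _).hasFDerivAt
  have h2 := hw.hasFDerivAt.comp y h1
  have h3 : fderiv ℝ (fun x => w (L.τ h x)) y =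
      (fderiv ℝ w (L.τ h y)).comp (fderiv ℝ (L.τ h) y) := h2.fderiv
  rw [S.inner_grad, h3, ContinuousLinearMap.comp_apply, L.fderiv_τ_xi]

omit [FiniteDimensional ℝ H] in
theorem isTest1_comp {h : E N} {D : Set (E N)} {η : E N → ℝ}
    (hη : IsTest1 (L.τ h ⁻¹' D) η) : IsTest1 D (fun x => η (L.τ (-h) x)) := by
  have hc : HasCompactSupport (fun x => η (L.τ (-h) x)) :=
    hη.compact.comp_homeomorph (L.homeo (-h))
  refine ⟨hη.smooth.comp ((L.contDiff_τ_right (-h)).of_le (by norm_cast)), hc, ?_⟩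
  have hsub : tsupport (fun x => η (L.τ (-h) x)) ⊆ L.τ (-h) ⁻¹' tsupport η := by
    apply closure_minimal
    · intro x hx
      exact subset_tsupport _ hx
    · exact (isClosed_tsupport _).preimage (L.contDiff_τ_right (-h)).continuous
  intro x hx
  have h1 := hη.support (hsub hx)
  simpa [L.τ_neg'] using h1

/-- Translation of a solution. -/
theorem sol_comp {p : ℝ} {f : H → ℝ} {D : Set (E N)} (hDo : IsOpen D) {w : ℕ → E N → ℝ}
    {u : E N → ℝ} {U : E N → H} (hs : Sol S p f D w u U) (h : E N) :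
    Sol S p f (L.τ h ⁻¹' D) (fun n x => w n (L.τ h x)) (fun x => u (L.τ h x))
      (fun x => U (L.τ h x)) := by
  have hmp : MeasurePreserving (L.τ h) (volume.restrict (L.τ h ⁻¹' D)) (volume.restrict D) :=
    (L.mp h).restrict_preimage hDo.measurableSet
  have hsm : ContDiff ℝ 1 (L.τ h) := (L.contDiff_τ_right h).of_le (by norm_cast)
  refine ⟨?_, ?_, ?_, ?_, ?_, ?_⟩
  · exact hs.memLp.comp_measurePreserving hmp
  · exact hs.memLp_grad.comp_measurePreserving hmp
  · intro n
    exact (hs.contDiffOn n).comp hsm.contDiffOn (fun x hx => hx)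
  · refine hs.lim.congr fun n => ?_
    have hm : AEStronglyMeasurable (fun x => u x - w n x) (volume.restrict D) :=
      hs.memLp.1.sub ((hs.contDiffOn n).continuousOn.aestronglyMeasurable hDo.measurableSet)
    exact (eLpNorm_comp_measurePreserving hm hmp).symm
  · refine hs.lim_grad.congr fun n => ?_
    have hgc : ContinuousOn (S.grad (w n)) D := by
      unfold Sys.grad
      apply continuousOn_finsetSum
      intro i _
      have h2 : ContinuousOn (fderiv ℝ (w n)) D :=
        (hs.contDiffOn n).continuousOn_fderiv_of_isOpen hDo le_rfl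
      exact (h2.clm_apply (S.continuous_xi.clm_apply continuous_const).continuousOn).smul
        continuousOn_const
    have hm : AEStronglyMeasurable (fun x => U x - S.grad (w n) x) (volume.restrict D) :=
      hs.memLp_grad.1.sub (hgc.aestronglyMeasurable hDo.measurableSet)
    rw [← eLpNorm_comp_measurePreserving hm hmp]
    apply eLpNorm_congr_ae
    have hmeas : MeasurableSet (L.τ h ⁻¹' D) := (hDo.preimage hsm.continuous).measurableSet
    filter_upwards [ae_restrict_mem hmeas] with x hx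
    have hd : DifferentiableAt ℝ (w n) (L.τ h x) :=
      ((hs.contDiffOn n).contDiffAt (hDo.mem_nhds hx)).differentiableAt one_ne_zero
    simp only [Function.comp]
    rw [L.grad_comp_τ h hd]
  · intro η hη
    have h1 := hs.weak _ (L.isTest1_comp hη)
    have h2 : ∀ x, S.grad η x = S.grad (fun z => η (L.τ (-h) z)) (L.τ h x) := by
      intro x
      have hd : DifferentiableAt ℝ (fun z => η (L.τ (-h) z)) (L.τ h x) :=
        (L.isTest1_comp hη).smooth.differentiable one_ne_zero _
      rw [← L.grad_comp_τ h hd]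
      congr 1
      funext z
      rw [L.τ_neg]
    have h3 := (L.mp h).setIntegral_preimage_emb (L.measurableEmbedding_τ h)
      (fun z => fderiv ℝ f (U z) (S.grad (fun z => η (L.τ (-h) z)) z)) D
    rw [← h1, ← h3]
    apply integral_congr_ae
    exact Eventually.of_forall fun x => by simp only [h2 x]

end LTrans

end Pool.Agent.Carnot
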