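import Mathlib
import Pool.Agent.Carnot.Sol

/-!
# The boundary barrier
-/

namespace Pool.Agent.Carnot

open MeasureTheory Set Filter Topology
open scoped ContDiff ENNReal

variable {N : ℕ}

/-- Second order Taylor estimate up to the boundary. -/
theorem exists_taylor {Ω : Set (E N)} (hΩ : IsOpen Ω) (hconv : Convex ℝ Ω) {φ : E N → ℝ}
    (hφ : ContDiffOn ℝ 2 φ (closure Ω)) {K : ℝ}
    (hK : ∀ x ∈ Ω, ‖fderiv ℝ φ x‖ + ‖fderiv ℝ (fderiv ℝ φ) x‖ ≤ K) {x₀ : E N}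
    (hx₀ : x₀ ∈ closure Ω) :
    ∃ q : E N →L[ℝ] ℝ, ‖q‖ ≤ K ∧
      ∀ x ∈ closure Ω, |φ x - φ x₀ - q (x - x₀)| ≤ K * ‖x - x₀‖ ^ 2 := by
  have hφΩ : ContDiffOn ℝ 2 φ Ω := hφ.mono subset_closure
  have hφd : ∀ x ∈ Ω, DifferentiableAt ℝ φ x := fun x hx =>
    (hφΩ.contDiffAt (hΩ.mem_nhds hx)).differentiableAt (by norm_num)
  have hφ2 : ContDiffOn ℝ 1 (fderiv ℝ φ) Ω := hφΩ.fderiv_of_isOpen hΩ (by norm_num)
  have hφd2 : ∀ x ∈ Ω, DifferentiableAt ℝ (fderiv ℝ φ) x := fun x hx =>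
    (hφ2.contDiffAt (hΩ.mem_nhds hx)).differentiableAt one_ne_zero
  have hK1 : ∀ x ∈ Ω, ‖fderiv ℝ φ x‖ ≤ K := fun x hx => by
    have h1 := hK x hx
    have h2 := norm_nonneg (fderiv ℝ (fderiv ℝ φ) x)
    linarith
  have hK2 : ∀ x ∈ Ω, ‖fderiv ℝ (fderiv ℝ φ) x‖ ≤ K := fun x hx => by
    have h1 := hK x hx
    have h2 := norm_nonneg (fderiv ℝ φ x)
    linarith
  -- inside
  have hin : ∀ x ∈ Ω, ∀ y ∈ Ω, |φ y - φ x - fderiv ℝ φ x (y - x)| ≤ K * ‖y - x‖ ^ 2 := by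
    intro x hx y hy
    have hseg : segment ℝ x y ⊆ Ω := hconv.segment_subset hx hy
    have h1 : ∀ z ∈ segment ℝ x y, ‖fderiv ℝ φ z - fderiv ℝ φ x‖ ≤ K * ‖y - x‖ := by
      intro z hz
      have h2 := hconv.norm_image_sub_le_of_norm_fderiv_le (𝕜 := ℝ) (f := fderiv ℝ φ) hφd2 hK2
        hx (hseg hz)
      refine h2.trans ?_
      have hK0 : 0 ≤ K := (norm_nonneg _).trans (hK1 x hx)
      exact mul_le_mul_of_nonneg_left (norm_sub_le_of_mem_segment hz) hK0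
    have h3 := (convex_segment x y).norm_image_sub_le_of_norm_hasFDerivWithin_le'
      (𝕜 := ℝ) (f := φ) (f' := fderiv ℝ φ) (φ := fderiv ℝ φ x) (C := K * ‖y - x‖)
      (fun z hz => (hφd z (hseg hz)).hasFDerivAt.hasFDerivWithinAt) h1
      (left_mem_segment ℝ x y) (right_mem_segment ℝ x y)
    rw [Real.norm_eq_abs] at h3
    calc _ ≤ _ := h3
      _ = _ := by ring
  -- limits
  obtain ⟨a, haΩ, ha⟩ := mem_closure_iff_seq_limit.1 hx₀
  have hmem : ∀ n, fderiv ℝ φ (a n) ∈ Metric.closedBall (0 : E N →L[ℝ] ℝ) K := fun n => by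
    rw [mem_closedBall_zero_iff]; exact hK1 _ (haΩ n)
  obtain ⟨q, hq, ns, hns, hlim⟩ := (isCompact_closedBall (0 : E N →L[ℝ] ℝ) K).tendsto_subseq hmem
  refine ⟨q, mem_closedBall_zero_iff.1 hq, fun x hx => ?_⟩
  obtain ⟨b, hbΩ, hb⟩ := mem_closure_iff_seq_limit.1 hx
  have hcont := hφ.continuousOn
  have ha' : Tendsto (fun k => a (ns k)) atTop (𝓝 x₀) := ha.comp hns.tendsto_atTop
  have h1 : Tendsto (fun k => φ (a (ns k))) atTop (𝓝 (φ x₀)) := by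
    have := hcont x₀ hx₀
    exact this.tendsto.comp (tendsto_nhdsWithin_iff.2
      ⟨ha', Eventually.of_forall fun k => subset_closure (haΩ _)⟩)
  have h2 : Tendsto (fun k => φ (b k)) atTop (𝓝 (φ x)) := by
    have := hcont x hx
    exact this.tendsto.comp (tendsto_nhdsWithin_iff.2
      ⟨hb, Eventually.of_forall fun k => subset_closure (hbΩ _)⟩)
  have h3 : Tendsto (fun k => b k - a (ns k)) atTop (𝓝 (x - x₀)) := hb.sub ha'
  have h4 : Tendsto (fun k => fderiv ℝ φ (a (ns k)) (b k - a (ns k))) atTop (𝓝 (q (x - x₀))) := by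
    have hc : Continuous (fun z : (E N →L[ℝ] ℝ) × E N => z.1 z.2) :=
      continuous_fst.clm_apply continuous_snd
    exact (hc.tendsto (q, x - x₀)).comp (hlim.prodMk_nhds h3)
  have h5 : Tendsto (fun k => |φ (b k) - φ (a (ns k)) -
      fderiv ℝ φ (a (ns k)) (b k - a (ns k))|) atTop (𝓝 |φ x - φ x₀ - q (x - x₀)|) :=
    ((h2.sub h1).sub h4).abs
  have h6 : Tendsto (fun k => K * ‖b k - a (ns k)‖ ^ 2) atTop (𝓝 (K * ‖x - x₀‖ ^ 2)) :=
    (h3.norm.pow 2).const_mul K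
  exact le_of_tendsto_of_tendsto' h5 h6 (fun k => hin _ (haΩ _) _ (hbΩ _))

variable {H : Type} [NormedAddCommGroup H] [InnerProductSpace ℝ H]
  [FiniteDimensional ℝ H] {S : Sys N H} {p δ lam Lam : ℝ} {f : H → ℝ}

/-- Barrier at one boundary point. -/
theorem barrier (hS : S.Straight) {v₀ : H} {ℓ : E N → ℝ} (hℓc : Continuous ℓ)
    (hℓ : ∀ (t : ℝ) y, ℓ (S.T (t • v₀) y) = ℓ y + t)
    (hf : IsStructured p δ lam Lam f) {Ω : Set (E N)} (hΩ : IsOpen Ω)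
    (hb : Bornology.IsBounded Ω) {φ : E N → ℝ} {K c : ℝ} (hK0 : 0 ≤ K) (hc : 0 < c)
    {x₀ ν : E N} (hν : ‖ν‖ = 1) (hcurv : ∀ x ∈ closure Ω, c * ‖x - x₀‖ ^ 2 ≤ inner ℝ ν (x₀ - x))
    {q : E N →L[ℝ] ℝ} (hq : ‖q‖ ≤ K)
    (htay : ∀ x ∈ closure Ω, |φ x - φ x₀ - q (x - x₀)| ≤ K * ‖x - x₀‖ ^ 2)
    {ζ : ℕ → E N → ℝ} (hζ : ∀ n, IsTest Ω (ζ n)) {u : E N → ℝ} {U : E N → H}
    (hs : Sol S p f Ω (fun n x => φ x + ζ n x) u U) :
    ∀ᵐ x ∂(volume.restrict Ω), |u x - φ x₀| ≤ (K + K / c) * ‖x - x₀‖ := by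
  set ν' : E N →L[ℝ] ℝ := innerSL ℝ ν with hν'
  have hν'a : ∀ x, ν' x = inner ℝ ν x := fun x => rfl
  -- the two affine barriers
  set ℓp : E N →L[ℝ] ℝ := q - (K / c) • ν' with hℓp
  set ℓm : E N →L[ℝ] ℝ := q + (K / c) • ν' with hℓm
  set cp : ℝ := φ x₀ - ℓp x₀ with hcp
  set cm : ℝ := φ x₀ - ℓm x₀ with hcm
  have hKc : 0 ≤ K / c := div_nonneg hK0 hc.le
  have ep : ∀ x, ℓp x + cp = φ x₀ + q (x - x₀) + K / c * inner ℝ ν (x₀ - x) := by
    intro x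
    simp only [hcp, hℓp, sub_apply, smul_apply, hν'a, smul_eq_mul, map_sub, inner_sub_right]
    ring
  have em : ∀ x, ℓm x + cm = φ x₀ + q (x - x₀) - K / c * inner ℝ ν (x₀ - x) := by
    intro x
    simp only [hcm, hℓm, add_apply, smul_apply, hν'a, smul_eq_mul, map_sub, inner_sub_right]
    ring
  have hcur : ∀ x ∈ closure Ω, K * ‖x - x₀‖ ^ 2 ≤ K / c * inner ℝ ν (x₀ - x) := by
    intro x hx
    have h1 := mul_le_mul_of_nonneg_left (hcurv x hx) hKc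
    have h2 : K / c * (c * ‖x - x₀‖ ^ 2) = K * ‖x - x₀‖ ^ 2 := by field_simp
    linarith
  have hup : ∀ x ∈ closure Ω, φ x ≤ ℓp x + cp := by
    intro x hx
    have h1 := (abs_le.1 (htay x hx)).2
    have h2 := hcur x hx
    rw [ep]; linarith
  have hlo : ∀ x ∈ closure Ω, ℓm x + cm ≤ φ x := by
    intro x hx
    have h1 := (abs_le.1 (htay x hx)).1
    have h2 := hcur x hx
    rw [em]; linarith
  have hone : ContDiff ℝ 1 (fun _ : E N => (1:ℝ)) := contDiff_const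
  have hU : ∀ᵐ x ∂(volume.restrict Ω), u x - (ℓp x + cp) ≤ 0 := by
    apply hs.comparison hℓc hℓ hf hΩ hb (Sol.affine hS hf hΩ hb ℓp cp) hone
      (fun _ => zero_le_one) (fun _ => le_rfl)
    · intro n
      refine ⟨tsupport (ζ n), (hζ n).compact, (hζ n).support, fun x hx => Or.inr ?_⟩
      have h1 : ζ n x = 0 := image_eq_zero_of_notMem_tsupport hx.2
      have h2 := hup x (subset_closure hx.1)
      simp only [h1]; linarith
    · exact Eventually.of_forall fun _ => Or.inl rfl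
  have hL : ∀ᵐ x ∂(volume.restrict Ω), (ℓm x + cm) - u x ≤ 0 := by
    apply (Sol.affine hS hf hΩ hb ℓm cm).comparison hℓc hℓ hf hΩ hb hs hone
      (fun _ => zero_le_one) (fun _ => le_rfl)
    · intro n
      refine ⟨tsupport (ζ n), (hζ n).compact, (hζ n).support, fun x hx => Or.inr ?_⟩
      have h1 : ζ n x = 0 := image_eq_zero_of_notMem_tsupport hx.2
      have h2 := hlo x (subset_closure hx.1)
      simp only [h1]; linarith
    · exact Eventually.of_forall fun _ => Or.inl rfl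
  filter_upwards [hU, hL] with x h1 h2
  rw [ep] at h1
  rw [em] at h2
  have h3 : |q (x - x₀)| ≤ K * ‖x - x₀‖ := by
    have := q.le_opNorm (x - x₀)
    rw [Real.norm_eq_abs] at this
    exact this.trans (mul_le_mul_of_nonneg_right hq (norm_nonneg _))
  have h4 : |inner ℝ ν (x₀ - x)| ≤ ‖x - x₀‖ := by
    have := abs_real_inner_le_norm ν (x₀ - x)
    rwa [hν, one_mul, norm_sub_rev] at this
  have h5 : |K / c * inner ℝ ν (x₀ - x)| ≤ K / c * ‖x - x₀‖ := by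
    rw [abs_mul, abs_of_nonneg hKc]
    exact mul_le_mul_of_nonneg_left h4 hKc
  rw [abs_le] at h3 h5 ⊢
  constructor <;> nlinarith [h3.1, h3.2, h5.1, h5.2]

/-- Boundary estimate, uniformly in the boundary point. -/
theorem boundary_estimate (hS : S.Straight) {v₀ : H} {ℓ : E N → ℝ} (hℓc : Continuous ℓ)
    (hℓ : ∀ (t : ℝ) y, ℓ (S.T (t • v₀) y) = ℓ y + t)
    (hf : IsStructured p δ lam Lam f) {Ω : Set (E N)} (hΩ : IsOpen Ω)
    (hb : Bornology.IsBounded Ω) (hconv : Convex ℝ Ω) {c : ℝ} (hc : 0 < c)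
    (hcurv : ∀ x₀ ∈ frontier Ω, ∃ ν : E N, ‖ν‖ = 1 ∧
      ∀ x ∈ closure Ω, c * ‖x - x₀‖ ^ 2 ≤ inner ℝ ν (x₀ - x))
    {φ : E N → ℝ} {K : ℝ} (hK0 : 0 ≤ K) (hφ : ContDiffOn ℝ 2 φ (closure Ω))
    (hK : ∀ x ∈ Ω, ‖fderiv ℝ φ x‖ + ‖fderiv ℝ (fderiv ℝ φ) x‖ ≤ K)
    {ζ : ℕ → E N → ℝ} (hζ : ∀ n, IsTest Ω (ζ n)) {u : E N → ℝ} {U : E N → H}
    (hs : Sol S p f Ω (fun n x => φ x + ζ n x) u U) :
    ∀ᵐ x ∂(volume.restrict Ω), ∀ x₀ ∈ frontier Ω, |u x - φ x₀| ≤ (K + K / c) * ‖x - x₀‖ := by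
  obtain ⟨C, hCsub, hCc, hCd⟩ :=
    (TopologicalSpace.IsSeparable.of_separableSpace (frontier Ω)).exists_countable_dense_subset
  have h1 : ∀ᵐ x ∂(volume.restrict Ω), ∀ x₀ ∈ C, |u x - φ x₀| ≤ (K + K / c) * ‖x - x₀‖ := by
    rw [ae_ball_iff hCc]
    intro x₀ hx₀
    obtain ⟨ν, hν, hcur⟩ := hcurv x₀ (hCsub hx₀)
    obtain ⟨q, hq, htay⟩ := exists_taylor hΩ hconv hφ hK (frontier_subset_closure (hCsub hx₀))
    exact barrier hS hℓc hℓ hf hΩ hb hK0 hc hν hcur hq htay hζ hs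
  filter_upwards [h1] with x hx x₀ hx₀
  have h2 : x₀ ∈ closure C := hCd hx₀
  obtain ⟨a, haC, ha⟩ := mem_closure_iff_seq_limit.1 h2
  have h3 : Tendsto (fun k => φ (a k)) atTop (𝓝 (φ x₀)) := by
    have := hφ.continuousOn x₀ (frontier_subset_closure hx₀)
    exact this.tendsto.comp (tendsto_nhdsWithin_iff.2
      ⟨ha, Eventually.of_forall fun k => frontier_subset_closure (hCsub (haC k))⟩)
  have h4 : Tendsto (fun k => |u x - φ (a k)|) atTop (𝓝 |u x - φ x₀|) :=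
    (h3.const_sub _).abs
  have h5 : Tendsto (fun k => (K + K / c) * ‖x - a k‖) atTop (𝓝 ((K + K / c) * ‖x - x₀‖)) :=
    ((ha.const_sub x).norm).const_mul _
  exact le_of_tendsto_of_tendsto' h4 h5 (fun k => hx _ (haC k))

end Pool.Agent.Carnot
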