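import Mathlib
import Pool.Agent.Carnot.Defs

/-!
# Elementary calculus on a Carnot group in exponential coordinates
-/

namespace Pool.Agent.Carnot

open MeasureTheory Set Filter Topology
open scoped ContDiff ENNReal

section dil

variable {N : ℕ} (w : Fin N → ℕ)

@[simp] theorem dil_apply (r : ℝ) (x : E N) (i : Fin N) : dil w r x i = r ^ (w i) * x i := rfl

theorem dil_zero_right (r : ℝ) : dil w r (0 : E N) = 0 := by
  ext i; simp

theorem dil_one (x : E N) : dil w 1 x = x := by
  ext i; simp

theorem dil_add (r : ℝ) (x y : E N) : dil w r (x + y) = dil w r x + dil w r y := by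
  ext i; simp [mul_add]

theorem dil_smul (r c : ℝ) (x : E N) : dil w r (c • x) = c • dil w r x := by
  ext i; simp; ring

theorem dil_neg (r : ℝ) (x : E N) : dil w r (-x) = - dil w r x := by
  ext i; simp

theorem dil_dil (r s : ℝ) (x : E N) : dil w r (dil w s x) = dil w (r * s) x := by
  ext i; simp [mul_pow]; ring

/-- the dilation as a continuous linear map -/
noncomputable def dilL (r : ℝ) : E N →L[ℝ] E N :=
  LinearMap.toContinuousLinearMap
    { toFun := dil w r
      map_add' := dil_add w r
      map_smul' := fun c x => dil_smul w r c x }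

@[simp] theorem dilL_apply (r : ℝ) (x : E N) : dilL w r x = dil w r x := rfl

/-- `dil` is smooth in both variables jointly. -/
theorem contDiff_dil : ContDiff ℝ ∞ (fun q : ℝ × E N => dil w q.1 q.2) := by
  rw [contDiff_euclidean]
  intro i
  simp only [dil_apply]
  have h : ContDiff ℝ ∞ (fun q : ℝ × E N => q.2 i) := by
    have : ContDiff ℝ ∞ (fun x : E N => x i) := (EuclideanSpace.proj (𝕜 := ℝ) i).contDiff
    exact this.comp contDiff_snd
  exact (contDiff_fst.pow _).mul h

theorem dil_tendsto_zero (hw : ∀ i, 1 ≤ w i) (x : E N) :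
    Tendsto (fun r : ℝ => dil w r x) (𝓝[>] 0) (𝓝 0) := by
  have hc : Continuous (fun r : ℝ => dil w r x) := by
    have := (contDiff_dil w).continuous
    exact this.comp (by fun_prop : Continuous (fun r : ℝ => (r, x)))
  have h0 : dil w 0 x = 0 := by
    ext i
    have : w i ≠ 0 := by have := hw i; omega
    simp [this]
  have := hc.tendsto 0
  rw [h0] at this
  exact this.mono_left nhdsWithin_le_nhds

end dil

/-- The entries of the Jacobian of a jointly homogeneous map which is the identity to first
order at the origin: block triangular with identity blocks on the diagonal. -/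
theorem entry_of_homogeneous {N : ℕ} {w : Fin N → ℕ} (hw : ∀ i, 1 ≤ w i)
    {F : E N → E N → E N}
    (hF : ContDiff ℝ 1 (fun q : E N × E N => F q.1 q.2))
    (hom : ∀ r : ℝ, 0 < r → ∀ a x, F (dil w r a) (dil w r x) = dil w r (F a x))
    (hid : fderiv ℝ (F 0) 0 = ContinuousLinearMap.id ℝ (E N)) (a x : E N)
    (i j : Fin N) (hij : w i ≤ w j) :
    (fderiv ℝ (F a) x (EuclideanSpace.single j 1)) i =
        if w i = w j then (EuclideanSpace.single j (1 : ℝ) : E N) i else 0 := by
  have hFa : ∀ a, ContDiff ℝ 1 (F a) := fun a =>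
    hF.comp (contDiff_const.prodMk contDiff_id : ContDiff ℝ 1 (fun x : E N => (a, x)))
  have hd : ∀ a x, HasFDerivAt (F a) (fderiv ℝ (F a) x) x := fun a x =>
    ((hFa a).differentiable one_ne_zero x).hasFDerivAt
  -- joint continuity of the derivative
  have hJ : Continuous (fun q : E N × E N => fderiv ℝ (F q.1) q.2) := by
    have h1 : ∀ q : E N × E N, fderiv ℝ (F q.1) q.2 =
        (fderiv ℝ (fun q : E N × E N => F q.1 q.2) q).comp
          (ContinuousLinearMap.inr ℝ (E N) (E N)) := by
      intro q
      have hq : HasFDerivAt (fun q : E N × E N => F q.1 q.2)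
          (fderiv ℝ (fun q : E N × E N => F q.1 q.2) q) (q.1, q.2) :=
        (hF.differentiable one_ne_zero q).hasFDerivAt
      have h2 : HasFDerivAt (fun y : E N => (q.1, y)) (ContinuousLinearMap.inr ℝ (E N) (E N)) q.2 :=
        hasFDerivAt_prodMk_right q.1 q.2
      exact (hq.comp q.2 h2).fderiv
    simp_rw [h1]
    exact (hF.continuous_fderiv one_ne_zero).clm_comp continuous_const
  -- homogeneity of the derivative
  have hh : ∀ r : ℝ, 0 < r → ∀ v : E N,
      fderiv ℝ (F (dil w r a)) (dil w r x) (dil w r v) = dil w r (fderiv ℝ (F a) x v) := by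
    intro r hr v
    have e1 : HasFDerivAt (fun y => F (dil w r a) (dilL w r y))
        ((fderiv ℝ (F (dil w r a)) (dil w r x)).comp (dilL w r)) x := by
      have h2 : HasFDerivAt (fun y : E N => dilL w r y) (dilL w r) x := (dilL w r).hasFDerivAt
      exact (hd (dil w r a) (dil w r x)).comp x h2
    have e2 : HasFDerivAt (fun y => dilL w r (F a y)) ((dilL w r).comp (fderiv ℝ (F a) x)) x :=
      (dilL w r).hasFDerivAt.comp x (hd a x)
    have e3 : (fun y => F (dil w r a) (dilL w r y)) = fun y => dilL w r (F a y) := by
      funext y; simp only [dilL_apply]; exact hom r hr a y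
    rw [e3] at e1
    have := e1.unique e2
    have h4 := congrArg (fun L : E N →L[ℝ] E N => L v) this
    simpa using h4
  have key : ∀ r : ℝ, 0 < r → (fderiv ℝ (F a) x (EuclideanSpace.single j 1)) i =
      r ^ (w j - w i) *
        (fderiv ℝ (F (dil w r a)) (dil w r x) (EuclideanSpace.single j 1)) i := by
    intro r hr
    have h1 := congrArg (fun v : E N => v i) (hh r hr (EuclideanSpace.single j 1))
    have h2 : dil w r (EuclideanSpace.single j (1:ℝ)) = r ^ (w j) • EuclideanSpace.single j 1 := by
      ext k
      simp only [dil_apply, PiLp.smul_apply, smul_eq_mul]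
      by_cases hk : k = j
      · subst hk; rfl
      · simp [hk]
    simp only [dil_apply] at h1
    rw [h2, map_smul, PiLp.smul_apply, smul_eq_mul] at h1
    have h3 : r ^ (w j) = r ^ (w j - w i) * r ^ (w i) := by
      rw [← pow_add]; congr 1; omega
    have h4 : r ^ (w i) ≠ 0 := pow_ne_zero _ hr.ne'
    rw [h3] at h1
    have h5 : r ^ (w i) * (r ^ (w j - w i) *
        (fderiv ℝ (F (dil w r a)) (dil w r x) (EuclideanSpace.single j 1)) i) =
        r ^ (w i) * (fderiv ℝ (F a) x (EuclideanSpace.single j 1)) i := by
      rw [← h1]; ring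
    exact (mul_left_cancel₀ h4 h5).symm
  have hlim : Tendsto (fun r : ℝ => r ^ (w j - w i) *
        (fderiv ℝ (F (dil w r a)) (dil w r x) (EuclideanSpace.single j 1)) i) (𝓝[>] 0)
      (𝓝 ((0:ℝ) ^ (w j - w i) * (EuclideanSpace.single j (1:ℝ) : E N) i)) := by
    apply Tendsto.mul
    · have : Tendsto (fun r : ℝ => r ^ (w j - w i)) (𝓝 0) (𝓝 ((0:ℝ) ^ (w j - w i))) :=
        (continuous_pow _).tendsto 0
      exact this.mono_left nhdsWithin_le_nhds
    · have h1 : Tendsto (fun r : ℝ => (dil w r a, dil w r x)) (𝓝[>] 0)
          (𝓝 ((0 : E N), (0 : E N))) :=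
        (dil_tendsto_zero w hw a).prodMk_nhds (dil_tendsto_zero w hw x)
      have h2 := (hJ.tendsto ((0 : E N), (0 : E N))).comp h1
      simp only [hid] at h2
      have h3 : Continuous (fun L : E N →L[ℝ] E N => (L (EuclideanSpace.single j 1)) i) := by
        have h4 : Continuous (fun L : E N →L[ℝ] E N => L (EuclideanSpace.single j 1)) :=
          (ContinuousLinearMap.apply ℝ (E N) (EuclideanSpace.single j (1:ℝ))).continuous
        exact (EuclideanSpace.proj (𝕜 := ℝ) i).continuous.comp h4
      exact (h3.tendsto _).comp h2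
  have hconst : Tendsto (fun r : ℝ => r ^ (w j - w i) *
        (fderiv ℝ (F (dil w r a)) (dil w r x) (EuclideanSpace.single j 1)) i) (𝓝[>] 0)
      (𝓝 ((fderiv ℝ (F a) x (EuclideanSpace.single j 1)) i)) := by
    refine tendsto_const_nhds.congr' ?_
    filter_upwards [self_mem_nhdsWithin] with r hr
    exact key r hr
  have := tendsto_nhds_unique hconst hlim
  rw [this]
  by_cases h : w i = w j
  · simp [h]
  · have : w j - w i ≠ 0 := by omega
    simp [h, this]

/-- The Jacobian of a jointly homogeneous map which is the identity to first order at the origin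
is unipotent, hence of determinant one. -/
theorem det_eq_one_of_homogeneous {N : ℕ} {w : Fin N → ℕ} (hw : ∀ i, 1 ≤ w i)
    {F : E N → E N → E N}
    (hF : ContDiff ℝ 1 (fun q : E N × E N => F q.1 q.2))
    (hom : ∀ r : ℝ, 0 < r → ∀ a x, F (dil w r a) (dil w r x) = dil w r (F a x))
    (hid : fderiv ℝ (F 0) 0 = ContinuousLinearMap.id ℝ (E N)) (a x : E N) :
    (fderiv ℝ (F a) x).det = 1 := by
  classical
  have hent := entry_of_homogeneous hw hF hom hid a x
  -- determinant
  set b := (EuclideanSpace.basisFun (Fin N) ℝ).toBasis with hb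
  set M := LinearMap.toMatrix b b (fderiv ℝ (F a) x : E N →ₗ[ℝ] E N) with hM
  have hMij : ∀ i j, M i j = (fderiv ℝ (F a) x (EuclideanSpace.single j 1)) i := by
    intro i j
    rw [hM, LinearMap.toMatrix_apply]
    simp [hb]
  have hdet : (fderiv ℝ (F a) x).det = M.det := by
    rw [hM, LinearMap.det_toMatrix]
  rw [hdet]
  have hbt : M.BlockTriangular (fun i => OrderDual.toDual (w i)) := by
    intro i j hij
    have hlt : w i < w j := by simpa using hij
    rw [hMij, hent i j hlt.le]
    simp [hlt.ne]
  rw [hbt.det]
  apply Finset.prod_eq_one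
  intro k _
  have : M.toSquareBlock (fun i => OrderDual.toDual (w i)) k = 1 := by
    ext ⟨i, hi⟩ ⟨j, hj⟩
    rw [Matrix.toSquareBlock_def, Matrix.of_apply, hMij, hent i j (by
      have : OrderDual.toDual (w i) = OrderDual.toDual (w j) := by rw [hi, hj]
      exact le_of_eq (OrderDual.toDual.injective this))]
    have : w i = w j := by
      have : OrderDual.toDual (w i) = OrderDual.toDual (w j) := by rw [hi, hj]
      exact OrderDual.toDual.injective this
    simp only [this, if_true]
    by_cases hij : i = j
    · subst hij; simp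
    · simp [hij]
  rw [this, Matrix.det_one]

/-- A bijective differentiable self-map of `ℝ^N` with Jacobian determinant one preserves
Lebesgue measure. -/
theorem measurePreserving_of_det {N : ℕ} {T : E N → E N} (hT : ContDiff ℝ 1 T)
    (hinj : Function.Injective T) (hsurj : Function.Surjective T)
    (hdet : ∀ x, (fderiv ℝ T x).det = 1) : MeasurePreserving T volume volume := by
  refine ⟨hT.continuous.measurable, ?_⟩
  ext s hs
  rw [Measure.map_apply hT.continuous.measurable hs]
  have h1 := MeasureTheory.lintegral_abs_det_fderiv_eq_addHaar_image (μ := (volume : Measure (E N)))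
    (hT.continuous.measurable hs)
    (fun x _ => ((hT.differentiable one_ne_zero x).hasFDerivAt).hasFDerivWithinAt)
    (hinj.injOn)
  rw [image_preimage_eq s hsurj] at h1
  rw [← h1]
  simp [hdet]

namespace CarnotGroup

variable {N : ℕ} (G : CarnotGroup N)

theorem mul_zero' (x : E N) : G.mul x 0 = x := by
  have := G.mul_smul_smul 1 0 x
  simpa using this

theorem zero_mul' (x : E N) : G.mul 0 x = x := by
  have := G.mul_smul_smul 0 1 x
  simpa using this

theorem mul_neg' (x : E N) : G.mul x (-x) = 0 := by
  have := G.mul_smul_smul 1 (-1) x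
  simpa using this

theorem neg_mul' (x : E N) : G.mul (-x) x = 0 := by
  have := G.mul_smul_smul (-1) 1 x
  simpa using this

theorem neg_mul_cancel_left' (a x : E N) : G.mul (-a) (G.mul a x) = x := by
  rw [← G.mul_assoc, G.neg_mul', G.zero_mul']

theorem mul_neg_cancel_left' (a x : E N) : G.mul a (G.mul (-a) x) = x := by
  rw [← G.mul_assoc, G.mul_neg', G.zero_mul']

theorem mul_neg_cancel_right' (x a : E N) : G.mul (G.mul x a) (-a) = x := by
  rw [G.mul_assoc, G.mul_neg', G.mul_zero']

theorem neg_mul_cancel_right' (x a : E N) : G.mul (G.mul x (-a)) a = x := by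
  rw [G.mul_assoc, G.neg_mul', G.mul_zero']

theorem neg_mul_rev (x y : E N) : -(G.mul x y) = G.mul (-y) (-x) := by
  have h1 : G.mul (G.mul x y) (G.mul (-y) (-x)) = 0 := by
    rw [← G.mul_assoc, G.mul_neg_cancel_right', G.mul_neg']
  have h2 := congrArg (G.mul (-(G.mul x y))) h1
  rw [G.neg_mul_cancel_left', G.mul_zero'] at h2
  exact h2.symm

theorem mul_smul_add (g v : E N) (s t : ℝ) :
    G.mul g ((s + t) • v) = G.mul (G.mul g (s • v)) (t • v) := by
  rw [G.mul_assoc, G.mul_smul_smul]

theorem contDiff_mul_left (a : E N) : ContDiff ℝ ∞ (G.mul a) :=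
  G.contDiff_mul.comp (contDiff_const.prodMk contDiff_id)

theorem contDiff_mul_right (a : E N) : ContDiff ℝ ∞ (fun x => G.mul x a) :=
  G.contDiff_mul.comp (contDiff_id.prodMk contDiff_const)

theorem measurePreserving_mul_left (a : E N) : MeasurePreserving (G.mul a) volume volume := by
  apply measurePreserving_of_det ((G.contDiff_mul_left a).of_le (by exact_mod_cast le_top))
  · intro x y h
    have := congrArg (G.mul (-a)) h
    rwa [G.neg_mul_cancel_left', G.neg_mul_cancel_left'] at this
  · intro x
    exact ⟨G.mul (-a) x, G.mul_neg_cancel_left' a x⟩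
  · intro x
    apply det_eq_one_of_homogeneous G.weight_pos (F := G.mul)
    · exact G.contDiff_mul.of_le (by exact_mod_cast le_top)
    · intro r hr a x
      exact (G.dil_mul r hr a x).symm
    · have : G.mul 0 = id := by funext x; exact G.zero_mul' x
      rw [this]
      exact fderiv_id

theorem measurePreserving_mul_right (a : E N) :
    MeasurePreserving (fun x => G.mul x a) volume volume := by
  apply measurePreserving_of_det ((G.contDiff_mul_right a).of_le (by exact_mod_cast le_top))
  · intro x y h
    have := congrArg (fun z => G.mul z (-a)) h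
    simpa only [G.mul_neg_cancel_right'] using this
  · intro x
    exact ⟨G.mul x (-a), G.neg_mul_cancel_right' x a⟩
  · intro x
    apply det_eq_one_of_homogeneous G.weight_pos (F := fun a x => G.mul x a)
    · have h1 : ContDiff ℝ ∞ (fun q : E N × E N => G.mul q.2 q.1) :=
        G.contDiff_mul.comp (contDiff_snd.prodMk contDiff_fst)
      exact h1.of_le (by exact_mod_cast le_top)
    · intro r hr a x
      exact (G.dil_mul r hr x a).symm
    · have : (fun x => G.mul x 0) = id := by funext x; exact G.mul_zero' x
      rw [this]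
      exact fderiv_id

end CarnotGroup

end Pool.Agent.Carnot
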