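import Mathlib
import Pool.Agent.Carnot.Group

/-!
# The Hilbert-Haar chart of a Carnot group

`ω(g) = d/dλ (δ_λ(g) * g⁻¹)` at `λ = 1` satisfies the cocycle identity
`ω(g * tX) = ω(g) + t Ad_g X` for horizontal `X`; dividing by the weights gives a global chart
in which the horizontal left-invariant fields have straight integral curves.
-/

namespace Pool.Agent.Carnot

open MeasureTheory Set Filter Topology
open scoped ContDiff ENNReal

section diag

variable {N : ℕ}

/-- diagonal operator -/
noncomputable def diagL (c : Fin N → ℝ) : E N →L[ℝ] E N :=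
  LinearMap.toContinuousLinearMap
    { toFun := fun x => WithLp.toLp 2 (fun i => c i * x i)
      map_add' := fun x y => by ext i; simp [mul_add]
      map_smul' := fun r x => by ext i; simp; ring }

@[simp] theorem diagL_apply (c : Fin N → ℝ) (x : E N) (i : Fin N) :
    diagL c x i = c i * x i := rfl

end diag

namespace CarnotGroup

variable {N : ℕ} (G : CarnotGroup N)

/-- a vector of the first layer -/
def IsHor (v : E N) : Prop := ∀ i, G.weight i ≠ 1 → v i = 0

theorem dil_of_isHor {v : E N} (hv : G.IsHor v) (r : ℝ) : dil G.weight r v = r • v := by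
  ext i
  by_cases h : G.weight i = 1
  · simp [h]
  · simp [hv i h]

/-- the cocycle `ω` -/
noncomputable def omega (g : E N) : E N :=
  fderiv ℝ (fun q : E N × E N => G.mul q.1 q.2) (g, -g) (diagL (fun i => (G.weight i : ℝ)) g, 0)

/-- the adjoint action -/
noncomputable def Ad (g : E N) : E N →L[ℝ] E N :=
  fderiv ℝ (fun x => G.mul (G.mul g x) (-g)) 0

theorem contDiff_omega : ContDiff ℝ ∞ G.omega := by
  have h1 : ContDiff ℝ ∞ (fderiv ℝ (fun q : E N × E N => G.mul q.1 q.2)) :=
    G.contDiff_mul.fderiv_right (by simp)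
  have h2 : ContDiff ℝ ∞ (fun g : E N => (g, -g)) := contDiff_id.prodMk contDiff_neg
  have h3 : ContDiff ℝ ∞ (fun g : E N =>
      ((diagL (fun i => (G.weight i : ℝ)) g, 0) : E N × E N)) :=
    (ContinuousLinearMap.contDiff _).prodMk contDiff_const
  exact (h1.comp h2).clm_apply h3

theorem hasDerivAt_dil (g : E N) :
    HasDerivAt (fun r : ℝ => dil G.weight r g) (diagL (fun i => (G.weight i : ℝ)) g) 1 := by
  rw [hasDerivAt_iff_hasFDerivAt, ← hasFDerivWithinAt_univ, hasFDerivWithinAt_euclidean]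
  intro i
  have := (hasDerivAt_pow (G.weight i) (1:ℝ)).mul_const (g i)
  rw [hasDerivAt_iff_hasFDerivAt, ← hasFDerivWithinAt_univ] at this
  refine HasFDerivWithinAt.congr_fderiv this ?_
  ext
  simp

theorem hasDerivAt_omega (g : E N) :
    HasDerivAt (fun r : ℝ => G.mul (dil G.weight r g) (-g)) (G.omega g) 1 := by
  have h1 : HasFDerivAt (fun q : E N × E N => G.mul q.1 q.2)
      (fderiv ℝ (fun q : E N × E N => G.mul q.1 q.2) (g, -g)) (dil G.weight 1 g, -g) := by
    rw [dil_one]
    exact (G.contDiff_mul.differentiable (by simp) _).hasFDerivAt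
  have h2 : HasDerivAt (fun r : ℝ => (dil G.weight r g, -g))
      (diagL (fun i => (G.weight i : ℝ)) g, (0 : E N)) 1 :=
    (G.hasDerivAt_dil g).prodMk (hasDerivAt_const _ _)
  exact h1.comp_hasDerivAt (1:ℝ) h2

theorem contDiff_conj (g : E N) : ContDiff ℝ ∞ (fun x => G.mul (G.mul g x) (-g)) :=
  (G.contDiff_mul_right (-g)).comp (G.contDiff_mul_left g)

theorem omega_mul_smul (g : E N) {v : E N} (hv : G.IsHor v) (t : ℝ) :
    G.omega (G.mul g (t • v)) = G.omega g + t • G.Ad g v := by
  -- the auxiliary function of two real variables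
  set Q : ℝ × ℝ → E N := fun q => G.mul (G.mul (dil G.weight q.1 g) (q.2 • v)) (-g) with hQ
  have hQs : ContDiff ℝ ∞ Q := by
    have h1 : ContDiff ℝ ∞ (fun q : ℝ × ℝ => dil G.weight q.1 g) :=
      (contDiff_dil G.weight).comp (contDiff_fst.prodMk contDiff_const)
    have h2 : ContDiff ℝ ∞ (fun q : ℝ × ℝ => q.2 • v) := contDiff_snd.smul contDiff_const
    exact (G.contDiff_mul_right (-g)).comp (G.contDiff_mul.comp (h1.prodMk h2))
  have hQd : HasFDerivAt Q (fderiv ℝ Q (1, 0)) (1, 0) :=
    (hQs.differentiable (by simp) _).hasFDerivAt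
  have hQ1 : fderiv ℝ Q (1, 0) (1, 0) = G.omega g := by
    have h1 : HasDerivAt (fun r : ℝ => ((r, (0:ℝ)) : ℝ × ℝ)) ((1, 0) : ℝ × ℝ) 1 :=
      (hasDerivAt_id _).prodMk (hasDerivAt_const _ _)
    have h2 := hQd.comp_hasDerivAt (1:ℝ) h1
    have h3 : (Q ∘ fun r : ℝ => ((r, (0:ℝ)) : ℝ × ℝ)) =
        fun r : ℝ => G.mul (dil G.weight r g) (-g) := by
      funext r
      simp [hQ, G.mul_zero']
    rw [h3] at h2
    exact h2.unique (G.hasDerivAt_omega g)
  have hQ2 : fderiv ℝ Q (1, 0) (0, 1) = G.Ad g v := by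
    have h1 : HasDerivAt (fun s : ℝ => (((1:ℝ), s) : ℝ × ℝ)) ((0, 1) : ℝ × ℝ) 0 :=
      (hasDerivAt_const _ _).prodMk (hasDerivAt_id _)
    have h2 := hQd.comp_hasDerivAt (0:ℝ) h1
    have h3 : (Q ∘ fun s : ℝ => (((1:ℝ), s) : ℝ × ℝ)) =
        fun s : ℝ => G.mul (G.mul g (s • v)) (-g) := by
      funext s
      simp [hQ, dil_one]
    rw [h3] at h2
    have h4 : HasFDerivAt (fun x => G.mul (G.mul g x) (-g)) (G.Ad g) ((0:ℝ) • v) := by
      rw [zero_smul]
      exact ((G.contDiff_conj g).differentiable (by simp) _).hasFDerivAt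
    have h5 : HasDerivAt (fun s : ℝ => s • v) v 0 := by
      simpa using (hasDerivAt_id (0:ℝ)).smul_const v
    have h6 := h4.comp_hasDerivAt (0:ℝ) h5
    exact h2.unique h6
  -- the derivative along the line
  have h1 : HasDerivAt (fun r : ℝ => ((r, (r - 1) * t) : ℝ × ℝ)) ((1, t) : ℝ × ℝ) 1 := by
    have : HasDerivAt (fun r : ℝ => (r - 1) * t) t 1 := by
      simpa using ((hasDerivAt_id (1:ℝ)).sub_const 1).mul_const t
    exact (hasDerivAt_id _).prodMk this
  have hQd' : HasFDerivAt Q (fderiv ℝ Q (1, 0)) ((1:ℝ), ((1:ℝ) - 1) * t) := by simpa using hQd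
  have h2 := hQd'.comp_hasDerivAt (1:ℝ) h1
  have h3 : (Q ∘ fun r : ℝ => ((r, (r - 1) * t) : ℝ × ℝ)) =ᶠ[𝓝 1]
      fun r : ℝ => G.mul (dil G.weight r (G.mul g (t • v))) (-(G.mul g (t • v))) := by
    filter_upwards [lt_mem_nhds (show (0:ℝ) < 1 by norm_num)] with r hr
    simp only [Function.comp, hQ]
    rw [G.dil_mul r hr, dil_smul, G.dil_of_isHor hv, G.neg_mul_rev]
    rw [G.mul_assoc, G.mul_assoc, ← G.mul_assoc (t • r • v)]
    congr 2
    have : t • r • v = (t * r) • v := by rw [smul_smul]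
    rw [this, ← neg_smul, G.mul_smul_smul]
    congr 1; ring
  have h4 := (h2.congr_of_eventuallyEq h3.symm).unique (G.hasDerivAt_omega _)
  rw [← h4]
  have h5 : ((1, t) : ℝ × ℝ) = (1, 0) + t • ((0, 1) : ℝ × ℝ) := by
    ext <;> simp
  rw [h5, map_add, map_smul, hQ1, hQ2]

theorem omega_dil {r : ℝ} (hr : 0 < r) (g : E N) :
    G.omega (dil G.weight r g) = dil G.weight r (G.omega g) := by
  have h1 := G.hasDerivAt_omega (dil G.weight r g)
  have h2 : HasDerivAt (fun s : ℝ => dilL G.weight r (G.mul (dil G.weight s g) (-g)))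
      (dilL G.weight r (G.omega g)) 1 :=
    ((dilL G.weight r).hasFDerivAt).comp_hasDerivAt (1:ℝ) (G.hasDerivAt_omega g)
  have h3 : (fun s : ℝ => G.mul (dil G.weight s (dil G.weight r g)) (-(dil G.weight r g))) =
      fun s : ℝ => dilL G.weight r (G.mul (dil G.weight s g) (-g)) := by
    funext s
    rw [dilL_apply, G.dil_mul r hr, dil_dil, dil_dil, dil_neg, mul_comm]
  rw [h3] at h1
  exact h1.unique h2

/-- the chart -/
noncomputable def psi (g : E N) : E N :=
  diagL (fun i => ((G.weight i : ℝ))⁻¹) (G.omega g)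

theorem contDiff_psi : ContDiff ℝ ∞ G.psi :=
  (ContinuousLinearMap.contDiff _).comp G.contDiff_omega

theorem psi_mul_smul (g : E N) {v : E N} (hv : G.IsHor v) (t : ℝ) :
    G.psi (G.mul g (t • v)) =
      G.psi g + t • diagL (fun i => ((G.weight i : ℝ))⁻¹) (G.Ad g v) := by
  rw [psi, psi, G.omega_mul_smul g hv, map_add, map_smul]

theorem psi_dil {r : ℝ} (hr : 0 < r) (g : E N) :
    G.psi (dil G.weight r g) = dil G.weight r (G.psi g) := by
  rw [psi, psi, G.omega_dil hr]
  ext i
  simp
  ring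

theorem omega_zero : G.omega 0 = 0 := by
  rw [omega, map_zero]
  exact map_zero _

theorem psi_zero : G.psi 0 = 0 := by
  simp [psi, omega_zero]

theorem fderiv_mul_zero (v : E N) :
    fderiv ℝ (fun q : E N × E N => G.mul q.1 q.2) (0, 0) (v, 0) = v := by
  have h1 : HasFDerivAt (fun q : E N × E N => G.mul q.1 q.2)
      (fderiv ℝ (fun q : E N × E N => G.mul q.1 q.2) (0, 0)) ((0:ℝ) • v, (0 : E N)) := by
    rw [zero_smul]
    exact (G.contDiff_mul.differentiable (by simp) _).hasFDerivAt
  have h2 : HasDerivAt (fun s : ℝ => (s • v, (0 : E N))) (v, (0 : E N)) 0 := by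
    have : HasDerivAt (fun s : ℝ => s • v) v 0 := by
      simpa using (hasDerivAt_id (0:ℝ)).smul_const v
    exact this.prodMk (hasDerivAt_const _ _)
  have h3 := h1.comp_hasDerivAt (0:ℝ) h2
  have h4 : ((fun q : E N × E N => G.mul q.1 q.2) ∘ fun s : ℝ => (s • v, (0 : E N))) =
      fun s : ℝ => s • v := by
    funext s
    simp [G.mul_zero']
  rw [h4] at h3
  have h5 : HasDerivAt (fun s : ℝ => s • v) v 0 := by
    simpa using (hasDerivAt_id (0:ℝ)).smul_const v
  exact h3.unique h5

theorem fderiv_omega_zero : fderiv ℝ G.omega 0 = diagL (fun i => (G.weight i : ℝ)) := by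
  -- `ω(g) = A(g) (Dg, 0)` with `A` differentiable and `D0 = 0`
  set A : E N → (E N × E N →L[ℝ] E N) := fun g =>
    fderiv ℝ (fun q : E N × E N => G.mul q.1 q.2) (g, -g) with hA
  have hAs : ContDiff ℝ ∞ A := by
    have h1 : ContDiff ℝ ∞ (fderiv ℝ (fun q : E N × E N => G.mul q.1 q.2)) :=
      G.contDiff_mul.fderiv_right (by simp)
    exact h1.comp (contDiff_id.prodMk contDiff_neg)
  have h1 : HasFDerivAt A (fderiv ℝ A 0) 0 := (hAs.differentiable (by simp) _).hasFDerivAt
  set B : E N →L[ℝ] E N × E N :=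
    (diagL (fun i => (G.weight i : ℝ))).prod 0 with hB
  have h2 : HasFDerivAt B B 0 := B.hasFDerivAt
  have h3 := h1.clm_apply h2
  have h4 : (fun g => A g (B g)) = G.omega := by
    funext g
    simp [hA, hB, omega]
  rw [h4] at h3
  rw [h3.fderiv]
  ext v i
  simp only [map_zero, add_zero, hA]
  simp only [hB, ContinuousLinearMap.comp_apply, ContinuousLinearMap.prod_apply,
    zero_apply, neg_zero]
  rw [G.fderiv_mul_zero]

theorem fderiv_psi_zero : fderiv ℝ G.psi 0 = ContinuousLinearMap.id ℝ (E N) := by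
  have h1 : HasFDerivAt G.omega (fderiv ℝ G.omega 0) 0 :=
    (G.contDiff_omega.differentiable (by simp) _).hasFDerivAt
  have h2 := (diagL (fun i => ((G.weight i : ℝ))⁻¹)).hasFDerivAt.comp (0 : E N) h1
  have h3 : (⇑(diagL (fun i => ((G.weight i : ℝ))⁻¹)) ∘ G.omega) = G.psi := rfl
  rw [h3] at h2
  rw [h2.fderiv, fderiv_omega_zero]
  ext v i
  have : (G.weight i : ℝ) ≠ 0 := by
    have := G.weight_pos i
    positivity
  simp only [ContinuousLinearMap.comp_apply, diagL_apply, ContinuousLinearMap.id_apply]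
  field_simp

theorem det_fderiv_psi (g : E N) : (fderiv ℝ G.psi g).det = 1 := by
  have h := det_eq_one_of_homogeneous G.weight_pos (F := fun _ x => G.psi x)
    ((G.contDiff_psi.comp contDiff_snd).of_le (by exact_mod_cast le_top))
    (fun r hr a x => G.psi_dil hr x) G.fderiv_psi_zero 0 g
  exact h

/-- the Jacobian of the chart as an equivalence -/
noncomputable def psiEquiv (g : E N) : E N ≃L[ℝ] E N :=
  ContinuousLinearMap.toContinuousLinearEquivOfDetNeZero (fderiv ℝ G.psi g)
    (by rw [G.det_fderiv_psi]; norm_num)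

theorem hasFDerivAt_psi (g : E N) :
    HasFDerivAt G.psi (G.psiEquiv g : E N →L[ℝ] E N) g := by
  have h := (G.contDiff_psi.differentiable (by simp) g).hasFDerivAt
  have h2 : (G.psiEquiv g : E N →L[ℝ] E N) = fderiv ℝ G.psi g :=
    ContinuousLinearMap.coe_toContinuousLinearEquivOfDetNeZero _ _
  rw [h2]
  exact h

theorem hasStrictFDerivAt_psi (g : E N) :
    HasStrictFDerivAt G.psi (G.psiEquiv g : E N →L[ℝ] E N) g :=
  G.contDiff_psi.contDiffAt.hasStrictFDerivAt' (G.hasFDerivAt_psi g) (by simp)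

theorem psi_injective : Function.Injective G.psi := by
  intro x y hxy
  -- `psi` is injective near `0`
  set e := (G.hasStrictFDerivAt_psi 0).toOpenPartialHomeomorph G.psi with he
  have h0 : (0 : E N) ∈ e.source := (G.hasStrictFDerivAt_psi 0).mem_toOpenPartialHomeomorph_source
  have hs : e.source ∈ 𝓝 (0 : E N) := e.open_source.mem_nhds h0
  have hx := (dil_tendsto_zero G.weight G.weight_pos x).eventually hs
  have hy := (dil_tendsto_zero G.weight G.weight_pos y).eventually hs
  obtain ⟨r, ⟨hrx, hry⟩, hr⟩ := ((hx.and hy).and self_mem_nhdsWithin).exists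
  have hr' : (0:ℝ) < r := hr
  have hinj := e.injOn hrx hry
  have hcoe : ∀ z, e z = G.psi z := fun z => rfl
  have h2 : dil G.weight r x = dil G.weight r y := by
    apply hinj
    rw [hcoe, hcoe, G.psi_dil hr', G.psi_dil hr', hxy]
  have h3 := congrArg (dil G.weight r⁻¹) h2
  rwa [dil_dil, dil_dil, inv_mul_cancel₀ hr'.ne', dil_one, dil_one] at h3

theorem psi_surjective : Function.Surjective G.psi := by
  intro y
  set e := (G.hasStrictFDerivAt_psi 0).toOpenPartialHomeomorph G.psi with he
  have h0 : (0 : E N) ∈ e.source := (G.hasStrictFDerivAt_psi 0).mem_toOpenPartialHomeomorph_source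
  have hcoe : ∀ z, e z = G.psi z := fun z => rfl
  have h0' : (0 : E N) ∈ e.target := by
    have := e.map_source h0
    rwa [hcoe, G.psi_zero] at this
  have hs : e.target ∈ 𝓝 (0 : E N) := e.open_target.mem_nhds h0'
  have hy := (dil_tendsto_zero G.weight G.weight_pos y).eventually hs
  obtain ⟨r, hry, hr⟩ := (hy.and self_mem_nhdsWithin).exists
  have hr' : (0:ℝ) < r := hr
  have h1 := e.right_inv hry
  rw [hcoe] at h1
  refine ⟨dil G.weight r⁻¹ (e.symm (dil G.weight r y)), ?_⟩
  rw [G.psi_dil (inv_pos.2 hr'), h1, dil_dil, inv_mul_cancel₀ hr'.ne', dil_one]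

theorem psi_isOpenMap : IsOpenMap G.psi :=
  isOpenMap_of_hasStrictFDerivAt_equiv G.hasStrictFDerivAt_psi

/-- the chart as an equivalence -/
noncomputable def Psi : E N ≃ E N := Equiv.ofBijective G.psi ⟨G.psi_injective, G.psi_surjective⟩

@[simp] theorem Psi_apply (g : E N) : G.Psi g = G.psi g := rfl

/-- the chart as a homeomorphism -/
noncomputable def PsiHomeo : E N ≃ₜ E N :=
  G.Psi.toHomeomorphOfContinuousOpen G.contDiff_psi.continuous G.psi_isOpenMap

theorem contDiff_Psi_symm : ContDiff ℝ ∞ G.Psi.symm := by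
  have h : ContDiff ℝ ∞ G.PsiHomeo.symm := by
    apply Homeomorph.contDiff_symm (f₀' := G.psiEquiv)
    · intro a
      exact G.hasFDerivAt_psi a
    · exact G.contDiff_psi
  exact h

theorem measurePreserving_psi : MeasurePreserving G.psi volume volume :=
  measurePreserving_of_det (G.contDiff_psi.of_le (by exact_mod_cast le_top))
    G.psi_injective G.psi_surjective G.det_fderiv_psi

theorem measurePreserving_Psi_symm : MeasurePreserving G.Psi.symm volume volume := by
  have h : MeasurePreserving G.PsiHomeo.toMeasurableEquiv volume volume := G.measurePreserving_psi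
  exact h.symm

end CarnotGroup

end Pool.Agent.Carnot
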