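import Mathlib
import Pool.Agent.Carnot.Group

/-!
# A Carnot group of step three and dimension twelve

Lie algebra: `V₁ = span(e₀,…,e₄, e₅)`, `V₂ = span(g₀,…,g₄)`, `V₃ = span(T)`, with
`[e_i, e₅] = g_i`, `[e_i, g_j] = δ_ij T` for `i, j < 5`.
Coordinates: `x 0, …, x 4` and `x 5` (weight 1), `x 6, …, x 10` (weight 2), `x 11` (weight 3).
-/

namespace Pool.Agent.Carnot

open MeasureTheory Set Filter Topology
open scoped ContDiff ENNReal NNReal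

/-- The group law (Baker-Campbell-Hausdorff formula). -/
noncomputable def exMul (x y : E 12) : E 12 := WithLp.toLp 2 ![
  x 0 + y 0, x 1 + y 1, x 2 + y 2, x 3 + y 3, x 4 + y 4, x 5 + y 5,
  x 6 + y 6 + (x 0 * y 5 - y 0 * x 5) / 2,
  x 7 + y 7 + (x 1 * y 5 - y 1 * x 5) / 2,
  x 8 + y 8 + (x 2 * y 5 - y 2 * x 5) / 2,
  x 9 + y 9 + (x 3 * y 5 - y 3 * x 5) / 2,
  x 10 + y 10 + (x 4 * y 5 - y 4 * x 5) / 2,
  x 11 + y 11 +
    ((x 0 * y 6 + x 1 * y 7 + x 2 * y 8 + x 3 * y 9 + x 4 * y 10) -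
      (y 0 * x 6 + y 1 * x 7 + y 2 * x 8 + y 3 * x 9 + y 4 * x 10)) / 2 +
    ((x 0 ^ 2 + x 1 ^ 2 + x 2 ^ 2 + x 3 ^ 2 + x 4 ^ 2) * y 5 +
      (y 0 ^ 2 + y 1 ^ 2 + y 2 ^ 2 + y 3 ^ 2 + y 4 ^ 2) * x 5 -
      (x 0 * y 0 + x 1 * y 1 + x 2 * y 2 + x 3 * y 3 + x 4 * y 4) * (x 5 + y 5)) / 12]

/-- The weights. -/
def exW : Fin 12 → ℕ := ![1, 1, 1, 1, 1, 1, 2, 2, 2, 2, 2, 3]

theorem exMul_apply (x y : E 12) (i : Fin 12) : exMul x y i = ![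
  x 0 + y 0, x 1 + y 1, x 2 + y 2, x 3 + y 3, x 4 + y 4, x 5 + y 5,
  x 6 + y 6 + (x 0 * y 5 - y 0 * x 5) / 2,
  x 7 + y 7 + (x 1 * y 5 - y 1 * x 5) / 2,
  x 8 + y 8 + (x 2 * y 5 - y 2 * x 5) / 2,
  x 9 + y 9 + (x 3 * y 5 - y 3 * x 5) / 2,
  x 10 + y 10 + (x 4 * y 5 - y 4 * x 5) / 2,
  x 11 + y 11 +
    ((x 0 * y 6 + x 1 * y 7 + x 2 * y 8 + x 3 * y 9 + x 4 * y 10) -
      (y 0 * x 6 + y 1 * x 7 + y 2 * x 8 + y 3 * x 9 + y 4 * x 10)) / 2 +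
    ((x 0 ^ 2 + x 1 ^ 2 + x 2 ^ 2 + x 3 ^ 2 + x 4 ^ 2) * y 5 +
      (y 0 ^ 2 + y 1 ^ 2 + y 2 ^ 2 + y 3 ^ 2 + y 4 ^ 2) * x 5 -
      (x 0 * y 0 + x 1 * y 1 + x 2 * y 2 + x 3 * y 3 + x 4 * y 4) * (x 5 + y 5)) / 12] i := rfl

@[simp] theorem exMul_0 (x y : E 12) : exMul x y 0 = x 0 + y 0 := rfl
@[simp] theorem exMul_1 (x y : E 12) : exMul x y 1 = x 1 + y 1 := rfl
@[simp] theorem exMul_2 (x y : E 12) : exMul x y 2 = x 2 + y 2 := rfl
@[simp] theorem exMul_3 (x y : E 12) : exMul x y 3 = x 3 + y 3 := rfl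
@[simp] theorem exMul_4 (x y : E 12) : exMul x y 4 = x 4 + y 4 := rfl
@[simp] theorem exMul_5 (x y : E 12) : exMul x y 5 = x 5 + y 5 := rfl
@[simp] theorem exMul_6 (x y : E 12) :
    exMul x y 6 = x 6 + y 6 + (x 0 * y 5 - y 0 * x 5) / 2 := rfl
@[simp] theorem exMul_7 (x y : E 12) :
    exMul x y 7 = x 7 + y 7 + (x 1 * y 5 - y 1 * x 5) / 2 := rfl
@[simp] theorem exMul_8 (x y : E 12) :
    exMul x y 8 = x 8 + y 8 + (x 2 * y 5 - y 2 * x 5) / 2 := rfl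
@[simp] theorem exMul_9 (x y : E 12) :
    exMul x y 9 = x 9 + y 9 + (x 3 * y 5 - y 3 * x 5) / 2 := rfl
@[simp] theorem exMul_10 (x y : E 12) :
    exMul x y 10 = x 10 + y 10 + (x 4 * y 5 - y 4 * x 5) / 2 := rfl
@[simp] theorem exMul_11 (x y : E 12) : exMul x y 11 =
  x 11 + y 11 +
    ((x 0 * y 6 + x 1 * y 7 + x 2 * y 8 + x 3 * y 9 + x 4 * y 10) -
      (y 0 * x 6 + y 1 * x 7 + y 2 * x 8 + y 3 * x 9 + y 4 * x 10)) / 2 +
    ((x 0 ^ 2 + x 1 ^ 2 + x 2 ^ 2 + x 3 ^ 2 + x 4 ^ 2) * y 5 +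
      (y 0 ^ 2 + y 1 ^ 2 + y 2 ^ 2 + y 3 ^ 2 + y 4 ^ 2) * x 5 -
      (x 0 * y 0 + x 1 * y 1 + x 2 * y 2 + x 3 * y 3 + x 4 * y 4) * (x 5 + y 5)) / 12 := rfl

/-- extensionality by the twelve coordinates -/
theorem ext12 {x y : E 12} (h0 : x 0 = y 0) (h1 : x 1 = y 1) (h2 : x 2 = y 2) (h3 : x 3 = y 3)
    (h4 : x 4 = y 4) (h5 : x 5 = y 5) (h6 : x 6 = y 6) (h7 : x 7 = y 7) (h8 : x 8 = y 8)
    (h9 : x 9 = y 9) (h10 : x 10 = y 10) (h11 : x 11 = y 11) : x = y := by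
  ext i
  fin_cases i
  · exact h0
  · exact h1
  · exact h2
  · exact h3
  · exact h4
  · exact h5
  · exact h6
  · exact h7
  · exact h8
  · exact h9
  · exact h10
  · exact h11

theorem exMul_assoc (x y z : E 12) : exMul (exMul x y) z = exMul x (exMul y z) := by
  apply ext12 <;> simp only [exMul_0, exMul_1, exMul_2, exMul_3, exMul_4, exMul_5, exMul_6,
    exMul_7, exMul_8, exMul_9, exMul_10, exMul_11] <;> ring

theorem exMul_smul_smul (s t : ℝ) (x : E 12) : exMul (s • x) (t • x) = (s + t) • x := by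
  apply ext12 <;> simp only [exMul_0, exMul_1, exMul_2, exMul_3, exMul_4, exMul_5, exMul_6,
    exMul_7, exMul_8, exMul_9, exMul_10, exMul_11, PiLp.smul_apply, smul_eq_mul] <;> ring

theorem contDiff_coord (i : Fin 12) : ContDiff ℝ ∞ (fun x : E 12 => x i) :=
  (EuclideanSpace.proj (𝕜 := ℝ) i).contDiff

theorem contDiff_exMul : ContDiff ℝ ∞ (fun q : E 12 × E 12 => exMul q.1 q.2) := by
  have h1 : ∀ i : Fin 12, ContDiff ℝ ∞ (fun q : E 12 × E 12 => q.1 i) := fun i =>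
    (contDiff_coord i).comp contDiff_fst
  have h2 : ∀ i : Fin 12, ContDiff ℝ ∞ (fun q : E 12 × E 12 => q.2 i) := fun i =>
    (contDiff_coord i).comp contDiff_snd
  rw [contDiff_euclidean]
  intro i
  fin_cases i
  · exact (h1 0).add (h2 0)
  · exact (h1 1).add (h2 1)
  · exact (h1 2).add (h2 2)
  · exact (h1 3).add (h2 3)
  · exact (h1 4).add (h2 4)
  · exact (h1 5).add (h2 5)
  · exact ((h1 6).add (h2 6)).add ((((h1 0).mul (h2 5)).sub ((h2 0).mul (h1 5))).div_const 2)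
  · exact ((h1 7).add (h2 7)).add ((((h1 1).mul (h2 5)).sub ((h2 1).mul (h1 5))).div_const 2)
  · exact ((h1 8).add (h2 8)).add ((((h1 2).mul (h2 5)).sub ((h2 2).mul (h1 5))).div_const 2)
  · exact ((h1 9).add (h2 9)).add ((((h1 3).mul (h2 5)).sub ((h2 3).mul (h1 5))).div_const 2)
  · exact ((h1 10).add (h2 10)).add ((((h1 4).mul (h2 5)).sub ((h2 4).mul (h1 5))).div_const 2)
  · refine (((h1 11).add (h2 11)).add (ContDiff.div_const (ContDiff.sub ?_ ?_) 2)).add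
      (ContDiff.div_const (ContDiff.sub (ContDiff.add ?_ ?_) ?_) 12)
    · exact (((((h1 0).mul (h2 6)).add ((h1 1).mul (h2 7))).add ((h1 2).mul (h2 8))).add
        ((h1 3).mul (h2 9))).add ((h1 4).mul (h2 10))
    · exact (((((h2 0).mul (h1 6)).add ((h2 1).mul (h1 7))).add ((h2 2).mul (h1 8))).add
        ((h2 3).mul (h1 9))).add ((h2 4).mul (h1 10))
    · exact ((((((h1 0).pow 2).add ((h1 1).pow 2)).add ((h1 2).pow 2)).add ((h1 3).pow 2)).add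
        ((h1 4).pow 2)).mul (h2 5)
    · exact ((((((h2 0).pow 2).add ((h2 1).pow 2)).add ((h2 2).pow 2)).add ((h2 3).pow 2)).add
        ((h2 4).pow 2)).mul (h1 5)
    · exact ((((((h1 0).mul (h2 0)).add ((h1 1).mul (h2 1))).add ((h1 2).mul (h2 2))).add
        ((h1 3).mul (h2 3))).add ((h1 4).mul (h2 4))).mul ((h1 5).add (h2 5))

theorem exW_dil (r : ℝ) (x y : E 12) :
    dil exW r (exMul x y) = exMul (dil exW r x) (dil exW r y) := by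
  apply ext12 <;> simp only [dil_apply, exMul_0, exMul_1, exMul_2, exMul_3, exMul_4, exMul_5,
    exMul_6, exMul_7, exMul_8, exMul_9, exMul_10, exMul_11] <;>
    simp only [exW, Matrix.cons_val] <;> ring

/-- vectors by coordinates -/
noncomputable def vec (a0 a1 a2 a3 a4 a5 a6 a7 a8 a9 a10 a11 : ℝ) : E 12 :=
  WithLp.toLp 2 ![a0, a1, a2, a3, a4, a5, a6, a7, a8, a9, a10, a11]

section vec
variable (a0 a1 a2 a3 a4 a5 a6 a7 a8 a9 a10 a11 : ℝ)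
@[simp] theorem vec_0 : vec a0 a1 a2 a3 a4 a5 a6 a7 a8 a9 a10 a11 0 = a0 := rfl
@[simp] theorem vec_1 : vec a0 a1 a2 a3 a4 a5 a6 a7 a8 a9 a10 a11 1 = a1 := rfl
@[simp] theorem vec_2 : vec a0 a1 a2 a3 a4 a5 a6 a7 a8 a9 a10 a11 2 = a2 := rfl
@[simp] theorem vec_3 : vec a0 a1 a2 a3 a4 a5 a6 a7 a8 a9 a10 a11 3 = a3 := rfl
@[simp] theorem vec_4 : vec a0 a1 a2 a3 a4 a5 a6 a7 a8 a9 a10 a11 4 = a4 := rfl
@[simp] theorem vec_5 : vec a0 a1 a2 a3 a4 a5 a6 a7 a8 a9 a10 a11 5 = a5 := rfl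
@[simp] theorem vec_6 : vec a0 a1 a2 a3 a4 a5 a6 a7 a8 a9 a10 a11 6 = a6 := rfl
@[simp] theorem vec_7 : vec a0 a1 a2 a3 a4 a5 a6 a7 a8 a9 a10 a11 7 = a7 := rfl
@[simp] theorem vec_8 : vec a0 a1 a2 a3 a4 a5 a6 a7 a8 a9 a10 a11 8 = a8 := rfl
@[simp] theorem vec_9 : vec a0 a1 a2 a3 a4 a5 a6 a7 a8 a9 a10 a11 9 = a9 := rfl
@[simp] theorem vec_10 : vec a0 a1 a2 a3 a4 a5 a6 a7 a8 a9 a10 a11 10 = a10 := rfl
@[simp] theorem vec_11 : vec a0 a1 a2 a3 a4 a5 a6 a7 a8 a9 a10 a11 11 = a11 := rfl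
end vec

/-- elements which are products of horizontal ones -/
def ExGen (x : E 12) : Prop :=
  ∃ l : List (E 12), (∀ v ∈ l, ∀ i, exW i ≠ 1 → v i = 0) ∧ l.foldr exMul 0 = x

theorem exMul_zero (x : E 12) : exMul x 0 = x := by
  have := exMul_smul_smul 1 0 x
  simpa using this

theorem zero_exMul (x : E 12) : exMul 0 x = x := by
  have := exMul_smul_smul 0 1 x
  simpa using this

theorem foldr_exMul (l : List (E 12)) (x : E 12) :
    l.foldr exMul x = exMul (l.foldr exMul 0) x := by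
  induction l with
  | nil => simp [zero_exMul]
  | cons a l ih => rw [List.foldr_cons, List.foldr_cons, ih, exMul_assoc]

theorem ExGen.mul {x y : E 12} (hx : ExGen x) (hy : ExGen y) : ExGen (exMul x y) := by
  obtain ⟨l, hl, rfl⟩ := hx
  obtain ⟨m, hm, rfl⟩ := hy
  refine ⟨l ++ m, fun v hv => ?_, ?_⟩
  · rcases List.mem_append.1 hv with h | h
    · exact hl v h
    · exact hm v h
  · rw [List.foldr_append, foldr_exMul]

theorem exGen_hor (a0 a1 a2 a3 a4 a5 : ℝ) : ExGen (vec a0 a1 a2 a3 a4 a5 0 0 0 0 0 0) := by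
  refine ⟨[vec a0 a1 a2 a3 a4 a5 0 0 0 0 0 0], ?_, ?_⟩
  · intro v hv i hi
    rw [List.mem_singleton] at hv
    subst hv
    fin_cases i <;> first | exact absurd rfl hi | rfl
  · rw [List.foldr_cons, List.foldr_nil, exMul_zero]

theorem exGen_g0 (t : ℝ) : ExGen (vec 0 0 0 0 0 0 t 0 0 0 0 (t ^ 2 / 2)) := by
  have h := (((exGen_hor t 0 0 0 0 0).mul (exGen_hor 0 0 0 0 0 1)).mul
    (exGen_hor (-t) 0 0 0 0 0)).mul (exGen_hor 0 0 0 0 0 (-1))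
  convert h using 1
  apply ext12 <;> (simp; try ring)

theorem exGen_g0' (t : ℝ) : ExGen (vec 0 0 0 0 0 0 (-t) 0 0 0 0 (-(t ^ 2 / 2))) := by
  have h := (((exGen_hor 0 0 0 0 0 1).mul (exGen_hor t 0 0 0 0 0)).mul
    (exGen_hor 0 0 0 0 0 (-1))).mul (exGen_hor (-t) 0 0 0 0 0)
  convert h using 1
  apply ext12 <;> (simp; try ring)

theorem exGen_g1 (t : ℝ) : ExGen (vec 0 0 0 0 0 0 0 t 0 0 0 (t ^ 2 / 2)) := by
  have h := (((exGen_hor 0 t 0 0 0 0).mul (exGen_hor 0 0 0 0 0 1)).mul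
    (exGen_hor 0 (-t) 0 0 0 0)).mul (exGen_hor 0 0 0 0 0 (-1))
  convert h using 1
  apply ext12 <;> (simp; try ring)

theorem exGen_g2 (t : ℝ) : ExGen (vec 0 0 0 0 0 0 0 0 t 0 0 (t ^ 2 / 2)) := by
  have h := (((exGen_hor 0 0 t 0 0 0).mul (exGen_hor 0 0 0 0 0 1)).mul
    (exGen_hor 0 0 (-t) 0 0 0)).mul (exGen_hor 0 0 0 0 0 (-1))
  convert h using 1
  apply ext12 <;> (simp; try ring)

theorem exGen_g3 (t : ℝ) : ExGen (vec 0 0 0 0 0 0 0 0 0 t 0 (t ^ 2 / 2)) := by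
  have h := (((exGen_hor 0 0 0 t 0 0).mul (exGen_hor 0 0 0 0 0 1)).mul
    (exGen_hor 0 0 0 (-t) 0 0)).mul (exGen_hor 0 0 0 0 0 (-1))
  convert h using 1
  apply ext12 <;> (simp; try ring)

theorem exGen_g4 (t : ℝ) : ExGen (vec 0 0 0 0 0 0 0 0 0 0 t (t ^ 2 / 2)) := by
  have h := (((exGen_hor 0 0 0 0 t 0).mul (exGen_hor 0 0 0 0 0 1)).mul
    (exGen_hor 0 0 0 0 (-t) 0)).mul (exGen_hor 0 0 0 0 0 (-1))
  convert h using 1
  apply ext12 <;> (simp; try ring)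

theorem exGen_T (t : ℝ) : ExGen (vec 0 0 0 0 0 0 0 0 0 0 0 t) := by
  have h := (((exGen_hor 1 0 0 0 0 0).mul (exGen_g0 t)).mul
    (exGen_hor (-1) 0 0 0 0 0)).mul (exGen_g0' t)
  convert h using 1
  apply ext12 <;> (simp; try ring)

theorem exGen_all (x : E 12) : ExGen x := by
  have h := ((((((exGen_hor (x 0) (x 1) (x 2) (x 3) (x 4) (x 5)).mul (exGen_g0 (x 6))).mul
    (exGen_g1 (x 7))).mul (exGen_g2 (x 8))).mul (exGen_g3 (x 9))).mul (exGen_g4 (x 10))).mul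
    (exGen_T (x 11 - (x 0 * x 6 + x 1 * x 7 + x 2 * x 8 + x 3 * x 9 + x 4 * x 10) / 2 -
      (x 6 ^ 2 + x 7 ^ 2 + x 8 ^ 2 + x 9 ^ 2 + x 10 ^ 2) / 2))
  convert h using 1
  apply ext12 <;> (simp; try ring)

/-- The example group. -/
noncomputable def exG : CarnotGroup 12 where
  weight := exW
  weight_pos := by intro i; fin_cases i <;> simp [exW]
  mul := exMul
  contDiff_mul := contDiff_exMul
  mul_assoc := exMul_assoc
  mul_smul_smul := exMul_smul_smul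
  dil_mul := fun r _ x y => exW_dil r x y
  generated := exGen_all

theorem exG_mul (x y : E 12) : exG.mul x y = exMul x y := rfl

theorem exG_weight_le (i : Fin 12) : exG.weight i ≤ 3 := by
  fin_cases i <;> simp [exG, exW]

end Pool.Agent.Carnot
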