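import Mathlib

/-!
# The profile of the barrier, as a function of four real variables
-/

namespace Pool.Agent.Carnot

open Set Filter Topology

/-- fourth root -/
noncomputable def rt (P : ℝ) : ℝ := P ^ (1 / 4 : ℝ)

theorem rt_pos {P : ℝ} (hP : 0 < P) : 0 < rt P := Real.rpow_pos_of_pos hP _

theorem rt_pow {P : ℝ} (hP : 0 ≤ P) : rt P ^ 4 = P := by
  unfold rt
  rw [← Real.rpow_natCast, ← Real.rpow_mul hP]
  norm_num

theorem hasDerivAt_rt {f : ℝ → ℝ} {f' t : ℝ} (hf : HasDerivAt f f' t) (hpos : 0 < f t) :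
    HasDerivAt (fun s => rt (f s)) (f' * (rt (f t) / (4 * f t))) t := by
  have h := hf.rpow_const (p := (1 / 4 : ℝ)) (Or.inl hpos.ne')
  refine HasDerivAt.congr_deriv h ?_
  unfold rt
  rw [Real.rpow_sub_one hpos.ne']
  field_simp

/-- the profile -/
noncomputable def Phi (P p G T : ℝ) : ℝ :=
  rt P - P * rt P / (4 * p) - 100 * (G * rt P / P + T ^ 2 * rt P / P ^ 2) -
    10 ^ 4 * (P + G + T ^ 2)

/-- first derivatives -/
noncomputable def PhiP (P p G T : ℝ) : ℝ :=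
  rt P / (4 * P) - 5 / 16 * (rt P / p) +
    100 * (3 / 4 * (G * rt P / P ^ 2) + 7 / 4 * (T ^ 2 * rt P / P ^ 3)) - 10 ^ 4

noncomputable def Phip (P p : ℝ) : ℝ := P * rt P / (4 * p ^ 2)

noncomputable def PhiG (P : ℝ) : ℝ := -(100 * (rt P / P)) - 10 ^ 4

noncomputable def PhiT (P T : ℝ) : ℝ := -(200 * (T * rt P / P ^ 2)) - 2 * 10 ^ 4 * T

/-- second derivatives -/
noncomputable def PhiPP (P p G T : ℝ) : ℝ :=
  -(3 / 16) * (rt P / P ^ 2) - 5 / 64 * (rt P / (P * p)) -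
    100 * (21 / 16 * (G * rt P / P ^ 3) + 77 / 16 * (T ^ 2 * rt P / P ^ 4))

noncomputable def PhiPp (P p : ℝ) : ℝ := 5 / 16 * (rt P / p ^ 2)

noncomputable def Phipp (P p : ℝ) : ℝ := -(P * rt P / (2 * p ^ 3))

noncomputable def PhiPG (P : ℝ) : ℝ := 75 * (rt P / P ^ 2)

noncomputable def PhiPT (P T : ℝ) : ℝ := 350 * (T * rt P / P ^ 3)

noncomputable def PhiTT (P : ℝ) : ℝ := -(200 * (rt P / P ^ 2)) - 2 * 10 ^ 4

section

variable {P p G T : ℝ → ℝ} {P' p' G' T' t : ℝ}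

theorem hasDerivAt_Phi (hP : HasDerivAt P P' t) (hp : HasDerivAt p p' t)
    (hG : HasDerivAt G G' t) (hT : HasDerivAt T T' t) (hP0 : 0 < P t) (hp0 : 0 < p t) :
    HasDerivAt (fun s => Phi (P s) (p s) (G s) (T s))
      (PhiP (P t) (p t) (G t) (T t) * P' + Phip (P t) (p t) * p' + PhiG (P t) * G' +
        PhiT (P t) (T t) * T') t := by
  have hR := hasDerivAt_rt hP hP0
  have h1 := (hP.mul hR).div (hp.const_mul 4) (mul_pos (by norm_num : (0:ℝ) < 4) hp0).ne'
  have h2 := (hG.mul hR).div hP hP0.ne'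
  have h3 := ((hT.pow 2).mul hR).div (hP.pow 2) (pow_pos hP0 2).ne'
  have h4 := ((hP.add hG).add (hT.pow 2)).const_mul (10 ^ 4)
  have h := ((hR.sub h1).sub ((h2.add h3).const_mul 100)).sub h4
  refine h.congr_deriv ?_
  simp only [PhiP, Phip, PhiG, PhiT, Pi.pow_apply, Pi.mul_apply]
  have := hP0.ne'
  have := hp0.ne'
  field_simp
  ring

theorem hasDerivAt_PhiP (hP : HasDerivAt P P' t) (hp : HasDerivAt p p' t)
    (hG : HasDerivAt G G' t) (hT : HasDerivAt T T' t) (hP0 : 0 < P t) (hp0 : 0 < p t) :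
    HasDerivAt (fun s => PhiP (P s) (p s) (G s) (T s))
      (PhiPP (P t) (p t) (G t) (T t) * P' + PhiPp (P t) (p t) * p' + PhiPG (P t) * G' +
        PhiPT (P t) (T t) * T') t := by
  have hR := hasDerivAt_rt hP hP0
  have h1 := hR.div (hP.const_mul 4) (mul_pos (by norm_num : (0:ℝ) < 4) hP0).ne'
  have h2 := (hR.div hp hp0.ne').const_mul (5 / 16)
  have h3 := ((hG.mul hR).div (hP.pow 2) (pow_pos hP0 2).ne').const_mul (3 / 4)
  have h4 := (((hT.pow 2).mul hR).div (hP.pow 3) (pow_pos hP0 3).ne').const_mul (7 / 4)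
  have h := ((h1.sub h2).add ((h3.add h4).const_mul 100)).sub_const (10 ^ 4)
  refine h.congr_deriv ?_
  simp only [PhiPP, PhiPp, PhiPG, PhiPT, Pi.pow_apply, Pi.mul_apply]
  have := hP0.ne'
  have := hp0.ne'
  field_simp
  ring

theorem hasDerivAt_Phip (hP : HasDerivAt P P' t) (hp : HasDerivAt p p' t)
    (hP0 : 0 < P t) (hp0 : 0 < p t) :
    HasDerivAt (fun s => Phip (P s) (p s))
      (PhiPp (P t) (p t) * P' + Phipp (P t) (p t) * p') t := by
  have hR := hasDerivAt_rt hP hP0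
  have h := (hP.mul hR).div ((hp.pow 2).const_mul 4)
    (mul_pos (by norm_num : (0:ℝ) < 4) (pow_pos hp0 2)).ne'
  refine h.congr_deriv ?_
  simp only [PhiPp, Phipp, Pi.pow_apply, Pi.mul_apply]
  have := hP0.ne'
  have := hp0.ne'
  field_simp
  ring

theorem hasDerivAt_PhiG (hP : HasDerivAt P P' t) (hP0 : 0 < P t) :
    HasDerivAt (fun s => PhiG (P s)) (PhiPG (P t) * P') t := by
  have hR := hasDerivAt_rt hP hP0
  have h := (((hR.div hP hP0.ne').const_mul 100).neg).sub_const (10 ^ 4)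
  refine h.congr_deriv ?_
  simp only [PhiPG]
  have := hP0.ne'
  field_simp
  ring

theorem hasDerivAt_PhiT (hP : HasDerivAt P P' t) (hT : HasDerivAt T T' t) (hP0 : 0 < P t) :
    HasDerivAt (fun s => PhiT (P s) (T s)) (PhiPT (P t) (T t) * P' + PhiTT (P t) * T') t := by
  have hR := hasDerivAt_rt hP hP0
  have h := ((((hT.mul hR).div (hP.pow 2) (pow_pos hP0 2).ne').const_mul 200).neg).sub
    (hT.const_mul (2 * 10 ^ 4))
  refine h.congr_deriv ?_
  simp only [PhiPT, PhiTT, Pi.pow_apply, Pi.mul_apply]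
  have := hP0.ne'
  field_simp
  ring

end

/-- consequences of positivity of the profile -/
theorem Phi_region {P p G T : ℝ} (hP : 0 < P) (hp : 0 < p) (hG : 0 ≤ G)
    (h : 0 < Phi P p G T) :
    P < 4 * p ∧ 100 * G < P ∧ 100 * T ^ 2 < P ^ 2 ∧ rt P < 1 / 20 ∧ 10 ^ 4 * G < 1 / 20 ∧
      10 ^ 4 * T ^ 2 < 1 / 20 := by
  have hR := rt_pos hP
  have hR4 := rt_pow hP.le
  set R := rt P with hRdef
  have e : Phi P p G T = R * (1 - P / (4 * p) - 100 * (G / P) - 100 * (T ^ 2 / P ^ 2)) -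
      10 ^ 4 * (P + G + T ^ 2) := by
    unfold Phi
    rw [← hRdef]
    field_simp
    ring
  rw [e] at h
  have a1 : 0 < P / (4 * p) := by positivity
  have a2 : 0 ≤ G / P := by positivity
  have a3 : 0 ≤ T ^ 2 / P ^ 2 := by positivity
  have hT2 : 0 ≤ T ^ 2 := sq_nonneg T
  have hpos : 0 < 1 - P / (4 * p) - 100 * (G / P) - 100 * (T ^ 2 / P ^ 2) := by
    by_contra hcon
    push Not at hcon
    have : R * (1 - P / (4 * p) - 100 * (G / P) - 100 * (T ^ 2 / P ^ 2)) ≤ 0 :=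
      mul_nonpos_of_nonneg_of_nonpos hR.le hcon
    nlinarith
  have hlt : R * (1 - P / (4 * p) - 100 * (G / P) - 100 * (T ^ 2 / P ^ 2)) < R := by
    have : R * (1 - P / (4 * p) - 100 * (G / P) - 100 * (T ^ 2 / P ^ 2)) < R * 1 := by
      apply mul_lt_mul_of_pos_left _ hR
      linarith
    linarith
  have hK : 10 ^ 4 * (P + G + T ^ 2) < R := by linarith
  have hRb : R < 1 / 20 := by
    have h1 : 10 ^ 4 * R ^ 4 < R := by rw [hR4]; nlinarith
    have h2 : 10 ^ 4 * R ^ 3 < 1 := by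
      have : R * (10 ^ 4 * R ^ 3) < R * 1 := by nlinarith
      exact lt_of_mul_lt_mul_left this hR.le
    by_contra hcon
    push Not at hcon
    have h3 : (1 / 20 : ℝ) ^ 3 ≤ R ^ 3 := pow_le_pow_left₀ (by norm_num) hcon 3
    norm_num at h3
    linarith
  refine ⟨?_, ?_, ?_, hRb, by nlinarith, by nlinarith⟩
  · have : P / (4 * p) < 1 := by linarith
    rwa [div_lt_one (by positivity)] at this
  · have : 100 * (G / P) < 1 := by linarith
    rw [mul_div_assoc', div_lt_one hP] at this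
    exact this
  · have : 100 * (T ^ 2 / P ^ 2) < 1 := by linarith
    rw [mul_div_assoc', div_lt_one (by positivity)] at this
    exact this

/-- The sub-Laplacian of the barrier, as an algebraic expression; `X = x · g`. -/
noncomputable def PhiL (P p G T u X : ℝ) : ℝ :=
  12 * PhiP P p G T + 10 * Phip P p + 2 * p * PhiG P + 4 * P * PhiPP P p G T +
    8 * p * PhiPp P p + 4 * p * Phipp P p + 8 * u * X * PhiPG P + 2 * u * p * PhiPT P T +
    1 / 4 * p ^ 2 * PhiTT P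

theorem PhiL_eq {P p G T u X : ℝ} (hP : 0 < P) (hp : 0 < p) :
    PhiL P p G T u X = rt P / P * (9 / 4 - 25 / 16 * (P / p) + 1 / 2 * (P / p) ^ 2) -
      100 * (2 * p * rt P / P - 6 * u * X * rt P / P ^ 2 - 15 / 4 * (G * rt P / P ^ 2) +
        1 / 2 * (p ^ 2 * rt P / P ^ 2) - 7 * (T * p * u * rt P / P ^ 3) -
        7 / 4 * (T ^ 2 * rt P / P ^ 3)) - 10 ^ 4 * (12 + 2 * p + 1 / 2 * p ^ 2) := by
  simp only [PhiL, PhiP, Phip, PhiG, PhiPP, PhiPp, Phipp, PhiPG, PhiPT, PhiTT]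
  have := hP.ne'
  have := hp.ne'
  field_simp
  ring

/-- Lower bound of the sub-Laplacian of the barrier in the region where the barrier is positive. -/
theorem PhiL_ge {P p G T u X : ℝ} (hP : 0 < P) (hp : 0 < p) (hG : 0 ≤ G) (hpP : p ≤ P)
    (hu : u ^ 2 ≤ P) (hX : X ^ 2 ≤ p * G) (h : 0 < Phi P p G T) :
    -(2 * 10 ^ 5) ≤ PhiL P p G T u X := by
  obtain ⟨h1, h2, h3, h4, -, -⟩ := Phi_region hP hp hG h
  have hR := rt_pos hP
  have hR4 := rt_pow hP.le
  rw [PhiL_eq hP hp]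
  set R := rt P with hRdef
  -- the square root of `P`
  set s := R ^ 2 with hs
  have hs0 : 0 < s := by positivity
  have hsP : s ^ 2 = P := by rw [hs, ← hR4]; ring
  have hs1 : s < 1 / 400 := by
    rw [hs]
    nlinarith
  have hPs : P = s * s := by rw [← hsP]; ring
  -- main term
  have m1 : 1 ≤ 9 / 4 - 25 / 16 * (P / p) + 1 / 2 * (P / p) ^ 2 := by
    nlinarith [sq_nonneg (P / p - 25 / 16)]
  have hRP : 0 < R / P := div_pos hR hP
  -- cross terms
  have hGs : 100 * G ≤ s ^ 2 := by rw [hsP]; exact h2.le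
  have hT10 : |T| ≤ P / 10 := by
    apply abs_le_of_sq_le_sq _ (by positivity) |> fun h => h
    nlinarith
  have hus : |u| ≤ s := abs_le_of_sq_le_sq (by rw [hsP]; exact hu) hs0.le
  have hX10 : |X| ≤ P / 10 := by
    apply abs_le_of_sq_le_sq _ (by positivity)
    have : p * G ≤ P * (P / 100) := mul_le_mul hpP (by linarith) hG hP.le
    nlinarith
  have c1 : |u * X| ≤ s * (P / 10) := by
    rw [abs_mul]; exact mul_le_mul hus hX10 (abs_nonneg _) hs0.le
  have c2 : |T * p * u| ≤ P / 10 * P * s := by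
    rw [abs_mul, abs_mul, abs_of_pos hp]
    exact mul_le_mul (mul_le_mul hT10 hpP hp.le (by positivity)) hus (abs_nonneg _) (by positivity)
  have c1' : -(s / 10) * (R / P) ≤ u * X * R / P ^ 2 := by
    have e : u * X * R / P ^ 2 = (u * X / P) * (R / P) := by field_simp
    rw [e]
    apply mul_le_mul_of_nonneg_right _ hRP.le
    rw [le_div_iff₀ hP]
    have := (abs_le.1 c1).1
    linarith
  have c2' : -(s / 10) * (R / P) ≤ T * p * u * R / P ^ 3 := by
    have e : T * p * u * R / P ^ 3 = (T * p * u / P ^ 2) * (R / P) := by field_simp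
    rw [e]
    apply mul_le_mul_of_nonneg_right _ hRP.le
    rw [le_div_iff₀ (by positivity)]
    have := (abs_le.1 c2).1
    nlinarith
  have g1 : 0 ≤ G * R / P ^ 2 := by positivity
  have g2 : 0 ≤ T ^ 2 * R / P ^ 3 := by positivity
  have b1 : 2 * p * R / P ≤ 2 * R := by
    rw [div_le_iff₀ hP]; nlinarith
  have b2 : p ^ 2 * R / P ^ 2 ≤ R := by
    rw [div_le_iff₀ (by positivity)]
    have : p ^ 2 ≤ P ^ 2 := pow_le_pow_left₀ hp.le hpP 2
    nlinarith
  have hp1 : p ≤ 1 := by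
    have : P ≤ 1 := by rw [hPs]; nlinarith
    linarith
  have hp2 : p ^ 2 ≤ 1 := by nlinarith
  have m2 : R / P ≤ R / P * (9 / 4 - 25 / 16 * (P / p) + 1 / 2 * (P / p) ^ 2) :=
    le_mul_of_one_le_right hRP.le m1
  have m3 : 0 ≤ R / P * (1 - 130 * s) := mul_nonneg hRP.le (by linarith)
  have t1 : 6 * u * X * R / P ^ 2 = 6 * (u * X * R / P ^ 2) := by ring
  rw [t1]
  set a := R / P * (9 / 4 - 25 / 16 * (P / p) + 1 / 2 * (P / p) ^ 2)
  set b := u * X * R / P ^ 2
  set c := T * p * u * R / P ^ 3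
  set d := G * R / P ^ 2
  set e := T ^ 2 * R / P ^ 3
  set k := p ^ 2 * R / P ^ 2
  set l := 2 * p * R / P
  set r := R / P
  linarith

end Pool.Agent.Carnot
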