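import Mathlib
import Pool.Agent.Carnot.Boundary

/-!
# Comparison of a solution with its translates
-/

namespace Pool.Agent.Carnot

open MeasureTheory Set Filter Topology
open scoped ContDiff ENNReal Manifold

variable {N : ℕ}

/-- A smooth cutoff function. -/
theorem exists_cutoff {D : Set (E N)} (hDb : Bornology.IsBounded D) {ρ : ℝ} (hρ : 0 < ρ) :
    ∃ χ : E N → ℝ, ContDiff ℝ ∞ χ ∧ (∀ x, 0 ≤ χ x) ∧ (∀ x, χ x ≤ 1) ∧ HasCompactSupport χ ∧
      tsupport χ ⊆ D ∧ ∀ x, ρ ≤ Metric.infDist x Dᶜ → χ x = 1 := by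
  set s : Set (E N) := {x | Metric.infDist x Dᶜ ≤ ρ / 2} with hs
  set t : Set (E N) := {x | ρ ≤ Metric.infDist x Dᶜ} with ht
  have hcont : Continuous (fun x : E N => Metric.infDist x Dᶜ) :=
    Metric.continuous_infDist_pt _
  have hsc : IsClosed s := isClosed_le hcont continuous_const
  have htc : IsClosed t := isClosed_le continuous_const hcont
  have hst : Disjoint s t := by
    rw [Set.disjoint_left]
    intro x hx hx'
    have h1 : Metric.infDist x Dᶜ ≤ ρ / 2 := hx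
    have h2 : ρ ≤ Metric.infDist x Dᶜ := hx'
    linarith
  obtain ⟨f, hf, hr, hf0, hf1⟩ :=
    exists_contMDiff_zero_iff_one_iff_of_isClosed (n := ⊤) 𝓘(ℝ, E N) hsc htc hst
  have hsub : tsupport f ⊆ {x | ρ / 2 ≤ Metric.infDist x Dᶜ} := by
    apply closure_minimal
    · intro x hx
      by_contra hcon
      have h1 : Metric.infDist x Dᶜ ≤ ρ / 2 := by
        have : ¬ (ρ / 2 ≤ Metric.infDist x Dᶜ) := hcon
        push Not at this
        exact this.le
      exact hx ((hf0 x).1 h1)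
    · exact isClosed_le continuous_const hcont
  have hsubD : {x | ρ / 2 ≤ Metric.infDist x Dᶜ} ⊆ D := by
    intro x hx
    by_contra hxD
    have h1 : Metric.infDist x Dᶜ = 0 := Metric.infDist_zero_of_mem hxD
    have h2 : ρ / 2 ≤ Metric.infDist x Dᶜ := hx
    linarith
  refine ⟨f, hf.contDiff, fun x => (hr ⟨x, rfl⟩).1, fun x => (hr ⟨x, rfl⟩).2, ?_,
    hsub.trans hsubD, fun x hx => (hf1 x).1 hx⟩
  apply HasCompactSupport.of_support_subset_isCompact hDb.isCompact_closure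
  exact (subset_tsupport f).trans ((hsub.trans hsubD).trans subset_closure)

variable {H : Type} [NormedAddCommGroup H] [InnerProductSpace ℝ H]
  [FiniteDimensional ℝ H] {S : Sys N H} {p δ lam Lam : ℝ} {f : H → ℝ}

omit [FiniteDimensional ℝ H] in
theorem ne_univ_of_bounded {v₀ : H} {ℓ : E N → ℝ} (hℓc : Continuous ℓ)
    (hℓ : ∀ (t : ℝ) y, ℓ (S.T (t • v₀) y) = ℓ y + t) {D : Set (E N)}
    (hDb : Bornology.IsBounded D) : Dᶜ.Nonempty := by
  rw [nonempty_compl]
  intro h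
  obtain ⟨R, hR⟩ := hDb.isCompact_closure.exists_bound_of_continuousOn hℓc.continuousOn
  have h1 : ∀ y, ‖ℓ y‖ ≤ R := fun y => hR y (by rw [h]; simp)
  have h2 := h1 (S.T ((R + 1 - ℓ 0) • v₀) 0)
  rw [hℓ] at h2
  have h3 := Real.le_norm_self (ℓ 0 + (R + 1 - ℓ 0))
  linarith

/-- One-sided comparison on `D`, given the estimate near the boundary. -/
theorem Sol.comparison_near {v₀ : H} {ℓ : E N → ℝ} (hℓc : Continuous ℓ)
    (hℓ : ∀ (t : ℝ) y, ℓ (S.T (t • v₀) y) = ℓ y + t)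
    (hf : IsStructured p δ lam Lam f) {D : Set (E N)} (hDo : IsOpen D)
    (hDb : Bornology.IsBounded D) {w₁ w₂ : ℕ → E N → ℝ} {u₁ u₂ : E N → ℝ} {U₁ U₂ : E N → H}
    (h₁ : Sol S p f D w₁ u₁ U₁) (h₂ : Sol S p f D w₂ u₂ U₂) {m : ℝ}
    (hnear : ∀ ε : ℝ, 0 < ε → ∃ ρ : ℝ, 0 < ρ ∧ ∀ᵐ x ∂(volume.restrict D),
      Metric.infDist x Dᶜ < ρ → u₁ x - u₂ x ≤ m + ε) :
    ∀ᵐ x ∂(volume.restrict D), u₁ x - u₂ x ≤ m := by
  have key : ∀ ε : ℝ, 0 < ε → ∀ᵐ x ∂(volume.restrict D), u₁ x - u₂ x ≤ m + ε := by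
    intro ε hε
    obtain ⟨ρ, hρ, hρe⟩ := hnear ε hε
    obtain ⟨χ, hχ, hχ0, hχ1, hχc, hχs, hχe⟩ := exists_cutoff hDb hρ
    apply h₁.comparison hℓc hℓ hf hDo hDb h₂ (hχ.of_le (by norm_cast)) hχ0 hχ1
    · intro n
      exact ⟨tsupport χ, hχc, hχs, fun x hx => Or.inl (image_eq_zero_of_notMem_tsupport hx.2)⟩
    · filter_upwards [hρe] with x hx
      rcases le_or_gt ρ (Metric.infDist x Dᶜ) with h | h
      · exact Or.inl (hχe x h)
      · exact Or.inr (hx h)
  have h1 : ∀ᵐ x ∂(volume.restrict D), ∀ n : ℕ, u₁ x - u₂ x ≤ m + 1 / ((n : ℝ) + 1) := by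
    rw [ae_all_iff]
    intro n
    exact key _ (by positivity)
  filter_upwards [h1] with x hx
  have h2 : Tendsto (fun n : ℕ => m + 1 / ((n : ℝ) + 1)) atTop (𝓝 (m + 0)) :=
    tendsto_one_div_add_atTop_nhds_zero_nat.const_add m
  rw [add_zero] at h2
  exact ge_of_tendsto' h2 hx

/-- Comparison of a solution with its translate. -/
theorem translate_estimate (L : LTrans S) {v₀ : H} {ℓ : E N → ℝ} (hℓc : Continuous ℓ)
    (hℓ : ∀ (t : ℝ) y, ℓ (S.T (t • v₀) y) = ℓ y + t)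
    (hf : IsStructured p δ lam Lam f) {Ω : Set (E N)} (hΩ : IsOpen Ω)
    (hb : Bornology.IsBounded Ω) {φ : E N → ℝ} {Q : ℝ} (hQ : 0 ≤ Q) {w : ℕ → E N → ℝ}
    {u : E N → ℝ} {U : E N → H} (hs : Sol S p f Ω w u U)
    (hbd : ∀ᵐ x ∂(volume.restrict Ω), ∀ x₀ ∈ frontier Ω, |u x - φ x₀| ≤ Q * ‖x - x₀‖)
    (h : E N) {M : ℝ} (hM : ∀ x ∈ Ω, ‖L.τ h x - x‖ ≤ M) :
    ∀ᵐ x ∂(volume.restrict (Ω ∩ L.τ h ⁻¹' Ω)), |u (L.τ h x) - u x| ≤ Q * M := by
  set τ := L.τ h with hτ
  have hτc : Continuous τ := (L.contDiff_τ_right h).continuous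
  set D := Ω ∩ τ ⁻¹' Ω with hD
  have hpo : IsOpen (τ ⁻¹' Ω) := hΩ.preimage hτc
  have hDo : IsOpen D := hΩ.inter hpo
  have hDb : Bornology.IsBounded D := hb.subset inter_subset_left
  have hDm : MeasurableSet D := hDo.measurableSet
  have s1 : Sol S p f D (fun n x => w n (τ x)) (fun x => u (τ x)) (fun x => U (τ x)) :=
    (L.sol_comp hΩ hs h).mono hpo.measurableSet hDm inter_subset_right
  have s2 : Sol S p f D w u U := hs.mono hΩ.measurableSet hDm inter_subset_left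
  -- boundary estimates for `u` and its translate on `D`
  have b2 : ∀ᵐ x ∂(volume.restrict D), ∀ x₀ ∈ frontier Ω, |u x - φ x₀| ≤ Q * ‖x - x₀‖ :=
    ae_mono (Measure.restrict_mono inter_subset_left le_rfl) hbd
  have b1 : ∀ᵐ x ∂(volume.restrict D), ∀ x₀ ∈ frontier Ω,
      |u (τ x) - φ x₀| ≤ Q * ‖τ x - x₀‖ := by
    have hmp : MeasurePreserving τ (volume.restrict (τ ⁻¹' Ω)) (volume.restrict Ω) :=
      (L.mp h).restrict_preimage hΩ.measurableSet
    have h1 := hmp.quasiMeasurePreserving.ae hbd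
    exact ae_mono (Measure.restrict_mono inter_subset_right le_rfl) h1
  -- `τ` is Lipschitz near `Ω`
  obtain ⟨R, hR⟩ := hb.subset_closedBall (0 : E N)
  obtain ⟨Λ, hΛ⟩ := (isCompact_closedBall (0 : E N) (R + 1)).exists_bound_of_continuousOn
    (f := fun y => fderiv ℝ τ y)
    ((L.contDiff_τ_right h).continuous_fderiv (by simp)).continuousOn
  have hlip : ∀ x ∈ Ω, ∀ y, ‖y - x‖ ≤ 1 → ‖τ y - τ x‖ ≤ Λ * ‖y - x‖ := by
    intro x hx y hy
    have hx1 : ‖x‖ ≤ R := mem_closedBall_zero_iff.1 (hR hx)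
    have hxm : x ∈ Metric.closedBall (0 : E N) (R + 1) := by
      rw [mem_closedBall_zero_iff]; linarith
    have hym : y ∈ Metric.closedBall (0 : E N) (R + 1) := by
      rw [mem_closedBall_zero_iff]
      have : ‖y‖ ≤ ‖y - x‖ + ‖x‖ := by
        have := norm_add_le (y - x) x
        rwa [sub_add_cancel] at this
      linarith
    exact (convex_closedBall (0 : E N) (R + 1)).norm_image_sub_le_of_norm_fderiv_le (𝕜 := ℝ)
      (fun z _ => (L.contDiff_τ_right h).differentiable (by simp) z) hΛ hxm hym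
  have hΛ0 : 0 ≤ max Λ 1 := le_max_of_le_right zero_le_one
  -- estimate near the boundary
  have hne : Dᶜ.Nonempty := ne_univ_of_bounded (S := S) hℓc hℓ hDb
  have near : ∀ ε : ℝ, 0 < ε → ∃ ρ : ℝ, 0 < ρ ∧ ∀ᵐ x ∂(volume.restrict D),
      Metric.infDist x Dᶜ < ρ → |u (τ x) - u x| ≤ Q * M + ε := by
    intro ε hε
    set ρ := min 1 (ε / (2 * Q * max Λ 1 + 1)) with hρ
    have hden : 0 < 2 * Q * max Λ 1 + 1 := by positivity
    have hρpos : 0 < ρ := lt_min one_pos (div_pos hε hden)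
    have hρ1 : ρ ≤ 1 := min_le_left _ _
    have hρ2 : 2 * Q * max Λ 1 * ρ ≤ ε := by
      have h1 : ρ ≤ ε / (2 * Q * max Λ 1 + 1) := min_le_right _ _
      rw [le_div_iff₀ hden] at h1
      nlinarith
    refine ⟨ρ, hρpos, ?_⟩
    filter_upwards [b1, b2, ae_restrict_mem hDm] with x h1 h2 hx hxρ
    have hDne : D ≠ univ := by rwa [nonempty_compl] at hne
    obtain ⟨y, hyf, hyd⟩ := exists_mem_frontier_infDist_compl_eq_dist hx hDne
    have hxy : ‖y - x‖ < ρ := by rw [← dist_eq_norm, dist_comm, ← hyd]; exact hxρ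
    have hxM := hM x hx.1
    have hΛ1 : (1:ℝ) ≤ max Λ 1 := le_max_right _ _
    have hfr : y ∈ frontier Ω ∨ τ y ∈ frontier Ω := by
      have h3 := frontier_inter_subset _ _ hyf
      rcases h3 with h3 | h3
      · exact Or.inl h3.1
      · right
        have h4 : frontier (τ ⁻¹' Ω) = τ ⁻¹' frontier Ω :=
          ((L.homeo h).preimage_frontier Ω).symm
        have h5 := h3.2
        rw [h4] at h5
        exact h5
    rcases hfr with hf' | hf'
    · have e1 := h1 y hf'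
      have e2 := h2 y hf'
      have e3 : ‖x - y‖ ≤ ρ := by rw [norm_sub_rev]; exact hxy.le
      have e4 : ‖τ x - y‖ ≤ M + ρ := by
        have : τ x - y = (τ x - x) + (x - y) := by abel
        rw [this]
        exact (norm_add_le _ _).trans (add_le_add hxM e3)
      have e5 : |u (τ x) - u x| ≤ |u (τ x) - φ y| + |u x - φ y| := by
        have : u (τ x) - u x = (u (τ x) - φ y) - (u x - φ y) := by ring
        rw [this]; exact abs_sub _ _
      have e6 : Q * ‖τ x - y‖ ≤ Q * (M + ρ) := mul_le_mul_of_nonneg_left e4 hQ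
      have e7 : Q * ‖x - y‖ ≤ Q * ρ := mul_le_mul_of_nonneg_left e3 hQ
      have e8 : Q * ρ ≤ Q * (max Λ 1 * ρ) := by
        apply mul_le_mul_of_nonneg_left _ hQ
        exact le_mul_of_one_le_left hρpos.le hΛ1
      nlinarith
    · have e1 := h1 (τ y) hf'
      have e2 := h2 (τ y) hf'
      have e3 : ‖τ x - τ y‖ ≤ max Λ 1 * ρ := by
        rw [norm_sub_rev]
        have h5 := hlip x hx.1 y (hxy.le.trans hρ1)
        have h6 : Λ * ‖y - x‖ ≤ max Λ 1 * ρ :=
          mul_le_mul (le_max_left _ _) hxy.le (norm_nonneg _) hΛ0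
        exact h5.trans h6
      have e4 : ‖x - τ y‖ ≤ M + max Λ 1 * ρ := by
        have : x - τ y = (x - τ x) + (τ x - τ y) := by abel
        rw [this]
        refine (norm_add_le _ _).trans (add_le_add ?_ e3)
        rw [norm_sub_rev]; exact hxM
      have e5 : |u (τ x) - u x| ≤ |u (τ x) - φ (τ y)| + |u x - φ (τ y)| := by
        have : u (τ x) - u x = (u (τ x) - φ (τ y)) - (u x - φ (τ y)) := by ring
        rw [this]; exact abs_sub _ _
      have e6 : Q * ‖x - τ y‖ ≤ Q * (M + max Λ 1 * ρ) := mul_le_mul_of_nonneg_left e4 hQ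
      have e7 : Q * ‖τ x - τ y‖ ≤ Q * (max Λ 1 * ρ) := mul_le_mul_of_nonneg_left e3 hQ
      nlinarith
  have r1 : ∀ᵐ x ∂(volume.restrict D), u (τ x) - u x ≤ Q * M := by
    apply s1.comparison_near hℓc hℓ hf hDo hDb s2
    intro ε hε
    obtain ⟨ρ, hρ, hρe⟩ := near ε hε
    refine ⟨ρ, hρ, ?_⟩
    filter_upwards [hρe] with x hx hxρ
    exact (abs_le.1 (hx hxρ)).2
  have r2 : ∀ᵐ x ∂(volume.restrict D), u x - u (τ x) ≤ Q * M := by
    apply s2.comparison_near hℓc hℓ hf hDo hDb s1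
    intro ε hε
    obtain ⟨ρ, hρ, hρe⟩ := near ε hε
    refine ⟨ρ, hρ, ?_⟩
    filter_upwards [hρe] with x hx hxρ
    have := (abs_le.1 (hx hxρ)).1
    linarith
  filter_upwards [r1, r2] with x h1 h2
  rw [abs_le]
  constructor <;> linarith

end Pool.Agent.Carnot
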