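import Mathlib
import Pool.Agent.Carnot.Translate

/-!
# From translation estimates to Lipschitz continuity and gradient bounds
-/

namespace Pool.Agent.Carnot

open MeasureTheory Set Filter Topology
open scoped ContDiff ENNReal NNReal

variable {N : ℕ} {H : Type} [NormedAddCommGroup H] [InnerProductSpace ℝ H]
  {S : Sys N H}

theorem exists_lipschitz (L : LTrans S) {Ω : Set (E N)} (hΩ : IsOpen Ω) {u : E N → ℝ}
    (hum : AEStronglyMeasurable u (volume.restrict Ω)) {C₁ C₂ : ℝ} (hC₁ : 0 ≤ C₁) (hC₂ : 0 ≤ C₂)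
    (hest : ∀ h, ∀ᵐ x ∂(volume.restrict (Ω ∩ L.τ h ⁻¹' Ω)), |u (L.τ h x) - u x| ≤ C₁ * ‖h‖)
    (hκ : ∀ x ∈ Ω, ∀ x' ∈ Ω, ‖L.κ x x'‖ ≤ C₂ * ‖x' - x‖) :
    ∃ v : E N → ℝ, LipschitzWith (C₁ * C₂).toNNReal v ∧
      ∀ᵐ x ∂(volume.restrict Ω), u x = v x := by
  obtain ⟨u', hu'm, huu'⟩ := hum
  have hu'meas : Measurable u' := hu'm.measurable
  have hΩm := hΩ.measurableSet
  have hτc : Continuous (fun q : E N × E N => L.τ q.1 q.2) := L.contDiff_τ.continuous
  -- the estimate for `u'`
  have h1 : ∀ h : E N, ∀ᵐ x, x ∈ Ω → L.τ h x ∈ Ω → |u' (L.τ h x) - u' x| ≤ C₁ * ‖h‖ := by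
    intro h
    have hpm : MeasurableSet (L.τ h ⁻¹' Ω) :=
      (hΩ.preimage (L.contDiff_τ_right h).continuous).measurableSet
    have hmp : MeasurePreserving (L.τ h) (volume.restrict (L.τ h ⁻¹' Ω)) (volume.restrict Ω) :=
      (L.mp h).restrict_preimage hΩm
    have e1 := hmp.quasiMeasurePreserving.ae huu'
    rw [ae_restrict_iff' hpm] at e1
    have e2 := huu'
    rw [Filter.EventuallyEq, ae_restrict_iff' hΩm] at e2
    have e3 := hest h
    rw [ae_restrict_iff' (hΩm.inter hpm)] at e3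
    filter_upwards [e1, e2, e3] with x h1 h2 h3 hx hx'
    rw [← h1 hx', ← h2 hx]
    exact h3 ⟨hx, hx'⟩
  -- Fubini
  have hmeasS : MeasurableSet {q : E N × E N |
      q.2 ∈ Ω → L.τ q.1 q.2 ∈ Ω → |u' (L.τ q.1 q.2) - u' q.2| ≤ C₁ * ‖q.1‖} := by
    have m1 : MeasurableSet {q : E N × E N | q.2 ∈ Ω} := measurable_snd hΩm
    have m2 : MeasurableSet {q : E N × E N | L.τ q.1 q.2 ∈ Ω} := hτc.measurable hΩm
    have m3 : MeasurableSet {q : E N × E N | |u' (L.τ q.1 q.2) - u' q.2| ≤ C₁ * ‖q.1‖} := by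
      apply measurableSet_le
      · have a1 : Measurable (fun q : E N × E N => u' (L.τ q.1 q.2) - u' q.2) :=
          (hu'meas.comp hτc.measurable).sub (hu'meas.comp measurable_snd)
        exact a1.norm
      · exact (measurable_fst.norm).const_mul C₁
    have : {q : E N × E N |
      q.2 ∈ Ω → L.τ q.1 q.2 ∈ Ω → |u' (L.τ q.1 q.2) - u' q.2| ≤ C₁ * ‖q.1‖} =
      {q : E N × E N | q.2 ∈ Ω}ᶜ ∪ ({q : E N × E N | L.τ q.1 q.2 ∈ Ω}ᶜ ∪
        {q : E N × E N | |u' (L.τ q.1 q.2) - u' q.2| ≤ C₁ * ‖q.1‖}) := by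
      ext q
      simp only [mem_union, mem_compl_iff, Set.mem_ofPred_eq]
      tauto
    rw [this]
    exact m1.compl.union (m2.compl.union m3)
  have h2 : ∀ᵐ x : E N, ∀ᵐ h : E N, x ∈ Ω → L.τ h x ∈ Ω →
      |u' (L.τ h x) - u' x| ≤ C₁ * ‖h‖ := by
    rw [← Measure.ae_ae_comm hmeasS]
    exact Eventually.of_forall h1
  -- change of variables
  have h3 : ∀ᵐ x : E N, x ∈ Ω → ∀ᵐ x' : E N, x' ∈ Ω →
      |u' x' - u' x| ≤ C₁ * C₂ * ‖x' - x‖ := by
    filter_upwards [h2] with x hx hxΩ
    have hmp : MeasurePreserving (L.homeo' x).toMeasurableEquiv volume volume := L.mp' x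
    have hmp' := hmp.symm
    have e1 := hmp'.quasiMeasurePreserving.ae hx
    filter_upwards [e1] with x' hx' hx'Ω
    have e2 : L.τ (L.κ x x') x = x' := L.τ_κ x x'
    have e3 : ((L.homeo' x).toMeasurableEquiv.symm x') = L.κ x x' := rfl
    rw [e3] at hx'
    rw [e2] at hx'
    have e4 := hx' hxΩ hx'Ω
    refine e4.trans ?_
    rw [mul_assoc]
    exact mul_le_mul_of_nonneg_left (hκ x hxΩ x' hx'Ω) hC₁
  -- Lipschitz on a set of full measure
  set A : Set (E N) := {x | x ∈ Ω ∧ ∀ᵐ x' : E N, x' ∈ Ω →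
      |u' x' - u' x| ≤ C₁ * C₂ * ‖x' - x‖} with hA
  have hC : 0 ≤ C₁ * C₂ := mul_nonneg hC₁ hC₂
  have hlip : LipschitzOnWith (C₁ * C₂).toNNReal u' A := by
    apply LipschitzOnWith.of_dist_le_mul
    intro x hx z hz
    rw [Real.coe_toNNReal _ hC, Real.dist_eq, dist_eq_norm]
    apply le_of_forall_pos_le_add
    intro ε hε
    set r := ε / (2 * (C₁ * C₂) + 1) with hr
    have hden : 0 < 2 * (C₁ * C₂) + 1 := by positivity
    have hrpos : 0 < r := div_pos hε hden
    have hrε : 2 * (C₁ * C₂) * r ≤ ε := by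
      have : r * (2 * (C₁ * C₂) + 1) = ε := div_mul_cancel₀ _ hden.ne'
      nlinarith
    have hopen : IsOpen (Ω ∩ Metric.ball x r) := hΩ.inter Metric.isOpen_ball
    have hnon : (Ω ∩ Metric.ball x r).Nonempty := ⟨x, hx.1, Metric.mem_ball_self hrpos⟩
    have hpos : (volume : Measure (E N)) (Ω ∩ Metric.ball x r) ≠ 0 :=
      (hopen.measure_pos volume hnon).ne'
    have hae := hx.2.and hz.2
    obtain ⟨y, hy1, hy2⟩ : ∃ y, y ∈ Ω ∩ Metric.ball x r ∧
        ((y ∈ Ω → |u' y - u' x| ≤ C₁ * C₂ * ‖y - x‖) ∧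
          (y ∈ Ω → |u' y - u' z| ≤ C₁ * C₂ * ‖y - z‖)) := by
      by_contra hcon
      push Not at hcon
      apply hpos
      refine measure_mono_null (fun y hy => ?_) (ae_iff.1 hae)
      intro hh
      obtain ⟨a1, a2⟩ := hh
      exact absurd (a2 hy.1) (not_le.2 (hcon y hy a1).2)
    have e1 := hy2.1 hy1.1
    have e2 := hy2.2 hy1.1
    have e3 : ‖y - x‖ ≤ r := by
      have := hy1.2
      rw [Metric.mem_ball, dist_eq_norm] at this
      exact this.le
    have e4 : ‖y - z‖ ≤ r + ‖x - z‖ := by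
      have : y - z = (y - x) + (x - z) := by abel
      rw [this]
      exact (norm_add_le _ _).trans (by linarith)
    have e5 : |u' x - u' z| ≤ |u' y - u' x| + |u' y - u' z| := by
      have : u' x - u' z = (u' y - u' z) - (u' y - u' x) := by ring
      rw [this]
      refine (abs_sub _ _).trans (by linarith)
    have e6 : C₁ * C₂ * ‖y - x‖ ≤ C₁ * C₂ * r := mul_le_mul_of_nonneg_left e3 hC
    have e7 : C₁ * C₂ * ‖y - z‖ ≤ C₁ * C₂ * (r + ‖x - z‖) := mul_le_mul_of_nonneg_left e4 hC
    nlinarith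
  obtain ⟨v, hv, hve⟩ := hlip.extend_real
  refine ⟨v, hv, ?_⟩
  have e1 := huu'
  rw [Filter.EventuallyEq, ae_restrict_iff' hΩm] at e1
  rw [ae_restrict_iff' hΩm]
  filter_upwards [e1, h3] with x hx1 hx2 hxΩ
  rw [hx1 hxΩ]
  exact hve ⟨hxΩ, hx2 hxΩ⟩

variable [FiniteDimensional ℝ H]

/-- derivative of `∫ a(y) ψ(T_t y) dy` at `t = 0`, when the smooth factor moves -/
theorem hasDerivAt_integral_smooth (S : Sys N H) {a : E N → ℝ} (ha : Continuous a)
    {ψ : E N → ℝ} (hψ : ContDiff ℝ 1 ψ) (hc : HasCompactSupport ψ) (v : H) :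
    HasDerivAt (fun t : ℝ => ∫ y, a y * ψ (S.T (t • v) y))
      (∫ y, a y * fderiv ℝ ψ y (S.xi y v)) 0 := by
  set K : Set (E N) := (fun q : ℝ × E N => S.T (-(q.1 • v)) q.2) '' (Icc (-1) 1 ×ˢ tsupport ψ)
    with hK
  have hKc : IsCompact K := by
    apply (isCompact_Icc.prod hc).image
    exact S.continuous_T.comp (by fun_prop : Continuous (fun q : ℝ × E N => (-(q.1 • v), q.2)))
  have hdc : Continuous (fun y => fderiv ℝ ψ y (S.xi y v)) :=
    (hψ.continuous_fderiv one_ne_zero).clm_apply (S.continuous_xi.clm_apply continuous_const)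
  have hds : ∀ y, y ∉ tsupport ψ → fderiv ℝ ψ y (S.xi y v) = 0 := by
    intro y hy
    have : fderiv ℝ ψ y = 0 := by
      have h1 := support_fderiv_subset ℝ (f := ψ)
      by_contra h
      exact hy (h1 h)
    rw [this]; simp
  have hcs : HasCompactSupport (fun y => fderiv ℝ ψ y (S.xi y v)) :=
    HasCompactSupport.intro hc hds
  obtain ⟨C, hC⟩ := hcs.exists_bound_of_continuous hdc
  have hC0 : 0 ≤ C := (norm_nonneg _).trans (hC 0)
  obtain ⟨A, hA⟩ := hKc.exists_bound_of_continuousOn ha.continuousOn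
  set F : ℝ → E N → ℝ := fun t y => a y * ψ (S.T (t • v) y) with hF
  set F' : ℝ → E N → ℝ := fun t y =>
    a y * fderiv ℝ ψ (S.T (t • v) y) (S.xi (S.T (t • v) y) v) with hF'
  have hTc : ∀ t : ℝ, Continuous (fun y => S.T (t • v) y) := fun t =>
    (S.contDiff_T_right (t • v)).continuous
  have hFc : ∀ t, Continuous (F t) := fun t => ha.mul (hψ.continuous.comp (hTc t))
  have hF'c : ∀ t, Continuous (F' t) := fun t => ha.mul (hdc.comp (hTc t))
  have key := hasDerivAt_integral_of_dominated_loc_of_deriv_le (μ := (volume : Measure (E N)))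
    (F := F) (F' := F') (x₀ := 0) (s := Ioo (-1) 1) (bound := K.indicator (fun _ => A * C))
    (Ioo_mem_nhds (by norm_num) (by norm_num))
    (Eventually.of_forall fun t => (hFc t).aestronglyMeasurable)
    (by
      have : F 0 = fun y => a y * ψ y := by funext y; simp [hF, S.T_zero]
      rw [this]
      exact (ha.mul hψ.continuous).integrable_of_hasCompactSupport hc.mul_left)
    (hF'c 0).aestronglyMeasurable
    (by
      refine Eventually.of_forall fun y t ht => ?_
      by_cases hy : S.T (t • v) y ∈ tsupport ψ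
      · have : y ∈ K := by
          refine ⟨(t, S.T (t • v) y), ⟨⟨ht.1.le, ht.2.le⟩, hy⟩, ?_⟩
          exact S.T_neg_T (t • v) y
        rw [indicator_of_mem this]
        simp only [hF', norm_mul]
        exact mul_le_mul (hA y this) (hC _) (norm_nonneg _) ((norm_nonneg _).trans (hA y this))
      · simp only [hF']
        rw [hds _ hy]
        simp only [mul_zero, norm_zero]
        apply indicator_nonneg
        intro z hz
        exact mul_nonneg ((norm_nonneg _).trans (hA z hz)) hC0)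
    (by
      rw [integrable_indicator_iff hKc.measurableSet]
      exact integrableOn_const hKc.measure_lt_top.ne)
    (by
      refine Eventually.of_forall fun y t _ => ?_
      exact (S.hasDerivAt_comp_T hψ v y t).const_mul (a y))
  have h1 := key.2
  have h4 : F' 0 = fun y => a y * fderiv ℝ ψ y (S.xi y v) := by
    funext y; simp [hF', S.T_zero]
  rw [h4] at h1
  exact h1

/-- Integration by parts for Lipschitz functions. -/
theorem integral_lipschitz (S : Sys N H) {a : E N → ℝ} {C : ℝ≥0} (ha : LipschitzWith C a)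
    {ψ : E N → ℝ} (hψ : ContDiff ℝ 1 ψ) (hc : HasCompactSupport ψ) (v : H) :
    ∫ y, fderiv ℝ a y (S.xi y v) * ψ y = - ∫ y, a y * fderiv ℝ ψ y (S.xi y v) := by
  have hac : Continuous a := ha.continuous
  have hTc : ∀ t : ℝ, Continuous (fun y => S.T (t • v) y) := fun t =>
    (S.contDiff_T_right (t • v)).continuous
  -- the other side
  have h1 : HasDerivAt (fun t : ℝ => ∫ y, a y * ψ (S.T (t • (-v)) y))
      (∫ y, a y * fderiv ℝ ψ y (S.xi y (-v))) 0 :=
    hasDerivAt_integral_smooth S hac hψ hc (-v)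
  have h2 : (fun t : ℝ => ∫ y, a y * ψ (S.T (t • (-v)) y)) =
      fun t : ℝ => ∫ y, a (S.T (t • v) y) * ψ y := by
    funext t
    have h3 := (S.mp (t • v)).integral_comp (S.measurableEmbedding_T _)
      (fun y => a y * ψ (S.T (t • (-v)) y))
    rw [← h3]
    congr 1
    funext y
    rw [smul_neg, S.T_neg_T]
  rw [h2] at h1
  have h4 : ∫ y, a y * fderiv ℝ ψ y (S.xi y (-v)) = - ∫ y, a y * fderiv ℝ ψ y (S.xi y v) := by
    rw [← integral_neg]
    congr 1
    funext y
    rw [map_neg, map_neg]; ring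
  rw [h4] at h1
  -- bound of the displacement on the support
  set K : Set (E N) := (fun q : ℝ × E N => S.T (q.1 • v) q.2) '' (Icc (-1) 1 ×ˢ tsupport ψ)
    with hK
  have hKc : IsCompact K := by
    apply (isCompact_Icc.prod hc).image
    exact S.continuous_T.comp (by fun_prop : Continuous (fun q : ℝ × E N => (q.1 • v, q.2)))
  obtain ⟨M, hM⟩ := hKc.exists_bound_of_continuousOn (f := fun y => S.xi y v)
    (S.continuous_xi.clm_apply continuous_const).continuousOn
  have hM' : ∀ y ∈ tsupport ψ, LipschitzOnWith (C * (max M 0).toNNReal)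
      (fun t : ℝ => a (S.T (t • v) y)) (Icc (-1) 1) := by
    intro y hy
    have h5 : LipschitzOnWith (max M 0).toNNReal (fun t : ℝ => S.T (t • v) y) (Icc (-1) 1) := by
      apply (convex_Icc (-1:ℝ) 1).lipschitzOnWith_of_nnnorm_hasDerivWithin_le
        (f' := fun t => S.xi (S.T (t • v) y) v)
      · intro t _
        exact (S.hasDerivAt_T v y t).hasDerivWithinAt
      · intro t ht
        have h6 := hM (S.T (t • v) y) ⟨(t, y), ⟨ht, hy⟩, rfl⟩
        rw [← NNReal.coe_le_coe, coe_nnnorm, Real.coe_toNNReal _ (le_max_right _ _)]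
        exact h6.trans (le_max_left _ _)
    exact ha.comp_lipschitzOnWith h5
  have key := hasDerivAt_integral_of_dominated_loc_of_lip (μ := (volume : Measure (E N)))
    (F := fun (t : ℝ) y => a (S.T (t • v) y) * ψ y)
    (F' := fun y => fderiv ℝ a y (S.xi y v) * ψ y) (x₀ := 0) (s := Icc (-1) 1)
    (bound := fun y => C * (max M 0) * |ψ y|)
    (Icc_mem_nhds (by norm_num) (by norm_num))
    (Eventually.of_forall fun t =>
      ((hac.comp (hTc t)).mul hψ.continuous).aestronglyMeasurable)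
    (by
      have : (fun y => a (S.T ((0:ℝ) • v) y) * ψ y) = fun y => a y * ψ y := by
        funext y; simp [S.T_zero]
      rw [this]
      exact (hac.mul hψ.continuous).integrable_of_hasCompactSupport hc.mul_left)
    (by
      have e1 : Measurable (fderiv ℝ a) := measurable_fderiv ℝ a
      have e2 : AEStronglyMeasurable (fun y => fderiv ℝ a y (S.xi y v)) volume :=
        (ContinuousLinearMap.apply ℝ ℝ).isBoundedBilinearMap.continuous.comp_aestronglyMeasurable
          (((S.continuous_xi.clm_apply continuous_const).aestronglyMeasurable).prodMk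
            e1.aestronglyMeasurable)
      exact e2.mul hψ.continuous.aestronglyMeasurable)
    (by
      refine Eventually.of_forall fun y => ?_
      apply LipschitzOnWith.of_dist_le_mul
      intro s hs t ht
      rw [Real.dist_eq, ← sub_mul, abs_mul]
      have hcoe : ((Real.nnabs (C * max M 0 * |ψ y|) : ℝ≥0) : ℝ) = C * max M 0 * |ψ y| := by
        rw [Real.coe_nnabs, abs_of_nonneg]
        positivity
      rw [hcoe]
      by_cases hy : y ∈ tsupport ψ
      · have e1 := (hM' y hy).dist_le_mul s hs t ht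
        rw [Real.dist_eq, NNReal.coe_mul, Real.coe_toNNReal _ (le_max_right M 0)] at e1
        calc _ ≤ (C * max M 0 * dist s t) * |ψ y| :=
              mul_le_mul_of_nonneg_right e1 (abs_nonneg _)
          _ = _ := by ring
      · have : ψ y = 0 := image_eq_zero_of_notMem_tsupport hy
        simp [this])
    (by
      have : Integrable ψ volume := hψ.continuous.integrable_of_hasCompactSupport hc
      exact this.abs.const_mul _)
    (by
      filter_upwards [ha.ae_differentiableAt] with y hy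
      have e1 : HasFDerivAt a (fderiv ℝ a y) (S.T ((0:ℝ) • v) y) := by
        rw [zero_smul, S.T_zero]; exact hy.hasFDerivAt
      have e2 := e1.comp_hasDerivAt (0:ℝ) (S.hasDerivAt_T_zero v y)
      exact e2.mul_const (ψ y))
  exact key.2.unique h1

end Pool.Agent.Carnot
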