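import Mathlib
import Pool.Agent.Carnot.Lip

/-!
# The abstract Hilbert-Haar theorem
-/

namespace Pool.Agent.Carnot

open MeasureTheory Set Filter Topology
open scoped ContDiff ENNReal NNReal

variable {N : ℕ} {H : Type} [NormedAddCommGroup H] [InnerProductSpace ℝ H]
  [FiniteDimensional ℝ H] {S : Sys N H}

theorem bound_of_contDiff {F G : Type} [NormedAddCommGroup F] [NormedSpace ℝ F]
    [FiniteDimensional ℝ F] [NormedAddCommGroup G] [NormedSpace ℝ G] {g : F → G}
    (hg : ContDiff ℝ ∞ g) (R : ℝ) :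
    ∃ C : ℝ, 0 ≤ C ∧ ∀ x ∈ Metric.closedBall (0 : F) R, ∀ y ∈ Metric.closedBall (0 : F) R,
      ‖g y - g x‖ ≤ C * ‖y - x‖ := by
  obtain ⟨C, hC⟩ := (isCompact_closedBall (0 : F) R).exists_bound_of_continuousOn
    (f := fun y => fderiv ℝ g y) (hg.continuous_fderiv (by simp)).continuousOn
  refine ⟨max C 0, le_max_right _ _, fun x hx y hy => ?_⟩
  exact (convex_closedBall (0 : F) R).norm_image_sub_le_of_norm_fderiv_le (𝕜 := ℝ)
    (fun z _ => hg.differentiable (by simp) z) (fun z hz => (hC z hz).trans (le_max_left _ _))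
    hx hy

/-- Bound on the gradient. -/
theorem grad_bound {Ω : Set (E N)} (hΩ : IsOpen Ω)
    {u v : E N → ℝ} {U : E N → H} {C : ℝ≥0} (hv : LipschitzWith C v)
    (huv : ∀ᵐ x ∂(volume.restrict Ω), u x = v x)
    (hU : IntegrableOn U Ω volume)
    (hweak : ∀ ψ, IsTest Ω ψ → ∀ w : H, ∫ x in Ω, u x * fderiv ℝ ψ x (S.xi x w) =
      - ∫ x in Ω, inner ℝ (U x) w * ψ x) {B : ℝ} (hB : ∀ x ∈ Ω, ‖S.xi x‖ ≤ B) :
    ∀ᵐ x ∂(volume.restrict Ω), ‖U x‖ ≤ C * B := by
  have hΩm := hΩ.measurableSet
  have key : ∀ w : H, ∀ᵐ x ∂(volume.restrict Ω),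
      inner ℝ (U x) w = fderiv ℝ v x (S.xi x w) := by
    intro w
    have hUi : IntegrableOn (fun x => inner ℝ (U x) w) Ω volume := by
      have h1 : Integrable (fun x => inner ℝ (U x) w) (volume.restrict Ω) :=
        Integrable.inner_const (𝕜 := ℝ) hU w
      exact h1
    have hvm : AEStronglyMeasurable (fun y => fderiv ℝ v y (S.xi y w)) volume :=
      (ContinuousLinearMap.apply ℝ ℝ).isBoundedBilinearMap.continuous.comp_aestronglyMeasurable
        (((S.continuous_xi.clm_apply continuous_const).aestronglyMeasurable).prodMk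
          (measurable_fderiv ℝ v).aestronglyMeasurable)
    have hvl : LocallyIntegrable (fun y => fderiv ℝ v y (S.xi y w)) volume := by
      have h1 : LocallyIntegrable (fun y => C * ‖S.xi y w‖) volume := by
        apply Continuous.locallyIntegrable
        exact continuous_const.mul (S.continuous_xi.clm_apply continuous_const).norm
      apply h1.mono hvm
      refine Eventually.of_forall fun y => ?_
      have h2 : ‖fderiv ℝ v y‖ ≤ C := norm_fderiv_le_of_lipschitz ℝ hv
      rw [norm_mul, norm_norm, Real.norm_of_nonneg (NNReal.coe_nonneg C)]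
      exact ((fderiv ℝ v y).le_opNorm _).trans (mul_le_mul_of_nonneg_right h2 (norm_nonneg _))
    have h0 : ∀ᵐ x, x ∈ Ω → inner ℝ (U x) w - fderiv ℝ v x (S.xi x w) = 0 := by
      apply hΩ.ae_eq_zero_of_integral_contDiff_smul_eq_zero
      · exact (hUi.locallyIntegrableOn).sub (hvl.locallyIntegrableOn Ω)
      · intro g hg hgc hgs
        have hgt : IsTest Ω g := ⟨hg, hgc, hgs⟩
        have hg1 : ContDiff ℝ 1 g := hg.of_le (by norm_cast)
        have h1 := hweak g hgt w
        have h2 := integral_lipschitz S hv hg1 hgc w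
        have hz : ∀ x, x ∉ Ω → g x = 0 := fun x hx =>
          image_eq_zero_of_notMem_tsupport (fun h => hx (hgs h))
        have hdz : ∀ x, x ∉ Ω → fderiv ℝ g x = 0 := by
          intro x hx
          have h1 := support_fderiv_subset ℝ (f := g)
          by_contra h
          exact hx (hgs (h1 h))
        -- left-hand side of `h1`
        have h3 : ∫ x in Ω, u x * fderiv ℝ g x (S.xi x w) =
            ∫ x, v x * fderiv ℝ g x (S.xi x w) := by
          have h4 : ∫ x in Ω, u x * fderiv ℝ g x (S.xi x w) =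
              ∫ x in Ω, v x * fderiv ℝ g x (S.xi x w) := by
            apply integral_congr_ae
            filter_upwards [huv] with x hx
            rw [hx]
          rw [h4, ← integral_indicator hΩm]
          congr 1
          funext x
          by_cases hx : x ∈ Ω
          · rw [indicator_of_mem hx]
          · rw [indicator_of_notMem hx, hdz x hx]; simp
        have h5 : ∫ x in Ω, inner ℝ (U x) w * g x = ∫ x, g x * inner ℝ (U x) w := by
          rw [← integral_indicator hΩm]
          congr 1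
          funext x
          by_cases hx : x ∈ Ω
          · rw [indicator_of_mem hx, mul_comm]
          · rw [indicator_of_notMem hx, hz x hx]; simp
        rw [h3, h5] at h1
        -- integrability
        obtain ⟨Mg, hMg⟩ := hgc.exists_bound_of_continuous hg.continuous
        have i1 : Integrable (fun x => g x * inner ℝ (U x) w) volume := by
          have h6 : Integrable (Ω.indicator (fun x => g x * inner ℝ (U x) w)) volume := by
            rw [integrable_indicator_iff hΩm]
            exact hUi.bdd_mul hg.continuous.aestronglyMeasurable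
              (Eventually.of_forall fun x => hMg x)
          have h7 : Ω.indicator (fun x => g x * inner ℝ (U x) w) =
              fun x => g x * inner ℝ (U x) w := by
            funext x
            by_cases hx : x ∈ Ω
            · rw [indicator_of_mem hx]
            · rw [indicator_of_notMem hx, hz x hx]; simp
          rwa [h7] at h6
        have i2 : Integrable (fun x => g x * fderiv ℝ v x (S.xi x w)) volume := by
          have := hvl.integrable_smul_left_of_hasCompactSupport hg.continuous hgc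
          exact this
        have h8 : ∫ x, g x * fderiv ℝ v x (S.xi x w) = ∫ x, fderiv ℝ v x (S.xi x w) * g x := by
          congr 1; funext x; ring
        simp only [smul_eq_mul, mul_sub]
        rw [integral_sub i1 i2, h8, h2]
        linarith
    rw [ae_restrict_iff' hΩm]
    filter_upwards [h0] with x hx hxΩ
    linarith [hx hxΩ]
  have hall : ∀ᵐ x ∂(volume.restrict Ω), ∀ i,
      inner ℝ (U x) (stdOrthonormalBasis ℝ H i) =
        fderiv ℝ v x (S.xi x (stdOrthonormalBasis ℝ H i)) := by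
    rw [ae_all_iff]
    intro i
    exact key _
  filter_upwards [hall, ae_restrict_mem hΩm] with x hx hxΩ
  have h1 : U x = S.grad v x := by
    unfold Sys.grad
    have h2 := ((stdOrthonormalBasis ℝ H).sum_repr' (U x)).symm
    rw [h2]
    apply Finset.sum_congr rfl
    intro i _
    rw [real_inner_comm, hx i]
  rw [h1]
  refine (S.norm_grad_le v x).trans ?_
  have h2 : ‖fderiv ℝ v x‖ ≤ C := norm_fderiv_le_of_lipschitz ℝ hv
  exact mul_le_mul h2 (hB x hxΩ) (norm_nonneg _) C.2

/-- The Hilbert-Haar theorem for straight systems with translations. -/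
theorem hilbert_haar (L : LTrans S) (hS : S.Straight) {v₀ : H} {ℓ : E N → ℝ}
    (hℓc : Continuous ℓ) (hℓ : ∀ (t : ℝ) y, ℓ (S.T (t • v₀) y) = ℓ y + t)
    {Ω : Set (E N)} (hΩ : UniformlyConvex Ω) (K : ℝ) :
    ∃ M : ℝ, ∀ φ : E N → ℝ, ContDiffOn ℝ 2 φ (closure Ω) →
      (∀ x ∈ Ω, ‖fderiv ℝ φ x‖ + ‖fderiv ℝ (fderiv ℝ φ) x‖ ≤ K) →
      ∀ (p δ lam Lam : ℝ) (f : H → ℝ), IsStructured p δ lam Lam f →
      ∀ (ζ : ℕ → E N → ℝ) (u : E N → ℝ) (U : E N → H), (∀ n, IsTest Ω (ζ n)) →
      Sol S p f Ω (fun n x => φ x + ζ n x) u U →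
      (∀ ψ, IsTest Ω ψ → ∀ w : H, ∫ x in Ω, u x * fderiv ℝ ψ x (S.xi x w) =
        - ∫ x in Ω, inner ℝ (U x) w * ψ x) →
      (∃ v : E N → ℝ, LipschitzWith M.toNNReal v ∧ ∀ᵐ x ∂(volume.restrict Ω), u x = v x) ∧
        ∀ᵐ x ∂(volume.restrict Ω), ‖U x‖ ≤ M := by
  obtain ⟨c, hc, hcurv⟩ := hΩ.curved
  have hΩo := hΩ.isOpen
  have hb := hΩ.bounded
  set K₀ := max K 0 with hK₀
  set Q := K₀ + K₀ / c with hQ
  have hK₀0 : 0 ≤ K₀ := le_max_right _ _
  have hQ0 : 0 ≤ Q := add_nonneg hK₀0 (div_nonneg hK₀0 hc.le)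
  obtain ⟨R, hR⟩ := hb.subset_closedBall (0 : E N)
  -- the relevant translations
  have hclc : IsCompact (closure Ω) := hb.isCompact_closure
  obtain ⟨R₁, hR₁⟩ := (hclc.prod hclc).exists_bound_of_continuousOn
    (f := fun q : E N × E N => L.κ q.1 q.2) L.contDiff_κ.continuous.continuousOn
  set R₂ := max R (max R₁ 0) with hR₂
  have hRR₂ : R ≤ R₂ := le_max_left _ _
  have hR₁R₂ : R₁ ≤ R₂ := (le_max_left _ _).trans (le_max_right _ _)
  have hR₂0 : 0 ≤ R₂ := (le_max_right _ _).trans (le_max_right _ _)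
  obtain ⟨C₁, hC₁, hτb⟩ := bound_of_contDiff L.contDiff_τ R₂
  obtain ⟨C₂, hC₂, hκb⟩ := bound_of_contDiff L.contDiff_κ R₂
  have hnorm : ∀ x ∈ Ω, ‖x‖ ≤ R₂ := fun x hx =>
    (mem_closedBall_zero_iff.1 (hR hx)).trans hRR₂
  have hτ : ∀ x ∈ Ω, ∀ h : E N, ‖h‖ ≤ R₂ → ‖L.τ h x - x‖ ≤ C₁ * ‖h‖ := by
    intro x hx h hh
    have h1 := hτb (0, x) (by
      rw [mem_closedBall_zero_iff, Prod.norm_def, norm_zero]
      exact max_le hR₂0 (hnorm x hx)) (h, x) (by
      rw [mem_closedBall_zero_iff, Prod.norm_def]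
      exact max_le hh (hnorm x hx))
    simp only [L.τ_zero] at h1
    have h2 : ‖((h, x) : E N × E N) - (0, x)‖ = ‖h‖ := by
      rw [Prod.mk_sub_mk, sub_zero, sub_self, Prod.norm_def, norm_zero]
      exact max_eq_left (norm_nonneg _)
    rwa [h2] at h1
  have hκ : ∀ x ∈ Ω, ∀ x' ∈ Ω, ‖L.κ x x'‖ ≤ C₂ * ‖x' - x‖ := by
    intro x hx x' hx'
    have h1 := hκb (x, x) (by
      rw [mem_closedBall_zero_iff, Prod.norm_def]
      exact max_le (hnorm x hx) (hnorm x hx)) (x, x') (by
      rw [mem_closedBall_zero_iff, Prod.norm_def]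
      exact max_le (hnorm x hx) (hnorm x' hx'))
    simp only [L.κ_self, sub_zero] at h1
    have h2 : ‖((x, x') : E N × E N) - (x, x)‖ = ‖x' - x‖ := by
      rw [Prod.mk_sub_mk, sub_self, Prod.norm_def, norm_zero]
      exact max_eq_right (norm_nonneg _)
    rwa [h2] at h1
  obtain ⟨B, hB⟩ := hclc.exists_bound_of_continuousOn (f := fun y => S.xi y)
    S.continuous_xi.continuousOn
  have hB' : ∀ x ∈ Ω, ‖S.xi x‖ ≤ B := fun x hx => hB x (subset_closure hx)
  set C := Q * C₁ * C₂ with hC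
  have hC0 : 0 ≤ C := by positivity
  refine ⟨max C (C * B), ?_⟩
  intro φ hφ hφK p δ lam Lam f hf ζ u U hζ hs hweak
  have hφK' : ∀ x ∈ Ω, ‖fderiv ℝ φ x‖ + ‖fderiv ℝ (fderiv ℝ φ) x‖ ≤ K₀ := fun x hx =>
    (hφK x hx).trans (le_max_left _ _)
  have hbd := boundary_estimate hS hℓc hℓ hf hΩo hb hΩ.convex hc hcurv hK₀0 hφ hφK' hζ hs
  have hest : ∀ h, ∀ᵐ x ∂(volume.restrict (Ω ∩ L.τ h ⁻¹' Ω)),
      |u (L.τ h x) - u x| ≤ Q * C₁ * ‖h‖ := by
    intro h
    by_cases hne : (Ω ∩ L.τ h ⁻¹' Ω).Nonempty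
    · obtain ⟨x, hx1, hx2⟩ := hne
      have hh : ‖h‖ ≤ R₂ := by
        have h1 := hR₁ (x, L.τ h x) ⟨subset_closure hx1, subset_closure hx2⟩
        simp only [L.κ_τ] at h1
        exact h1.trans hR₁R₂
      have h2 := translate_estimate L hℓc hℓ hf hΩo hb hQ0 hs hbd h
        (M := C₁ * ‖h‖) (fun y hy => hτ y hy h hh)
      filter_upwards [h2] with y hy
      calc _ ≤ _ := hy
        _ = _ := by ring
    · rw [not_nonempty_iff_eq_empty] at hne
      rw [hne, Measure.restrict_empty]
      simp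
  obtain ⟨v, hv, hve⟩ := exists_lipschitz L hΩo hs.memLp.1 (C₁ := Q * C₁) (C₂ := C₂)
    (mul_nonneg hQ0 hC₁) hC₂ hest hκ
  refine ⟨⟨v, hv.weaken (Real.toNNReal_le_toNNReal (le_max_left _ _)), hve⟩, ?_⟩
  have hfin : IsFiniteMeasure ((volume : Measure (E N)).restrict Ω) := by
    constructor
    rw [Measure.restrict_apply_univ]
    exact hb.measure_lt_top
  have hUi : IntegrableOn U Ω volume := hs.memLp_grad.integrable (by
    rw [← ENNReal.ofReal_one]; exact ENNReal.ofReal_le_ofReal hf.one_lt_p.le)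
  have hg := grad_bound hΩo hv hve hUi hweak hB'
  filter_upwards [hg] with x hx
  refine hx.trans ?_
  rw [Real.coe_toNNReal _ hC0]
  exact le_max_right _ _

end Pool.Agent.Carnot
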