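import Mathlib
import Pool.Agent.Carnot.Chart
import Pool.Agent.Carnot.HilbertHaar

/-!
# The flow system of a Carnot group in the Hilbert-Haar chart
-/

namespace Pool.Agent.Carnot

open MeasureTheory Set Filter Topology
open scoped ContDiff ENNReal NNReal

namespace CarnotGroup

variable {N : ℕ} (G : CarnotGroup N)

/-- The inclusion of the first layer. -/
noncomputable def incl : G.H →L[ℝ] E N :=
  ∑ i : G.HIdx, (EuclideanSpace.proj i : G.H →L[ℝ] ℝ).smulRight
    (EuclideanSpace.single i.1 (1:ℝ))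

theorem incl_apply (v : G.H) : G.incl v = ∑ i : G.HIdx, v i • EuclideanSpace.single i.1 (1:ℝ) := by
  simp [incl]

theorem incl_single (i : G.HIdx) :
    G.incl (EuclideanSpace.single i (1:ℝ)) = EuclideanSpace.single i.1 (1:ℝ) := by
  rw [incl_apply, Finset.sum_eq_single i]
  · simp
  · intro j _ hj
    simp [hj]
  · simp

theorem isHor_incl (v : G.H) : G.IsHor (G.incl v) := by
  intro i hi
  rw [incl_apply]
  rw [WithLp.ofLp_sum, Finset.sum_apply]
  apply Finset.sum_eq_zero
  intro j _
  have : i ≠ j.1 := by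
    intro h
    exact hi (h ▸ j.2)
  simp [this]

/-- The flow system in a chart `Ψ` which is smooth, with smooth inverse, and measure
preserving. -/
noncomputable def sysOf (Ψ : E N ≃ E N) (h1 : ContDiff ℝ ∞ Ψ) (h2 : ContDiff ℝ ∞ Ψ.symm)
    (h3 : MeasurePreserving Ψ volume volume) (h4 : MeasurePreserving Ψ.symm volume volume) :
    Sys N G.H where
  T := fun v y => Ψ (G.mul (Ψ.symm y) (G.incl v))
  contDiff_T := by
    apply h1.comp
    exact G.contDiff_mul.comp ((h2.comp contDiff_snd).prodMk (G.incl.contDiff.comp contDiff_fst))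
  T_zero := fun y => by simp [G.mul_zero']
  T_add := fun s t v y => by
    simp only [Equiv.symm_apply_apply, map_smul]
    rw [G.mul_smul_add]
  mp := fun v => by
    exact h3.comp ((G.measurePreserving_mul_right (G.incl v)).comp h4)

/-- Left translations. -/
noncomputable def ltransOf (Ψ : E N ≃ E N) (h1 : ContDiff ℝ ∞ Ψ) (h2 : ContDiff ℝ ∞ Ψ.symm)
    (h3 : MeasurePreserving Ψ volume volume) (h4 : MeasurePreserving Ψ.symm volume volume) :
    LTrans (G.sysOf Ψ h1 h2 h3 h4) where
  τ := fun h y => Ψ (G.mul h (Ψ.symm y))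
  κ := fun x x' => G.mul (Ψ.symm x') (-(Ψ.symm x))
  contDiff_τ := by
    apply h1.comp
    exact G.contDiff_mul.comp (contDiff_fst.prodMk (h2.comp contDiff_snd))
  contDiff_κ := by
    exact G.contDiff_mul.comp ((h2.comp contDiff_snd).prodMk (h2.comp contDiff_fst).neg)
  τ_zero := fun y => by simp [G.zero_mul']
  κ_self := fun y => G.mul_neg' _
  τ_κ := fun x x' => by
    rw [G.mul_assoc, G.neg_mul', G.mul_zero', Equiv.apply_symm_apply]
  κ_τ := fun h x => by
    rw [Equiv.symm_apply_apply, G.mul_neg_cancel_right']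
  τ_neg := fun h y => by
    rw [Equiv.symm_apply_apply, G.neg_mul_cancel_left', Equiv.apply_symm_apply]
  comm := fun h v y => by
    simp only [sysOf, Equiv.symm_apply_apply]
    rw [G.mul_assoc]
  mp := fun h => h3.comp ((G.measurePreserving_mul_left h).comp h4)
  mp' := fun x => by
    exact h3.comp (G.measurePreserving_mul_right (Ψ.symm x))

variable (Ψ : E N ≃ E N) (h1 : ContDiff ℝ ∞ Ψ) (h2 : ContDiff ℝ ∞ Ψ.symm)
    (h3 : MeasurePreserving Ψ volume volume) (h4 : MeasurePreserving Ψ.symm volume volume)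

theorem X_eq {ψ : E N → ℝ} {y : E N} (hψ : DifferentiableAt ℝ ψ y) (i : G.HIdx) :
    G.X Ψ i ψ y = fderiv ℝ ψ y ((G.sysOf Ψ h1 h2 h3 h4).xi y (EuclideanSpace.single i (1:ℝ))) := by
  set S := G.sysOf Ψ h1 h2 h3 h4 with hS
  unfold X
  have e1 : HasFDerivAt ψ (fderiv ℝ ψ y) (S.T ((0:ℝ) • EuclideanSpace.single i (1:ℝ)) y) := by
    rw [zero_smul, S.T_zero]; exact hψ.hasFDerivAt
  have e2 := e1.comp_hasDerivAt (0:ℝ) (S.hasDerivAt_T_zero (EuclideanSpace.single i (1:ℝ)) y)
  have e3 : (ψ ∘ fun t : ℝ => S.T (t • EuclideanSpace.single i (1:ℝ)) y) =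
      fun t : ℝ => ψ (Ψ (G.mul (Ψ.symm y) (t • EuclideanSpace.single i.1 (1 : ℝ)))) := by
    funext t
    simp only [Function.comp, hS, sysOf, map_smul, G.incl_single]
  rw [e3] at e2
  exact e2.deriv

theorem hgrad_eq {ψ : E N → ℝ} {y : E N} (hψ : DifferentiableAt ℝ ψ y) :
    G.hgrad Ψ ψ y = (G.sysOf Ψ h1 h2 h3 h4).grad ψ y := by
  set S := G.sysOf Ψ h1 h2 h3 h4 with hS
  symm
  apply S.grad_eq_of_inner
  intro v
  have hv : v = ∑ i, v i • EuclideanSpace.single i (1:ℝ) := by
    ext j
    simp [Pi.single_apply]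
  conv_rhs => rw [hv]
  rw [map_sum, map_sum]
  simp only [map_smul, smul_eq_mul]
  rw [PiLp.inner_apply]
  apply Finset.sum_congr rfl
  intro i _
  rw [← G.X_eq Ψ h1 h2 h3 h4 hψ i]
  simp [hgrad, mul_comm]

/-- If there is no index of weight one, the group is trivial. -/
theorem subsingleton_of_isEmpty [IsEmpty G.HIdx] : Subsingleton (E N) := by
  have h0 : ∀ x : E N, x = 0 := by
    intro x
    obtain ⟨l, hl, rfl⟩ := G.generated x
    induction l with
    | nil => rfl
    | cons a l ih =>
      have ha : a = 0 := by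
        ext i
        exact hl a (List.mem_cons_self) i (fun h => IsEmpty.false (⟨i, h⟩ : G.HIdx))
      have ih' := ih (fun v hv => hl v (List.mem_cons_of_mem _ hv))
      rw [List.foldr_cons, ih', ha, G.mul_zero']
  exact ⟨fun x y => by rw [h0 x, h0 y]⟩

/-- The fields of the first layer translate the coordinates of the first layer. -/
theorem psi_shift (g : E N) (i : G.HIdx) (t : ℝ) :
    G.psi (G.mul g (t • EuclideanSpace.single i.1 (1:ℝ))) i.1 = G.psi g i.1 + t := by
  have hv : G.IsHor (EuclideanSpace.single i.1 (1:ℝ)) := by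
    intro j hj
    have : j ≠ i.1 := by
      intro h
      exact hj (h ▸ i.2)
    simp [this]
  rw [G.psi_mul_smul g hv t]
  have key : (G.Ad g (EuclideanSpace.single i.1 1)) i.1 = 1 := by
    have e := entry_of_homogeneous G.weight_pos
      (F := fun a x => G.mul (G.mul a x) (-a)) ?_ ?_ ?_ g 0 i.1 i.1 le_rfl
    · have e2 : fderiv ℝ (fun x => G.mul (G.mul g x) (-g)) 0 = G.Ad g := rfl
      rw [e2] at e
      rw [e]; simp
    · have : ContDiff ℝ ∞ (fun q : E N × E N => G.mul (G.mul q.1 q.2) (-q.1)) :=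
        G.contDiff_mul.comp (G.contDiff_mul.prodMk contDiff_fst.neg)
      exact this.of_le (by norm_cast)
    · intro r hr a x
      rw [G.dil_mul r hr, G.dil_mul r hr, dil_neg]
    · have : (fun x => G.mul (G.mul 0 x) (-0)) = id := by
        funext x; rw [neg_zero, G.mul_zero', G.zero_mul']; rfl
      rw [this]; exact fderiv_id
  have hw : (G.weight i.1 : ℝ) = 1 := by rw [i.2]; norm_num
  simp only [PiLp.add_apply, PiLp.smul_apply, diagL_apply, smul_eq_mul, key, hw]
  ring

end CarnotGroup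

end Pool.Agent.Carnot
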