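import Mathlib
import Pool.Agent.Carnot.Sol

/-!
# The linear case: `L²` Poincaré inequality and existence of weak solutions
-/

namespace Pool.Agent.Carnot

open MeasureTheory Set Filter Topology
open scoped ContDiff ENNReal NNReal

namespace Sys

variable {N : ℕ} {H : Type} [NormedAddCommGroup H] [InnerProductSpace ℝ H]
  [FiniteDimensional ℝ H] (S : Sys N H)

/-- `L²` Poincaré inequality. -/
theorem poincare_two {v₀ : H} {ℓ : E N → ℝ} (hℓc : Continuous ℓ)
    (hℓ : ∀ (t : ℝ) y, ℓ (S.T (t • v₀) y) = ℓ y + t) {Ω : Set (E N)}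
    (hb : Bornology.IsBounded Ω) :
    ∃ C : ℝ≥0∞, C ≠ ⊤ ∧ ∀ ψ, IsTest1 Ω ψ → eLpNorm ψ 2 volume ≤ C * eLpNorm (S.grad ψ) 2 volume := by
  obtain ⟨R, hR⟩ := hb.isCompact_closure.exists_bound_of_continuousOn hℓc.continuousOn
  have hR' : ∀ y ∈ Ω, |ℓ y| ≤ max R 0 := fun y hy => by
    have := hR y (subset_closure hy)
    rw [Real.norm_eq_abs] at this
    exact this.trans (le_max_left _ _)
  set A : ℝ≥0∞ := ENNReal.ofReal (2 * max R 0 + 1) with hA
  have hAt : A ≠ ⊤ := ENNReal.ofReal_ne_top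
  refine ⟨A * (2 * ‖v₀‖ₑ), ENNReal.mul_ne_top hAt
    (ENNReal.mul_ne_top (by norm_num) enorm_ne_top), fun ψ hψ => ?_⟩
  have hψc := hψ.smooth.continuous
  have hgc := S.continuous_grad hψ.smooth
  set n2 := eLpNorm ψ 2 volume with hn2
  set d2 := eLpNorm (S.grad ψ) 2 volume with hd2
  have hn2t : n2 ≠ ⊤ := (hψc.memLp_of_hasCompactSupport hψ.compact).2.ne
  have h1 := S.poincare hℓ (le_max_right R 0) (ψ := fun y => ψ y * ψ y) (hψ.smooth.mul hψ.smooth)
    (fun y hy => hR' y (hψ.support (subset_tsupport _ (left_ne_zero_of_mul hy))))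
  have h2 : ∫⁻ y, ‖ψ y * ψ y‖ₑ = n2 * n2 := by
    have e1 : ∫⁻ y, ‖ψ y * ψ y‖ₑ = ∫⁻ y, ‖ψ y‖ₑ ^ (2:ℝ) := by
      apply lintegral_congr
      intro y
      rw [enorm_mul, ENNReal.rpow_two, sq]
    have e2 := eLpNorm_nnreal_pow_eq_lintegral (f := ψ) (μ := (volume : Measure (E N)))
      (p := 2) (by norm_num)
    rw [e1]
    have e3 : ((2 : ℝ≥0) : ℝ≥0∞) = 2 := by norm_num
    have e4 : ((2 : ℝ≥0) : ℝ) = 2 := by norm_num
    rw [e3, e4] at e2
    rw [← e2, ENNReal.rpow_two, sq]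
  have h3 : ∫⁻ y, ‖fderiv ℝ (fun y => ψ y * ψ y) y (S.xi y v₀)‖ₑ ≤ 2 * ‖v₀‖ₑ * (n2 * d2) := by
    have e1 : ∀ y, ‖fderiv ℝ (fun y => ψ y * ψ y) y (S.xi y v₀)‖ₑ ≤
        2 * ‖v₀‖ₑ * ‖ψ y * ‖S.grad ψ y‖‖ₑ := by
      intro y
      have hd := hψ.smooth.differentiable one_ne_zero y
      rw [fderiv_fun_mul hd hd]
      have e2 : (ψ y • fderiv ℝ ψ y + ψ y • fderiv ℝ ψ y) (S.xi y v₀) =
          2 * (ψ y * inner ℝ (S.grad ψ y) v₀) := by
        rw [S.inner_grad]
        simp only [add_apply, smul_apply, smul_eq_mul]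
        ring
      rw [e2]
      have e3 : ‖2 * (ψ y * inner ℝ (S.grad ψ y) v₀)‖ ≤ ‖2 * (‖v₀‖ * (ψ y * ‖S.grad ψ y‖))‖ := by
        simp only [norm_mul, norm_norm]
        have := norm_inner_le_norm (𝕜 := ℝ) (S.grad ψ y) v₀
        have h4 := norm_nonneg (ψ y)
        have h5 : (0:ℝ) ≤ ‖(2:ℝ)‖ := norm_nonneg _
        calc ‖(2:ℝ)‖ * (‖ψ y‖ * ‖inner ℝ (S.grad ψ y) v₀‖)
            ≤ ‖(2:ℝ)‖ * (‖ψ y‖ * (‖S.grad ψ y‖ * ‖v₀‖)) := by gcongr
          _ = _ := by ring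
      have e4 : ‖2 * (ψ y * inner ℝ (S.grad ψ y) v₀)‖ₑ ≤
          ‖2 * (‖v₀‖ * (ψ y * ‖S.grad ψ y‖))‖ₑ := enorm_le_iff_norm_le.2 e3
      refine e4.trans (le_of_eq ?_)
      rw [enorm_mul, enorm_mul, enorm_norm, ← mul_assoc]
      congr 2
      rw [Real.enorm_eq_ofReal (by norm_num)]
      norm_num
    calc ∫⁻ y, ‖fderiv ℝ (fun y => ψ y * ψ y) y (S.xi y v₀)‖ₑ
        ≤ ∫⁻ y, 2 * ‖v₀‖ₑ * ‖ψ y * ‖S.grad ψ y‖‖ₑ := lintegral_mono e1
      _ = 2 * ‖v₀‖ₑ * ∫⁻ y, ‖ψ y * ‖S.grad ψ y‖‖ₑ :=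
          lintegral_const_mul' _ _ (ENNReal.mul_ne_top (by norm_num) enorm_ne_top)
      _ ≤ 2 * ‖v₀‖ₑ * (n2 * d2) := by
          gcongr
          have e5 := eLpNorm_le_eLpNorm_mul_eLpNorm'_of_norm (p := 2) (q := 2) (r := 1)
            (μ := (volume : Measure (E N))) hψc.aestronglyMeasurable hgc.aestronglyMeasurable
            (fun a (b : H) => a * ‖b‖) 1 (Eventually.of_forall fun y => by simp)
          rw [eLpNorm_one_eq_lintegral_enorm] at e5
          simpa using e5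
  rw [h2] at h1
  by_cases h0 : n2 = 0
  · rw [h0]; exact zero_le
  have h4 : n2 * n2 ≤ n2 * (A * (2 * ‖v₀‖ₑ) * d2) := by
    calc n2 * n2 ≤ A * (2 * ‖v₀‖ₑ * (n2 * d2)) := h1.trans (by gcongr)
      _ = _ := by ring
  exact (ENNReal.mul_le_mul_iff_right h0 hn2t).1 h4

theorem isTest_add {Ω : Set (E N)} {a b : E N → ℝ} (ha : IsTest Ω a) (hb : IsTest Ω b) :
    IsTest Ω (fun x => a x + b x) := by
  refine ⟨ha.smooth.add hb.smooth, ha.compact.add hb.compact, ?_⟩
  exact (tsupport_add a b).trans (union_subset ha.support hb.support)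

theorem isTest_smul {Ω : Set (E N)} {a : E N → ℝ} (c : ℝ) (ha : IsTest Ω a) :
    IsTest Ω (fun x => c * a x) := by
  refine ⟨contDiff_const.mul ha.smooth, ha.compact.mul_left, ?_⟩
  refine (closure_mono ?_).trans ha.support
  intro x hx
  exact right_ne_zero_of_mul hx

theorem isTest_zero (Ω : Set (E N)) : IsTest Ω (fun _ => (0:ℝ)) := by
  refine ⟨contDiff_const, ?_, ?_⟩
  · exact HasCompactSupport.zero
  · simp [tsupport, Function.support]

theorem grad_smul (c : ℝ) {ψ : E N → ℝ} {y : E N} (hψ : DifferentiableAt ℝ ψ y) :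
    S.grad (fun x => c * ψ x) y = c • S.grad ψ y := by
  apply S.grad_eq_of_inner
  intro v
  rw [inner_smul_left, inner_grad, fderiv_const_mul hψ]
  rfl

theorem memLp_grad_test {Ω : Set (E N)} {ψ : E N → ℝ} (hψ : IsTest Ω ψ) (q : ℝ≥0∞)
    (μ : Measure (E N)) [IsFiniteMeasureOnCompacts μ] :
    MemLp (S.grad ψ) q μ :=
  (S.continuous_grad hψ.isTest1.smooth).memLp_of_hasCompactSupport
    (S.hasCompactSupport_grad hψ.compact)

/-- The subspace of `L²(Ω)` of horizontal gradients of test functions. -/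
noncomputable def gradSpace (Ω : Set (E N)) : Submodule ℝ (Lp H 2 ((volume : Measure (E N)).restrict Ω)) where
  carrier := {F | ∃ ψ, IsTest Ω ψ ∧ F =ᵐ[volume.restrict Ω] S.grad ψ}
  add_mem' := by
    rintro F G ⟨ψ, hψ, hF⟩ ⟨η, hη, hG⟩
    refine ⟨fun x => ψ x + η x, isTest_add hψ hη, ?_⟩
    filter_upwards [hF, hG, Lp.coeFn_add F G] with x h1 h2 h3
    rw [h3, Pi.add_apply, h1, h2, S.grad_add (hψ.smooth.differentiable (by simp) x)
      (hη.smooth.differentiable (by simp) x)]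
  zero_mem' := by
    refine ⟨fun _ => 0, isTest_zero Ω, ?_⟩
    filter_upwards [Lp.coeFn_zero H 2 ((volume : Measure (E N)).restrict Ω)] with x hx
    rw [hx]
    simp [grad]
  smul_mem' := by
    rintro c F ⟨ψ, hψ, hF⟩
    refine ⟨fun x => c * ψ x, isTest_smul c hψ, ?_⟩
    filter_upwards [hF, Lp.coeFn_smul c F] with x h1 h2
    rw [h2, Pi.smul_apply, h1, S.grad_smul c (hψ.smooth.differentiable (by simp) x)]

theorem exists_projection {Ω : Set (E N)} {F : E N → H}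
    (hF : MemLp F 2 ((volume : Measure (E N)).restrict Ω)) :
    ∃ (Z : E N → H) (ψ : ℕ → E N → ℝ), MemLp Z 2 (volume.restrict Ω) ∧ (∀ n, IsTest Ω (ψ n)) ∧
      Tendsto (fun n => eLpNorm (fun x => Z x - S.grad (ψ n) x) 2 (volume.restrict Ω))
        atTop (𝓝 0) ∧
      ∀ η, IsTest Ω η → ∫ x in Ω, inner ℝ (F x + Z x) (S.grad η x) = 0 := by
  set μ := (volume : Measure (E N)).restrict Ω with hμ
  set K := (S.gradSpace Ω).topologicalClosure with hK
  have hKc : CompleteSpace K := (S.gradSpace Ω).isClosed_topologicalClosure.completeSpace_coe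
  set F' : Lp H 2 μ := hF.toLp F with hF'
  set q : Lp H 2 μ := K.starProjection F' with hq
  have hqK : q ∈ K := K.starProjection_apply_mem F'
  have hneg : -q ∈ closure (S.gradSpace Ω : Set (Lp H 2 μ)) := by
    have : -q ∈ K := K.neg_mem hqK
    exact this
  obtain ⟨d, hd, hlim⟩ := mem_closure_iff_seq_limit.1 hneg
  choose ψ hψ hdψ using hd
  refine ⟨(-q : Lp H 2 μ), ψ, Lp.memLp _, hψ, ?_, ?_⟩
  · rw [Lp.tendsto_Lp_iff_tendsto_eLpNorm'] at hlim
    refine hlim.congr fun n => ?_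
    rw [← eLpNorm_neg]
    apply eLpNorm_congr_ae
    filter_upwards [hdψ n] with x hx
    simp only [Pi.neg_apply, Pi.sub_apply, hx, neg_sub]
  · intro η hη
    have hηL := S.memLp_grad_test hη 2 μ
    set g : Lp H 2 μ := hηL.toLp _ with hg
    have hgK : g ∈ K := by
      apply (S.gradSpace Ω).le_topologicalClosure
      exact ⟨η, hη, hηL.coeFn_toLp⟩
    have horth : inner ℝ (F' - q) g = 0 := by
      have h1 : F' - q ∈ Kᗮ := K.sub_starProjection_mem_orthogonal F'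
      exact (Submodule.mem_orthogonal' K _).1 h1 g hgK
    rw [L2.inner_def] at horth
    rw [← horth]
    apply integral_congr_ae
    filter_upwards [hF.coeFn_toLp, hηL.coeFn_toLp, Lp.coeFn_sub F' q, Lp.coeFn_neg q]
      with x h1 h2 h3 h4
    rw [h3, h4, Pi.sub_apply, Pi.neg_apply, hF', h1, hg, h2, sub_eq_add_neg]

/-- Existence of the potential: an `L²` limit of gradients of test functions is a gradient. -/
theorem exists_potential {v₀ : H} {ℓ : E N → ℝ} (hℓc : Continuous ℓ)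
    (hℓ : ∀ (t : ℝ) y, ℓ (S.T (t • v₀) y) = ℓ y + t) {Ω : Set (E N)}
    (hb : Bornology.IsBounded Ω) (hΩ : MeasurableSet Ω) {Z : E N → H} {ψ : ℕ → E N → ℝ}
    (hψ : ∀ n, IsTest Ω (ψ n)) (hZ : MemLp Z 2 ((volume : Measure (E N)).restrict Ω))
    (hlim : Tendsto (fun n => eLpNorm (fun x => Z x - S.grad (ψ n) x) 2 (volume.restrict Ω))
        atTop (𝓝 0)) :
    ∃ z : E N → ℝ, MemLp z 2 ((volume : Measure (E N)).restrict Ω) ∧
      Tendsto (fun n => eLpNorm (fun x => z x - ψ n x) 2 (volume.restrict Ω)) atTop (𝓝 0) := by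
  set μ := (volume : Measure (E N)).restrict Ω with hμ
  obtain ⟨C, hCt, hC⟩ := S.poincare_two hℓc hℓ hb
  have hψL : ∀ n, MemLp (ψ n) 2 μ := fun n =>
    ((hψ n).smooth.continuous.memLp_of_hasCompactSupport (hψ n).compact)
  have hgL : ∀ n, MemLp (S.grad (ψ n)) 2 μ := fun n => S.memLp_grad_test (hψ n) 2 μ
  -- Poincaré for differences
  have hdiff : ∀ n m, eLpNorm (fun x => ψ n x - ψ m x) 2 μ ≤
      C * eLpNorm (fun x => S.grad (ψ n) x - S.grad (ψ m) x) 2 μ := by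
    intro n m
    have ht : IsTest Ω (fun x => ψ n x + (-1) * ψ m x) := isTest_add (hψ n) (isTest_smul _ (hψ m))
    have h1 := hC _ ht.isTest1
    have h2 : (fun x => ψ n x + (-1) * ψ m x) = fun x => ψ n x - ψ m x := by
      funext x; ring
    rw [h2] at h1 ht
    have h3 : eLpNorm (fun x => ψ n x - ψ m x) 2 μ ≤
        eLpNorm (fun x => ψ n x - ψ m x) 2 volume := eLpNorm_mono_measure _ Measure.restrict_le_self
    have h4 : eLpNorm (S.grad (fun x => ψ n x - ψ m x)) 2 volume =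
        eLpNorm (fun x => S.grad (ψ n) x - S.grad (ψ m) x) 2 μ := by
      have h5 : (fun x => S.grad (ψ n) x - S.grad (ψ m) x) =
          Ω.indicator (S.grad (fun x => ψ n x - ψ m x)) := by
        funext x
        rw [← S.grad_sub ((hψ n).smooth.differentiable (by simp) x)
          ((hψ m).smooth.differentiable (by simp) x)]
        by_cases hx : x ∈ Ω
        · rw [indicator_of_mem hx]
        · rw [indicator_of_notMem hx, S.grad_eq_zero_of_notMem (fun h => hx (ht.support h))]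
      have h6 : S.grad (fun x => ψ n x - ψ m x) =
          Ω.indicator (S.grad (fun x => ψ n x - ψ m x)) := by
        funext x
        by_cases hx : x ∈ Ω
        · rw [indicator_of_mem hx]
        · rw [indicator_of_notMem hx, S.grad_eq_zero_of_notMem (fun h => hx (ht.support h))]
      rw [h5]
      conv_lhs => rw [h6, eLpNorm_indicator_eq_eLpNorm_restrict hΩ]
      rw [eLpNorm_indicator_eq_eLpNorm_restrict hΩ, hμ, Measure.restrict_restrict hΩ, inter_self]
    exact h3.trans (h1.trans (by rw [h4]))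
  -- Cauchy
  set f : ℕ → Lp ℝ 2 μ := fun n => (hψL n).toLp (ψ n) with hf
  set g : ℕ → Lp H 2 μ := fun n => (hgL n).toLp (S.grad (ψ n)) with hg
  have hgc : Tendsto g atTop (𝓝 (hZ.toLp Z)) := by
    rw [hg, Lp.tendsto_Lp_iff_tendsto_eLpNorm'']
    refine hlim.congr fun n => ?_
    rw [← eLpNorm_neg]
    congr 1
    funext x
    simp
  have hgC : CauchySeq g := hgc.cauchySeq
  have hfC : CauchySeq f := by
    rw [EMetric.cauchySeq_iff] at hgC ⊢
    intro ε hε
    have hε' : 0 < ε / (C + 1) := ENNReal.div_pos hε.ne' (ENNReal.add_ne_top.2 ⟨hCt, by norm_num⟩)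
    obtain ⟨n₀, hn₀⟩ := hgC _ hε'
    refine ⟨n₀, fun m hm n hn => ?_⟩
    have h1 := hn₀ m hm n hn
    have e1 : edist (f m) (f n) = eLpNorm (fun x => ψ m x - ψ n x) 2 μ := by
      rw [hf, Lp.edist_toLp_toLp]; rfl
    have e2 : edist (g m) (g n) = eLpNorm (fun x => S.grad (ψ m) x - S.grad (ψ n) x) 2 μ := by
      rw [hg, Lp.edist_toLp_toLp]; rfl
    rw [e1]
    rw [e2] at h1
    refine (hdiff m n).trans_lt ?_
    have hC1 : C + 1 ≠ 0 := by simp
    have hC1t : C + 1 ≠ ⊤ := ENNReal.add_ne_top.2 ⟨hCt, by norm_num⟩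
    calc C * eLpNorm (fun x => S.grad (ψ m) x - S.grad (ψ n) x) 2 μ
        ≤ (C + 1) * eLpNorm (fun x => S.grad (ψ m) x - S.grad (ψ n) x) 2 μ := by
          gcongr; exact le_self_add
      _ < (C + 1) * (ε / (C + 1)) := (ENNReal.mul_lt_mul_iff_right hC1 hC1t).2 h1
      _ = ε := ENNReal.mul_div_cancel hC1 hC1t
  obtain ⟨z, hz⟩ := cauchySeq_tendsto_of_complete hfC
  refine ⟨z, Lp.memLp z, ?_⟩
  rw [Lp.tendsto_Lp_iff_tendsto_eLpNorm'] at hz
  refine hz.congr fun n => ?_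
  rw [← eLpNorm_neg]
  apply eLpNorm_congr_ae
  filter_upwards [(hψL n).coeFn_toLp] with x hx
  simp only [hf, Pi.neg_apply, Pi.sub_apply, hx, neg_sub]

end Sys

end Pool.Agent.Carnot
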