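import Mathlib
import Pool.Agent.Carnot.Linear

/-!
# The linear case: lower bounds by subsolutions, and difference quotients
-/

namespace Pool.Agent.Carnot

open MeasureTheory Set Filter Topology
open scoped ContDiff ENNReal NNReal

section quad

variable {H : Type} [NormedAddCommGroup H] [InnerProductSpace ℝ H]

/-- The Dirichlet integrand `|ξ|² / 2`. -/
noncomputable def quad (H : Type) [NormedAddCommGroup H] [InnerProductSpace ℝ H] (ξ : H) : ℝ :=
  ‖ξ‖ ^ 2 / 2

theorem fderiv_quad (ξ η : H) : fderiv ℝ (quad H) ξ η = inner ℝ ξ η := by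
  have h1 : HasFDerivAt (fun x : H => ‖x‖ ^ 2) (2 • (innerSL ℝ ξ)) ξ :=
    (hasStrictFDerivAt_norm_sq ξ).hasFDerivAt
  have h2 := h1.mul_const (1 / 2 : ℝ)
  have h3 : (fun x : H => ‖x‖ ^ 2 * (1 / 2)) = quad H := by
    funext x; simp only [quad]; ring
  rw [h3] at h2
  rw [h2.fderiv]
  simp

theorem contDiff_quad : ContDiff ℝ ∞ (quad H) := by
  have : ContDiff ℝ ∞ (fun x : H => ‖x‖ ^ 2 * (1 / 2 : ℝ)) := (contDiff_norm_sq ℝ).mul contDiff_const
  have h3 : (fun x : H => ‖x‖ ^ 2 * (1 / 2)) = quad H := by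
    funext x; simp only [quad]; ring
  rwa [h3] at this

theorem fderiv_fderiv_quad (ξ η ζ : H) : fderiv ℝ (fderiv ℝ (quad H)) ξ η ζ = inner ℝ η ζ := by
  have hs : ContDiff ℝ 1 (fderiv ℝ (quad H)) := contDiff_quad.fderiv_right (by norm_cast)
  have h1 : HasFDerivAt (fderiv ℝ (quad H)) (fderiv ℝ (fderiv ℝ (quad H)) ξ) ξ :=
    (hs.differentiable one_ne_zero _).hasFDerivAt
  have h2 := h1.clm_apply (hasFDerivAt_const ζ ξ)
  have h3 : (fun x => fderiv ℝ (quad H) x ζ) = fun x => inner ℝ x ζ := by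
    funext x; exact fderiv_quad x ζ
  rw [h3] at h2
  have h4 : HasFDerivAt (fun x : H => inner ℝ x ζ) (innerSL ℝ ζ) ξ := by
    have h5 : (fun x : H => inner ℝ x ζ) = fun x => innerSL ℝ ζ x := by
      funext x; rw [innerSL_apply_apply, real_inner_comm]
    rw [h5]
    exact (innerSL ℝ ζ).hasFDerivAt
  have h6 := congrArg (fun L : H →L[ℝ] ℝ => L η) (h2.unique h4)
  simp only [ContinuousLinearMap.comp_zero, zero_add, ContinuousLinearMap.flip_apply,
    innerSL_apply_apply] at h6
  rw [h6, real_inner_comm]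

theorem isStructured_quad : IsStructured 2 0 1 1 (quad H) where
  one_lt_p := by norm_num
  delta_nonneg := le_rfl
  lam_pos := one_pos
  lam_le := le_rfl
  contDiff := contDiff_quad.of_le (by norm_cast)
  differentiable := fun ξ _ => by
    have hs : ContDiff ℝ 1 (fderiv ℝ (quad H)) := contDiff_quad.fderiv_right (by norm_cast)
    exact hs.differentiable one_ne_zero _
  lower := fun ξ η _ => by
    rw [fderiv_fderiv_quad, real_inner_self_eq_norm_sq]
    norm_num
  upper := fun ξ η _ => by
    rw [fderiv_fderiv_quad, real_inner_self_eq_norm_sq]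
    norm_num
  growth := fun ξ => by
    have h1 : ‖fderiv ℝ (quad H) ξ‖ ≤ ‖ξ‖ := by
      apply ContinuousLinearMap.opNorm_le_bound _ (norm_nonneg _)
      intro η
      rw [fderiv_quad]
      exact norm_inner_le_norm ξ η
    have h2 : (0 + ‖ξ‖ ^ 2) ^ (((2:ℝ) - 1) / 2) = ‖ξ‖ := by
      rw [zero_add]
      have : ((2:ℝ) - 1) / 2 = 1 / 2 := by norm_num
      rw [this, ← Real.sqrt_eq_rpow, Real.sqrt_sq (norm_nonneg _)]
    rw [h2, one_mul]
    exact h1

end quad

theorem integrable_inner_of_memLp {α : Type*} [MeasurableSpace α] {μ : Measure α} {H : Type}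
    [NormedAddCommGroup H] [InnerProductSpace ℝ H] {F G : α → H} (hF : MemLp F 2 μ)
    (hG : MemLp G 2 μ) : Integrable (fun x => inner ℝ (F x) (G x)) μ := by
  have h1 : MemLp (fun x => inner ℝ (F x) (G x)) 1 μ :=
    MemLp.of_bilin (fun (a : H) (b : H) => inner ℝ a b) 1 hF hG (hF.1.inner hG.1)
      (Eventually.of_forall fun x => by
        have := norm_inner_le_norm (𝕜 := ℝ) (F x) (G x)
        rw [one_mul]
        exact_mod_cast this)
  exact memLp_one_iff_integrable.1 h1

namespace Sys

variable {N : ℕ} {H : Type} [NormedAddCommGroup H] [InnerProductSpace ℝ H]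
  [FiniteDimensional ℝ H] (S : Sys N H)

/-- The sub-Laplacian. -/
noncomputable def lap {ι : Type} [Fintype ι] (b : OrthonormalBasis ι ℝ H) (V : E N → ℝ)
    (y : E N) : ℝ :=
  ∑ i, fderiv ℝ (fun x => fderiv ℝ V x (S.xi x (b i))) y (S.xi y (b i))

theorem integral_inner_grad {ι : Type} [Fintype ι] (b : OrthonormalBasis ι ℝ H)
    {V η : E N → ℝ} (hV : ContDiff ℝ 2 V) (hη : ContDiff ℝ 1 η) (hc : HasCompactSupport η) :
    ∫ x, inner ℝ (S.grad V x) (S.grad η x) = - ∫ x, S.lap b V x * η x := by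
  have hVi : ∀ i, ContDiff ℝ 1 (fun x => fderiv ℝ V x (S.xi x (b i))) := by
    intro i
    have h1 : ContDiff ℝ 1 (fderiv ℝ V) := hV.fderiv_right (by norm_num)
    have h2 : ContDiff ℝ 1 S.xi := S.contDiff_xi.of_le (by norm_cast)
    exact h1.clm_apply (h2.clm_apply contDiff_const)
  have e1 : ∀ x, inner ℝ (S.grad V x) (S.grad η x) =
      ∑ i, fderiv ℝ V x (S.xi x (b i)) * fderiv ℝ η x (S.xi x (b i)) := by
    intro x
    rw [← b.sum_inner_mul_inner]
    apply Finset.sum_congr rfl
    intro i _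
    rw [S.inner_grad, real_inner_comm, S.inner_grad]
  have c1 : ∀ i, Continuous (fun y => fderiv ℝ η y (S.xi y (b i))) := fun i =>
    (hη.continuous_fderiv one_ne_zero).clm_apply (S.continuous_xi.clm_apply continuous_const)
  have s1 : ∀ i, HasCompactSupport (fun y => fderiv ℝ η y (S.xi y (b i))) := by
    intro i
    refine HasCompactSupport.intro hc (fun y hy => ?_)
    have : fderiv ℝ η y = 0 := by
      have h1 := support_fderiv_subset ℝ (f := η)
      by_contra h
      exact hy (h1 h)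
    rw [this]; simp
  simp_rw [e1]
  rw [integral_finsetSum (f := fun i x => fderiv ℝ V x (S.xi x (b i)) *
    fderiv ℝ η x (S.xi x (b i))) _ (fun i _ =>
    ((hVi i).continuous.mul (c1 i)).integrable_of_hasCompactSupport (s1 i).mul_left)]
  simp_rw [fun i => S.integral_mul_fderiv_xi (hVi i) hη hc (b i)]
  rw [Finset.sum_neg_distrib, ← integral_finsetSum]
  · congr 2
    funext x
    rw [lap, Finset.sum_mul]
  · intro i _
    have c2 : Continuous (fun y => fderiv ℝ (fun x => fderiv ℝ V x (S.xi x (b i))) y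
        (S.xi y (b i))) :=
      ((hVi i).continuous_fderiv one_ne_zero).clm_apply
        (S.continuous_xi.clm_apply continuous_const)
    exact (c2.mul hη.continuous).integrable_of_hasCompactSupport hc.mul_left

/-- Lower bound of a supersolution by a compactly supported subsolution. -/
theorem lower_bound {ι : Type} [Fintype ι] (b : OrthonormalBasis ι ℝ H)
    {v₀ : H} {ℓ : E N → ℝ} (hℓc : Continuous ℓ)
    (hℓ : ∀ (t : ℝ) y, ℓ (S.T (t • v₀) y) = ℓ y + t) {Ω : Set (E N)} (hΩ : IsOpen Ω)
    (hb : Bornology.IsBounded Ω) {z : E N → ℝ} {Z : E N → H} {ψ : ℕ → E N → ℝ}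
    (hψ : ∀ n, IsTest Ω (ψ n)) (hz : MemLp z 2 ((volume : Measure (E N)).restrict Ω))
    (hZ : MemLp Z 2 ((volume : Measure (E N)).restrict Ω))
    (hlim : Tendsto (fun n => eLpNorm (fun x => z x - ψ n x) 2 (volume.restrict Ω)) atTop (𝓝 0))
    (hlimg : Tendsto (fun n => eLpNorm (fun x => Z x - S.grad (ψ n) x) 2 (volume.restrict Ω))
        atTop (𝓝 0))
    {c₂ : ℝ} (hc₂ : 0 < c₂)
    (hweak : ∀ η, IsTest1 Ω η → ∫ x in Ω, inner ℝ (Z x) (S.grad η x) = c₂ * ∫ x in Ω, η x)
    {V : E N → ℝ} (hV : ContDiff ℝ 2 V) (hVc : HasCompactSupport V) (hVs : tsupport V ⊆ Ω)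
    {C : ℝ} (hC : 0 < C) (hlap : ∀ x, -C ≤ S.lap b V x) :
    ∀ᵐ x ∂(volume.restrict Ω), c₂ / C * V x ≤ z x := by
  have hΩm := hΩ.measurableSet
  have h2 : ENNReal.ofReal 2 = 2 := by norm_num
  set a : ℝ := c₂ / C with ha
  have ha0 : 0 < a := div_pos hc₂ hC
  set V' : E N → ℝ := fun x => a * V x with hV'
  have hV's : ContDiff ℝ 2 V' := contDiff_const.mul hV
  have hV'1 : ContDiff ℝ 1 V' := hV's.of_le (by norm_num)
  have hV'c : HasCompactSupport V' := hVc.mul_left
  have hV'ts : tsupport V' ⊆ Ω := by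
    refine (closure_mono ?_).trans hVs
    intro x hx
    exact right_ne_zero_of_mul hx
  have hV'L : MemLp V' (ENNReal.ofReal 2) (volume.restrict Ω) :=
    hV'1.continuous.memLp_of_hasCompactSupport hV'c
  have hV'gc := S.continuous_grad hV'1
  have hV'gs := S.hasCompactSupport_grad hV'c
  have hV'gL : MemLp (S.grad V') (ENNReal.ofReal 2) (volume.restrict Ω) :=
    hV'gc.memLp_of_hasCompactSupport hV'gs
  have hz2 : MemLp z (ENNReal.ofReal 2) (volume.restrict Ω) := by rw [h2]; exact hz
  have hZ2 : MemLp Z (ENNReal.ofReal 2) (volume.restrict Ω) := by rw [h2]; exact hZ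
  have key := S.comparison_sub hℓc hℓ (isStructured_quad (H := H)) hΩ hb (u₁ := V') (u₂ := z)
    (U₁ := S.grad V') (U₂ := Z) hV'L hz2 hV'gL hZ2 (w₁ := fun _ => V') (w₂ := ψ)
    (fun _ => hV'1.contDiffOn) (fun n => (hψ n).isTest1.smooth.contDiffOn)
    (by simp) (by rw [h2]; exact hlim) (by simp) (by rw [h2]; exact hlimg) ?_ (χ := fun _ => 1) contDiff_const (fun _ => zero_le_one)
    (fun _ => le_rfl) (m := 0) ?_ (Eventually.of_forall fun _ => Or.inl rfl)
  · filter_upwards [key] with x hx
    simp only [hV'] at hx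
    linarith
  · intro η hη hη0
    have hfin : IsFiniteMeasure ((volume : Measure (E N)).restrict Ω) := by
      constructor
      rw [Measure.restrict_apply_univ]
      exact hb.measure_lt_top
    have hηg : MemLp (S.grad η) 2 (volume.restrict Ω) :=
      (S.continuous_grad hη.smooth).memLp_of_hasCompactSupport (S.hasCompactSupport_grad hη.compact)
    have e1 : ∀ x, (fderiv ℝ (quad H) (S.grad V' x) - fderiv ℝ (quad H) (Z x)) (S.grad η x) =
        inner ℝ (S.grad V' x) (S.grad η x) - inner ℝ (Z x) (S.grad η x) := by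
      intro x
      rw [sub_apply, fderiv_quad, fderiv_quad]
    simp_rw [e1]
    have hV'gL2 : MemLp (S.grad V') 2 (volume.restrict Ω) :=
      hV'gc.memLp_of_hasCompactSupport hV'gs
    have i1 : Integrable (fun x => inner ℝ (S.grad V' x) (S.grad η x)) (volume.restrict Ω) :=
      integrable_inner_of_memLp hV'gL2 hηg
    have i2 : Integrable (fun x => inner ℝ (Z x) (S.grad η x)) (volume.restrict Ω) :=
      integrable_inner_of_memLp hZ hηg
    rw [integral_sub i1 i2, hweak η hη]
    have e2 : ∫ x in Ω, inner ℝ (S.grad V' x) (S.grad η x) =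
        ∫ x, inner ℝ (S.grad V' x) (S.grad η x) := by
      rw [← integral_indicator hΩm]
      congr 1
      funext x
      by_cases hx : x ∈ Ω
      · rw [indicator_of_mem hx]
      · rw [indicator_of_notMem hx, S.grad_eq_zero_of_notMem (fun h => hx (hη.support h)),
          inner_zero_right]
    have e3 : ∫ x in Ω, η x = ∫ x, η x := by
      rw [← integral_indicator hΩm]
      congr 1
      funext x
      by_cases hx : x ∈ Ω
      · rw [indicator_of_mem hx]
      · rw [indicator_of_notMem hx, image_eq_zero_of_notMem_tsupport (fun h => hx (hη.support h))]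
    rw [e2, e3, S.integral_inner_grad b hV's hη.smooth hη.compact]
    have e4 : ∀ x, S.lap b V' x = a * S.lap b V x := by
      intro x
      rw [lap, lap, Finset.mul_sum]
      apply Finset.sum_congr rfl
      intro i _
      have e5 : (fun x => fderiv ℝ V' x (S.xi x (b i))) =
          fun x => a * fderiv ℝ V x (S.xi x (b i)) := by
        funext y
        rw [hV', fderiv_const_mul (hV.differentiable (by norm_num) y)]
        rfl
      have hVi : ContDiff ℝ 1 (fun x => fderiv ℝ V x (S.xi x (b i))) := by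
        have h1 : ContDiff ℝ 1 (fderiv ℝ V) := hV.fderiv_right (by norm_num)
        have h2 : ContDiff ℝ 1 S.xi := S.contDiff_xi.of_le (by norm_cast)
        exact h1.clm_apply (h2.clm_apply contDiff_const)
      rw [e5, fderiv_const_mul (hVi.differentiable one_ne_zero x)]
      rfl
    have hlc : Continuous (S.lap b V') := by
      unfold lap
      apply continuous_finsetSum
      intro i _
      have hVi : ContDiff ℝ 1 (fun x => fderiv ℝ V' x (S.xi x (b i))) := by
        have h1 : ContDiff ℝ 1 (fderiv ℝ V') := hV's.fderiv_right (by norm_num)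
        have h2 : ContDiff ℝ 1 S.xi := S.contDiff_xi.of_le (by norm_cast)
        exact h1.clm_apply (h2.clm_apply contDiff_const)
      exact (hVi.continuous_fderiv one_ne_zero).clm_apply
        (S.continuous_xi.clm_apply continuous_const)
    have i3 : Integrable (fun x => S.lap b V' x * η x) volume :=
      (hlc.mul hη.smooth.continuous).integrable_of_hasCompactSupport hη.compact.mul_left
    have i4 : Integrable η volume :=
      hη.smooth.continuous.integrable_of_hasCompactSupport hη.compact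
    have e6 : (-∫ x, S.lap b V' x * η x) - c₂ * ∫ x, η x =
        - ∫ x, (S.lap b V' x * η x + c₂ * η x) := by
      rw [integral_add i3 (i4.const_mul _), integral_const_mul]; ring
    rw [e6, neg_nonpos]
    apply integral_nonneg
    intro x
    simp only [Pi.zero_apply]
    rw [← add_mul]
    apply mul_nonneg _ (hη0 x)
    rw [e4]
    have h5 := mul_le_mul_of_nonneg_left (hlap x) ha0.le
    have h6 : a * -C = -c₂ := by rw [ha]; field_simp
    linarith
  · intro n
    refine ⟨tsupport V' ∪ tsupport (ψ n), hV'c.isCompact.union (hψ n).compact.isCompact,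
      union_subset hV'ts (hψ n).support, fun x hx => Or.inr ?_⟩
    have h3 : V' x = 0 := image_eq_zero_of_notMem_tsupport (fun h => hx.2 (Or.inl h))
    have h4 : ψ n x = 0 := image_eq_zero_of_notMem_tsupport (fun h => hx.2 (Or.inr h))
    rw [h3, h4, sub_zero]

/-- Difference quotients along the flow are controlled by the gradient. -/
theorem translation_bound {Ω : Set (E N)} (hΩ : MeasurableSet Ω)
    (hb : Bornology.IsBounded Ω) {z : E N → ℝ} {Z : E N → H} {ψ : ℕ → E N → ℝ}
    (hψ : ∀ n, IsTest Ω (ψ n)) (hz : MemLp z 2 ((volume : Measure (E N)).restrict Ω))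
    (hZ : MemLp Z 2 ((volume : Measure (E N)).restrict Ω))
    (hlim : Tendsto (fun n => eLpNorm (fun x => z x - ψ n x) 2 (volume.restrict Ω)) atTop (𝓝 0))
    (hlimg : Tendsto (fun n => eLpNorm (fun x => Z x - S.grad (ψ n) x) 2 (volume.restrict Ω))
        atTop (𝓝 0))
    {v : H} {M : ℝ} (hZM : ∀ᵐ x ∂(volume.restrict Ω), |inner ℝ (Z x) v| ≤ M)
    {t : ℝ} (ht : 0 ≤ t) (O : Set (E N)) :
    ∫⁻ y in O, ‖Ω.indicator z (S.T (t • v) y) - Ω.indicator z y‖ₑ ≤
      ENNReal.ofReal t * (ENNReal.ofReal M * volume O) := by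
  have hfin : IsFiniteMeasure ((volume : Measure (E N)).restrict Ω) := by
    constructor
    rw [Measure.restrict_apply_univ]
    exact hb.measure_lt_top
  have h2 : ENNReal.ofReal 2 = 2 := by norm_num
  set z' := Ω.indicator z with hz'
  set ζ : E N → ℝ := Ω.indicator (fun x => inner ℝ (Z x) v) with hζ
  set F : ℕ → E N → ℝ := fun n y => fderiv ℝ (ψ n) y (S.xi y v) with hF
  have hFc : ∀ n, Continuous (F n) := fun n =>
    ((hψ n).smooth.continuous_fderiv (by simp)).clm_apply
      (S.continuous_xi.clm_apply continuous_const)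
  have hz'm : AEStronglyMeasurable z' volume := (aestronglyMeasurable_indicator_iff hΩ).2 hz.1
  have hζm : AEStronglyMeasurable ζ volume := by
    rw [hζ, aestronglyMeasurable_indicator_iff hΩ]
    exact hZ.1.inner aestronglyMeasurable_const
  -- `L¹` convergence
  have ha : Tendsto (fun n => ∫⁻ x, ‖z' x - ψ n x‖ₑ) atTop (𝓝 0) := by
    have h3 := tendsto_eLpNorm_one (μ := (volume : Measure (E N)).restrict Ω) (p := 2)
      (by norm_num) (V := fun n x => z x - ψ n x)
      (fun n => hz.1.sub (hψ n).smooth.continuous.aestronglyMeasurable) (by rw [h2]; exact hlim)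
    refine h3.congr fun n => ?_
    rw [eLpNorm_one_eq_lintegral_enorm, ← lintegral_indicator hΩ]
    apply lintegral_congr
    intro x
    by_cases hx : x ∈ Ω
    · rw [indicator_of_mem hx, hz', indicator_of_mem hx]
    · rw [indicator_of_notMem hx, hz', indicator_of_notMem hx,
        image_eq_zero_of_notMem_tsupport (fun h => hx ((hψ n).support h))]
      simp
  have hbl : Tendsto (fun n => ∫⁻ x, ‖F n x - ζ x‖ₑ) atTop (𝓝 0) := by
    have h3 := tendsto_eLpNorm_one (μ := (volume : Measure (E N)).restrict Ω) (p := 2)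
      (by norm_num) (V := fun n x => Z x - S.grad (ψ n) x)
      (fun n => hZ.1.sub (S.continuous_grad (hψ n).isTest1.smooth).aestronglyMeasurable)
      (by rw [h2]; exact hlimg)
    have h4 : Tendsto (fun n => ‖v‖ₑ * eLpNorm (fun x => Z x - S.grad (ψ n) x) 1
        ((volume : Measure (E N)).restrict Ω)) atTop (𝓝 0) := by
      have := ENNReal.Tendsto.const_mul (a := ‖v‖ₑ) h3 (Or.inr enorm_ne_top)
      simpa using this
    refine tendsto_of_tendsto_of_tendsto_of_le_of_le tendsto_const_nhds h4 (fun n => zero_le)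
      (fun n => ?_)
    rw [eLpNorm_one_eq_lintegral_enorm, ← lintegral_indicator hΩ,
      ← lintegral_const_mul' _ _ enorm_ne_top]
    apply lintegral_mono
    intro x
    simp only
    by_cases hx : x ∈ Ω
    · rw [indicator_of_mem hx, hζ, indicator_of_mem hx]
      simp only [hF]
      rw [← S.inner_grad, ← inner_sub_left]
      have h5 : ‖inner ℝ (S.grad (ψ n) x - Z x) v‖ ≤ ‖(‖v‖ * ‖Z x - S.grad (ψ n) x‖ : ℝ)‖ := by
        rw [norm_sub_rev (Z x), norm_mul, norm_norm, norm_norm, mul_comm]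
        exact norm_inner_le_norm _ _
      have h6 := enorm_le_iff_norm_le.2 h5
      rw [enorm_mul, enorm_norm, enorm_norm] at h6
      exact h6
    · rw [indicator_of_notMem hx, hζ, indicator_of_notMem hx]
      simp only [hF]
      rw [← S.inner_grad, S.grad_eq_zero_of_notMem (fun h => hx ((hψ n).support h))]
      simp
  -- bound of `ζ`
  have hζM : ∀ᵐ x ∂(volume : Measure (E N)), ‖ζ x‖ₑ ≤ ENNReal.ofReal M := by
    rw [ae_restrict_iff' hΩ] at hZM
    filter_upwards [hZM] with x hx
    by_cases hxΩ : x ∈ Ω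
    · rw [hζ, indicator_of_mem hxΩ, Real.enorm_eq_ofReal_abs]
      exact ENNReal.ofReal_le_ofReal (hx hxΩ)
    · rw [hζ, indicator_of_notMem hxΩ]; simp
  have hTc : Continuous (fun q : E N × ℝ => S.T (q.2 • v) q.1) :=
    S.continuous_T.comp (by fun_prop : Continuous (fun q : E N × ℝ => (q.2 • v, q.1)))
  -- the estimate for the approximations
  have hn : ∀ n, ∫⁻ y in O, ‖ψ n (S.T (t • v) y) - ψ n y‖ₑ ≤
      ENNReal.ofReal t * (ENNReal.ofReal M * volume O + ∫⁻ x, ‖F n x - ζ x‖ₑ) := by
    intro n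
    have hpt : ∀ y, ‖ψ n (S.T (t • v) y) - ψ n y‖ₑ ≤
        ∫⁻ s in Ioc 0 t, ‖F n (S.T (s • v) y)‖ₑ := by
      intro y
      have hcont : Continuous (fun s : ℝ => F n (S.T (s • v) y)) :=
        (hFc n).comp (hTc.comp (by fun_prop : Continuous (fun s : ℝ => (y, s))))
      have hftc : ∫ s in (0:ℝ)..t, F n (S.T (s • v) y) =
          ψ n (S.T (t • v) y) - ψ n (S.T ((0:ℝ) • v) y) := by
        apply intervalIntegral.integral_eq_sub_of_hasDerivAt
          (f := fun s => ψ n (S.T (s • v) y))
        · intro s _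
          exact S.hasDerivAt_comp_T (hψ n).isTest1.smooth v y s
        · exact hcont.intervalIntegrable _ _
      rw [zero_smul, S.T_zero, intervalIntegral.integral_of_le ht] at hftc
      rw [← hftc]
      exact enorm_integral_le_lintegral_enorm _
    calc ∫⁻ y in O, ‖ψ n (S.T (t • v) y) - ψ n y‖ₑ
        ≤ ∫⁻ y in O, ∫⁻ s in Ioc 0 t, ‖F n (S.T (s • v) y)‖ₑ := lintegral_mono hpt
      _ = ∫⁻ s in Ioc 0 t, ∫⁻ y in O, ‖F n (S.T (s • v) y)‖ₑ := by
          apply lintegral_lintegral_swap
          have : Continuous (fun q : E N × ℝ => F n (S.T (q.2 • v) q.1)) := (hFc n).comp hTc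
          exact this.measurable.enorm.aemeasurable
      _ ≤ ∫⁻ s in Ioc 0 t, (ENNReal.ofReal M * volume O + ∫⁻ x, ‖F n x - ζ x‖ₑ) := by
          apply lintegral_mono
          intro s
          simp only
          have hs1 : ∀ᵐ y ∂(volume.restrict O), ‖F n (S.T (s • v) y)‖ₑ ≤
              ENNReal.ofReal M + ‖F n (S.T (s • v) y) - ζ (S.T (s • v) y)‖ₑ := by
            have h3 := (S.mp (s • v)).quasiMeasurePreserving.ae hζM
            have h4 := ae_restrict_of_ae (s := O) h3
            filter_upwards [h4] with y hy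
            have h5 : F n (S.T (s • v) y) = ζ (S.T (s • v) y) +
                (F n (S.T (s • v) y) - ζ (S.T (s • v) y)) := by ring
            calc ‖F n (S.T (s • v) y)‖ₑ = ‖ζ (S.T (s • v) y) +
                (F n (S.T (s • v) y) - ζ (S.T (s • v) y))‖ₑ := by rw [← h5]
              _ ≤ ‖ζ (S.T (s • v) y)‖ₑ + ‖F n (S.T (s • v) y) - ζ (S.T (s • v) y)‖ₑ :=
                  enorm_add_le _ _
              _ ≤ _ := by gcongr
          calc ∫⁻ y in O, ‖F n (S.T (s • v) y)‖ₑ
              ≤ ∫⁻ y in O, (ENNReal.ofReal M + ‖F n (S.T (s • v) y) - ζ (S.T (s • v) y)‖ₑ) :=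
                lintegral_mono_ae hs1
            _ = ENNReal.ofReal M * volume O +
                ∫⁻ y in O, ‖F n (S.T (s • v) y) - ζ (S.T (s • v) y)‖ₑ := by
                rw [lintegral_add_left measurable_const, setLIntegral_const]
            _ ≤ ENNReal.ofReal M * volume O +
                ∫⁻ y, ‖F n (S.T (s • v) y) - ζ (S.T (s • v) y)‖ₑ := by
                gcongr
                exact Measure.restrict_le_self
            _ = _ := by
                congr 1
                exact (S.mp (s • v)).lintegral_comp_emb (S.measurableEmbedding_T _)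
                  (fun x => ‖F n x - ζ x‖ₑ)
      _ = _ := by rw [setLIntegral_const, Real.volume_Ioc, sub_zero, mul_comm]
  -- triangle inequality
  have htri : ∀ n, ∫⁻ y in O, ‖z' (S.T (t • v) y) - z' y‖ₑ ≤
      (∫⁻ x, ‖z' x - ψ n x‖ₑ) + ENNReal.ofReal t * (ENNReal.ofReal M * volume O +
        ∫⁻ x, ‖F n x - ζ x‖ₑ) + ∫⁻ x, ‖z' x - ψ n x‖ₑ := by
    intro n
    have hψm : AEStronglyMeasurable (ψ n) volume := (hψ n).smooth.continuous.aestronglyMeasurable
    have hd : AEStronglyMeasurable (fun x => z' x - ψ n x) volume := hz'm.sub hψm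
    have hdT : AEStronglyMeasurable (fun y => z' (S.T (t • v) y) - ψ n (S.T (t • v) y)) volume :=
      hd.comp_measurePreserving (S.mp (t • v))
    have hpT : AEStronglyMeasurable (fun y => ψ n (S.T (t • v) y) - ψ n y) volume :=
      (((hψ n).smooth.continuous.comp (S.contDiff_T_right _).continuous).sub
        (hψ n).smooth.continuous).aestronglyMeasurable
    have hpt : ∀ y, ‖z' (S.T (t • v) y) - z' y‖ₑ ≤
        ‖z' (S.T (t • v) y) - ψ n (S.T (t • v) y)‖ₑ + ‖ψ n (S.T (t • v) y) - ψ n y‖ₑ +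
          ‖z' y - ψ n y‖ₑ := by
      intro y
      have h3 : z' (S.T (t • v) y) - z' y = (z' (S.T (t • v) y) - ψ n (S.T (t • v) y)) +
          (ψ n (S.T (t • v) y) - ψ n y) + (-(z' y - ψ n y)) := by ring
      calc ‖z' (S.T (t • v) y) - z' y‖ₑ = ‖(z' (S.T (t • v) y) - ψ n (S.T (t • v) y)) +
          (ψ n (S.T (t • v) y) - ψ n y) + (-(z' y - ψ n y))‖ₑ := by rw [← h3]
        _ ≤ ‖(z' (S.T (t • v) y) - ψ n (S.T (t • v) y)) +
          (ψ n (S.T (t • v) y) - ψ n y)‖ₑ + ‖-(z' y - ψ n y)‖ₑ := enorm_add_le _ _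
        _ ≤ _ := by
            rw [enorm_neg]
            gcongr
            exact enorm_add_le _ _
    calc ∫⁻ y in O, ‖z' (S.T (t • v) y) - z' y‖ₑ
        ≤ ∫⁻ y in O, (‖z' (S.T (t • v) y) - ψ n (S.T (t • v) y)‖ₑ +
            ‖ψ n (S.T (t • v) y) - ψ n y‖ₑ + ‖z' y - ψ n y‖ₑ) := lintegral_mono hpt
      _ = (∫⁻ y in O, ‖z' (S.T (t • v) y) - ψ n (S.T (t • v) y)‖ₑ) +
            (∫⁻ y in O, ‖ψ n (S.T (t • v) y) - ψ n y‖ₑ) + ∫⁻ y in O, ‖z' y - ψ n y‖ₑ := by
          rw [lintegral_add_left' (f := fun y => ‖z' (S.T (t • v) y) - ψ n (S.T (t • v) y)‖ₑ +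
            ‖ψ n (S.T (t • v) y) - ψ n y‖ₑ) ((hdT.enorm.add hpT.enorm).restrict),
            lintegral_add_left' (f := fun y => ‖z' (S.T (t • v) y) - ψ n (S.T (t • v) y)‖ₑ)
              (hdT.enorm.restrict)]
      _ ≤ (∫⁻ y, ‖z' (S.T (t • v) y) - ψ n (S.T (t • v) y)‖ₑ) +
            ENNReal.ofReal t * (ENNReal.ofReal M * volume O + ∫⁻ x, ‖F n x - ζ x‖ₑ) +
            ∫⁻ y, ‖z' y - ψ n y‖ₑ := by
          gcongr
          · exact Measure.restrict_le_self
          · exact hn n
          · exact Measure.restrict_le_self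
      _ = _ := by
          congr 2
          exact (S.mp (t • v)).lintegral_comp_emb (S.measurableEmbedding_T _)
            (fun x => ‖z' x - ψ n x‖ₑ)
  have hlimit : Tendsto (fun n => (∫⁻ x, ‖z' x - ψ n x‖ₑ) +
      ENNReal.ofReal t * (ENNReal.ofReal M * volume O +
        ∫⁻ x, ‖F n x - ζ x‖ₑ) + ∫⁻ x, ‖z' x - ψ n x‖ₑ) atTop
      (𝓝 (0 + ENNReal.ofReal t * (ENNReal.ofReal M * volume O + 0) + 0)) := by
    refine (ha.add ?_).add ha
    exact ENNReal.Tendsto.const_mul (hbl.const_add _) (Or.inr ENNReal.ofReal_ne_top)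
  rw [zero_add, add_zero, add_zero] at hlimit
  exact ge_of_tendsto' hlimit htri

end Sys

end Pool.Agent.Carnot
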