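import Mathlib
import Pool.Agent.Carnot.ExGroup
import Pool.Agent.Carnot.ExPhi
import Pool.Agent.Carnot.GroupSys
import Pool.Agent.Carnot.Linear2

/-!
# The barrier on the example group
-/

namespace Pool.Agent.Carnot

open MeasureTheory Set Filter Topology
open scoped ContDiff ENNReal NNReal

/-- flow system of the example group, in its exponential coordinates -/
noncomputable def exS : Sys 12 exG.H :=
  exG.sysOf (Equiv.refl _) contDiff_id contDiff_id (MeasurePreserving.id _)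
    (MeasurePreserving.id _)

/-- horizontal directions -/
def hidx (i : Fin 12) (h : exW i = 1) : exG.HIdx := ⟨i, h⟩

theorem exS_T_single (i : Fin 12) (h : exW i = 1) (t : ℝ) (y : E 12) :
    exS.T (t • EuclideanSpace.single (hidx i h) (1:ℝ)) y =
      exMul y (t • EuclideanSpace.single i (1:ℝ)) := by
  show exG.mul y (exG.incl (t • EuclideanSpace.single (hidx i h) (1:ℝ))) = _
  rw [map_smul, exG.incl_single]
  rfl

/-- polynomials -/
noncomputable def pf (y : E 12) : ℝ := y 0 ^ 2 + y 1 ^ 2 + y 2 ^ 2 + y 3 ^ 2 + y 4 ^ 2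
noncomputable def uf (y : E 12) : ℝ := y 5 - 12
noncomputable def Pf (y : E 12) : ℝ := pf y + uf y ^ 2
noncomputable def gf (j k : Fin 12) (y : E 12) : ℝ := y k + y 5 * y j / 2
noncomputable def Gf2 (y : E 12) : ℝ :=
  gf 0 6 y ^ 2 + gf 1 7 y ^ 2 + gf 2 8 y ^ 2 + gf 3 9 y ^ 2 + gf 4 10 y ^ 2
noncomputable def Xf (y : E 12) : ℝ :=
  y 0 * gf 0 6 y + y 1 * gf 1 7 y + y 2 * gf 2 8 y + y 3 * gf 3 9 y + y 4 * gf 4 10 y
noncomputable def Tf (y : E 12) : ℝ :=
  y 11 + (y 0 * y 6 + y 1 * y 7 + y 2 * y 8 + y 3 * y 9 + y 4 * y 10) / 2 + y 5 * pf y / 6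

/-- the barrier -/
noncomputable def Wf (y : E 12) : ℝ := Phi (Pf y) (pf y) (Gf2 y) (Tf y)

theorem pf_nonneg (y : E 12) : 0 ≤ pf y := by unfold pf; positivity
theorem Gf2_nonneg (y : E 12) : 0 ≤ Gf2 y := by unfold Gf2; positivity
theorem pf_le_Pf (y : E 12) : pf y ≤ Pf y := by unfold Pf; nlinarith [sq_nonneg (uf y)]
theorem Pf_pos {y : E 12} (h : 0 < pf y) : 0 < Pf y := h.trans_le (pf_le_Pf y)

theorem Xf_sq_le (y : E 12) : Xf y ^ 2 ≤ pf y * Gf2 y := by
  unfold Xf pf Gf2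
  set a := gf 0 6 y
  set b := gf 1 7 y
  set c := gf 2 8 y
  set d := gf 3 9 y
  set e := gf 4 10 y
  nlinarith [sq_nonneg (y 0 * b - y 1 * a), sq_nonneg (y 0 * c - y 2 * a),
    sq_nonneg (y 0 * d - y 3 * a), sq_nonneg (y 0 * e - y 4 * a), sq_nonneg (y 1 * c - y 2 * b),
    sq_nonneg (y 1 * d - y 3 * b), sq_nonneg (y 1 * e - y 4 * b), sq_nonneg (y 2 * d - y 3 * c),
    sq_nonneg (y 2 * e - y 4 * c), sq_nonneg (y 3 * e - y 4 * d)]

section single
variable (t : ℝ)
theorem sm_same (i : Fin 12) : (t • EuclideanSpace.single i (1:ℝ) : E 12) i = t := by simp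
theorem sm_ne {i j : Fin 12} (h : j ≠ i) : (t • EuclideanSpace.single i (1:ℝ) : E 12) j = 0 := by
  simp [h]
end single

/-- the straight line `t e_i` -/
noncomputable def ste (i : Fin 12) (t : ℝ) : E 12 := t • EuclideanSpace.single i (1:ℝ)

theorem ste_apply (i j : Fin 12) (t : ℝ) : ste i t j = if j = i then t else 0 := by
  unfold ste
  by_cases h : j = i <;> simp [h]

section flow
variable (y : E 12) (t : ℝ)

theorem pf_flow (i : Fin 12) (hi : i < 5) : pf (exMul y (ste i t)) = pf y + 2 * t * y i + t ^ 2 := by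
  fin_cases i <;> first | exact absurd hi (by decide) | (simp [pf, ste_apply]; try ring)

theorem uf_flow (i : Fin 12) (hi : i < 5) : uf (exMul y (ste i t)) = uf y := by
  fin_cases i <;> first | exact absurd hi (by decide) | (simp [uf, ste_apply]; try ring)

theorem Gf2_flow (i : Fin 12) (hi : i < 5) : Gf2 (exMul y (ste i t)) = Gf2 y := by
  fin_cases i <;> first | exact absurd hi (by decide) | (simp [Gf2, gf, ste_apply]; try ring)

theorem Tf_flow (i : Fin 12) (hi : i < 5) : Tf (exMul y (ste i t)) = Tf y := by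
  fin_cases i <;> first | exact absurd hi (by decide) | (simp [Tf, pf, ste_apply]; try ring)

theorem coord_flow (i : Fin 12) (hi : i < 5) : exMul y (ste i t) i = y i + t := by
  fin_cases i <;> first | exact absurd hi (by decide) | (simp [ste_apply]; try ring)

theorem pf_flow5 : pf (exMul y (ste 5 t)) = pf y := by
  simp [pf, ste_apply]

theorem uf_flow5 : uf (exMul y (ste 5 t)) = uf y + t := by
  simp [uf, ste_apply]; ring

theorem Gf2_flow5 : Gf2 (exMul y (ste 5 t)) = Gf2 y + 2 * t * Xf y + t ^ 2 * pf y := by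
  simp [Gf2, Xf, pf, gf, ste_apply]; ring

theorem Xf_flow5 : Xf (exMul y (ste 5 t)) = Xf y + t * pf y := by
  simp [Xf, pf, gf, ste_apply]; ring

theorem Tf_flow5 : Tf (exMul y (ste 5 t)) = Tf y + t * pf y / 2 := by
  simp [Tf, pf, ste_apply]; ring

theorem Pf_flow (i : Fin 12) (hi : i < 5) : Pf (exMul y (ste i t)) = Pf y + 2 * t * y i + t ^ 2 := by
  unfold Pf; rw [pf_flow y t i hi, uf_flow y t i hi]; ring

theorem Pf_flow5 : Pf (exMul y (ste 5 t)) = Pf y + 2 * t * uf y + t ^ 2 := by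
  unfold Pf; rw [pf_flow5, uf_flow5]; ring
end flow

theorem hasDerivAt_quadr (a b c : ℝ) : HasDerivAt (fun t : ℝ => a + 2 * t * b + t ^ 2 * c) (2 * b) 0 := by
  have h1 : HasDerivAt (fun t : ℝ => a + 2 * t * b + t ^ 2 * c) (0 + 2 * 1 * b + (2:ℕ) * (0:ℝ) ^ (2 - 1) * 1 * c) 0 :=
    (((hasDerivAt_const (0:ℝ) a).add (((hasDerivAt_id (0:ℝ)).const_mul 2).mul_const b)).add
      (((hasDerivAt_id (0:ℝ)).pow 2).mul_const c))
  refine h1.congr_deriv ?_
  norm_num

/-- first derivatives of the barrier -/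
noncomputable def DW (i : Fin 12) (y : E 12) : ℝ :=
  if i = 5 then 2 * uf y * PhiP (Pf y) (pf y) (Gf2 y) (Tf y) + 2 * Xf y * PhiG (Pf y) +
    1 / 2 * pf y * PhiT (Pf y) (Tf y)
  else 2 * y i * (PhiP (Pf y) (pf y) (Gf2 y) (Tf y) + Phip (Pf y) (pf y))

/-- second derivatives of the barrier -/
noncomputable def D2W (i : Fin 12) (y : E 12) : ℝ :=
  if i = 5 then 2 * PhiP (Pf y) (pf y) (Gf2 y) (Tf y) +
    4 * uf y ^ 2 * PhiPP (Pf y) (pf y) (Gf2 y) (Tf y) + 8 * uf y * Xf y * PhiPG (Pf y) +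
    2 * uf y * pf y * PhiPT (Pf y) (Tf y) + 2 * pf y * PhiG (Pf y) + 1 / 4 * pf y ^ 2 * PhiTT (Pf y)
  else 2 * (PhiP (Pf y) (pf y) (Gf2 y) (Tf y) + Phip (Pf y) (pf y)) +
    4 * y i ^ 2 * (PhiPP (Pf y) (pf y) (Gf2 y) (Tf y) + 2 * PhiPp (Pf y) (pf y) +
      Phipp (Pf y) (pf y))

theorem exMul_ste_zero (y : E 12) (i : Fin 12) : exMul y (ste i 0) = y := by
  unfold ste; rw [zero_smul, exMul_zero]

section curves
variable (y : E 12)

theorem hP_lt (i : Fin 12) (hi : i < 5) :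
    HasDerivAt (fun t => Pf (exMul y (ste i t))) (2 * y i) 0 := by
  have : (fun t => Pf (exMul y (ste i t))) = fun t => Pf y + 2 * t * y i + t ^ 2 * 1 := by
    funext t; rw [Pf_flow y t i hi, mul_one]
  rw [this]; exact hasDerivAt_quadr _ _ _

theorem hp_lt (i : Fin 12) (hi : i < 5) :
    HasDerivAt (fun t => pf (exMul y (ste i t))) (2 * y i) 0 := by
  have : (fun t => pf (exMul y (ste i t))) = fun t => pf y + 2 * t * y i + t ^ 2 * 1 := by
    funext t; rw [pf_flow y t i hi, mul_one]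
  rw [this]; exact hasDerivAt_quadr _ _ _

theorem hG_lt (i : Fin 12) (hi : i < 5) :
    HasDerivAt (fun t => Gf2 (exMul y (ste i t))) 0 0 := by
  have : (fun t => Gf2 (exMul y (ste i t))) = fun _ => Gf2 y := by
    funext t; rw [Gf2_flow y t i hi]
  rw [this]; exact hasDerivAt_const _ _

theorem hT_lt (i : Fin 12) (hi : i < 5) :
    HasDerivAt (fun t => Tf (exMul y (ste i t))) 0 0 := by
  have : (fun t => Tf (exMul y (ste i t))) = fun _ => Tf y := by
    funext t; rw [Tf_flow y t i hi]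
  rw [this]; exact hasDerivAt_const _ _

theorem hc_lt (i : Fin 12) (hi : i < 5) :
    HasDerivAt (fun t => exMul y (ste i t) i) 1 0 := by
  have : (fun t => exMul y (ste i t) i) = fun t => y i + t := by
    funext t; rw [coord_flow y t i hi]
  rw [this]; exact (hasDerivAt_id _).const_add _

theorem hP_5 : HasDerivAt (fun t => Pf (exMul y (ste 5 t))) (2 * uf y) 0 := by
  have : (fun t => Pf (exMul y (ste 5 t))) = fun t => Pf y + 2 * t * uf y + t ^ 2 * 1 := by
    funext t; rw [Pf_flow5, mul_one]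
  rw [this]; exact hasDerivAt_quadr _ _ _

theorem hp_5 : HasDerivAt (fun t => pf (exMul y (ste 5 t))) 0 0 := by
  have : (fun t => pf (exMul y (ste 5 t))) = fun _ => pf y := by
    funext t; rw [pf_flow5]
  rw [this]; exact hasDerivAt_const _ _

theorem hG_5 : HasDerivAt (fun t => Gf2 (exMul y (ste 5 t))) (2 * Xf y) 0 := by
  have : (fun t => Gf2 (exMul y (ste 5 t))) = fun t => Gf2 y + 2 * t * Xf y + t ^ 2 * pf y := by
    funext t; rw [Gf2_flow5]
  rw [this]; exact hasDerivAt_quadr _ _ _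

theorem hT_5 : HasDerivAt (fun t => Tf (exMul y (ste 5 t))) (pf y / 2) 0 := by
  have : (fun t => Tf (exMul y (ste 5 t))) = fun t => Tf y + t * (pf y / 2) := by
    funext t; rw [Tf_flow5]; ring
  rw [this]
  refine (((hasDerivAt_id (0:ℝ)).mul_const (pf y / 2)).const_add (Tf y)).congr_deriv ?_
  ring

theorem hu_5 : HasDerivAt (fun t => uf (exMul y (ste 5 t))) 1 0 := by
  have : (fun t => uf (exMul y (ste 5 t))) = fun t => uf y + t := by
    funext t; rw [uf_flow5]
  rw [this]; exact (hasDerivAt_id _).const_add _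

theorem hX_5 : HasDerivAt (fun t => Xf (exMul y (ste 5 t))) (pf y) 0 := by
  have : (fun t => Xf (exMul y (ste 5 t))) = fun t => Xf y + t * pf y := by
    funext t; rw [Xf_flow5]
  rw [this]
  refine (((hasDerivAt_id (0:ℝ)).mul_const (pf y)).const_add (Xf y)).congr_deriv ?_
  ring

theorem hasDerivAt_Wf {i : Fin 12} (hi : i ≤ 5) (hp : 0 < pf y) :
    HasDerivAt (fun t => Wf (exMul y (ste i t))) (DW i y) 0 := by
  have hP := Pf_pos hp
  by_cases h5 : i = 5
  · subst h5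
    have h := hasDerivAt_Phi (hP_5 y) (hp_5 y) (hG_5 y) (hT_5 y)
      (by rw [exMul_ste_zero]; exact hP) (by rw [exMul_ste_zero]; exact hp)
    refine h.congr_deriv ?_
    simp only [exMul_ste_zero, DW, if_true]
    ring
  · have hi' : i < 5 := lt_of_le_of_ne hi h5
    have h := hasDerivAt_Phi (hP_lt y i hi') (hp_lt y i hi') (hG_lt y i hi') (hT_lt y i hi')
      (by rw [exMul_ste_zero]; exact hP) (by rw [exMul_ste_zero]; exact hp)
    refine h.congr_deriv ?_
    simp only [exMul_ste_zero, DW, if_neg h5]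
    ring

theorem hasDerivAt_DW {i : Fin 12} (hi : i ≤ 5) (hp : 0 < pf y) :
    HasDerivAt (fun t => DW i (exMul y (ste i t))) (D2W i y) 0 := by
  have hP := Pf_pos hp
  have hP0 : 0 < Pf (exMul y (ste i 0)) := by rw [exMul_ste_zero]; exact hP
  have hp0 : 0 < pf (exMul y (ste i 0)) := by rw [exMul_ste_zero]; exact hp
  by_cases h5 : i = 5
  · subst h5
    have e1 := hasDerivAt_PhiP (hP_5 y) (hp_5 y) (hG_5 y) (hT_5 y) hP0 hp0
    have e2 := hasDerivAt_PhiG (hP_5 y) hP0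
    have e3 := hasDerivAt_PhiT (hP_5 y) (hT_5 y) hP0
    have h := ((((hu_5 y).const_mul 2).mul e1).add (((hX_5 y).const_mul 2).mul e2)).add
      (((hp_5 y).const_mul (1 / 2)).mul e3)
    refine (h.congr_of_eventuallyEq (Eventually.of_forall fun t => ?_)).congr_deriv ?_
    · simp only [DW, if_true, Pi.add_apply, Pi.mul_apply]
    · simp only [exMul_ste_zero, D2W, if_true]
      ring
  · have hi' : i < 5 := lt_of_le_of_ne hi h5
    have e1 := hasDerivAt_PhiP (hP_lt y i hi') (hp_lt y i hi') (hG_lt y i hi') (hT_lt y i hi')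
      hP0 hp0
    have e2 := hasDerivAt_Phip (hP_lt y i hi') (hp_lt y i hi') hP0 hp0
    have h := ((hc_lt y i hi').const_mul 2).mul (e1.add e2)
    refine (h.congr_of_eventuallyEq (Eventually.of_forall fun t => ?_)).congr_deriv ?_
    · simp only [DW, if_neg h5, Pi.add_apply, Pi.mul_apply]
    · simp only [exMul_ste_zero, D2W, if_neg h5, Pi.add_apply]
      ring
end curves

/-- the sum of the second derivatives -/
theorem sum_D2W (y : E 12) : D2W 0 y + D2W 1 y + D2W 2 y + D2W 3 y + D2W 4 y + D2W 5 y =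
    PhiL (Pf y) (pf y) (Gf2 y) (Tf y) (uf y) (Xf y) := by
  have h0 : ((0 : Fin 12) = 5) = False := by simp
  have h1 : ((1 : Fin 12) = 5) = False := by simp
  have h2 : ((2 : Fin 12) = 5) = False := by simp
  have h3 : ((3 : Fin 12) = 5) = False := by simp
  have h4 : ((4 : Fin 12) = 5) = False := by simp
  simp only [D2W, h0, h1, h2, h3, h4, if_true, if_false, PhiL]
  have e1 : uf y ^ 2 = Pf y - pf y := by unfold Pf; ring
  have e2 : y 0 ^ 2 = pf y - y 1 ^ 2 - y 2 ^ 2 - y 3 ^ 2 - y 4 ^ 2 := by unfold pf; ring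
  rw [e1, e2]
  ring

/-- Lower bound of the sum in the region where the barrier is positive. -/
theorem sum_D2W_ge {y : E 12} (hp : 0 < pf y) (hW : 0 < Wf y) :
    -(2 * 10 ^ 5) ≤ D2W 0 y + D2W 1 y + D2W 2 y + D2W 3 y + D2W 4 y + D2W 5 y := by
  rw [sum_D2W]
  apply PhiL_ge (Pf_pos hp) hp (Gf2_nonneg y) (pf_le_Pf y) _ (Xf_sq_le y) hW
  unfold Pf
  linarith [pf_nonneg y]

theorem contDiff_pf : ContDiff ℝ ∞ pf := by
  have h := contDiff_coord
  exact (((((h 0).pow 2).add ((h 1).pow 2)).add ((h 2).pow 2)).add ((h 3).pow 2)).add ((h 4).pow 2)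

theorem contDiff_uf : ContDiff ℝ ∞ uf := (contDiff_coord 5).sub contDiff_const

theorem contDiff_Pf : ContDiff ℝ ∞ Pf := contDiff_pf.add (contDiff_uf.pow 2)

theorem contDiff_gf (j k : Fin 12) : ContDiff ℝ ∞ (gf j k) :=
  (contDiff_coord k).add (((contDiff_coord 5).mul (contDiff_coord j)).div_const 2)

theorem contDiff_Gf2 : ContDiff ℝ ∞ Gf2 := by
  have h := contDiff_gf
  exact (((((h 0 6).pow 2).add ((h 1 7).pow 2)).add ((h 2 8).pow 2)).add ((h 3 9).pow 2)).add
    ((h 4 10).pow 2)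

theorem contDiff_Xf : ContDiff ℝ ∞ Xf := by
  have h := contDiff_gf
  have g := contDiff_coord
  exact (((((g 0).mul (h 0 6)).add ((g 1).mul (h 1 7))).add ((g 2).mul (h 2 8))).add
    ((g 3).mul (h 3 9))).add ((g 4).mul (h 4 10))

theorem contDiff_Tf : ContDiff ℝ ∞ Tf := by
  have g := contDiff_coord
  exact ((g 11).add ((((((g 0).mul (g 6)).add ((g 1).mul (g 7))).add ((g 2).mul (g 8))).add
    ((g 3).mul (g 9))).add ((g 4).mul (g 10)) |>.div_const 2)).add
      (((g 5).mul contDiff_pf).div_const 6)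

theorem contDiffAt_rtPf {y : E 12} (hp : 0 < pf y) : ContDiffAt ℝ ∞ (fun y => rt (Pf y)) y := by
  exact ContDiffAt.rpow_const_of_ne contDiff_Pf.contDiffAt (Pf_pos hp).ne'

theorem contDiffAt_Wf {y : E 12} (hp : 0 < pf y) : ContDiffAt ℝ ∞ Wf y := by
  have h0 := (Pf_pos hp).ne'
  have h1 := hp.ne'
  have c1 := contDiffAt_rtPf hp
  have c2 : ContDiffAt ℝ ∞ Pf y := contDiff_Pf.contDiffAt
  have c3 : ContDiffAt ℝ ∞ pf y := contDiff_pf.contDiffAt
  have c4 : ContDiffAt ℝ ∞ Gf2 y := contDiff_Gf2.contDiffAt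
  have c5 : ContDiffAt ℝ ∞ Tf y := contDiff_Tf.contDiffAt
  unfold Wf Phi
  have k : 4 * pf y ≠ 0 := by positivity
  have k2 : Pf y ^ 2 ≠ 0 := by positivity
  exact ((c1.sub ((c2.mul c1).div (contDiffAt_const.mul c3) k)).sub
    (contDiffAt_const.mul (((c4.mul c1).div c2 h0).add (((c5.pow 2).mul c1).div (c2.pow 2) k2)))).sub
    (contDiffAt_const.mul ((c2.add c4).add (c5.pow 2)))

theorem contDiffAt_PhiP {y : E 12} (hp : 0 < pf y) :
    ContDiffAt ℝ ∞ (fun y => PhiP (Pf y) (pf y) (Gf2 y) (Tf y)) y := by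
  have h0 := (Pf_pos hp).ne'
  have h1 := hp.ne'
  have c1 := contDiffAt_rtPf hp
  have c2 : ContDiffAt ℝ ∞ Pf y := contDiff_Pf.contDiffAt
  have c3 : ContDiffAt ℝ ∞ pf y := contDiff_pf.contDiffAt
  have c4 : ContDiffAt ℝ ∞ Gf2 y := contDiff_Gf2.contDiffAt
  have c5 : ContDiffAt ℝ ∞ Tf y := contDiff_Tf.contDiffAt
  unfold PhiP
  have k : 4 * Pf y ≠ 0 := by positivity
  have k2 : Pf y ^ 2 ≠ 0 := by positivity
  have k3 : Pf y ^ 3 ≠ 0 := by positivity
  exact (((c1.div (contDiffAt_const.mul c2) k).sub (contDiffAt_const.mul (c1.div c3 h1))).add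
    (contDiffAt_const.mul ((contDiffAt_const.mul ((c4.mul c1).div (c2.pow 2) k2)).add
      (contDiffAt_const.mul (((c5.pow 2).mul c1).div (c2.pow 3) k3))))).sub contDiffAt_const

theorem contDiffAt_Phip {y : E 12} (hp : 0 < pf y) :
    ContDiffAt ℝ ∞ (fun y => Phip (Pf y) (pf y)) y := by
  have h1 := hp.ne'
  have c1 := contDiffAt_rtPf hp
  have c2 : ContDiffAt ℝ ∞ Pf y := contDiff_Pf.contDiffAt
  have c3 : ContDiffAt ℝ ∞ pf y := contDiff_pf.contDiffAt
  unfold Phip
  have k : 4 * pf y ^ 2 ≠ 0 := by positivity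
  exact (c2.mul c1).div (contDiffAt_const.mul (c3.pow 2)) k

theorem contDiffAt_PhiG {y : E 12} (hp : 0 < pf y) :
    ContDiffAt ℝ ∞ (fun y => PhiG (Pf y)) y := by
  have h0 := (Pf_pos hp).ne'
  have c1 := contDiffAt_rtPf hp
  have c2 : ContDiffAt ℝ ∞ Pf y := contDiff_Pf.contDiffAt
  unfold PhiG
  exact ((contDiffAt_const.mul (c1.div c2 h0)).neg).sub contDiffAt_const

theorem contDiffAt_PhiT {y : E 12} (hp : 0 < pf y) :
    ContDiffAt ℝ ∞ (fun y => PhiT (Pf y) (Tf y)) y := by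
  have h0 := (Pf_pos hp).ne'
  have c1 := contDiffAt_rtPf hp
  have c2 : ContDiffAt ℝ ∞ Pf y := contDiff_Pf.contDiffAt
  have c5 : ContDiffAt ℝ ∞ Tf y := contDiff_Tf.contDiffAt
  unfold PhiT
  have k2 : Pf y ^ 2 ≠ 0 := by positivity
  exact ((contDiffAt_const.mul ((c5.mul c1).div (c2.pow 2) k2)).neg).sub
    (contDiffAt_const.mul c5)

theorem contDiffAt_DW {y : E 12} (hp : 0 < pf y) (i : Fin 12) : ContDiffAt ℝ ∞ (DW i) y := by
  have c1 := contDiffAt_PhiP hp
  have c2 := contDiffAt_Phip hp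
  have c3 := contDiffAt_PhiG hp
  have c4 := contDiffAt_PhiT hp
  have c5 : ContDiffAt ℝ ∞ uf y := contDiff_uf.contDiffAt
  have c6 : ContDiffAt ℝ ∞ Xf y := contDiff_Xf.contDiffAt
  have c7 : ContDiffAt ℝ ∞ pf y := contDiff_pf.contDiffAt
  have c8 : ContDiffAt ℝ ∞ (fun y : E 12 => y i) y := (contDiff_coord i).contDiffAt
  by_cases h5 : i = 5
  · subst h5
    have e : DW 5 = fun y => 2 * uf y * PhiP (Pf y) (pf y) (Gf2 y) (Tf y) +
      2 * Xf y * PhiG (Pf y) + 1 / 2 * pf y * PhiT (Pf y) (Tf y) := by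
      funext y; simp only [DW, if_true]
    rw [e]
    exact (((contDiffAt_const.mul c5).mul c1).add ((contDiffAt_const.mul c6).mul c3)).add
      ((contDiffAt_const.mul c7).mul c4)
  · have e : DW i = fun y => 2 * y i * (PhiP (Pf y) (pf y) (Gf2 y) (Tf y) +
      Phip (Pf y) (pf y)) := by
      funext y; simp only [DW, if_neg h5]
    rw [e]
    exact (contDiffAt_const.mul c8).mul (c1.add c2)

end Pool.Agent.Carnot
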