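import Mathlib
import Pool.Agent.Carnot.ExBarrier

/-!
# Truncation of the barrier
-/

namespace Pool.Agent.Carnot

open MeasureTheory Set Filter Topology
open scoped ContDiff ENNReal NNReal

/-- smooth convex function vanishing on the negative half-line, with slope at most one -/
noncomputable def cut (s : ℝ) : ℝ := ∫ t in (0:ℝ)..s, Real.smoothTransition t

theorem hasDerivAt_cut (s : ℝ) : HasDerivAt cut (Real.smoothTransition s) s :=
  intervalIntegral.integral_hasDerivAt_right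
    (Real.smoothTransition.continuous.intervalIntegrable _ _)
    (Real.smoothTransition.continuous.stronglyMeasurableAtFilter _ _)
    Real.smoothTransition.continuous.continuousAt

theorem deriv_cut : deriv cut = Real.smoothTransition := funext fun s => (hasDerivAt_cut s).deriv

theorem contDiff_cut : ContDiff ℝ 2 cut := by
  have h : ContDiff ℝ (1 + 1) cut := by
    rw [contDiff_succ_iff_deriv]
    refine ⟨fun s => (hasDerivAt_cut s).differentiableAt, by simp, ?_⟩
    rw [deriv_cut]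
    exact (Real.smoothTransition.contDiff (n := 1))
  exact h.of_le (by norm_num)

theorem cut_of_nonpos {s : ℝ} (hs : s ≤ 0) : cut s = 0 := by
  unfold cut
  rw [intervalIntegral.integral_symm, neg_eq_zero]
  apply intervalIntegral.integral_zero_ae
  refine Eventually.of_forall fun t ht => ?_
  rw [uIoc_of_le hs] at ht
  exact Real.smoothTransition.zero_of_nonpos ht.2

theorem cut_ge (s : ℝ) : s - 1 ≤ cut s := by
  rcases le_or_gt s 1 with h | h
  · rcases le_or_gt s 0 with h0 | h0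
    · rw [cut_of_nonpos h0]; linarith
    · have : 0 ≤ cut s := by
        unfold cut
        apply intervalIntegral.integral_nonneg h0.le
        intro t _
        exact Real.smoothTransition.nonneg t
      linarith
  · have h1 : ∫ t in (1:ℝ)..s, Real.smoothTransition t = s - 1 := by
      rw [intervalIntegral.integral_congr (g := fun _ => (1:ℝ))]
      · simp
      · intro t ht
        rw [uIcc_of_le h.le] at ht
        exact Real.smoothTransition.one_of_one_le ht.1
    have h2 : cut s = (∫ t in (0:ℝ)..1, Real.smoothTransition t) +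
        ∫ t in (1:ℝ)..s, Real.smoothTransition t := by
      unfold cut
      rw [intervalIntegral.integral_add_adjacent_intervals] <;>
        exact Real.smoothTransition.continuous.intervalIntegrable _ _
    have h3 : 0 ≤ ∫ t in (0:ℝ)..1, Real.smoothTransition t :=
      intervalIntegral.integral_nonneg zero_le_one fun t _ => Real.smoothTransition.nonneg t
    rw [h2, h1]; linarith

theorem cut_nonneg (s : ℝ) : 0 ≤ cut s := by
  rcases le_or_gt s 0 with h0 | h0
  · rw [cut_of_nonpos h0]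
  · unfold cut
    apply intervalIntegral.integral_nonneg h0.le
    intro t _
    exact Real.smoothTransition.nonneg t

/-- the rescaled cut-off -/
noncomputable def cutE (ε s : ℝ) : ℝ := ε * cut ((s - ε) / ε)

theorem hasDerivAt_cutE {ε : ℝ} (hε : 0 < ε) (s : ℝ) :
    HasDerivAt (cutE ε) (Real.smoothTransition ((s - ε) / ε)) s := by
  have h1 : HasDerivAt (fun s : ℝ => (s - ε) / ε) (1 / ε) s :=
    ((hasDerivAt_id s).sub_const ε).div_const ε
  have h2 := ((hasDerivAt_cut ((s - ε) / ε)).comp s h1).const_mul ε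
  refine h2.congr_deriv ?_
  field_simp

theorem deriv_cutE {ε : ℝ} (hε : 0 < ε) :
    deriv (cutE ε) = fun s => Real.smoothTransition ((s - ε) / ε) :=
  funext fun s => (hasDerivAt_cutE hε s).deriv

theorem contDiff_cutE (ε : ℝ) : ContDiff ℝ 2 (cutE ε) := by
  unfold cutE
  exact contDiff_const.mul (contDiff_cut.comp ((contDiff_id.sub contDiff_const).div_const ε))

theorem cutE_of_le {ε s : ℝ} (hε : 0 < ε) (h : s ≤ ε) : cutE ε s = 0 := by
  unfold cutE
  rw [cut_of_nonpos, mul_zero]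
  exact div_nonpos_of_nonpos_of_nonneg (by linarith) hε.le

theorem cutE_ge {ε : ℝ} (hε : 0 < ε) (s : ℝ) : s - 2 * ε ≤ cutE ε s := by
  unfold cutE
  have h := mul_le_mul_of_nonneg_left (cut_ge ((s - ε) / ε)) hε.le
  have e : ε * ((s - ε) / ε - 1) = s - 2 * ε := by field_simp; ring
  linarith

theorem deriv_deriv_cutE_nonneg {ε : ℝ} (hε : 0 < ε) (s : ℝ) : 0 ≤ deriv (deriv (cutE ε)) s := by
  rw [deriv_cutE hε]
  apply Monotone.deriv_nonneg
  intro a b hab
  exact Real.smoothTransition.monotone (div_le_div_of_nonneg_right (by linarith) hε.le)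

namespace Sys

variable {N : ℕ} {H : Type} [NormedAddCommGroup H] [InnerProductSpace ℝ H]
  [FiniteDimensional ℝ H] (S : Sys N H)

omit [FiniteDimensional ℝ H] in
theorem fderiv_xi_of_hasDerivAt {w : E N → ℝ} {y : E N} {v : H} {d : ℝ}
    (hw : DifferentiableAt ℝ w y) (h : HasDerivAt (fun t : ℝ => w (S.T (t • v) y)) d 0) :
    fderiv ℝ w y (S.xi y v) = d := by
  have e1 : HasFDerivAt w (fderiv ℝ w y) (S.T ((0:ℝ) • v) y) := by
    rw [zero_smul, S.T_zero]; exact hw.hasFDerivAt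
  exact (e1.comp_hasDerivAt (0:ℝ) (S.hasDerivAt_T_zero v y)).unique h

omit [FiniteDimensional ℝ H] in
theorem lap_congr {ι : Type} [Fintype ι] (b : OrthonormalBasis ι ℝ H) {V W : E N → ℝ} {y : E N}
    (h : V =ᶠ[𝓝 y] W) : S.lap b V y = S.lap b W y := by
  unfold lap
  apply Finset.sum_congr rfl
  intro i _
  have h1 : fderiv ℝ V =ᶠ[𝓝 y] fderiv ℝ W := h.fderiv
  have h2 : (fun x => fderiv ℝ V x (S.xi x (b i))) =ᶠ[𝓝 y]
      (fun x => fderiv ℝ W x (S.xi x (b i))) := by
    filter_upwards [h1] with x hx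
    rw [hx]
  rw [h2.fderiv_eq]

theorem lap_comp {ι : Type} [Fintype ι] (b : OrthonormalBasis ι ℝ H) {h : ℝ → ℝ} {W : E N → ℝ}
    {y : E N} (hh : ContDiff ℝ 2 h) (hW : ContDiffAt ℝ 2 W y) :
    S.lap b (fun x => h (W x)) y = deriv (deriv h) (W y) * ∑ i, (fderiv ℝ W y (S.xi y (b i))) ^ 2 +
      deriv h (W y) * S.lap b W y := by
  unfold lap
  rw [Finset.mul_sum, Finset.mul_sum, ← Finset.sum_add_distrib]
  apply Finset.sum_congr rfl
  intro i _
  have hd : ∀ᶠ x in 𝓝 y, DifferentiableAt ℝ W x := by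
    have := (hW.of_le (by norm_num : (1 : WithTop ℕ∞) ≤ 2)).eventually (by simp)
    filter_upwards [this] with x hx
    exact hx.differentiableAt one_ne_zero
  have hh1 : Differentiable ℝ h := hh.differentiable (by norm_num)
  have e1 : (fun x => fderiv ℝ (fun x => h (W x)) x (S.xi x (b i))) =ᶠ[𝓝 y]
      fun x => deriv h (W x) * fderiv ℝ W x (S.xi x (b i)) := by
    filter_upwards [hd] with x hx
    have h3 : HasFDerivAt (fun x => h (W x)) (deriv h (W x) • fderiv ℝ W x) x :=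
      (hh1 (W x)).hasDerivAt.comp_hasFDerivAt x hx.hasFDerivAt
    rw [h3.fderiv]
    rfl
  rw [e1.fderiv_eq]
  have hh2 : ContDiff ℝ 1 (deriv h) := by
    have : ContDiff ℝ (1 + 1) h := hh.of_le (by norm_num)
    exact (contDiff_succ_iff_deriv.1 this).2.2
  have hW1 : DifferentiableAt ℝ W y := hW.differentiableAt (by norm_num)
  have hW2 : DifferentiableAt ℝ (fun x => fderiv ℝ W x (S.xi x (b i))) y := by
    have h1 : ContDiffAt ℝ 1 (fderiv ℝ W) y := hW.fderiv_right (by norm_num)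
    have h2 : ContDiffAt ℝ 1 S.xi y := (S.contDiff_xi.of_le (by norm_cast)).contDiffAt
    exact (h1.clm_apply (h2.clm_apply contDiffAt_const)).differentiableAt one_ne_zero
  have h3 : HasFDerivAt (fun x => deriv h (W x)) (deriv (deriv h) (W y) • fderiv ℝ W y) y :=
    ((hh2.differentiable one_ne_zero) (W y)).hasDerivAt.comp_hasFDerivAt y hW1.hasFDerivAt
  have h4 := h3.mul hW2.hasFDerivAt
  have h5 := h4.fderiv
  have h6 : fderiv ℝ (fun x => deriv h (W x) * fderiv ℝ W x (S.xi x (b i))) y =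
      deriv h (W y) • fderiv ℝ (fun x => fderiv ℝ W x (S.xi x (b i))) y +
        (fderiv ℝ W y (S.xi y (b i))) • deriv (deriv h) (W y) • fderiv ℝ W y := h5
  rw [h6]
  simp only [add_apply, smul_apply, smul_eq_mul]
  ring

end Sys

theorem hidx_le (i : exG.HIdx) : i.1 ≤ 5 := by
  obtain ⟨i, hi⟩ := i
  change exW i = 1 at hi
  show i ≤ 5
  fin_cases i <;> first | decide | exact absurd hi (by decide)

/-- the standard basis of the first layer -/
noncomputable def exB : OrthonormalBasis exG.HIdx ℝ exG.H := EuclideanSpace.basisFun exG.HIdx ℝ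

theorem exB_apply (i : exG.HIdx) : exB i = EuclideanSpace.single i (1:ℝ) := by
  unfold exB; simp

theorem exS_T_exB (i : exG.HIdx) (t : ℝ) (y : E 12) :
    exS.T (t • exB i) y = exMul y (ste i.1 t) := by
  rw [exB_apply]
  exact exS_T_single i.1 i.2 t y

theorem fderiv_Wf {y : E 12} (hp : 0 < pf y) (i : exG.HIdx) :
    fderiv ℝ Wf y (exS.xi y (exB i)) = DW i.1 y := by
  apply exS.fderiv_xi_of_hasDerivAt ((contDiffAt_Wf hp).differentiableAt (by simp))
  simp_rw [exS_T_exB]
  exact hasDerivAt_Wf y (hidx_le i) hp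

theorem fderiv_DW {y : E 12} (hp : 0 < pf y) (i : exG.HIdx) :
    fderiv ℝ (DW i.1) y (exS.xi y (exB i)) = D2W i.1 y := by
  apply exS.fderiv_xi_of_hasDerivAt ((contDiffAt_DW hp i.1).differentiableAt (by simp))
  simp_rw [exS_T_exB]
  exact hasDerivAt_DW y (hidx_le i) hp

theorem sum_hidx (f : Fin 12 → ℝ) : ∑ i : exG.HIdx, f i.1 = f 0 + f 1 + f 2 + f 3 + f 4 + f 5 := by
  have h : ∑ i ∈ Finset.univ.filter (fun i : Fin 12 => exG.weight i = 1), f i =
      ∑ i : exG.HIdx, f i.1 :=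
    Finset.sum_subtype _ (p := fun i => exG.weight i = 1) (by simp) f
  rw [← h, Finset.sum_filter]
  have e : ∀ i : Fin 12, (if exG.weight i = 1 then f i else 0) =
      ![f 0, f 1, f 2, f 3, f 4, f 5, 0, 0, 0, 0, 0, 0] i := by
    intro i
    fin_cases i <;> rfl
  rw [Finset.sum_congr rfl (fun i _ => e i)]
  simp [Fin.sum_univ_succ]
  ring

theorem lap_Wf {y : E 12} (hp : 0 < pf y) :
    exS.lap exB Wf y = D2W 0 y + D2W 1 y + D2W 2 y + D2W 3 y + D2W 4 y + D2W 5 y := by
  unfold Sys.lap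
  have hev : ∀ᶠ x in 𝓝 y, 0 < pf x :=
    contDiff_pf.continuous.continuousAt.eventually (lt_mem_nhds hp)
  have e : ∀ i : exG.HIdx, fderiv ℝ (fun x => fderiv ℝ Wf x (exS.xi x (exB i))) y
      (exS.xi y (exB i)) = D2W i.1 y := by
    intro i
    have h1 : (fun x => fderiv ℝ Wf x (exS.xi x (exB i))) =ᶠ[𝓝 y] DW i.1 := by
      filter_upwards [hev] with x hx
      exact fderiv_Wf hx i
    rw [h1.fderiv_eq]
    exact fderiv_DW hp i
  rw [Finset.sum_congr rfl (fun i _ => e i)]
  exact sum_hidx (fun i => D2W i y)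

/-- The truncated barrier. -/
noncomputable def Vf (ε : ℝ) (y : E 12) : ℝ := if 0 < pf y then cutE ε (Wf y) else 0

theorem pf_lb {y : E 12} {ε : ℝ} (hε : 0 < ε) (hp : 0 < pf y) (hW : ε ≤ Wf y) :
    ε ^ 4 / 4 < pf y := by
  have hP := Pf_pos hp
  have h0 : 0 < Phi (Pf y) (pf y) (Gf2 y) (Tf y) := lt_of_lt_of_le hε hW
  obtain ⟨h1, -⟩ := Phi_region hP hp (Gf2_nonneg y) h0
  have h2 : ε ≤ rt (Pf y) := by
    refine hW.trans ?_
    unfold Wf Phi
    have hR := rt_pos hP
    have a1 : 0 ≤ Pf y * rt (Pf y) / (4 * pf y) := by positivity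
    have hG := Gf2_nonneg y
    have a2 : 0 ≤ Gf2 y * rt (Pf y) / Pf y := by positivity
    have a3 : 0 ≤ Tf y ^ 2 * rt (Pf y) / Pf y ^ 2 := by positivity
    have a4 : 0 ≤ Tf y ^ 2 := sq_nonneg _
    nlinarith
  have h3 : ε ^ 4 ≤ Pf y := by
    rw [← rt_pow hP.le]
    exact pow_le_pow_left₀ hε.le h2 4
  linarith

theorem Vf_eq_zero {y : E 12} {ε : ℝ} (hε : 0 < ε) (h : pf y < ε ^ 4 / 2 / 2) : Vf ε y = 0 := by
  unfold Vf
  split_ifs with hp
  · apply cutE_of_le hε
    by_contra hcon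
    push Not at hcon
    have := pf_lb hε hp hcon.le
    linarith
  · rfl

theorem Vf_eventuallyEq {y : E 12} (ε : ℝ) (hp : 0 < pf y) :
    Vf ε =ᶠ[𝓝 y] fun x => cutE ε (Wf x) := by
  have hev : ∀ᶠ x in 𝓝 y, 0 < pf x :=
    contDiff_pf.continuous.continuousAt.eventually (lt_mem_nhds hp)
  filter_upwards [hev] with x hx
  unfold Vf
  rw [if_pos hx]

theorem Vf_eventuallyEq_zero {y : E 12} {ε : ℝ} (hε : 0 < ε) (hp : ¬ 0 < pf y) :
    Vf ε =ᶠ[𝓝 y] fun _ => 0 := by
  have h0 : pf y < ε ^ 4 / 2 / 2 := by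
    have : 0 < ε ^ 4 / 2 / 2 := by positivity
    linarith
  have hev : ∀ᶠ x in 𝓝 y, pf x < ε ^ 4 / 2 / 2 :=
    contDiff_pf.continuous.continuousAt.eventually (gt_mem_nhds h0)
  filter_upwards [hev] with x hx
  exact Vf_eq_zero hε hx

theorem contDiff_Vf {ε : ℝ} (hε : 0 < ε) : ContDiff ℝ 2 (Vf ε) := by
  rw [contDiff_iff_contDiffAt]
  intro y
  by_cases hp : 0 < pf y
  · have h1 : ContDiffAt ℝ 2 (fun x => cutE ε (Wf x)) y :=
      ((contDiff_cutE ε).contDiffAt).comp y ((contDiffAt_Wf hp).of_le (by norm_cast))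
    exact h1.congr_of_eventuallyEq (Vf_eventuallyEq ε hp)
  · exact contDiffAt_const.congr_of_eventuallyEq (Vf_eventuallyEq_zero hε hp)

theorem lap_Vf {ε : ℝ} (hε : 0 < ε) (y : E 12) : -(2 * 10 ^ 5) ≤ exS.lap exB (Vf ε) y := by
  by_cases hp : 0 < pf y
  · rw [exS.lap_congr exB (Vf_eventuallyEq ε hp)]
    rw [exS.lap_comp exB (contDiff_cutE ε) ((contDiffAt_Wf hp).of_le (by norm_cast))]
    have h1 : 0 ≤ deriv (deriv (cutE ε)) (Wf y) *
        ∑ i, (fderiv ℝ Wf y (exS.xi y (exB i))) ^ 2 :=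
      mul_nonneg (deriv_deriv_cutE_nonneg hε _) (Finset.sum_nonneg fun i _ => sq_nonneg _)
    rw [deriv_cutE hε]
    simp only
    by_cases hW : 0 < Wf y
    · have h2 := sum_D2W_ge hp hW
      rw [← lap_Wf hp] at h2
      have h3 := Real.smoothTransition.nonneg ((Wf y - ε) / ε)
      have h4 := Real.smoothTransition.le_one ((Wf y - ε) / ε)
      have h1' := h1
      rw [deriv_cutE hε] at h1'
      nlinarith
    · have h3 : Real.smoothTransition ((Wf y - ε) / ε) = 0 := by
        apply Real.smoothTransition.zero_of_nonpos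
        exact div_nonpos_of_nonpos_of_nonneg (by linarith) hε.le
      rw [h3, zero_mul, add_zero]
      have h1' := h1
      rw [deriv_cutE hε] at h1'
      linarith
  · rw [exS.lap_congr exB (Vf_eventuallyEq_zero hε hp)]
    unfold Sys.lap
    simp

/-- The centre of the ball. -/
noncomputable def exC : E 12 := vec 0 0 0 0 0 12 0 0 0 0 0 200

theorem norm_sq_sub_exC (y : E 12) : ‖y - exC‖ ^ 2 = pf y + uf y ^ 2 +
    (y 6 ^ 2 + y 7 ^ 2 + y 8 ^ 2 + y 9 ^ 2 + y 10 ^ 2) + (y 11 - 200) ^ 2 := by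
  rw [EuclideanSpace.norm_sq_eq]
  simp only [Fin.sum_univ_succ, Real.norm_eq_abs, sq_abs, PiLp.sub_apply]
  simp [exC, vec, pf, uf]
  ring

theorem mem_ball_of_pos {y : E 12} (hp : 0 < pf y) (hW : 0 < Wf y) : y ∈ Metric.ball exC 200 := by
  rw [mem_ball_iff_norm]
  apply lt_of_pow_lt_pow_left₀ 2 (by norm_num)
  rw [norm_sq_sub_exC]
  have hP := Pf_pos hp
  have hG := Gf2_nonneg y
  obtain ⟨h1, h2, h3, h4, -, -⟩ := Phi_region hP hp hG hW
  have hR := rt_pos hP
  have hR4 := rt_pow hP.le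
  have hX := Xf_sq_le y
  have hpP := pf_le_Pf y
  -- formulas
  have e1 : y 6 ^ 2 + y 7 ^ 2 + y 8 ^ 2 + y 9 ^ 2 + y 10 ^ 2 =
      Gf2 y - (12 + uf y) * Xf y + ((12 + uf y) / 2) ^ 2 * pf y := by
    unfold Gf2 Xf pf uf gf; ring
  have e2 : y 11 = Tf y - Xf y / 2 + (12 + uf y) * pf y / 12 := by
    unfold Tf Xf pf uf gf; ring
  have e3 : uf y ^ 2 = Pf y - pf y := by unfold Pf; ring
  rw [e1, e2]
  set p := pf y
  set P := Pf y
  set G := Gf2 y
  set T := Tf y
  set u := uf y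
  set X := Xf y
  set R := rt P
  -- bounds
  have hPs : P < 1 / 160000 := by
    rw [← hR4]
    calc R ^ 4 < (1 / 20) ^ 4 := pow_lt_pow_left₀ h4 hR.le (by norm_num)
      _ = 1 / 160000 := by norm_num
  have hu : |u| ≤ 1 / 400 := by
    apply abs_le_of_sq_le_sq _ (by norm_num)
    rw [e3]; norm_num; linarith
  have hXb : |X| ≤ p / 5 := by
    apply abs_le_of_sq_le_sq _ (by positivity)
    have : p * G ≤ p * (4 * p / 100) := mul_le_mul_of_nonneg_left (by linarith) hp.le
    nlinarith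
  have hTb : |T| ≤ 2 * p / 5 := by
    apply abs_le_of_sq_le_sq _ (by positivity)
    have : P ^ 2 ≤ (4 * p) ^ 2 := pow_le_pow_left₀ hP.le h1.le 2
    nlinarith
  obtain ⟨u1, u2⟩ := abs_le.1 hu
  obtain ⟨x1, x2⟩ := abs_le.1 hXb
  obtain ⟨t1, t2⟩ := abs_le.1 hTb
  have hp1 : p < 1 / 160000 := lt_of_le_of_lt hpP hPs
  have hup : |u * p| ≤ p / 400 := by
    rw [abs_mul, abs_of_pos hp]
    nlinarith
  obtain ⟨v1, v2⟩ := abs_le.1 hup
  have huX : |u * X| ≤ p / 5 := by
    rw [abs_mul]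
    calc |u| * |X| ≤ 1 * (p / 5) := mul_le_mul (by linarith) hXb (abs_nonneg _) (by norm_num)
      _ = p / 5 := by ring
  obtain ⟨w1, w2⟩ := abs_le.1 huX
  have huu : u ^ 2 * p ≤ p := by
    have : u ^ 2 ≤ 1 := by rw [e3]; linarith
    nlinarith
  set s := T - X / 2 + (12 + u) * p / 12 with hs
  have hs1 : 49 / 100 * p ≤ s := by rw [hs]; nlinarith
  have hs2 : s ≤ 2 * p := by rw [hs]; nlinarith
  have hs3 : s ^ 2 ≤ p := by
    have h5 : s ^ 2 ≤ (2 * p) ^ 2 := pow_le_pow_left₀ (by linarith [hp.le]) hs2 2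
    nlinarith
  have : (s - 200) ^ 2 = s ^ 2 - 400 * s + 200 ^ 2 := by ring
  rw [this]
  have e4 : ((12 + u) / 2) ^ 2 * p = 36 * p + 6 * (u * p) + u ^ 2 * p / 4 := by ring
  have e5 : (12 + u) * X = 12 * X + u * X := by ring
  rw [e4, e5]
  linarith

end Pool.Agent.Carnot
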