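import Mathlib
import Pool.Agent.Carnot.Linear2
import Pool.Agent.Carnot.GroupSys

/-!
# Existence of weak solutions in the linear case
-/

namespace Pool.Agent.Carnot

open MeasureTheory Set Filter Topology
open scoped ContDiff ENNReal NNReal

namespace Sys

variable {N : ℕ} {H : Type} [NormedAddCommGroup H] [InnerProductSpace ℝ H]
  [FiniteDimensional ℝ H] (S : Sys N H)

theorem ofReal_two_conj : ENNReal.ofReal ((2:ℝ) / (2 - 1)) = 2 := by norm_num

theorem ofReal_two : ENNReal.ofReal (2:ℝ) = 2 := by norm_num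

theorem setIntegral_eq_of_support {Ω : Set (E N)} (hΩ : MeasurableSet Ω) {g : E N → ℝ}
    (hg : ∀ x, x ∉ Ω → g x = 0) : ∫ x in Ω, g x = ∫ x, g x := by
  rw [← integral_indicator hΩ]
  congr 1
  funext x
  by_cases hx : x ∈ Ω
  · rw [indicator_of_mem hx]
  · rw [indicator_of_notMem hx, hg x hx]

omit [FiniteDimensional ℝ H] in
theorem fderiv_xi_support {η : E N → ℝ} (w : H) {y : E N} (hy : y ∉ tsupport η) :
    fderiv ℝ η y (S.xi y w) = 0 := by
  have : fderiv ℝ η y = 0 := by
    have h1 := support_fderiv_subset ℝ (f := η)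
    by_contra h
    exact hy (h1 h)
  rw [this]; simp

/-- A limit of gradients of test functions is a gradient in the sense of distributions. -/
theorem weak_limit {Ω : Set (E N)} (hΩ : MeasurableSet Ω) {z : E N → ℝ} {Z : E N → H}
    {ψ : ℕ → E N → ℝ} (hψ : ∀ n, IsTest Ω (ψ n))
    (hz : MemLp z 2 ((volume : Measure (E N)).restrict Ω))
    (hZ : MemLp Z 2 ((volume : Measure (E N)).restrict Ω))
    (hlim : Tendsto (fun n => eLpNorm (fun x => z x - ψ n x) 2 (volume.restrict Ω)) atTop (𝓝 0))
    (hlimg : Tendsto (fun n => eLpNorm (fun x => Z x - S.grad (ψ n) x) 2 (volume.restrict Ω))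
        atTop (𝓝 0)) {η : E N → ℝ} (hη : IsTest Ω η) (w : H) :
    ∫ x in Ω, z x * fderiv ℝ η x (S.xi x w) = - ∫ x in Ω, inner ℝ (Z x) w * η x := by
  have hη1 : ContDiff ℝ 1 η := hη.isTest1.smooth
  have c1 : Continuous (fun y => fderiv ℝ η y (S.xi y w)) :=
    (hη1.continuous_fderiv one_ne_zero).clm_apply (S.continuous_xi.clm_apply continuous_const)
  have s1 : HasCompactSupport (fun y => fderiv ℝ η y (S.xi y w)) :=
    HasCompactSupport.intro hη.compact (fun y hy => S.fderiv_xi_support w hy)
  set B1 : E N → ℝ →L[ℝ] ℝ := fun y => (fderiv ℝ η y (S.xi y w)) • ContinuousLinearMap.id ℝ ℝ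
    with hB1
  have hB1c : Continuous B1 := c1.smul continuous_const
  have hB1s : HasCompactSupport B1 := s1.smul_right
  have hB1L : MemLp B1 (ENNReal.ofReal (2 / (2 - 1))) ((volume : Measure (E N)).restrict Ω) :=
    hB1c.memLp_of_hasCompactSupport hB1s
  set B2 : E N → H →L[ℝ] ℝ := fun y => η y • (innerSL ℝ w) with hB2
  have hB2c : Continuous B2 := hη1.continuous.smul continuous_const
  have hB2s : HasCompactSupport B2 := hη.compact.smul_right
  have hB2L : MemLp B2 (ENNReal.ofReal (2 / (2 - 1))) ((volume : Measure (E N)).restrict Ω) :=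
    hB2c.memLp_of_hasCompactSupport hB2s
  have t1 := tendsto_integral_pairing (p := 2) (by norm_num) hB1L (V := z) (Vn := ψ)
    (by rw [ofReal_two]; exact hz)
    (fun n => (hψ n).smooth.continuous.memLp_of_hasCompactSupport (hψ n).compact)
    (by rw [ofReal_two]; exact hlim)
  have t2 := tendsto_integral_pairing (p := 2) (by norm_num) hB2L (V := Z)
    (Vn := fun n => S.grad (ψ n)) (by rw [ofReal_two]; exact hZ)
    (fun n => S.memLp_grad_test (hψ n) _ _) (by rw [ofReal_two]; exact hlimg)
  have e : ∀ n, ∫ x in Ω, B1 x (ψ n x) = - ∫ x in Ω, B2 x (S.grad (ψ n) x) := by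
    intro n
    have e1 : ∫ x in Ω, B1 x (ψ n x) = ∫ x, ψ n x * fderiv ℝ η x (S.xi x w) := by
      rw [← setIntegral_eq_of_support hΩ]
      · apply integral_congr_ae
        refine Eventually.of_forall fun x => ?_
        simp only [hB1, smul_apply, ContinuousLinearMap.coe_id', id, smul_eq_mul]
        ring
      · intro x hx
        rw [S.fderiv_xi_support w (fun h => hx (hη.support h)), mul_zero]
    have e2 : ∫ x in Ω, B2 x (S.grad (ψ n) x) = ∫ x, fderiv ℝ (ψ n) x (S.xi x w) * η x := by
      rw [← setIntegral_eq_of_support hΩ]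
      · apply integral_congr_ae
        refine Eventually.of_forall fun x => ?_
        simp only [hB2, smul_apply, innerSL_apply_apply, smul_eq_mul]
        rw [real_inner_comm, S.inner_grad]
        ring
      · intro x hx
        rw [image_eq_zero_of_notMem_tsupport (fun h => hx (hη.support h)), mul_zero]
    rw [e1, e2, S.integral_mul_fderiv_xi (hψ n).isTest1.smooth hη1 hη.compact w]
  have t3 := t2.neg
  have t4 : Tendsto (fun n => ∫ x in Ω, B1 x (ψ n x)) atTop (𝓝 (- ∫ x in Ω, B2 x (Z x))) := by
    refine t3.congr fun n => ?_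
    rw [e n]
  have h5 := tendsto_nhds_unique t1 t4
  have e3 : ∫ x in Ω, z x * fderiv ℝ η x (S.xi x w) = ∫ x in Ω, B1 x (z x) := by
    apply integral_congr_ae
    refine Eventually.of_forall fun x => ?_
    simp only [hB1, smul_apply, ContinuousLinearMap.coe_id', id, smul_eq_mul]
    ring
  have e4 : ∫ x in Ω, inner ℝ (Z x) w * η x = ∫ x in Ω, B2 x (Z x) := by
    apply integral_congr_ae
    refine Eventually.of_forall fun x => ?_
    simp only [hB2, smul_apply, innerSL_apply_apply, smul_eq_mul]
    rw [real_inner_comm]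
    ring
  rw [e3, e4, h5]

end Sys

namespace CarnotGroup

variable {N : ℕ} (G : CarnotGroup N)
variable (Ψ : E N ≃ E N) (h1 : ContDiff ℝ ∞ Ψ) (h2 : ContDiff ℝ ∞ Ψ.symm)
    (h3 : MeasurePreserving Ψ volume volume) (h4 : MeasurePreserving Ψ.symm volume volume)

/-- Existence of the weak solution of the linear Dirichlet problem. -/
theorem exists_isWeakSolution {Ω : Set (E N)} (hΩ : IsOpen Ω) (hb : Bornology.IsBounded Ω)
    {φ : E N → ℝ} (hφ : ContDiff ℝ ∞ φ) {v₀ : G.H} {ℓ : E N → ℝ} (hℓc : Continuous ℓ)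
    (hℓ : ∀ (t : ℝ) y, ℓ ((G.sysOf Ψ h1 h2 h3 h4).T (t • v₀) y) = ℓ y + t) :
    ∃ (u : E N → ℝ) (U : E N → G.H), G.IsWeakSolution Ψ 2 (quad G.H) Ω φ u U := by
  set S := G.sysOf Ψ h1 h2 h3 h4 with hS
  have hΩm := hΩ.measurableSet
  have hφ1 : ContDiff ℝ 1 φ := hφ.of_le (by norm_cast)
  have hφL : MemLp φ 2 ((volume : Measure (E N)).restrict Ω) :=
    memLp_of_continuous hb hΩm hφ.continuous _
  have hFL : MemLp (S.grad φ) 2 ((volume : Measure (E N)).restrict Ω) :=
    memLp_of_continuous hb hΩm (S.continuous_grad hφ1) _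
  obtain ⟨Z, ψ, hZ, hψ, hlimg, horth⟩ := S.exists_projection hFL
  obtain ⟨z, hz, hlim⟩ := S.exists_potential hℓc hℓ hb hΩm hψ hZ hlimg
  refine ⟨fun x => φ x + z x, fun x => S.grad φ x + Z x, ⟨?_, ?_, ?_⟩, ⟨ψ, hψ, ?_, ?_⟩, ?_⟩
  · rw [Sys.ofReal_two]; exact hφL.add hz
  · rw [Sys.ofReal_two]; exact hFL.add hZ
  · intro η hη i
    have hη1 : ContDiff ℝ 1 η := hη.isTest1.smooth
    set w : G.H := EuclideanSpace.single i (1:ℝ) with hw
    have c1 : Continuous (fun y => fderiv ℝ η y (S.xi y w)) :=
      (hη1.continuous_fderiv one_ne_zero).clm_apply (S.continuous_xi.clm_apply continuous_const)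
    have s1 : HasCompactSupport (fun y => fderiv ℝ η y (S.xi y w)) :=
      HasCompactSupport.intro hη.compact (fun y hy => S.fderiv_xi_support w hy)
    have c2 : Continuous (fun y => fderiv ℝ φ y (S.xi y w)) :=
      (hφ1.continuous_fderiv one_ne_zero).clm_apply (S.continuous_xi.clm_apply continuous_const)
    have hfin : IsFiniteMeasure ((volume : Measure (E N)).restrict Ω) := by
      constructor
      rw [Measure.restrict_apply_univ]
      exact hb.measure_lt_top
    have hzi : Integrable z (volume.restrict Ω) := hz.integrable (by norm_num)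
    have hZi : Integrable Z (volume.restrict Ω) := hZ.integrable (by norm_num)
    obtain ⟨C1, hC1⟩ := s1.exists_bound_of_continuous c1
    obtain ⟨C2, hC2⟩ := hη.compact.exists_bound_of_continuous hη1.continuous
    have i1 : Integrable (fun x => φ x * fderiv ℝ η x (S.xi x w)) (volume.restrict Ω) :=
      ((hφ.continuous.mul c1).integrable_of_hasCompactSupport s1.mul_left).restrict
    have i2 : Integrable (fun x => z x * fderiv ℝ η x (S.xi x w)) (volume.restrict Ω) := by
      have := hzi.bdd_mul c1.aestronglyMeasurable (Eventually.of_forall hC1)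
      refine this.congr (Eventually.of_forall fun x => ?_)
      simp only
      ring
    have i3 : Integrable (fun x => fderiv ℝ φ x (S.xi x w) * η x) (volume.restrict Ω) :=
      ((c2.mul hη1.continuous).integrable_of_hasCompactSupport hη.compact.mul_left).restrict
    have i4 : Integrable (fun x => inner ℝ (Z x) w * η x) (volume.restrict Ω) := by
      have h5 : Integrable (fun x => inner ℝ (Z x) w) (volume.restrict Ω) :=
        Integrable.inner_const (𝕜 := ℝ) hZi w
      have := h5.bdd_mul hη1.continuous.aestronglyMeasurable (Eventually.of_forall hC2)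
      refine this.congr (Eventually.of_forall fun x => ?_)
      simp only
      ring
    have e1 : ∫ x in Ω, (φ x + z x) * G.X Ψ i η x = (∫ x in Ω, φ x * fderiv ℝ η x (S.xi x w)) +
        ∫ x in Ω, z x * fderiv ℝ η x (S.xi x w) := by
      rw [← integral_add i1 i2]
      apply integral_congr_ae
      refine Eventually.of_forall fun x => ?_
      simp only
      rw [G.X_eq Ψ h1 h2 h3 h4 (hη1.differentiable one_ne_zero x) i]
      ring
    have e2 : ∫ x in Ω, (S.grad φ x + Z x) i * η x =
        (∫ x in Ω, fderiv ℝ φ x (S.xi x w) * η x) + ∫ x in Ω, inner ℝ (Z x) w * η x := by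
      rw [← integral_add i3 i4]
      apply integral_congr_ae
      refine Eventually.of_forall fun x => ?_
      simp only
      rw [← S.inner_grad, ← add_mul, ← inner_add_left, hw]
      congr 1
      simp [PiLp.inner_apply]
    rw [e1, e2, S.weak_limit hΩm hψ hz hZ hlim hlimg hη w]
    have e3 : ∫ x in Ω, φ x * fderiv ℝ η x (S.xi x w) =
        ∫ x, φ x * fderiv ℝ η x (S.xi x w) := by
      apply Sys.setIntegral_eq_of_support hΩm
      intro x hx
      rw [S.fderiv_xi_support w (fun h => hx (hη.support h)), mul_zero]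
    have e4 : ∫ x in Ω, fderiv ℝ φ x (S.xi x w) * η x =
        ∫ x, fderiv ℝ φ x (S.xi x w) * η x := by
      apply Sys.setIntegral_eq_of_support hΩm
      intro x hx
      rw [image_eq_zero_of_notMem_tsupport (fun h => hx (hη.support h)), mul_zero]
    rw [e3, e4, S.integral_mul_fderiv_xi hφ1 hη1 hη.compact w]
    ring
  · rw [Sys.ofReal_two]
    refine hlim.congr fun n => ?_
    congr 1
    funext x
    ring
  · rw [Sys.ofReal_two]
    refine hlimg.congr fun n => ?_
    congr 1
    funext x
    simp only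
    rw [G.hgrad_eq Ψ h1 h2 h3 h4 (hφ1.differentiable one_ne_zero x),
      G.hgrad_eq Ψ h1 h2 h3 h4 ((hψ n).isTest1.smooth.differentiable one_ne_zero x)]
    abel
  · intro η hη
    rw [← horth η hη]
    apply integral_congr_ae
    refine Eventually.of_forall fun x => ?_
    simp only
    rw [fderiv_quad, G.hgrad_eq Ψ h1 h2 h3 h4 (hη.isTest1.smooth.differentiable one_ne_zero x)]

/-- The distributional derivatives in all horizontal directions. -/
theorem HW.weak_all {p : ℝ} (hp : 1 < p) {Ω : Set (E N)} (hb : Bornology.IsBounded Ω)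
    {u : E N → ℝ} {U : E N → G.H} (hw : G.HW Ψ p Ω u U) :
    ∀ ψ, IsTest Ω ψ → ∀ w : G.H,
      ∫ x in Ω, u x * fderiv ℝ ψ x ((G.sysOf Ψ h1 h2 h3 h4).xi x w) =
        - ∫ x in Ω, inner ℝ (U x) w * ψ x := by
  set S := G.sysOf Ψ h1 h2 h3 h4 with hS
  have hfin : IsFiniteMeasure ((volume : Measure (E N)).restrict Ω) := by
    constructor
    rw [Measure.restrict_apply_univ]
    exact hb.measure_lt_top
  intro ψ hψ w
  have hψc : Continuous ψ := hψ.smooth.continuous
  have hui : Integrable u (volume.restrict Ω) := hw.memLp.integrable (by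
    rw [← ENNReal.ofReal_one]; exact ENNReal.ofReal_le_ofReal hp.le)
  have hUi : Integrable U (volume.restrict Ω) := hw.memLp_grad.integrable (by
    rw [← ENNReal.ofReal_one]; exact ENNReal.ofReal_le_ofReal hp.le)
  have hw' : w = ∑ i, w i • EuclideanSpace.single i (1:ℝ) := by
    ext j
    simp [Pi.single_apply]
  have e1 : ∀ x, u x * fderiv ℝ ψ x (S.xi x w) = ∑ i, w i * (u x * G.X Ψ i ψ x) := by
    intro x
    conv_lhs => rw [hw']
    rw [map_sum, map_sum, Finset.mul_sum]
    apply Finset.sum_congr rfl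
    intro i _
    rw [map_smul, map_smul, smul_eq_mul,
      G.X_eq Ψ h1 h2 h3 h4 (hψ.smooth.differentiable (by simp) x) i]
    ring
  have e2 : ∀ x, inner ℝ (U x) w * ψ x = ∑ i, w i * (U x i * ψ x) := by
    intro x
    rw [PiLp.inner_apply, Finset.sum_mul]
    apply Finset.sum_congr rfl
    intro i _
    simp only [RCLike.inner_apply, conj_trivial]
    ring
  obtain ⟨Mψ, hMψ⟩ := hψ.compact.exists_bound_of_continuous hψc
  have i1 : ∀ i, Integrable (fun x => w i * (u x * G.X Ψ i ψ x)) (volume.restrict Ω) := by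
    intro i
    apply Integrable.const_mul
    have e3 : (fun x => u x * G.X Ψ i ψ x) = fun x =>
        fderiv ℝ ψ x (S.xi x (EuclideanSpace.single i (1:ℝ))) * u x := by
      funext x
      rw [G.X_eq Ψ h1 h2 h3 h4 (hψ.smooth.differentiable (by simp) x) i, mul_comm]
    rw [e3]
    have hc : Continuous (fun x => fderiv ℝ ψ x (S.xi x (EuclideanSpace.single i (1:ℝ)))) :=
      (hψ.smooth.continuous_fderiv (by simp)).clm_apply
        (S.continuous_xi.clm_apply continuous_const)
    have hcs : HasCompactSupport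
        (fun x => fderiv ℝ ψ x (S.xi x (EuclideanSpace.single i (1:ℝ)))) :=
      HasCompactSupport.intro hψ.compact (fun y hy => S.fderiv_xi_support _ hy)
    obtain ⟨C, hC⟩ := hcs.exists_bound_of_continuous hc
    exact hui.bdd_mul hc.aestronglyMeasurable (Eventually.of_forall hC)
  have i2 : ∀ i, Integrable (fun x => w i * (U x i * ψ x)) (volume.restrict Ω) := by
    intro i
    apply Integrable.const_mul
    have e3 : (fun x => U x i * ψ x) = fun x => ψ x * U x i := by
      funext x; ring
    rw [e3]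
    have hUii : Integrable (fun x => U x i) (volume.restrict Ω) :=
      (EuclideanSpace.proj (𝕜 := ℝ) i).integrable_comp hUi
    exact hUii.bdd_mul hψc.aestronglyMeasurable (Eventually.of_forall hMψ)
  simp_rw [e1, e2]
  rw [integral_finsetSum _ (fun i _ => i1 i), integral_finsetSum _ (fun i _ => i2 i),
    ← Finset.sum_neg_distrib]
  apply Finset.sum_congr rfl
  intro i _
  rw [integral_const_mul, integral_const_mul, hw.weak ψ hψ i]
  ring

end CarnotGroup

end Pool.Agent.Carnot
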