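import Mathlib
import Pool.Agent.Carnot.ExTrunc
import Pool.Agent.Carnot.Linear3

/-!
# Unbounded horizontal gradient in exponential coordinates of the first kind
-/

namespace Pool.Agent.Carnot

open MeasureTheory Set Filter Topology
open scoped ContDiff ENNReal NNReal

/-- The domain: a Euclidean ball. -/
noncomputable def exΩ : Set (E 12) := Metric.ball exC 200

/-- The boundary datum. -/
noncomputable def exφ (y : E 12) : ℝ := y 0 ^ 2

theorem uniformlyConvex_ball {N : ℕ} (c : E N) {r : ℝ} (hr : 0 < r) :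
    UniformlyConvex (Metric.ball c r) where
  isOpen := Metric.isOpen_ball
  nonempty := ⟨c, Metric.mem_ball_self hr⟩
  bounded := Metric.isBounded_ball
  convex := convex_ball c r
  curved := by
    refine ⟨1 / (2 * r), by positivity, fun x₀ hx₀ => ⟨r⁻¹ • (x₀ - c), ?_, fun x hx => ?_⟩⟩
    · have h1 : x₀ ∈ Metric.sphere c r := Metric.frontier_ball_subset_sphere hx₀
      rw [mem_sphere_iff_norm] at h1
      rw [norm_smul, h1, Real.norm_of_nonneg (by positivity)]
      field_simp
    · have h1 : x₀ ∈ Metric.sphere c r := Metric.frontier_ball_subset_sphere hx₀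
      rw [mem_sphere_iff_norm] at h1
      have h2 : x ∈ Metric.closedBall c r := Metric.closure_ball_subset_closedBall hx
      rw [mem_closedBall_iff_norm] at h2
      rw [real_inner_smul_left]
      have e1 : x - c = (x₀ - c) - (x₀ - x) := by abel
      have e2 : ‖x - c‖ ^ 2 = ‖x₀ - c‖ ^ 2 - 2 * inner ℝ (x₀ - c) (x₀ - x) + ‖x₀ - x‖ ^ 2 := by
        rw [e1, norm_sub_sq_real]
      have e3 : ‖x - c‖ ^ 2 ≤ r ^ 2 := pow_le_pow_left₀ (norm_nonneg _) h2 2
      rw [norm_sub_rev x x₀]
      rw [h1] at e2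
      have e4 : ‖x₀ - x‖ ^ 2 ≤ 2 * inner ℝ (x₀ - c) (x₀ - x) := by linarith
      have e5 : r⁻¹ * inner ℝ (x₀ - c) (x₀ - x) =
          1 / (2 * r) * (2 * inner ℝ (x₀ - c) (x₀ - x)) := by field_simp
      rw [e5]
      exact mul_le_mul_of_nonneg_left e4 (by positivity)

theorem contDiff_exφ : ContDiff ℝ ∞ exφ := (contDiff_coord 0).pow 2

theorem exS_shift0 (t : ℝ) (y : E 12) :
    (exS.T (t • exB (hidx 0 rfl)) y) 0 = y 0 + t := by
  rw [exS_T_exB]
  exact coord_flow y t 0 (by decide)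

theorem fderiv_exφ (i : exG.HIdx) (y : E 12) :
    fderiv ℝ exφ y (exS.xi y (exB i)) = if i.1 = 0 then 2 * y 0 else 0 := by
  apply exS.fderiv_xi_of_hasDerivAt (contDiff_exφ.differentiable (by simp) y)
  simp_rw [exS_T_exB]
  by_cases h : i.1 = 0
  · rw [if_pos h, h]
    have e : (fun t : ℝ => exφ (exMul y (ste 0 t))) = fun t => y 0 ^ 2 + 2 * t * y 0 + t ^ 2 * 1 := by
      funext t
      unfold exφ
      rw [coord_flow y t 0 (by decide)]
      ring
    rw [e]
    exact hasDerivAt_quadr _ _ _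
  · rw [if_neg h]
    have e : (fun t : ℝ => exφ (exMul y (ste i.1 t))) = fun t => y 0 ^ 2 := by
      funext t
      unfold exφ
      rw [exMul_0, ste_apply, if_neg (Ne.symm h), add_zero]
    rw [e]
    exact hasDerivAt_const _ _

theorem lap_exφ (y : E 12) : exS.lap exB exφ y = 2 := by
  unfold Sys.lap
  have e : ∀ i : exG.HIdx, fderiv ℝ (fun x => fderiv ℝ exφ x (exS.xi x (exB i))) y
      (exS.xi y (exB i)) = if i.1 = 0 then 2 else 0 := by
    intro i
    have h1 : (fun x => fderiv ℝ exφ x (exS.xi x (exB i))) =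
        fun x => if i.1 = 0 then 2 * x 0 else 0 := by
      funext x; exact fderiv_exφ i x
    rw [h1]
    by_cases h : i.1 = 0
    · simp only [if_pos h]
      apply exS.fderiv_xi_of_hasDerivAt
      · exact ((contDiff_const.mul (contDiff_coord 0)).differentiable (by simp)) y
      · simp_rw [exS_T_exB, h]
        have e : (fun t : ℝ => 2 * (exMul y (ste 0 t)) 0) = fun t => 2 * (y 0 + t) := by
          funext t
          rw [coord_flow y t 0 (by decide)]
        rw [e]
        refine (((hasDerivAt_id (0:ℝ)).const_add (y 0)).const_mul 2).congr_deriv ?_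
        norm_num
    · simp [h]
  rw [Finset.sum_congr rfl (fun i _ => e i)]
  rw [sum_hidx (fun i => if i = 0 then (2:ℝ) else 0)]
  rw [if_pos rfl, if_neg (by decide : (1 : Fin 12) ≠ 0), if_neg (by decide : (2 : Fin 12) ≠ 0),
    if_neg (by decide : (3 : Fin 12) ≠ 0), if_neg (by decide : (4 : Fin 12) ≠ 0),
    if_neg (by decide : (5 : Fin 12) ≠ 0)]
  norm_num

theorem exC_0 : exC 0 = 0 := rfl

theorem abs_coord_le {y : E 12} (hy : y ∈ exΩ) : |y 0| ≤ 200 := by
  have h1 : ‖y - exC‖ < 200 := by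
    rw [← mem_ball_iff_norm]; exact hy
  have h2 : ‖(y - exC) 0‖ ≤ ‖y - exC‖ := PiLp.norm_apply_le (y - exC) 0
  rw [PiLp.sub_apply, exC_0, sub_zero, Real.norm_eq_abs] at h2
  linarith

/-- The set where the barrier is positive is contained in the domain. -/
theorem tsupport_Vf_subset {ε : ℝ} (hε : 0 < ε) :
    tsupport (Vf ε) ⊆ {y | ε ^ 4 / 4 ≤ pf y ∧ ε ≤ Wf y} := by
  apply closure_minimal
  · intro y hy
    have h1 : Vf ε y ≠ 0 := hy
    unfold Vf at h1
    split_ifs at h1 with hp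
    · have hW : ε ≤ Wf y := by
        by_contra hcon
        push Not at hcon
        exact h1 (cutE_of_le hε hcon.le)
      exact ⟨(pf_lb hε hp hW).le, hW⟩
    · exact absurd rfl h1
  · have hc : ContinuousOn Wf {y | ε ^ 4 / 4 ≤ pf y} := by
      intro y hy
      have hp : 0 < pf y := lt_of_lt_of_le (by positivity) hy
      exact (contDiffAt_Wf hp).continuousAt.continuousWithinAt
    have hcl : IsClosed {y : E 12 | ε ^ 4 / 4 ≤ pf y} :=
      isClosed_le continuous_const contDiff_pf.continuous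
    exact hc.preimage_isClosed_of_isClosed hcl isClosed_Ici

theorem tsupport_Vf_subset_exΩ {ε : ℝ} (hε : 0 < ε) : tsupport (Vf ε) ⊆ exΩ := by
  intro y hy
  obtain ⟨h1, h2⟩ := tsupport_Vf_subset hε hy
  exact mem_ball_of_pos (lt_of_lt_of_le (by positivity) h1) (lt_of_lt_of_le hε h2)

theorem hasCompactSupport_Vf {ε : ℝ} (hε : 0 < ε) : HasCompactSupport (Vf ε) := by
  apply (isCompact_closedBall exC 200).of_isClosed_subset (isClosed_tsupport _)
  exact (tsupport_Vf_subset_exΩ hε).trans Metric.ball_subset_closedBall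

theorem isOpen_barrier (c : ℝ) : IsOpen {y | 0 < pf y ∧ c < Wf y} := by
  have hc : ContinuousOn Wf {y | 0 < pf y} := by
    intro y hy
    exact (contDiffAt_Wf hy).continuousAt.continuousWithinAt
  have ho : IsOpen {y : E 12 | 0 < pf y} :=
    isOpen_lt continuous_const contDiff_pf.continuous
  exact hc.isOpen_inter_preimage ho isOpen_Ioi

/-- The points from which we look into the domain. -/
noncomputable def yr (r : ℝ) : E 12 := vec 0 0 0 0 0 (12 + r) 0 0 0 0 0 0

theorem yr_notMem {r : ℝ} (hr : 0 < r) : yr r ∉ closure exΩ := by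
  intro h
  have h2 : yr r ∈ Metric.closedBall exC 200 := Metric.closure_ball_subset_closedBall h
  rw [mem_closedBall_iff_norm] at h2
  have h3 : ‖yr r - exC‖ ^ 2 ≤ 200 ^ 2 := pow_le_pow_left₀ (norm_nonneg _) h2 2
  rw [norm_sq_sub_exC] at h3
  simp only [pf, uf, yr, vec_0, vec_1, vec_2, vec_3, vec_4, vec_5, vec_6, vec_7, vec_8, vec_9,
    vec_10, vec_11] at h3
  nlinarith [sq_pos_of_pos hr]

theorem Wf_yr (r : ℝ) (hr : 0 < r) : 0 < pf (exMul (yr r) (ste 0 r)) ∧
    Wf (exMul (yr r) (ste 0 r)) = rt (2 * r ^ 2) / 2 - 2 * 10 ^ 4 * r ^ 2 := by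
  have h0 : yr r 0 = 0 := rfl
  have e1 : pf (exMul (yr r) (ste 0 r)) = r ^ 2 := by
    rw [pf_flow _ _ 0 (by decide), h0]
    simp only [pf, yr, vec_0, vec_1, vec_2, vec_3, vec_4]
    ring
  have e2 : Pf (exMul (yr r) (ste 0 r)) = 2 * r ^ 2 := by
    rw [Pf_flow _ _ 0 (by decide), h0]
    simp only [Pf, pf, uf, yr, vec_0, vec_1, vec_2, vec_3, vec_4, vec_5]
    ring
  have e3 : Gf2 (exMul (yr r) (ste 0 r)) = 0 := by
    rw [Gf2_flow _ _ 0 (by decide)]
    simp only [Gf2, gf, yr, vec_0, vec_1, vec_2, vec_3, vec_4, vec_5, vec_6, vec_7, vec_8,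
      vec_9, vec_10]
    ring
  have e4 : Tf (exMul (yr r) (ste 0 r)) = 0 := by
    rw [Tf_flow _ _ 0 (by decide)]
    simp only [Tf, pf, yr, vec_0, vec_1, vec_2, vec_3, vec_4, vec_5, vec_6, vec_7, vec_8,
      vec_9, vec_10, vec_11]
    ring
  refine ⟨by rw [e1]; positivity, ?_⟩
  unfold Wf
  rw [e1, e2, e3, e4]
  unfold Phi
  have := hr.ne'
  field_simp
  ring

/-- Choice of the radius. -/
theorem exists_radius (M : ℝ) (hM : 0 ≤ M) :
    ∃ r : ℝ, 0 < r ∧ M * r < rt (2 * r ^ 2) / 2 - 2 * 10 ^ 4 * r ^ 2 := by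
  set K : ℝ := 2 * 10 ^ 4 + M with hK
  have hK0 : 0 < K := by positivity
  set s : ℝ := min 1 (1 / (4 * K)) with hs
  have hs0 : 0 < s := lt_min one_pos (by positivity)
  have hs1 : s ≤ 1 := min_le_left _ _
  have hs2 : K * s ≤ 1 / 4 := by
    calc K * s ≤ K * (1 / (4 * K)) := mul_le_mul_of_nonneg_left (min_le_right _ _) hK0.le
      _ = 1 / 4 := by field_simp
  set r : ℝ := Real.sqrt (s ^ 4 / 2) with hr
  have hr0 : 0 < r := Real.sqrt_pos.2 (by positivity)
  have hr2 : r ^ 2 = s ^ 4 / 2 := Real.sq_sqrt (by positivity)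
  have hrs : r ≤ s ^ 2 := by
    apply le_of_sq_le_sq _ (by positivity)
    rw [hr2]
    have : 0 < s ^ 4 := by positivity
    nlinarith
  refine ⟨r, hr0, ?_⟩
  have e1 : rt (2 * r ^ 2) = s := by
    rw [hr2]
    have : 2 * (s ^ 4 / 2) = s ^ 4 := by ring
    rw [this]
    unfold rt
    rw [← Real.rpow_natCast, ← Real.rpow_mul hs0.le]
    norm_num
  rw [e1]
  have h1 : M * r ≤ M * s ^ 2 := mul_le_mul_of_nonneg_left hrs hM
  have h2 : r ^ 2 ≤ s ^ 2 := by
    rw [hr2]
    have : s ^ 4 ≤ s ^ 2 := pow_le_pow_of_le_one hs0.le hs1 (by norm_num)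
    nlinarith [sq_nonneg s]
  have h3 : K * s ^ 2 ≤ s / 4 := by nlinarith
  have h4 : K * s ^ 2 = 2 * 10 ^ 4 * s ^ 2 + M * s ^ 2 := by rw [hK]; ring
  nlinarith

/-- The horizontal gradient of the solution is not essentially bounded. -/
theorem not_bounded {u : E 12 → ℝ} {U : E 12 → exG.H}
    (hsol : exG.IsWeakSolution (Equiv.refl _) 2 (quad exG.H) exΩ exφ u U) (M : ℝ) :
    ¬ ∀ᵐ x ∂(volume.restrict exΩ), ‖U x‖ ≤ M := by
  intro hM
  have hΩo : IsOpen exΩ := Metric.isOpen_ball
  have hΩm : MeasurableSet exΩ := hΩo.measurableSet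
  have hΩb : Bornology.IsBounded exΩ := Metric.isBounded_ball
  have hgr : ∀ {ψ : E 12 → ℝ} (y : E 12), DifferentiableAt ℝ ψ y →
      exG.hgrad (Equiv.refl _) ψ y = exS.grad ψ y := fun {ψ} y hψ =>
    exG.hgrad_eq (Equiv.refl _) contDiff_id contDiff_id (MeasurePreserving.id _)
      (MeasurePreserving.id _) hψ
  have hφ1 : ContDiff ℝ 1 exφ := contDiff_exφ.of_le (by norm_cast)
  have hφ2 : ContDiff ℝ 2 exφ := contDiff_exφ.of_le (by norm_cast)
  have hφd : ∀ y, DifferentiableAt ℝ exφ y := fun y => hφ1.differentiable one_ne_zero y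
  obtain ⟨ψ, hψ, hlim, hlimg⟩ := hsol.boundary
  rw [Sys.ofReal_two] at hlim hlimg
  have huL : MemLp u 2 ((volume : Measure (E 12)).restrict exΩ) := by
    have := hsol.hw.memLp
    rwa [Sys.ofReal_two] at this
  have hUL : MemLp U 2 ((volume : Measure (E 12)).restrict exΩ) := by
    have := hsol.hw.memLp_grad
    rwa [Sys.ofReal_two] at this
  have hφL : MemLp exφ 2 ((volume : Measure (E 12)).restrict exΩ) :=
    memLp_of_continuous hΩb hΩm hφ1.continuous _
  have hgL : MemLp (exS.grad exφ) 2 ((volume : Measure (E 12)).restrict exΩ) :=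
    memLp_of_continuous hΩb hΩm (exS.continuous_grad hφ1) _
  set z : E 12 → ℝ := fun x => u x - exφ x with hz
  set Z : E 12 → exG.H := fun x => U x - exS.grad exφ x with hZ
  have hzL : MemLp z 2 ((volume : Measure (E 12)).restrict exΩ) := huL.sub hφL
  have hZL : MemLp Z 2 ((volume : Measure (E 12)).restrict exΩ) := hUL.sub hgL
  have hlimg' : Tendsto (fun n => eLpNorm (fun x => Z x - exS.grad (ψ n) x) 2
      ((volume : Measure (E 12)).restrict exΩ)) atTop (𝓝 0) := by
    refine hlimg.congr fun n => ?_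
    congr 1
    funext x
    simp only [hZ]
    rw [hgr x (hφd x), hgr x ((hψ n).isTest1.smooth.differentiable one_ne_zero x)]
  have hfin : IsFiniteMeasure ((volume : Measure (E 12)).restrict exΩ) := by
    constructor
    rw [Measure.restrict_apply_univ]
    exact hΩb.measure_lt_top
  -- the equation, for `C¹` test functions
  have hUi : Integrable U (volume.restrict exΩ) := hUL.integrable (by norm_num)
  have hweak0 : ∀ η, IsTest1 exΩ η → ∫ x in exΩ, innerSL ℝ (U x) (exS.grad η x) = 0 := by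
    intro η hη
    apply exS.weak_test1 hΩo hΩb (B := fun x => innerSL ℝ (U x)) _ _ hη
    · exact (innerSL ℝ).integrable_comp hUi
    · intro ψ hψ
      rw [← hsol.weak ψ hψ]
      congr 1
      funext x
      rw [fderiv_quad, hgr x (hψ.smooth.differentiable (by simp) x), innerSL_apply_apply]
  have hweak : ∀ η, IsTest1 exΩ η →
      ∫ x in exΩ, inner ℝ (Z x) (exS.grad η x) = 2 * ∫ x in exΩ, η x := by
    intro η hη
    have hηg : MemLp (exS.grad η) 2 (volume.restrict exΩ) :=
      (exS.continuous_grad hη.smooth).memLp_of_hasCompactSupport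
        (exS.hasCompactSupport_grad hη.compact)
    have i1 : Integrable (fun x => inner ℝ (U x) (exS.grad η x)) (volume.restrict exΩ) :=
      integrable_inner_of_memLp hUL hηg
    have i2 : Integrable (fun x => inner ℝ (exS.grad exφ x) (exS.grad η x))
        (volume.restrict exΩ) := integrable_inner_of_memLp hgL hηg
    have e1 : ∀ x, inner ℝ (Z x) (exS.grad η x) =
        inner ℝ (U x) (exS.grad η x) - inner ℝ (exS.grad exφ x) (exS.grad η x) := by
      intro x
      rw [hZ, inner_sub_left]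
    simp_rw [e1]
    rw [integral_sub i1 i2]
    have e2 := hweak0 η hη
    simp_rw [innerSL_apply_apply] at e2
    rw [e2, zero_sub]
    have e3 : ∫ x in exΩ, inner ℝ (exS.grad exφ x) (exS.grad η x) =
        ∫ x, inner ℝ (exS.grad exφ x) (exS.grad η x) := by
      apply Sys.setIntegral_eq_of_support hΩm
      intro x hx
      rw [exS.grad_eq_zero_of_notMem (fun h => hx (hη.support h)), inner_zero_right]
    have e4 : ∫ x in exΩ, η x = ∫ x, η x := by
      apply Sys.setIntegral_eq_of_support hΩm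
      intro x hx
      exact image_eq_zero_of_notMem_tsupport (fun h => hx (hη.support h))
    rw [e3, e4, exS.integral_inner_grad exB hφ2 hη.smooth hη.compact, neg_neg]
    simp_rw [lap_exφ]
    rw [integral_const_mul]
  -- the lower bound
  have hℓc : Continuous (fun y : E 12 => y 0) := (contDiff_coord 0).continuous
  have hlow : ∀ k : ℕ, ∀ᵐ x ∂(volume.restrict exΩ),
      2 / (2 * 10 ^ 5) * Vf (1 / ((k:ℝ) + 1)) x ≤ z x := by
    intro k
    have hε : (0:ℝ) < 1 / ((k:ℝ) + 1) := by positivity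
    exact exS.lower_bound exB hℓc exS_shift0 hΩo hΩb hψ hzL hZL hlim hlimg' (by norm_num) hweak
      (contDiff_Vf hε) (hasCompactSupport_Vf hε) (tsupport_Vf_subset_exΩ hε) (by norm_num)
      (lap_Vf hε)
  have hlow2 : ∀ᵐ x ∂(volume : Measure (E 12)), x ∈ exΩ → 0 < pf x → Wf x / 10 ^ 5 ≤ z x := by
    have h1 := ae_all_iff.2 hlow
    rw [ae_restrict_iff' hΩm] at h1
    filter_upwards [h1] with x hx hxΩ hp
    have h2 := hx hxΩ
    have h3 : Tendsto (fun k : ℕ => 2 / (2 * 10 ^ 5) * (Wf x - 2 * (1 / ((k:ℝ) + 1)))) atTop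
        (𝓝 (2 / (2 * 10 ^ 5) * (Wf x - 2 * 0))) :=
      ((tendsto_one_div_add_atTop_nhds_zero_nat.const_mul 2).const_sub (Wf x)).const_mul _
    have h4 : 2 / (2 * 10 ^ 5) * (Wf x - 2 * 0) ≤ z x := by
      refine le_of_tendsto' h3 fun k => ?_
      refine le_trans ?_ (h2 k)
      have hε : (0:ℝ) < 1 / ((k:ℝ) + 1) := by positivity
      have h5 := cutE_ge hε (Wf x)
      unfold Vf
      rw [if_pos hp]
      exact mul_le_mul_of_nonneg_left h5 (by norm_num)
    calc Wf x / 10 ^ 5 = 2 / (2 * 10 ^ 5) * (Wf x - 2 * 0) := by ring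
      _ ≤ z x := h4
  -- the bound on the derivative in the direction `e₀`
  set v : exG.H := exB (hidx 0 rfl) with hv
  set M' : ℝ := max M 0 + 400 with hM'
  have hM'0 : 0 ≤ M' := by positivity
  have hZM : ∀ᵐ x ∂(volume.restrict exΩ), |inner ℝ (Z x) v| ≤ M' := by
    filter_upwards [hM, ae_restrict_mem hΩm] with x hx hxΩ
    have e1 : inner ℝ (Z x) v = inner ℝ (U x) v - 2 * x 0 := by
      simp only [hZ]
      rw [inner_sub_left, exS.inner_grad, hv, fderiv_exφ, if_pos (show (hidx 0 rfl).1 = 0 from rfl)]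
    have e2 : |inner ℝ (U x) v| ≤ M := by
      have h5 := norm_inner_le_norm (𝕜 := ℝ) (U x) v
      have h6 : ‖v‖ = 1 := by rw [hv]; exact exB.norm_eq_one _
      rw [h6, mul_one, Real.norm_eq_abs] at h5
      exact h5.trans hx
    have e3 := abs_coord_le hxΩ
    rw [e1]
    calc |inner ℝ (U x) v - 2 * x 0| ≤ |inner ℝ (U x) v| + |2 * x 0| := abs_sub _ _
      _ ≤ M + 2 * 200 := by rw [abs_mul]; norm_num; linarith
      _ ≤ M' := by rw [hM']; linarith [le_max_left M 0]
  obtain ⟨r, hr, hr2⟩ := exists_radius (10 ^ 5 * (M' + 1)) (by positivity)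
  obtain ⟨hpr, hWr⟩ := Wf_yr r hr
  -- the open set of starting points
  set c : ℝ := 10 ^ 5 * (M' + 1) * r with hc
  have hc0 : 0 < c := by positivity
  set O : Set (E 12) := (closure exΩ)ᶜ ∩ Metric.ball (yr r) 1 ∩
    (fun y => exS.T (r • v) y) ⁻¹' {y | 0 < pf y ∧ c < Wf y} with hO
  have hOo : IsOpen O := by
    refine (isClosed_closure.isOpen_compl.inter Metric.isOpen_ball).inter ?_
    exact (isOpen_barrier c).preimage (exS.contDiff_T_right _).continuous
  have hOne : (yr r) ∈ O := by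
    refine ⟨⟨yr_notMem hr, Metric.mem_ball_self one_pos⟩, ?_⟩
    show 0 < pf (exS.T (r • v) (yr r)) ∧ c < Wf (exS.T (r • v) (yr r))
    rw [hv, exS_T_exB]
    refine ⟨hpr, ?_⟩
    show c < Wf (exMul (yr r) (ste 0 r))
    rw [hWr]
    exact hr2
  have hOpos : volume O ≠ 0 := (hOo.measure_pos volume ⟨_, hOne⟩).ne'
  have hOfin : volume O ≠ ⊤ := by
    have hb1 : volume (Metric.ball (yr r) 1) < ⊤ := Metric.isBounded_ball.measure_lt_top
    apply ne_top_of_le_ne_top hb1.ne
    exact measure_mono (fun y hy => hy.1.2)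
  have hOm : MeasurableSet O := hOo.measurableSet
  have hT := exS.translation_bound hΩm hΩb hψ hzL hZL hlim hlimg' hZM hr.le O
  have hTae := (exS.mp (r • v)).quasiMeasurePreserving.ae hlow2
  have hge : ENNReal.ofReal ((M' + 1) * r) * volume O ≤
      ∫⁻ y in O, ‖exΩ.indicator z (exS.T (r • v) y) - exΩ.indicator z y‖ₑ := by
    rw [← setLIntegral_const]
    apply lintegral_mono_ae
    filter_upwards [ae_restrict_of_ae (s := O) hTae, ae_restrict_mem hOm] with y hy hyO
    obtain ⟨⟨hy1, -⟩, hy2, hy3⟩ := hyO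
    have hy4 : y ∉ exΩ := fun h => hy1 (subset_closure h)
    have hy5 : exS.T (r • v) y ∈ exΩ := mem_ball_of_pos hy2 (hc0.trans hy3)
    rw [indicator_of_mem hy5, indicator_of_notMem hy4, sub_zero]
    have hy6 := hy hy5 hy2
    have hy7 : (M' + 1) * r ≤ z (exS.T (r • v) y) := by
      refine le_trans ?_ hy6
      rw [le_div_iff₀ (by norm_num)]
      have : c < Wf (exS.T (r • v) y) := hy3
      rw [hc] at this
      linarith
    have hy8 : 0 ≤ z (exS.T (r • v) y) := le_trans (by positivity) hy7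
    rw [Real.enorm_eq_ofReal hy8]
    exact ENNReal.ofReal_le_ofReal hy7
  have hfinal := hge.trans hT
  rw [← mul_assoc, ← ENNReal.ofReal_mul hr.le] at hfinal
  have h7 := (ENNReal.mul_le_mul_iff_left hOpos hOfin).1 hfinal
  rw [ENNReal.ofReal_le_ofReal_iff (by positivity)] at h7
  nlinarith

end Pool.Agent.Carnot
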